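import Pool.Agent.P.MP_cb6780_lc.Core

set_option autoImplicit false

/-! Basic facts on `D`, `P`, `av`, `bias`. -/

namespace Pool.Agent.P.MP_cb6780_lc

open Module

theorem Av_cases (a : F) : a = 0 ∨ a = 1 := by revert a; decide

theorem chi_zero : chi 0 = 1 := by simp [chi]
theorem chi_one : chi 1 = -1 := by simp [chi]
theorem chi_add (a b : F) : chi (a + b) = chi a * chi b := by
  have h : (1 : F) + 1 = 0 := by decide
  rcases Av_cases a with rfl | rfl <;> rcases Av_cases b with rfl | rfl <;>
    simp [h, chi_zero, chi_one]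
theorem chi_sq (a : F) : chi a * chi a = 1 := by
  rcases Av_cases a with rfl | rfl <;> simp [chi_zero, chi_one]
theorem abs_chi (a : F) : |chi a| = 1 := by
  rcases Av_cases a with rfl | rfl <;> simp [chi_zero, chi_one]

section av
variable {V W : Type}
theorem av_congr (e : V ≃ W) (g : W → ℝ) : av (fun x => g (e x)) = av g := by
  unfold av
  rw [finsum_comp_equiv e, Nat.card_congr e]
theorem av_const [Finite V] [Nonempty V] (c : ℝ) : av (fun _ : V => c) = c := by
  have := Fintype.ofFinite V
  have h : (Fintype.card V : ℝ) ≠ 0 := by exact_mod_cast Fintype.card_ne_zero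
  rw [av_eq, Finset.sum_const, Finset.card_univ, nsmul_eq_mul]
  field_simp
theorem av_add [Finite V] (g h : V → ℝ) : av (fun x => g x + h x) = av g + av h := by
  have := Fintype.ofFinite V
  simp only [av_eq, Finset.sum_add_distrib, add_div]
theorem av_mul_left [Finite V] (c : ℝ) (g : V → ℝ) : av (fun x => c * g x) = c * av g := by
  have := Fintype.ofFinite V
  simp only [av_eq, ← Finset.mul_sum, mul_div_assoc]
theorem av_mono [Finite V] {g h : V → ℝ} (H : ∀ x, g x ≤ h x) : av g ≤ av h := by
  have := Fintype.ofFinite V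
  simp only [av_eq]
  exact div_le_div_of_nonneg_right (Finset.sum_le_sum fun x _ => H x) (Nat.cast_nonneg _)
theorem av_comm [Finite V] [Finite W] (g : V → W → ℝ) :
    av (fun x => av fun y => g x y) = av fun y => av fun x => g x y := by
  have := Fintype.ofFinite V
  have := Fintype.ofFinite W
  simp only [av_eq, ← Finset.sum_div]
  rw [Finset.sum_comm, div_div, div_div, mul_comm]
theorem av_prod [Finite V] [Finite W] (g : V × W → ℝ) :
    av g = av fun x => av fun y => g (x, y) := by
  have := Fintype.ofFinite V
  have := Fintype.ofFinite W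
  simp only [av_eq, ← Finset.sum_div]
  rw [Fintype.sum_prod_type, Fintype.card_prod, div_div, mul_comm]
  push_cast
  rfl
theorem abs_av_le [Finite V] (g : V → ℝ) : |av g| ≤ av fun x => |g x| := by
  have := Fintype.ofFinite V
  simp only [av_eq]
  rw [abs_div, Nat.abs_cast]
  exact div_le_div_of_nonneg_right (Finset.abs_sum_le_sum_abs _ _) (Nat.cast_nonneg _)
theorem sq_av_le [Finite V] (g : V → ℝ) : av g ^ 2 ≤ av fun x => g x ^ 2 := by
  have := Fintype.ofFinite V
  simp only [av_eq]
  simpa only [Finset.card_univ] using sum_div_card_sq_le_sum_sq_div_card (s := Finset.univ) (f := g)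
theorem exists_av_le [Finite V] [Nonempty V] (g : V → ℝ) : ∃ x, av g ≤ g x := by
  obtain ⟨x, hx⟩ := Finite.exists_max g
  exact ⟨x, (av_mono hx).trans (av_const _).le⟩
theorem exists_le_av [Finite V] [Nonempty V] (g : V → ℝ) : ∃ x, g x ≤ av g := by
  obtain ⟨x, hx⟩ := Finite.exists_min g
  exact ⟨x, (av_const (V := V) _).ge.trans (av_mono hx)⟩
theorem av_indicator [Finite V] (A : Set V) :
    av (A.indicator fun _ => (1 : ℝ)) = A.ncard / Nat.card V := by
  classical
  have := Fintype.ofFinite V
  rw [av_eq, Nat.card_eq_fintype_card, Set.ncard_eq_toFinset_card' A]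
  refine congrArg (fun r : ℝ => r / (Fintype.card V : ℝ)) ?_
  simp [Set.indicator_apply]
theorem abs_bias_le [Finite V] (f : V → F) : |bias f| ≤ 1 := by
  refine (abs_av_le _).trans ?_
  simp only [abs_chi]
  rcases isEmpty_or_nonempty V with h | h
  · simp [av]
  · exact (av_const _).le
theorem bias_zero [Finite V] [Nonempty V] : bias (0 : V → F) = 1 := by
  unfold bias
  simp only [Pi.zero_apply, chi_zero]
  exact av_const _
theorem bias_add_one [Finite V] (f : V → F) : bias (f + 1) = -bias f := by
  unfold bias
  rw [neg_eq_neg_one_mul, ← av_mul_left]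
  simp only [Pi.add_apply, Pi.one_apply, chi_add, chi_one, mul_comm]
/-- bias and weight -/
theorem bias_eq_wt [Finite V] [Nonempty V] (f : V → F) :
    bias f = 1 - 2 * ({x | f x ≠ 0}.ncard : ℝ) / Nat.card V := by
  have h : (fun x => chi (f x)) =
      fun x => 1 + (-2) * ({x | f x ≠ 0}.indicator fun _ => (1 : ℝ)) x := by
    funext x
    by_cases hx : f x = 0
    · simp [chi, hx]
    · simp [chi, hx]; norm_num
  unfold bias
  rw [h, av_add, av_const, av_mul_left, av_indicator]
  ring
theorem eq_zero_of_bias [Finite V] {f : V → F} (h : bias f = 1) : f = 0 := by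
  funext x
  have : Nonempty V := ⟨x⟩
  rw [bias_eq_wt] at h
  have h1 : (Nat.card V : ℝ) ≠ 0 := by exact_mod_cast Nat.card_pos.ne'
  have h2 : 2 * ({x | f x ≠ 0}.ncard : ℝ) / Nat.card V = 0 := by linarith
  rw [div_eq_zero_iff] at h2
  have h3 : {x | f x ≠ 0}.ncard = 0 := by
    rcases h2 with h2 | h2
    · have : ({x | f x ≠ 0}.ncard : ℝ) = 0 := by linarith
      exact_mod_cast this
    · exact absurd h2 h1
  rw [Set.ncard_eq_zero] at h3
  by_contra hx
  have : x ∈ {x | f x ≠ 0} := hx
  rw [h3] at this
  exact this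
/-- subadditivity of the weight -/
theorem bias_add_ge [Finite V] (f g : V → F) : bias f + bias g - 1 ≤ bias (f + g) := by
  rcases isEmpty_or_nonempty V with h | h
  · simp [bias, av]
  · unfold bias
    have h1 : av (fun x => chi (f x) + chi (g x)) ≤ av fun x => chi ((f + g) x) + 1 := by
      refine av_mono fun x => ?_
      rw [Pi.add_apply, chi_add]
      rcases Av_cases (f x) with h1 | h1 <;> rcases Av_cases (g x) with h2 | h2 <;>
        rw [h1, h2] <;> simp only [chi_zero, chi_one] <;> norm_num
    rw [av_add, av_add, av_const] at h1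
    linarith
end av

end Pool.Agent.P.MP_cb6780_lc
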