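import Pool.Agent.P.MP_cb6780_lc.Av

set_option autoImplicit false

namespace Pool.Agent.P.MP_cb6780_lc

open Module

section
variable {V W : Type} [AddCommGroup V] [Module F V] [AddCommGroup W] [Module F W]

theorem add_self_V (x : V) : x + x = 0 := by
  have h : (2 : F) = 0 := rfl
  rw [← two_smul F x, h, zero_smul]
theorem add_self_fun {X : Type} (f : X → F) : f + f = 0 := by
  funext x
  exact CharTwo.add_self_eq_zero (f x)
theorem card_V [Finite V] : Nat.card V = 2 ^ finrank F V := by
  have := Module.natCard_eq_pow_finrank (K := F) (V := V)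
  rwa [Nat.card_zmod] at this
theorem D_zero (f : V → F) : D 0 f = 0 := by
  funext x
  rw [D_apply, add_zero]
  exact CharTwo.add_self_eq_zero (f x)
theorem D_comm (y z : V) (f : V → F) : D y (D z f) = D z (D y f) := by
  funext x
  simp only [D_apply]
  rw [add_right_comm x y z]
  ring
theorem D_D_self (y : V) (f : V → F) : D y (D y f) = 0 := by
  funext x
  simp only [D_apply, Pi.zero_apply]
  rw [add_assoc x, add_self_V, add_zero, add_comm (f x)]
  exact CharTwo.add_self_eq_zero _
theorem D_add (y z : V) (f : V → F) : D (y + z) f = D y f + D z f + D y (D z f) := by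
  funext x
  simp only [D_apply, Pi.add_apply]
  rw [add_assoc x]
  have h : ∀ a b c d : F, a + b = c + b + (d + b) + (a + c + (d + b)) := by decide
  exact h _ _ _ _
theorem P_le_succ (d : ℕ) : P V d ≤ P V (d + 1) := by
  induction d with
  | zero => exact bot_le
  | succ d ih => exact fun f hf => mem_P_succ.2 fun y => ih (mem_P_succ.1 hf y)
theorem P_mono {d e : ℕ} (h : d ≤ e) : P V d ≤ P V e := by
  exact monotone_nat_of_le_succ (f := P V) P_le_succ h
/-- composition with an affine map -/
theorem comp_mem_P {d : ℕ} {f : V → F} (hf : f ∈ P V d) (φ : W →ₗ[F] V) (a : V) :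
    (fun w => f (φ w + a)) ∈ P W d := by
  induction d generalizing f with
  | zero =>
    rw [mem_P_zero] at hf ⊢
    subst hf
    rfl
  | succ d ih =>
    refine mem_P_succ.2 fun y => ?_
    have e : D y (fun w => f (φ w + a)) = fun w => D (φ y) f (φ w + a) := by
      funext w
      simp only [D_apply, map_add]
      rw [add_right_comm (φ w)]
    rw [e]
    exact ih (mem_P_succ.1 hf _)
theorem res_mem_P {d : ℕ} {f : V → F} (hf : f ∈ P V d) (U : Submodule F V) (a : V) :
    res U a f ∈ P U d := by
  exact comp_mem_P hf U.subtype a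
theorem basic_mul (n : ℕ) : ∀ (a b : ℕ) (f g : V → F), a + b ≤ n + 1 → f ∈ P V a → g ∈ P V b →
    f * g ∈ P V n := by
  have h0 : ∀ (m : ℕ) (f g : V → F), f ∈ P V 0 ∨ g ∈ P V 0 → f * g ∈ P V m := by
    rintro m f g (h | h) <;> rw [mem_P_zero.1 h]
    · rw [zero_mul]
      exact zero_mem _
    · rw [mul_zero]
      exact zero_mem _
  induction n with
  | zero =>
    intro a b f g hab hf hg
    rcases (by omega : a = 0 ∨ b = 0) with rfl | rfl
    · exact h0 _ _ _ (Or.inl hf)
    · exact h0 _ _ _ (Or.inr hg)
  | succ n ih =>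
    intro a b f g hab hf hg
    rcases a with _ | a
    · exact h0 _ _ _ (Or.inl hf)
    rcases b with _ | b
    · exact h0 _ _ _ (Or.inr hg)
    refine mem_P_succ.2 fun y => ?_
    have e : D y (f * g) = D y f * (fun x => g (x + y)) + f * D y g := by
      funext x
      simp only [D_apply, Pi.add_apply, Pi.mul_apply]
      have h : ∀ a b c d : F, a * b + c * d = (a + c) * b + c * (b + d) := by decide
      exact h _ _ _ _
    rw [e]
    exact add_mem (ih a (b + 1) _ _ (by omega) (mem_P_succ.1 hf y) (comp_mem_P hg LinearMap.id y))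
      (ih (a + 1) b _ _ (by omega) hf (mem_P_succ.1 hg y))
theorem mul_mem_P {d e : ℕ} {f g : V → F} (hf : f ∈ P V (d + 1)) (hg : g ∈ P V (e + 1)) :
    f * g ∈ P V (d + e + 1) := by
  exact basic_mul _ _ _ f g (by omega) hf hg
theorem mem_P_one {f : V → F} : f ∈ P V 1 ↔ ∃ c, f = fun _ => c := by
  rw [mem_P_succ]
  constructor
  · intro h
    refine ⟨f 0, funext fun y => ?_⟩
    have h1 := congrFun (mem_P_zero.1 (h y)) 0
    rw [D_apply, zero_add] at h1
    exact CharTwo.add_eq_zero.1 h1
  · rintro ⟨c, rfl⟩ y
    exact mem_P_zero.2 (funext fun _ => CharTwo.add_self_eq_zero c)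
theorem mem_P_two {f : V → F} :
    f ∈ P V 2 ↔ ∃ (l : Dual F V) (c : F), f = fun x => l x + c := by
  rw [mem_P_succ]
  constructor
  · intro h
    have h1 : ∀ x y, f (x + y) + f 0 = f x + f 0 + (f y + f 0) := by
      intro x y
      obtain ⟨c, hc⟩ := mem_P_one.1 (h y)
      have h2 := (congrFun hc x).trans (congrFun hc 0).symm
      simp only [D_apply, zero_add] at h2
      have h3 : ∀ a b c d : F, a + b = c + d → a + d = b + d + (c + d) := by decide
      exact h3 _ _ _ _ h2
    refine ⟨(AddMonoidHom.mk' (fun x => f x + f 0) h1).toZModLinearMap 2, f 0, funext fun x => ?_⟩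
    have h3 : ∀ a b : F, a = a + b + b := by decide
    exact h3 _ _
  · rintro ⟨l, c, rfl⟩ y
    refine mem_P_one.2 ⟨l y, funext fun x => ?_⟩
    simp only [D_apply, map_add]
    have h3 : ∀ a b c : F, a + b + c + (a + c) = b := by decide
    exact h3 _ _ _
theorem dual_mem_P (l : Dual F V) : (fun x => l x) ∈ P V 2 := by
  exact mem_P_two.2 ⟨l, 0, funext fun x => (add_zero _).symm⟩
theorem bias_transl [Finite V] (f : V → F) (a : V) : bias (fun x => f (x + a)) = bias f := by
  exact av_congr (Equiv.addRight a) fun x => chi (f x)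
theorem bias_eq_zero_of_D [Finite V] {f : V → F} {y : V} (h : D y f = 1) : bias f = 0 := by
  have h1 : (fun x => f (x + y)) = f + 1 := by
    funext x
    have h2 : f (x + y) + f x = 1 := congrFun h x
    have h3 : ∀ a b : F, a + b = 1 → a = b + 1 := by decide
    exact h3 _ _ h2
  have h4 := bias_transl f y
  rw [h1, bias_add_one] at h4
  linarith
theorem bias_dual [Finite V] {l : Dual F V} (hl : l ≠ 0) (c : F) :
    bias (fun x => l x + c) = 0 := by
  obtain ⟨y, hy⟩ := DFunLike.ne_iff.1 hl
  refine bias_eq_zero_of_D (y := y) (funext fun x => ?_)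
  simp only [D_apply, map_add, Pi.one_apply]
  have h3 : ∀ a b c : F, b ≠ 0 → a + b + c + (a + c) = 1 := by decide
  exact h3 _ _ _ hy
theorem bias_sq [Finite V] (f : V → F) : bias f ^ 2 = av fun y => bias (D y f) := by
  have h1 : ∀ x, (av fun y => chi (D y f x)) = bias f * chi (f x) := by
    intro x
    simp only [D_apply, chi_add, mul_comm _ (chi (f x)), add_comm x]
    rw [av_mul_left]
    exact congrArg _ (bias_transl f x)
  unfold bias at h1 ⊢
  rw [av_comm fun y x => chi (D y f x), funext h1, av_mul_left, sq]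
theorem bias_D_ge [Finite V] (f : V → F) (y : V) : 2 * bias f - 1 ≤ bias (D y f) := by
  have h := bias_add_ge (fun x => f (x + y)) f
  rw [bias_transl] at h
  exact le_trans (le_of_eq (by ring)) h
theorem basic_const [Finite V] {f : V → F} (hf : f ∈ P V 1) (h0 : f ≠ 0) : bias f = -1 := by
  obtain ⟨c, rfl⟩ := mem_P_one.1 hf
  have h1 : c = 1 := by
    have h3 : ∀ a : F, a ≠ 0 → a = 1 := by decide
    exact h3 c fun h => h0 (funext fun _ => h)
  unfold bias
  rw [av_const, h1, chi_one]
/-- minimum distance (induction on `d`: if `f` is not constant, some `D y f` is nonzero and has at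
most twice the weight) -/
theorem min_dist [Finite V] {d : ℕ} {f : V → F} (hf : f ∈ P V (d + 1)) (h0 : f ≠ 0) :
    bias f ≤ 1 - 2 / 2 ^ d := by
  induction d generalizing f with
  | zero =>
    rw [basic_const hf h0]
    norm_num
  | succ d ih =>
    have e : (2 : ℝ) / 2 ^ d = 2 * (2 / 2 ^ (d + 1)) := by
      rw [pow_succ]
      field_simp
    by_cases h : ∃ y, D y f ≠ 0
    · obtain ⟨y, hy⟩ := h
      have h1 := (bias_D_ge f y).trans (ih (mem_P_succ.1 hf y) hy)
      linarith
    · rw [basic_const (mem_P_succ.2 fun y => mem_P_zero.2 (not_not.1 fun hy => h ⟨y, hy⟩)) h0]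
      have h2 : (2 : ℝ) / 2 ^ (d + 1) ≤ 2 := div_le_self zero_le_two (one_le_pow₀ one_le_two)
      linarith
/-- Parseval over the linear functions -/
theorem av_bias_sq_dual [Finite V] (g : V → F) :
    av (fun l : Dual F V => bias (g + fun x => l x) ^ 2) = 1 / Nat.card V := by
  have : Finite (Dual F V) := DFunLike.finite _
  have h1 : ∀ (l : Dual F V) (y : V),
      bias (D y (g + fun x => l x)) = bias (D y g) * chi (l y) := by
    intro l y
    have e : ∀ x, chi (D y (g + fun x => l x) x) = chi (l y) * chi (D y g x) := by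
      intro x
      rw [← chi_add]
      simp only [D_apply, Pi.add_apply, map_add]
      have h3 : ∀ a b c d : F, a + (b + c) + (d + b) = c + (a + d) := by decide
      rw [h3]
    unfold bias
    rw [funext e, av_mul_left, mul_comm]
  have h2 : ∀ y : V, (av fun l : Dual F V => bias (D y g) * chi (l y)) =
      ({0} : Set V).indicator (fun _ => (1 : ℝ)) y := by
    intro y
    rw [av_mul_left]
    by_cases hy : y = 0
    · subst hy
      simp only [D_zero, bias_zero, map_zero, chi_zero, av_const]
      simp
    · have h4 : Dual.eval F V y ≠ 0 := fun h => hy ((eval_apply_eq_zero_iff F y).1 h)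
      have h5 := bias_dual h4 0
      simp only [add_zero, Dual.eval_apply] at h5
      unfold bias at h5
      rw [h5, mul_zero, Set.indicator_of_notMem (s := {0}) hy]
  simp only [bias_sq, h1]
  rw [av_comm fun (l : Dual F V) y => bias (D y g) * chi (l y), funext h2, av_indicator]
  simp
end

end Pool.Agent.P.MP_cb6780_lc
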