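import Pool.Agent.P.MP_cb6780_lc.Basic

set_option autoImplicit false

/-! Size of `P V d`, the bridge to polynomials, subspace counts. -/

namespace Pool.Agent.P.MP_cb6780_lc

open Module

/-- inclusion of the hyperplane `x 0 = 0` -/
def Card_inc (m : ℕ) : (Fin m → F) →ₗ[F] (Fin (m + 1) → F) where
  toFun x := Fin.cons 0 x
  map_add' x y := by funext i; cases i using Fin.cases <;> simp
  map_smul' a x := by funext i; cases i using Fin.cases <;> simp

/-- forgetting the first coordinate -/
def Card_tl (m : ℕ) : (Fin (m + 1) → F) →ₗ[F] (Fin m → F) where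
  toFun x := fun i => x i.succ
  map_add' _ _ := rfl
  map_smul' _ _ := rfl

/-- gluing -/
def Card_glue {m : ℕ} (g q : (Fin m → F) → F) : (Fin (m + 1) → F) → F :=
  fun x => g (Card_tl m x) + x 0 * q (Card_tl m x)

/-- the first part -/
def Card_fst {m : ℕ} (f : (Fin (m + 1) → F) → F) : (Fin m → F) → F := fun x => f (Card_inc m x)

/-- the second part -/
def Card_snd {m : ℕ} (f : (Fin (m + 1) → F) → F) : (Fin m → F) → F :=
  fun x => D (Pi.single 0 1) f (Card_inc m x)

theorem Card_tl_inc {m : ℕ} (x : Fin m → F) : Card_tl m (Card_inc m x) = x := by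
  funext i; simp [Card_tl, Card_inc]

theorem Card_tl_inc' {m : ℕ} (x : Fin m → F) :
    Card_tl m (Card_inc m x + Pi.single 0 1) = x := by
  funext i; simp [Card_tl, Card_inc]

theorem Card_inc_zero {m : ℕ} (x : Fin m → F) : Card_inc m x 0 = 0 := by simp [Card_inc]

theorem Card_two (a : F) : a + a = 0 := by revert a; decide

theorem Card_glue_eq {m : ℕ} (f : (Fin (m + 1) → F) → F) :
    Card_glue (Card_fst f) (Card_snd f) = f := by
  funext x
  have h : ∀ a : F, a = 0 ∨ a = 1 := by decide
  simp only [Card_glue, Card_fst, Card_snd, D_apply]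
  rcases h (x 0) with h0 | h0
  · have e : Card_inc m (Card_tl m x) = x := by
      funext i; cases i using Fin.cases <;> simp [Card_tl, Card_inc, h0]
    rw [h0, e]; ring
  · have e : Card_inc m (Card_tl m x) + Pi.single 0 1 = x := by
      funext i; cases i using Fin.cases <;> simp [Card_tl, Card_inc, h0]
    rw [h0, e]
    linear_combination Card_two (f (Card_inc m (Card_tl m x)))

theorem Card_fst_glue {m : ℕ} (g q : (Fin m → F) → F) : Card_fst (Card_glue g q) = g := by
  funext x
  simp only [Card_glue, Card_fst, Card_tl_inc, Card_inc_zero]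
  ring

theorem Card_snd_glue {m : ℕ} (g q : (Fin m → F) → F) : Card_snd (Card_glue g q) = q := by
  funext x
  simp only [Card_glue, Card_snd, D_apply, Card_tl_inc, Card_tl_inc', Card_inc_zero, Pi.add_apply,
    Pi.single_eq_same]
  linear_combination Card_two (g x)

theorem Card_comp {V W : Type} [AddCommGroup V] [Module F V] [AddCommGroup W] [Module F W]
    {d : ℕ} {f : V → F} (hf : f ∈ P V d) (φ : W →ₗ[F] V) : (fun w => f (φ w)) ∈ P W d := by
  simpa using comp_mem_P hf φ 0

theorem Card_fst_mem {m d : ℕ} {f : (Fin (m + 1) → F) → F} (hf : f ∈ P _ d) :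
    Card_fst f ∈ P _ d := Card_comp hf (Card_inc m)

theorem Card_snd_mem {m d : ℕ} {f : (Fin (m + 1) → F) → F} (hf : f ∈ P _ (d + 1)) :
    Card_snd f ∈ P _ d := Card_comp (mem_P_succ.1 hf _) (Card_inc m)

theorem Card_coord {m : ℕ} (i : Fin m) : (fun x : Fin m → F => x i) ∈ P (Fin m → F) (1 + 1) :=
  dual_mem_P (LinearMap.proj i : (Fin m → F) →ₗ[F] F)

theorem Card_glue_mem {m d : ℕ} {g q : (Fin m → F) → F} (hg : g ∈ P _ (d + 1)) (hq : q ∈ P _ d) :
    Card_glue g q ∈ P _ (d + 1) := by
  have h1 := Card_comp hg (Card_tl m)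
  have h2 := Card_comp hq (Card_tl m)
  have h3 : ((fun x : Fin (m + 1) → F => x 0) * fun w => q (Card_tl m w)) ∈ P _ (d + 1) := by
    cases d with
    | zero =>
      rw [mem_P_zero.1 h2, mul_zero]
      exact zero_mem _
    | succ d =>
      have := mul_mem_P (Card_coord 0) h2
      rwa [add_comm 1 d] at this
  exact add_mem h1 h3

theorem cP_succ (n d : ℕ) : cP (n + 1) (d + 1) = cP n (d + 1) * cP n d := by
  rw [cP, cP, cP, ← pow_add]
  congr 1
  induction d with
  | zero => simp
  | succ d ih =>
    rw [Finset.sum_range_succ, ih, Finset.sum_range_succ _ (d + 1), Finset.sum_range_succ _ d,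
      Nat.choose_succ_succ']
    ring

theorem Card_std (n : ℕ) : ∀ d, Nat.card (P (Fin n → F) d) = cP n d := by
  have z : ∀ n, Nat.card (P (Fin n → F) 0) = cP n 0 := fun n => by simp [P, cP]
  induction n with
  | zero =>
    intro d
    cases d with
    | zero => exact z 0
    | succ d =>
      have e : P (Fin 0 → F) (d + 1) = ⊤ := by
        refine eq_top_iff.2 fun f _ => P_mono (by omega : 1 ≤ d + 1) (mem_P_one.2 ⟨f 0, ?_⟩)
        funext x
        rw [Subsingleton.elim x 0]
      rw [e, Nat.card_congr (Submodule.topEquiv (R := F) (M := (Fin 0 → F) → F)).toEquiv, cP,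
        Finset.sum_range_succ']
      simp
  | succ n ih =>
    intro d
    cases d with
    | zero => exact z _
    | succ d =>
      rw [cP_succ, ← ih, ← ih, ← Nat.card_prod]
      exact Nat.card_congr
        { toFun := fun f => (⟨_, Card_fst_mem f.2⟩, ⟨_, Card_snd_mem f.2⟩)
          invFun := fun p => ⟨_, Card_glue_mem p.1.2 p.2.2⟩
          left_inv := fun f => Subtype.ext (Card_glue_eq f.1)
          right_inv := fun p => Prod.ext (Subtype.ext (Card_fst_glue _ _))
            (Subtype.ext (Card_snd_glue _ _)) }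

/-- `|P V d| = 2 ^ (sum_{i<d} C(n,i))`.  Induction on `n` for all `d`: for `V = W × F`,
`f ↦ (f (·,0), f (·,1) + f (·,0))` is a bijection `P V (d+1) → P W (d+1) × P W d`
(inverse `(g,q) ↦ g + x q`, use `mul_mem_P`, `comp_mem_P`). -/
theorem card_P (V : Type) [AddCommGroup V] [Module F V] [Finite V] (d : ℕ) :
    Nat.card (P V d) = cP (finrank F V) d := by
  let e := (Module.finBasis F V).equivFun
  rw [← Card_std]
  exact Nat.card_congr
    { toFun := fun f => ⟨_, Card_comp f.2 e.symm.toLinearMap⟩
      invFun := fun f => ⟨_, Card_comp f.2 e.toLinearMap⟩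
      left_inv := fun f => Subtype.ext (by funext x; simp)
      right_inv := fun f => Subtype.ext (by funext x; simp) }

theorem Card_pow {m : ℕ} (i : Fin m) (k : ℕ) :
    (fun x : Fin m → F => x i ^ k) ∈ P (Fin m → F) (k + 1) := by
  induction k with
  | zero => exact mem_P_one.2 ⟨1, by simp⟩
  | succ k ih =>
    have := mul_mem_P ih (Card_coord i)
    have e : ((fun x : Fin m → F => x i ^ k) * fun x => x i) = fun x => x i ^ (k + 1) := by
      funext x; simp [pow_succ]
    rwa [e] at this

theorem Card_mon {m : ℕ} (s : Fin m → ℕ) (t : Finset (Fin m)) :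
    (fun x : Fin m → F => ∏ i ∈ t, x i ^ s i) ∈ P (Fin m → F) (∑ i ∈ t, s i + 1) := by
  induction t using Finset.induction_on with
  | empty => exact mem_P_one.2 ⟨1, by simp⟩
  | insert a t ha ih =>
    have := mul_mem_P (Card_pow a (s a)) ih
    have e : ((fun x : Fin m → F => x a ^ s a) * fun x => ∏ i ∈ t, x i ^ s i) =
        fun x => ∏ i ∈ insert a t, x i ^ s i := by
      funext x; simp [Finset.prod_insert ha]
    rwa [e, ← Finset.sum_insert ha] at this

theorem Card_poly (m : ℕ) : ∀ (d : ℕ) (f : (Fin m → F) → F), f ∈ P (Fin m → F) (d + 1) →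
    ∃ p : MvPolynomial (Fin m) F, p.totalDegree ≤ d ∧ ∀ x, f x = MvPolynomial.eval x p := by
  induction m with
  | zero =>
    intro d f _
    exact ⟨MvPolynomial.C (f 0), by simp, fun x => by rw [Subsingleton.elim x 0]; simp⟩
  | succ m ih =>
    intro d f hf
    obtain ⟨p, p1, p2⟩ := ih d _ (Card_fst_mem hf)
    have hq := Card_snd_mem hf
    have key : ∀ q : MvPolynomial (Fin m) F, (∀ x, Card_snd f x = MvPolynomial.eval x q) → ∀ x,
        f x = MvPolynomial.eval x (MvPolynomial.rename Fin.succ p +
          MvPolynomial.X 0 * MvPolynomial.rename Fin.succ q) := fun q hq x => by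
      rw [map_add, map_mul, MvPolynomial.eval_X, MvPolynomial.eval_rename, MvPolynomial.eval_rename,
        ← p2, ← hq]
      exact (congrFun (Card_glue_eq f) x).symm
    have r1 := (MvPolynomial.totalDegree_rename_le Fin.succ p).trans p1
    cases d with
    | zero =>
      refine ⟨_, ?_, key 0 fun x => by rw [mem_P_zero.1 hq]; simp⟩
      simpa using r1
    | succ d =>
      obtain ⟨q, q1, q2⟩ := ih d _ hq
      refine ⟨_, (MvPolynomial.totalDegree_add _ _).trans (max_le r1 ?_), key q q2⟩
      refine (MvPolynomial.totalDegree_mul _ _).trans ?_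
      have r2 := (MvPolynomial.totalDegree_rename_le Fin.succ q).trans q1
      rw [MvPolynomial.totalDegree_X]
      omega

/-- degree by derivatives = degree of a polynomial.  (`←`: monomials by `mul_mem_P`;
`→`: induction on `m` as in `card_P`, `f = g + x_0 q`.) -/
theorem mem_P_iff_poly {m d : ℕ} (f : (Fin m → F) → F) :
    f ∈ P (Fin m → F) (d + 1) ↔
      ∃ p : MvPolynomial (Fin m) F, p.totalDegree ≤ d ∧ ∀ x, f x = MvPolynomial.eval x p := by
  refine ⟨Card_poly m d f, ?_⟩
  rintro ⟨p, p1, p2⟩
  have e : f = ∑ s ∈ p.support, p.coeff s • fun x : Fin m → F => ∏ i, x i ^ s i := by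
    funext x
    rw [p2, MvPolynomial.eval_eq', Finset.sum_apply]
    rfl
  rw [e]
  refine Submodule.sum_mem _ fun s hs => Submodule.smul_mem _ _ (P_mono ?_ (Card_mon s Finset.univ))
  have := (MvPolynomial.le_totalDegree hs).trans p1
  rw [Finsupp.sum_fintype _ _ fun _ => rfl] at this
  omega

theorem cP_add (n c d : ℕ) :
    cP (n + c) (d + 1) = cP n (d + 1) * ∏ i ∈ Finset.range c, cP (n + i) d := by
  induction c with
  | zero => simp
  | succ c ih => rw [← add_assoc, cP_succ, ih, Finset.prod_range_succ, mul_assoc]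

theorem cP_pos (n d : ℕ) : 0 < cP n d := by
  unfold cP
  positivity

theorem Card_li (X : Type) [AddCommGroup X] [Module F X] [Finite X] {c : ℕ}
    (hc : c ≤ finrank F X) :
    (Nat.card {s : Fin c → X // LinearIndependent F s} : ℝ) =
      ∏ i ∈ Finset.range c, ((2 : ℝ) ^ finrank F X - 2 ^ i) := by
  rw [card_linearIndependent hc, ← Fin.prod_univ_eq_prod_range fun i => (2 : ℝ) ^ finrank F X - 2 ^ i,
    Nat.cast_prod]
  refine Finset.prod_congr rfl fun i _ => ?_
  have h2 : Fintype.card F = 2 := ZMod.card 2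
  rw [h2, Nat.cast_sub (Nat.pow_le_pow_right (by norm_num) (i.2.le.trans hc))]
  simp

theorem Card_gauss (X : Type) [AddCommGroup X] [Module F X] [Finite X] {c : ℕ}
    (hc : c ≤ finrank F X) :
    (Nat.card {Z : Submodule F X // finrank F Z = c} : ℝ) *
        ∏ i ∈ Finset.range c, ((2 : ℝ) ^ c - 2 ^ i) =
      ∏ i ∈ Finset.range c, ((2 : ℝ) ^ finrank F X - 2 ^ i) := by
  classical
  let φ : {s : Fin c → X // LinearIndependent F s} → {Z : Submodule F X // finrank F Z = c} :=
    fun s => ⟨Submodule.span F (Set.range s.1), by rw [finrank_span_eq_card s.2]; simp⟩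
  have fib : ∀ Z : {Z : Submodule F X // finrank F Z = c},
      (Nat.card {s // φ s = Z} : ℝ) = ∏ i ∈ Finset.range c, ((2 : ℝ) ^ c - 2 ^ i) := by
    rintro ⟨Z, hZ⟩
    have h1 := Card_li Z hZ.ge
    rw [hZ] at h1
    rw [← h1]
    have mem : ∀ s : {s // φ s = ⟨Z, hZ⟩}, ∀ i, s.1.1 i ∈ Z := fun s i => by
      have e : Submodule.span F (Set.range s.1.1) = Z := congrArg Subtype.val s.2
      exact e.le (Submodule.subset_span ⟨i, rfl⟩)
    have li : ∀ t : {t : Fin c → Z // LinearIndependent F t},
        LinearIndependent F (Z.subtype ∘ t.1) := fun t => t.2.map' _ Z.ker_subtype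
    have sp : ∀ t : {t : Fin c → Z // LinearIndependent F t}, φ ⟨_, li t⟩ = ⟨Z, hZ⟩ := fun t => by
      refine Subtype.ext (Submodule.eq_of_le_of_finrank_eq ?_ ((φ ⟨_, li t⟩).2.trans hZ.symm))
      refine Submodule.span_le.2 ?_
      rintro _ ⟨i, rfl⟩
      exact (t.1 i).2
    refine congrArg _ (Nat.card_congr
      { toFun := fun s => ⟨fun i => ⟨s.1.1 i, mem s i⟩, LinearIndependent.of_comp Z.subtype s.1.2⟩
        invFun := fun t => ⟨⟨_, li t⟩, sp t⟩
        left_inv := fun s => rfl
        right_inv := fun t => rfl })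
  have := Fintype.ofFinite {Z : Submodule F X // finrank F Z = c}
  rw [← Card_li X hc, ← Nat.card_congr (Equiv.sigmaFiberEquiv φ), Nat.card_sigma, Nat.cast_sum,
    Finset.sum_congr rfl fun Z _ => fib Z]
  simp

/-- Gaussian binomial: count linearly independent `c`-tuples in the dual space
(`card_linearIndependent`) by their span, which is the annihilator of a unique subspace of
codimension `c`.  For `c > m` both sides vanish. -/
theorem G_mul (V : Type) [AddCommGroup V] [Module F V] [Finite V] (c : ℕ) :
    (G V c : ℝ) * ∏ i ∈ Finset.range c, ((2 : ℝ) ^ c - 2 ^ i) =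
      ∏ i ∈ Finset.range c, ((2 : ℝ) ^ finrank F V - 2 ^ i) := by
  rcases le_or_gt c (finrank F V) with hc | hc
  · have : Finite (Dual F V) := Module.finite_of_finite F
    have hd : finrank F (Dual F V) = finrank F V := Subspace.dual_finrank_eq
    rw [← hd] at hc
    rw [← hd, ← Card_gauss _ hc, G, ← Nat.card_coe_set_eq]
    have r := fun W : Submodule F V => Subspace.finrank_add_finrank_dualAnnihilator_eq W
    refine congrArg (fun n : ℕ => (n : ℝ) * _) (Nat.card_eq_of_bijective
      (fun W => ⟨W.1.dualAnnihilator, by have := r W.1; have := W.2.out; omega⟩) ⟨?_, ?_⟩)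
    · intro W W' h
      exact Subtype.ext (Subspace.dualAnnihilator_inj.1 (congrArg Subtype.val h))
    · rintro ⟨Z, hZ⟩
      have e : Z.dualCoannihilator.dualAnnihilator = Z :=
        Subspace.dualCoannihilator_dualAnnihilator_eq
      refine ⟨⟨Z.dualCoannihilator, ?_⟩, Subtype.ext e⟩
      have := r Z.dualCoannihilator
      rw [e, hZ] at this
      exact this
  · have e : {W : Submodule F V | finrank F W + c = finrank F V} = ∅ :=
      Set.eq_empty_of_forall_notMem fun W h => by have := h.out; omega
    rw [G, e, Finset.prod_eq_zero (f := fun i => (2 : ℝ) ^ finrank F V - 2 ^ i)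
      (Finset.mem_range.2 hc) (sub_self _)]
    simp

end Pool.Agent.P.MP_cb6780_lc
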