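import Mathlib

set_option autoImplicit false

/-! Boolean functions on a finite `F_2`-space: derivatives, degree filtration, bias. -/

namespace Pool.Agent.P.MP_cb6780_lc

open Module

abbrev F := ZMod 2

section
variable {V : Type} [AddCommGroup V]

/-- additive derivative in direction `y` -/
def D (y : V) : (V → F) →ₗ[F] (V → F) where
  toFun f := fun x => f (x + y) + f x
  map_add' f g := by funext x; simp only [Pi.add_apply]; ring
  map_smul' a f := by funext x; simp only [Pi.smul_apply, smul_eq_mul, RingHom.id_apply]; ring

theorem D_apply (y : V) (f : V → F) (x : V) : D y f x = f (x + y) + f x := rfl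

/-- `P V d` = functions of degree `< d` (so `RM(r) = P V (r+1)`) -/
def P (V : Type) [AddCommGroup V] : ℕ → Submodule F (V → F)
  | 0 => ⊥
  | d + 1 => ⨅ y : V, (P V d).comap (D y)

theorem P_realize : True := by have := @P.eq_def; trivial

theorem mem_P_zero {f : V → F} : f ∈ P V 0 ↔ f = 0 := by simp [P]

theorem mem_P_succ {d : ℕ} {f : V → F} : f ∈ P V (d + 1) ↔ ∀ y, D y f ∈ P V d := by
  simp [P, Submodule.mem_iInf]

end

/-- the sign character of `F_2` -/
noncomputable def chi (a : F) : ℝ := if a = 0 then 1 else -1

/-- average over a finite type -/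
noncomputable def av {V : Type} (g : V → ℝ) : ℝ := (∑ᶠ x, g x) / Nat.card V

/-- bias of a Boolean function -/
noncomputable def bias {V : Type} (f : V → F) : ℝ := av fun x => chi (f x)

theorem av_eq {V : Type} [Fintype V] (g : V → ℝ) : av g = (∑ x, g x) / Fintype.card V := by
  rw [av, finsum_eq_sum_of_fintype, Nat.card_eq_fintype_card]

section
variable {V : Type} [AddCommGroup V] [Module F V]

/-- restriction to the coset `a + U`, as a function on `U` -/
def res (U : Submodule F V) (a : V) : (V → F) →ₗ[F] (U → F) where
  toFun f := fun u => f (u + a)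
  map_add' _ _ := rfl
  map_smul' _ _ := rfl

theorem res_apply (U : Submodule F V) (a : V) (f : V → F) (u : U) : res U a f u = f (u + a) := rfl

open Classical in
/-- indicator of the coset `p + Z` -/
noncomputable def ind (Z : Submodule F V) (p : V) : V → F := fun x => if x + p ∈ Z then 1 else 0

/-- functions that are `η`-biased after adding a function of degree `< d` -/
def T (V : Type) [AddCommGroup V] (d : ℕ) (η : ℝ) : Set (V → F) :=
  {p | ∃ p' ∈ P V d, η ≤ |bias (p + p')|}

/-- directions with a cheap derivative -/
def S (d : ℕ) (η : ℝ) (f : V → F) : Set V := {y | D y f ∈ T V d η}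

/-- the span of the directions with a cheap derivative -/
def U (d : ℕ) (η : ℝ) (f : V → F) : Submodule F V := Submodule.span F (S d η f)

/-- number of subspaces of codimension `c` -/
noncomputable def G (V : Type) [AddCommGroup V] [Module F V] (c : ℕ) : ℕ :=
  {W : Submodule F V | finrank F W + c = finrank F V}.ncard

end

/-- number of functions of degree `< d` and bias at least `θ` -/
noncomputable def N (V : Type) [AddCommGroup V] (d : ℕ) (θ : ℝ) : ℕ :=
  {f : V → F | f ∈ P V d ∧ θ ≤ bias f}.ncard

/-- the same for the standard space of dimension `n` -/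
noncomputable def Nn (n d : ℕ) (θ : ℝ) : ℕ := N (Fin n → F) d θ

/-- number of functions of degree `< d` in `n` variables -/
def cP (n d : ℕ) : ℕ := 2 ^ ∑ i ∈ Finset.range d, n.choose i

end Pool.Agent.P.MP_cb6780_lc
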