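import Pool.Agent.P.MP_cb6780_lc.UpLow

set_option autoImplicit false

/-! The reduction to bias `> 1/2`, in limit form, for cubics (`d = 2`). -/

namespace Pool.Agent.P.MP_cb6780_lc

open Module Filter Topology

/-- (number of flats of codimension `c`) times (number of extensions of a cubic) -/
noncomputable def Mult (n c : ℕ) : ℝ :=
  (G (Fin (n + c) → F) c : ℝ) * 2 ^ c * ∏ i ∈ Finset.range c, (cP (n + i) 3 : ℝ)

theorem Reduce_cP_two (m : ℕ) : cP m 2 = 2 ^ (m + 1) := by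
  simp [cP, Finset.sum_range_succ, add_comm]

theorem Reduce_cP_three (m : ℕ) : cP m 3 = 2 ^ (m + 1 + m.choose 2) := by
  simp [cP, Finset.sum_range_succ, add_comm]

theorem Reduce_cP_mono (n i : ℕ) : cP n 3 ≤ cP (n + i) 3 := by
  rw [Reduce_cP_three, Reduce_cP_three]
  exact Nat.pow_le_pow_right (by norm_num)
    (Nat.add_le_add (by omega) (Nat.choose_le_choose 2 (by omega)))

theorem Reduce_cP_up (n c : ℕ) : cP (n + c) 3 ≤ cP n 3 * (2 ^ (n + c + 1)) ^ c := by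
  rw [cP_add n c 2]
  refine Nat.mul_le_mul_left _ ?_
  have := Finset.prod_le_pow_card (Finset.range c) (fun i => cP (n + i) 2) (2 ^ (n + c + 1))
    (fun i hi => by
      rw [Reduce_cP_two]
      exact Nat.pow_le_pow_right (by norm_num) (by have := Finset.mem_range.1 hi; omega))
  simpa using this

theorem Reduce_prod_ge (n c : ℕ) : cP n 3 ^ c ≤ ∏ i ∈ Finset.range c, cP (n + i) 3 := by
  have := Finset.pow_card_le_prod (Finset.range c) (fun i => cP (n + i) 3) (cP n 3)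
    (fun i _ => Reduce_cP_mono n i)
  simpa using this

theorem Reduce_nat (c K n : ℕ) (hn : 2 * (c * c + 2 * K) + 3 ≤ n) :
    cP (n + c) 3 ^ c * (2 * 2 ^ (n + c) * cP (n + c) 2) ^ K * 2 ^ n ≤
      cP (n + c) 3 * ∏ i ∈ Finset.range c, cP (n + i) 3 := by
  have h1 : cP (n + c) 3 ^ c ≤ (∏ i ∈ Finset.range c, cP (n + i) 3) * 2 ^ ((n + c + 1) * (c * c)) := by
    calc cP (n + c) 3 ^ c ≤ (cP n 3 * (2 ^ (n + c + 1)) ^ c) ^ c :=
          Nat.pow_le_pow_left (Reduce_cP_up n c) c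
      _ = cP n 3 ^ c * 2 ^ ((n + c + 1) * (c * c)) := by
          rw [mul_pow, ← pow_mul, ← pow_mul]
      _ ≤ _ := Nat.mul_le_mul_right _ (Reduce_prod_ge n c)
  have h2 : (2 * 2 ^ (n + c) * cP (n + c) 2) ^ K = 2 ^ ((n + c + 1) * (2 * K)) := by
    rw [Reduce_cP_two, ← pow_succ', ← pow_add, ← pow_mul]
    congr 1
    ring
  have h3 : (n + c + 1) * (c * c) + (n + c + 1) * (2 * K) + n ≤ n + c + 1 + (n + c).choose 2 := by
    set M := c * c + 2 * K with hM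
    have e : (n + c + 1) * (c * c) + (n + c + 1) * (2 * K) = (n + c + 1) * M := by rw [hM]; ring
    rw [e, Nat.choose_two_right]
    have h4 : (n + c) * (M + 1) ≤ (n + c) * (n + c - 1) / 2 := by
      rw [Nat.le_div_iff_mul_le (by norm_num), mul_assoc]
      exact Nat.mul_le_mul_left _ (by omega)
    have h5 : (n + c + 1) * M ≤ (n + c) * (M + 1) := by
      have : M ≤ n + c := by omega
      nlinarith
    omega
  calc cP (n + c) 3 ^ c * (2 * 2 ^ (n + c) * cP (n + c) 2) ^ K * 2 ^ n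
      ≤ (∏ i ∈ Finset.range c, cP (n + i) 3) * 2 ^ ((n + c + 1) * (c * c)) *
          2 ^ ((n + c + 1) * (2 * K)) * 2 ^ n := by
        rw [h2]
        exact Nat.mul_le_mul_right _ (Nat.mul_le_mul_right _ h1)
    _ = (∏ i ∈ Finset.range c, cP (n + i) 3) *
          2 ^ ((n + c + 1) * (c * c) + (n + c + 1) * (2 * K) + n) := by
        rw [pow_add, pow_add]; ring
    _ ≤ (∏ i ∈ Finset.range c, cP (n + i) 3) * cP (n + c) 3 := by
        rw [Reduce_cP_three (n + c)]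
        exact Nat.mul_le_mul_left _ (Nat.pow_le_pow_right (by norm_num) h3)
    _ = _ := mul_comm _ _

theorem Reduce_prod_pos (n c : ℕ) : (0 : ℝ) < ∏ i ∈ Finset.range c, (cP (n + i) 3 : ℝ) :=
  Finset.prod_pos fun i _ => by exact_mod_cast cP_pos _ _

theorem Reduce_inv_pow : Tendsto (fun n : ℕ => (1 : ℝ) / 2 ^ n) atTop (𝓝 0) := by
  have := tendsto_pow_atTop_nhds_zero_of_lt_one (r := (1 / 2 : ℝ)) (by norm_num) (by norm_num)
  simpa [one_div, inv_pow] using this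

/-- the exceptional functions are negligible:
`cP (n+c) 3 ^ (c-1) * 2^(O(n))` against `cP n 3 ^ c`, where `cP n 3 = 2^(1 + n + C(n,2))` and
`cP (n+c) 3 ≤ cP n 3 * 2^(c (n+c+1))`. -/
theorem negl (c K : ℕ) :
    Tendsto (fun n : ℕ => ((cP (n + c) 3 : ℝ) ^ c / cP (n + c) 3 *
      (2 * 2 ^ (n + c) * cP (n + c) 2) ^ K) /
        ∏ i ∈ Finset.range c, (cP (n + i) 3 : ℝ)) atTop (𝓝 0) := by
  refine squeeze_zero' (Eventually.of_forall fun n => ?_) ?_ Reduce_inv_pow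
  · have := Reduce_prod_pos n c
    positivity
  · filter_upwards [eventually_ge_atTop (2 * (c * c + 2 * K) + 3)] with n hn
    have h := Reduce_nat c K n hn
    have h' : (cP (n + c) 3 : ℝ) ^ c * (2 * 2 ^ (n + c) * cP (n + c) 2) ^ K * 2 ^ n ≤
        cP (n + c) 3 * ∏ i ∈ Finset.range c, (cP (n + i) 3 : ℝ) := by exact_mod_cast h
    have hp := Reduce_prod_pos n c
    have hq : (0 : ℝ) < cP (n + c) 3 := by exact_mod_cast cP_pos _ _
    rw [div_le_div_iff₀ hp (by positivity), div_mul_eq_mul_div, div_mul_eq_mul_div, div_le_iff₀ hq]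
    linarith

theorem Reduce_finrank (m : ℕ) : finrank F (Fin m → F) = m := by simp

theorem one_le_G (n c : ℕ) : 1 ≤ G (Fin (n + c) → F) c := by
  have h := G_mul (Fin (n + c) → F) c
  rw [Reduce_finrank] at h
  have hp : (0 : ℝ) < ∏ i ∈ Finset.range c, ((2 : ℝ) ^ (n + c) - 2 ^ i) :=
    Finset.prod_pos fun i hi => sub_pos.2
      (pow_lt_pow_right₀ (by norm_num) (by have := Finset.mem_range.1 hi; omega))
  rcases Nat.eq_zero_or_pos (G (Fin (n + c) → F) c) with h0 | h0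
  · rw [h0] at h
    simp only [Nat.cast_zero, zero_mul] at h
    exact absurd h hp.ne
  · exact h0

theorem Reduce_tri (n c : ℕ) (θ : ℝ) :
    ((Tri (Fin (n + c) → F) c 4 θ).ncard : ℝ) = 2 ^ n * (Mult n c * Nn n 4 θ) := by
  have h := ncard_Tri (V := Fin (n + c) → F) (n := n) (c := c) (Reduce_finrank _) 4 θ
  rw [cP_add n c 3] at h
  have h' : ((Tri (Fin (n + c) → F) c 4 θ).ncard : ℝ) * cP n 4 =
      G (Fin (n + c) → F) c * 2 ^ (n + c) *
        (Nn n 4 θ * (cP n 4 * ∏ i ∈ Finset.range c, (cP (n + i) 3 : ℝ))) := by exact_mod_cast h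
  have hq : (0 : ℝ) < cP n 4 := by exact_mod_cast cP_pos _ _
  refine mul_right_cancel₀ hq.ne' ?_
  rw [h', Mult, pow_add]
  ring

theorem Reduce_bad {ε η : ℝ} (hε : 0 < ε) (hε1 : ε ≤ 1) (hη0 : 0 < η) (hη : η ≤ ε ^ 2 / 2) (c : ℕ)
    {δ : ℝ} (hδ : 0 < δ) :
    ∀ᶠ n : ℕ in atTop, ((Bad (Fin (n + c) → F) 2 c ε η).ncard : ℝ) ≤
      δ * ∏ i ∈ Finset.range c, (cP (n + i) 3 : ℝ) := by
  obtain ⟨K, hK⟩ := bad_le hε hε1 hη0 hη 2 c
  filter_upwards [(negl c K).eventually (gt_mem_nhds hδ)] with n hn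
  have h := hK (Fin (n + c) → F)
  rw [Reduce_finrank, card_V, Reduce_finrank] at h
  have h' : ((Bad (Fin (n + c) → F) 2 c ε η).ncard : ℝ) * cP (n + c) 3 ≤
      (cP (n + c) 3 : ℝ) ^ c * (2 * 2 ^ (n + c) * cP (n + c) 2) ^ K := by exact_mod_cast h
  have hp := Reduce_prod_pos n c
  have hq : (0 : ℝ) < cP (n + c) 3 := by exact_mod_cast cP_pos _ _
  rw [div_lt_iff₀ hp, div_mul_eq_mul_div, div_lt_iff₀ hq] at hn
  exact le_of_mul_le_mul_right (h'.trans hn.le) hq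

theorem Reduce_one_le_Nn (n : ℕ) {θ : ℝ} (h : θ ≤ 1) : (1 : ℝ) ≤ Nn n 4 θ := by
  exact_mod_cast one_le_N (V := Fin n → F) 4 h

theorem Reduce_prod_le (n c : ℕ) : ∏ i ∈ Finset.range c, (cP (n + i) 3 : ℝ) ≤ Mult n c := by
  have h1 : (1 : ℝ) ≤ G (Fin (n + c) → F) c := by exact_mod_cast one_le_G n c
  have h2 : (1 : ℝ) ≤ 2 ^ c := one_le_pow₀ (by norm_num)
  exact le_mul_of_one_le_left (Reduce_prod_pos n c).le (one_le_mul_of_one_le_of_one_le h1 h2)

/-- upper half: `up_aux`, `ncard_Tri`, `cP_add`, `bad_le`, `negl`, `one_le_N` -/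
theorem reduce_up {c : ℕ} {ε θ : ℝ} (h1 : 1 / 2 < θ) (h2 : θ < 2 ^ c * ε) (h3 : 2 ^ c * ε ≤ 1)
    {κ : ℝ} (hκ : 1 < κ) :
    ∀ᶠ n : ℕ in atTop, (Nn (n + c) 4 ε : ℝ) ≤ κ * (Mult n c * Nn n 4 θ) := by
  have hc : (0 : ℝ) < 2 ^ c := by positivity
  have hc1 : (1 : ℝ) ≤ 2 ^ c := one_le_pow₀ (by norm_num)
  have hε : 0 < ε := by
    by_contra h
    nlinarith [mul_nonneg hc.le (neg_nonneg.2 (not_lt.1 h))]
  have hε1 : ε ≤ 1 := by nlinarith
  set γ := ε - θ / 2 ^ c with hγd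
  have hθc : 0 < θ / 2 ^ c := div_pos (by linarith) hc
  have hγ : 0 < γ := sub_pos.2 (by rw [div_lt_iff₀ hc]; linarith)
  have hγ1 : γ ≤ 1 := by linarith
  have hε' : 1 / 2 ^ (c + 1) + γ < ε := by
    have : (1 : ℝ) / 2 ^ (c + 1) < θ / 2 ^ c := by
      rw [pow_succ', ← div_div]
      exact div_lt_div_of_pos_right h1 hc
    linarith
  have e : 2 ^ c * (ε - γ) = θ := by rw [hγd]; field_simp; ring
  have hη : γ ^ 2 * (ε ^ 2 / 2) ≤ ε ^ 2 / 2 :=
    mul_le_of_le_one_left (by positivity) (pow_le_one₀ hγ.le hγ1)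
  filter_upwards [Reduce_bad hε hε1 (by positivity) hη c (sub_pos.2 hκ)] with n hn
  have h := up_aux (V := Fin (n + c) → F) (n := n) (c := c) (d := 2) (Reduce_finrank _) le_rfl hγ hγ1 hε'
    le_rfl
  rw [e] at h
  have h' : (2 : ℝ) ^ n * Nn (n + c) 4 ε ≤ (Tri (Fin (n + c) → F) c 4 θ).ncard +
      2 ^ n * (Bad (Fin (n + c) → F) 2 c ε (γ ^ 2 * (ε ^ 2 / 2))).ncard := by exact_mod_cast h
  rw [Reduce_tri, ← mul_add] at h'
  have h4 := le_of_mul_le_mul_left h' (by positivity)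
  have h5 : ∏ i ∈ Finset.range c, (cP (n + i) 3 : ℝ) ≤ Mult n c * Nn n 4 θ :=
    (Reduce_prod_le n c).trans (le_mul_of_one_le_right
      ((Reduce_prod_pos n c).le.trans (Reduce_prod_le n c)) (Reduce_one_le_Nn n (by linarith)))
  nlinarith [mul_le_mul_of_nonneg_left h5 (sub_pos.2 hκ).le]

/-- lower half: `low_aux1`, `low_aux2` -/
theorem reduce_low {c : ℕ} {ε θ : ℝ} (h1 : 1 / 2 < 2 ^ c * ε) (h2 : 2 ^ c * ε < θ) (h3 : θ ≤ 1)
    {κ : ℝ} (hκ : κ < 1) :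
    ∀ᶠ n : ℕ in atTop, κ * (Mult n c * Nn n 4 θ) ≤ Nn (n + c) 4 ε := by
  have hc : (0 : ℝ) < 2 ^ c := by positivity
  have hc1 : (1 : ℝ) ≤ 2 ^ c := one_le_pow₀ (by norm_num)
  have hε : 0 < ε := by
    by_contra h
    nlinarith [mul_nonneg hc.le (neg_nonneg.2 (not_lt.1 h))]
  have hε1 : ε ≤ 1 := by nlinarith
  set γ := θ / 2 ^ c - ε with hγd
  have hγ : 0 < γ := sub_pos.2 (by rw [lt_div_iff₀ hc]; linarith)
  have e : 2 ^ c * (ε + γ) = θ := by rw [hγd]; field_simp; ring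
  have hγ' : 0 < θ - 1 / 2 := by linarith
  set η := min (min (2 * (θ - 1 / 2) / 2 ^ c) (1 / 4 / 2 ^ c)) (ε ^ 2 / 2) with hηd
  have hη0 : 0 < η := lt_min (lt_min (by positivity) (by positivity)) (by positivity)
  have hδ : 0 < (1 - κ) / 2 := by linarith
  have hl : Tendsto (fun n : ℕ => 1 / γ ^ 2 * ((1 : ℝ) / 2 ^ n)) atTop (𝓝 0) := by
    have := Reduce_inv_pow.const_mul (1 / γ ^ 2)
    rwa [mul_zero] at this
  filter_upwards [Reduce_bad hε hε1 hη0 (min_le_right _ _) c hδ, hl.eventually (gt_mem_nhds hδ)]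
    with n hn hn'
  have a1 := low_aux1 (V := Fin (n + c) → F) (n := n) (c := c) (e := 4) (ε := ε) (Reduce_finrank _)
    (by norm_num) hγ
  rw [e] at a1
  have a2 := low_aux2 (V := Fin (n + c) → F) (n := n) (c := c) (d := 2) (ε := ε) (θ := θ) (η := η)
    (Reduce_finrank _) le_rfl hγ'.le (by linarith)
    ((min_le_left _ _).trans (min_le_left _ _)) ((min_le_left _ _).trans (min_le_right _ _))
  have a2' : (({z | z ∈ Tri (Fin (n + c) → F) c 4 θ ∧ ε ≤ bias z.2.2}.ncard : ℕ) : ℝ) ≤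
      2 ^ n * Nn (n + c) 4 ε + G (Fin (n + c) → F) c * 2 ^ (n + c) *
        (Bad (Fin (n + c) → F) 2 c ε η).ncard := by exact_mod_cast a2
  have a3 := a1.trans a2'
  rw [Reduce_tri] at a3
  have hM : 0 ≤ Mult n c := (Reduce_prod_pos n c).le.trans (Reduce_prod_le n c)
  have hN := Reduce_one_le_Nn n h3
  have a4 : (G (Fin (n + c) → F) c : ℝ) * 2 ^ (n + c) * (Bad (Fin (n + c) → F) 2 c ε η).ncard ≤
      2 ^ n * ((1 - κ) / 2 * (Mult n c * Nn n 4 θ)) := by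
    calc (G (Fin (n + c) → F) c : ℝ) * 2 ^ (n + c) * (Bad (Fin (n + c) → F) 2 c ε η).ncard
        ≤ G (Fin (n + c) → F) c * 2 ^ (n + c) *
            ((1 - κ) / 2 * ∏ i ∈ Finset.range c, (cP (n + i) 3 : ℝ)) :=
          mul_le_mul_of_nonneg_left hn (by positivity)
      _ = 2 ^ n * ((1 - κ) / 2 * Mult n c) := by rw [Mult, pow_add]; ring
      _ ≤ _ := mul_le_mul_of_nonneg_left
          (mul_le_mul_of_nonneg_left (le_mul_of_one_le_right hM hN) hδ.le) (by positivity)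
  have a5 : (1 : ℝ) / (γ ^ 2 * 2 ^ n) < (1 - κ) / 2 := by
    rw [← one_div_mul_one_div]
    exact hn'
  have hX : 0 ≤ Mult n c * Nn n 4 θ := mul_nonneg hM (by linarith)
  have a6 : (2 : ℝ) ^ n * (κ * (Mult n c * Nn n 4 θ)) ≤ 2 ^ n * Nn (n + c) 4 ε := by
    have hY : (0 : ℝ) ≤ 2 ^ n * (Mult n c * Nn n 4 θ) := by positivity
    nlinarith [mul_le_mul_of_nonneg_right a5.le hY]
  exact le_of_mul_le_mul_left a6 (by positivity)

/-- from `G_mul` -/
theorem G_lim (c : ℕ) :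
    Tendsto (fun n : ℕ => (G (Fin (n + c) → F) c : ℝ) / 2 ^ (c * n)) atTop
      (𝓝 (1 / ∏ j ∈ Finset.range c, (1 - 1 / 2 ^ (j + 1) : ℝ))) := by
  have hp : ∀ i ∈ Finset.range c, (0 : ℝ) < 2 ^ c - 2 ^ i := fun i hi =>
    sub_pos.2 (pow_lt_pow_right₀ (by norm_num) (Finset.mem_range.1 hi))
  have e1 : ∀ n : ℕ, (G (Fin (n + c) → F) c : ℝ) / 2 ^ (c * n) =
      ∏ i ∈ Finset.range c, (((2 : ℝ) ^ c - 2 ^ i * (1 / 2 ^ n)) / (2 ^ c - 2 ^ i)) := by
    intro n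
    have h := G_mul (Fin (n + c) → F) c
    rw [Reduce_finrank] at h
    have h2 : ∏ i ∈ Finset.range c, ((2 : ℝ) ^ (n + c) - 2 ^ i) =
        (∏ i ∈ Finset.range c, ((2 : ℝ) ^ c - 2 ^ i * (1 / 2 ^ n))) * 2 ^ (c * n) := by
      have : (2 : ℝ) ^ (c * n) = ∏ _i ∈ Finset.range c, (2 : ℝ) ^ n := by
        rw [Finset.prod_const, Finset.card_range, ← pow_mul, mul_comm]
      rw [this, ← Finset.prod_mul_distrib]
      refine Finset.prod_congr rfl fun i _ => ?_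
      rw [pow_add]
      field_simp
    rw [Finset.prod_div_distrib, div_eq_div_iff (by positivity) (Finset.prod_pos hp).ne', h, h2]
  have e2 : (1 : ℝ) / ∏ j ∈ Finset.range c, (1 - 1 / 2 ^ (j + 1) : ℝ) =
      ∏ i ∈ Finset.range c, (((2 : ℝ) ^ c - 2 ^ i * 0) / (2 ^ c - 2 ^ i)) := by
    rw [← Finset.prod_range_reflect (fun j => (1 - 1 / 2 ^ (j + 1) : ℝ)) c, one_div,
      ← Finset.prod_inv_distrib]
    refine Finset.prod_congr rfl fun i hi => ?_
    have hi' := Finset.mem_range.1 hi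
    have h2 : (2 : ℝ) ^ c = 2 ^ (c - 1 - i + 1) * 2 ^ i := by
      rw [← pow_add]
      congr 1
      omega
    have h3 := (hp i hi).ne'
    have h4 : (1 - 1 / 2 ^ (c - 1 - i + 1) : ℝ) = (2 ^ c - 2 ^ i) / 2 ^ c := by
      rw [h2]
      field_simp
    rw [h4, inv_div, mul_zero, sub_zero]
  rw [e2]
  refine (tendsto_finsetProd _ fun i _ => ?_).congr fun n => (e1 n).symm
  exact ((Reduce_inv_pow.const_mul _).const_sub _).div_const _

end Pool.Agent.P.MP_cb6780_lc
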