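import Pool.Agent.P.MP_cb6780_lc.KHyp2
import Pool.Agent.P.MP_cb6780_lc.Reduce

set_option autoImplicit false

/-! Asymptotic number of cubic functions of bias `≥ θ > 1/2`. -/

namespace Pool.Agent.P.MP_cb6780_lc

open Module Filter Topology

/-- the leading term of the number of cubics in `n` variables with bias `≥ (1 + 2^(-h)) / 2` -/
noncomputable def Kh (h n : ℕ) : ℝ :=
  if h = 0 then 1 else
    2 ^ ((2 * h + 1) * n + 1) /
      (2 ^ (h ^ 2) * (if h = 1 then 7 else 1) * ∏ j ∈ Finset.range h, ((4 : ℝ) ^ (j + 1) - 1))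

/-- growth of order `2 ^ (a n)` with constant `L` -/
def KCountGr (f : ℕ → ℝ) (a : ℕ) (L : ℝ) : Prop :=
  Tendsto (fun n : ℕ => f n / 2 ^ (a * n)) atTop (𝓝 L)

theorem KCountGr.small {f : ℕ → ℝ} {a b : ℕ} {L : ℝ} (hf : KCountGr f a L) (hab : a < b) :
    KCountGr f b 0 := by
  obtain ⟨c, rfl⟩ := Nat.exists_eq_add_of_lt hab
  have h1 : Tendsto (fun n : ℕ => ((1 : ℝ) / 2 ^ (c + 1)) ^ n) atTop (𝓝 0) := by
    refine tendsto_pow_atTop_nhds_zero_of_lt_one (by positivity) ?_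
    rw [div_lt_one (by positivity)]
    exact one_lt_pow₀ (by norm_num) (Nat.succ_ne_zero c)
  have h2 := Tendsto.mul hf h1
  rw [mul_zero] at h2
  refine h2.congr fun n => ?_
  rw [show (a + c + 1) * n = a * n + (c + 1) * n by ring, pow_add (2 : ℝ) (a * n), one_div, inv_pow,
    ← pow_mul]
  field_simp

theorem KCountGr.mul {f g : ℕ → ℝ} {a b : ℕ} {L M : ℝ} (hf : KCountGr f a L)
    (hg : KCountGr g b M) : KCountGr (fun n => f n * g n) (a + b) (L * M) := by
  refine (Tendsto.mul hf hg).congr fun n => ?_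
  rw [add_mul, pow_add]
  field_simp

theorem KCountGr.add {f g : ℕ → ℝ} {a : ℕ} {L M : ℝ} (hf : KCountGr f a L)
    (hg : KCountGr g a M) : KCountGr (fun n => f n + g n) a (L + M) :=
  (Tendsto.add hf hg).congr fun _ => (add_div _ _ _).symm

theorem KCount_const (c : ℝ) : KCountGr (fun _ => c) 0 c := by
  refine (tendsto_const_nhds (x := c)).congr fun n => ?_
  simp

theorem KCount_two_pow : KCountGr (fun n => (2 : ℝ) ^ n) 1 1 := by
  refine (tendsto_const_nhds (x := (1 : ℝ))).congr fun n => ?_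
  simp

theorem KCountGr.unshift {f : ℕ → ℝ} {a c : ℕ} {L : ℝ} (hf : KCountGr (fun n => f (n + c)) a L) :
    KCountGr f a (L / 2 ^ (a * c)) := by
  refine (tendsto_add_atTop_iff_nat c).1 ((Tendsto.div_const hf (2 ^ (a * c))).congr fun n => ?_)
  rw [mul_add, pow_add, div_div]

theorem KCountGr.shift {f : ℕ → ℝ} {a : ℕ} {L : ℝ} (hf : KCountGr f a L) (c : ℕ) :
    KCountGr (fun n => f (n + c)) a (L * 2 ^ (a * c)) := by
  have h1 := (tendsto_add_atTop_iff_nat c).2 hf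
  refine (Tendsto.mul_const (2 ^ (a * c)) h1).congr fun n => ?_
  rw [mul_add, pow_add]
  field_simp

theorem KCount_sum {f : ℕ → ℕ → ℝ} {a : ℕ} (s : Finset ℕ) (hf : ∀ j ∈ s, KCountGr (f j) a 0) :
    KCountGr (fun n => ∑ j ∈ s, f j n) a 0 := by
  have h1 := tendsto_finsetSum s hf
  rw [Finset.sum_const_zero] at h1
  exact h1.congr fun n => (Finset.sum_div _ _ _).symm

theorem KCount_G (c : ℕ) : ∃ L, KCountGr (fun n => (G (Fin (n + 1) → F) c : ℝ)) c L := by
  have h1 : KCountGr (fun n => (G (Fin (n + c) → F) c : ℝ)) c _ := G_lim c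
  have h2 := KCountGr.unshift (f := fun n => (G (Fin n → F) c : ℝ)) h1
  exact ⟨_, h2.shift 1⟩

theorem KCount_E (j : ℕ) :
    KCountGr (fun n => 2 * (G (Fin (n + 1) → F) 1 : ℝ) * (qa (Fin n → F) j : ℝ)) (2 * j + 1)
      (4 * (2 ^ (2 * j) / (2 ^ (j ^ 2) * ∏ i ∈ Finset.range j, ((4 : ℝ) ^ (i + 1) - 1)))) := by
  have h1 : KCountGr (fun n => (G (Fin (n + 1) → F) 1 : ℝ)) 1 _ := G_lim 1
  have h2 : KCountGr (fun n => (qa (Fin n → F) j : ℝ)) (2 * j) _ := qa_lim j
  have h3 := ((KCount_const 2).mul h1).mul h2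
  rw [show 0 + 1 + 2 * j = 2 * j + 1 by ring] at h3
  have h4 : (2 : ℝ) * (1 / ∏ j ∈ Finset.range 1, (1 - 1 / 2 ^ (j + 1) : ℝ)) = 4 := by
    norm_num
  rwa [h4] at h3

theorem KCount_cubes : ∃ L, KCountGr (fun n => 4 * (G (Fin (n + 1) → F) 2 : ℝ) *
    (2 * (2 * 2 ^ n)) * (8 * (G (Fin (n + 1) → F) 3 : ℝ))) 6 L := by
  obtain ⟨L₂, h2⟩ := KCount_G 2
  obtain ⟨L₃, h3⟩ := KCount_G 3
  exact ⟨_, (((KCount_const 4).mul h2).mul ((KCount_const 2).mul
    ((KCount_const 2).mul KCount_two_pow))).mul ((KCount_const 8).mul h3)⟩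

theorem KCount_prod_pos (h : ℕ) : 0 < ∏ j ∈ Finset.range h, ((4 : ℝ) ^ (j + 1) - 1) := by
  refine Finset.prod_pos fun j _ => sub_pos.2 ?_
  exact one_lt_pow₀ (by norm_num) (Nat.succ_ne_zero j)

theorem KCount_main {h : ℕ} (hh : 2 ≤ h) {θ : ℝ} (h1 : (1 + 1 / 2 ^ (h + 1)) / 2 < θ)
    (h2 : θ ≤ (1 + 1 / 2 ^ h) / 2) :
    KCountGr (fun n => (Nn (n + 1) 4 θ : ℝ)) (2 * h + 1)
      (4 * (2 ^ (2 * h) / (2 ^ (h ^ 2) * ∏ i ∈ Finset.range h, ((4 : ℝ) ^ (i + 1) - 1)))) := by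
  have hE := KCount_E h
  have hs : KCountGr (fun n => ∑ j ∈ Finset.range h,
      2 * (G (Fin (n + 1) → F) 1 : ℝ) * (qa (Fin n → F) j : ℝ)) (2 * h + 1) 0 :=
    KCount_sum (f := fun j n => 2 * (G (Fin (n + 1) → F) 1 : ℝ) * (qa (Fin n → F) j : ℝ)) _
      fun j hj => (KCount_E j).small (by have := Finset.mem_range.1 hj; omega)
  have h0 : KCountGr (fun _ => (1 : ℝ)) (2 * h + 1) 0 := (KCount_const 1).small (by omega)
  have hc : KCountGr (fun n => if 3 ≤ h then 4 * (G (Fin (n + 1) → F) 2 : ℝ) *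
      (2 * (2 * 2 ^ n)) * (8 * (G (Fin (n + 1) → F) 3 : ℝ)) else 0) (2 * h + 1) 0 := by
    by_cases h3 : 3 ≤ h
    · obtain ⟨L, hL⟩ := KCount_cubes
      simp only [if_pos h3]
      exact hL.small (by omega)
    · simp only [if_neg h3]
      exact (KCount_const 0).small (by omega)
  have hup := ((h0.add hs).add hE).add hc
  rw [zero_add, zero_add, add_zero] at hup
  have hrk : ∀ n : ℕ, finrank F (Fin (n + 1) → F) = n + 1 := fun n => by simp
  refine tendsto_of_tendsto_of_tendsto_of_le_of_le hE hup (fun n => ?_) (fun n => ?_)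
  · refine div_le_div_of_nonneg_right ?_ (by positivity)
    have a1 := (N_sandwich (V := Fin (n + 1) → F) h1 h2).1
    rw [Eh_eq (hrk n) hh] at a1
    have a2 : 2 * G (Fin (n + 1) → F) 1 * qa (Fin n → F) h ≤ Nn (n + 1) 4 θ := a1
    beta_reduce
    exact_mod_cast a2
  · refine div_le_div_of_nonneg_right ?_ (by positivity)
    have a1 := (N_sandwich (V := Fin (n + 1) → F) h1 h2).2
    rw [Finset.sum_range_succ, Eh_eq (hrk n) hh] at a1
    have a2 : ∑ j ∈ Finset.range h, (Eh (Fin (n + 1) → F) j).ncard ≤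
        ∑ j ∈ Finset.range h, 2 * G (Fin (n + 1) → F) 1 * qa (Fin n → F) j :=
      Finset.sum_le_sum fun j _ => Eh_le (hrk n) j
    have a3 := two_cubes_le (V := Fin (n + 1) → F)
    have a4 : Nat.card (Fin (n + 1) → F) = 2 * 2 ^ n := by
      rw [card_V, hrk, pow_succ']
    rw [a4] at a3
    have a5 : Nn (n + 1) 4 θ ≤ 1 +
        (∑ j ∈ Finset.range h, 2 * G (Fin (n + 1) → F) 1 * qa (Fin n → F) j) +
        2 * G (Fin (n + 1) → F) 1 * qa (Fin n → F) h +
        if 3 ≤ h then 4 * G (Fin (n + 1) → F) 2 * (2 * (2 * 2 ^ n)) * (8 * G (Fin (n + 1) → F) 3)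
        else 0 := by
      show N (Fin (n + 1) → F) 4 θ ≤ _
      by_cases h3 : 3 ≤ h
      · rw [if_pos h3] at a1 ⊢
        omega
      · rw [if_neg h3] at a1 ⊢
        omega
    beta_reduce
    exact_mod_cast a5

/-- `N_h0`; `N_h1` with `G_lim 3`; for `h ≥ 2`: `N_sandwich`, `Eh_eq`, `Eh_le`, `qa_lim`, `G_lim 1`,
`two_cubes_le` (order `2^(6n)` against `2^((2h+1)n)`) -/
theorem N_lim {h : ℕ} {θ : ℝ} (h1 : (1 + 1 / 2 ^ (h + 1)) / 2 < θ) (h2 : θ ≤ (1 + 1 / 2 ^ h) / 2) :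
    Tendsto (fun n : ℕ => (Nn n 4 θ : ℝ) / Kh h n) atTop (𝓝 1) := by
  rcases Nat.lt_or_ge h 2 with hh | hh
  · interval_cases h
    · refine (tendsto_const_nhds (x := (1 : ℝ))).congr fun n => ?_
      have a1 : Nn n 4 θ = 1 :=
        N_h0 (V := Fin n → F) (by norm_num at h1 ⊢; exact h1) (by norm_num at h2 ⊢; exact h2)
      rw [a1]
      simp [Kh]
    · have a1 : ∀ n, Nn n 4 θ = 1 + 8 * G (Fin n → F) 3 := fun n =>
        N_h1 (V := Fin n → F) (by norm_num at h1 ⊢; exact h1) (by norm_num at h2 ⊢; exact h2)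
      have b1 : KCountGr (fun n => (G (Fin (n + 3) → F) 3 : ℝ)) 3 _ := G_lim 3
      have b2 := KCountGr.unshift (f := fun n => (G (Fin n → F) 3 : ℝ)) b1
      have b3 := ((KCount_const 1).small (show 0 < 0 + 3 by norm_num)).add
        ((KCount_const 8).mul b2)
      have b4 := Tendsto.mul_const (21 : ℝ) b3
      have b5 : ((0 : ℝ) + 8 * (1 / (∏ j ∈ Finset.range 3, (1 - 1 / 2 ^ (j + 1) : ℝ)) /
          2 ^ (3 * 3))) * 21 = 1 := by
        simp only [Finset.prod_range_succ, Finset.prod_range_zero]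
        norm_num
      rw [b5] at b4
      refine b4.congr fun n => ?_
      rw [a1]
      simp only [Kh, Finset.prod_range_succ, Finset.prod_range_zero]
      push_cast
      norm_num
      rw [pow_succ]
      field_simp
      norm_num
  · have hp := KCount_prod_pos h
    have b1 := Tendsto.div_const (KCount_main hh h1 h2)
      (4 * (2 ^ (2 * h) / (2 ^ (h ^ 2) * ∏ i ∈ Finset.range h, ((4 : ℝ) ^ (i + 1) - 1))))
    rw [div_self (by positivity)] at b1
    refine (tendsto_add_atTop_iff_nat 1).1 (b1.congr fun n => ?_)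
    rw [Kh, if_neg (by omega), if_neg (by omega), div_div]
    congr 1
    rw [show (2 * h + 1) * (n + 1) + 1 = (2 * h + 1) * n + (2 * h + 2) by ring, pow_add, pow_add]
    field_simp
    norm_num

end Pool.Agent.P.MP_cb6780_lc
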