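import Pool.Agent.P.MP_cb6780_lc.Quad

set_option autoImplicit false

/-! The weight distribution of `RM(2,n)`. -/

namespace Pool.Agent.P.MP_cb6780_lc

open Module Filter Topology

theorem QCount_two (a : F) : a = 0 ∨ a = 1 := by revert a; decide

theorem QCount_ncard {V W : Type} (e : V ≃ W) (p : (V → F) → Prop) (p' : (W → F) → Prop)
    (H : ∀ q : W → F, p (fun v => q (e v)) ↔ p' q) : {q | p q}.ncard = {q | p' q}.ncard := by
  symm
  refine Set.ncard_congr (fun q _ => fun v => q (e v)) (fun q hq => (H q).2 hq)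
    (fun a b _ _ h => ?_) fun q hq => ?_
  · funext w
    have := congrFun h (e.symm w)
    simpa using this
  · have e1 : (fun v => (fun w => q (e.symm w)) (e v)) = q := by funext v; simp
    exact ⟨fun w => q (e.symm w), (H _).1 (by rw [e1]; exact hq), e1⟩

theorem QCount_comp {V W : Type} [AddCommGroup V] [Module F V] [AddCommGroup W] [Module F W]
    {d : ℕ} {f : V → F} (hf : f ∈ P V d) (φ : W →ₗ[F] V) : (fun w => f (φ w)) ∈ P W d := by
  simpa using comp_mem_P hf φ 0

theorem QCount_mem {V W : Type} [AddCommGroup V] [Module F V] [AddCommGroup W] [Module F W]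
    (e : V ≃ₗ[F] W) (d : ℕ) (q : W → F) : (fun v => q (e v)) ∈ P V d ↔ q ∈ P W d := by
  constructor
  · intro h
    simpa using QCount_comp h e.symm.toLinearMap
  · intro h
    exact QCount_comp h e.toLinearMap

theorem QCount_bias {V W : Type} (e : V ≃ W) (q : W → F) : bias (fun v => q (e v)) = bias q :=
  av_congr e fun w => chi (q w)

theorem qa_congr {V W : Type} [AddCommGroup V] [Module F V] [AddCommGroup W] [Module F W]
    (e : V ≃ₗ[F] W) (h : ℕ) : qa V h = qa W h :=
  QCount_ncard e.toEquiv _ _ fun q =>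
    and_congr (QCount_mem e 3 q) (by rw [QCount_bias e.toEquiv q])

theorem qa_zero (V : Type) [AddCommGroup V] [Module F V] [Finite V] : qa V 0 = 1 := by
  have : {q : V → F | q ∈ P V 3 ∧ bias q = 1 / 2 ^ 0} = {0} := by
    ext q
    simp only [Set.mem_ofPred_eq, Set.mem_singleton_iff, pow_zero, div_one]
    constructor
    · exact fun h => eq_zero_of_bias h.2
    · rintro rfl
      exact ⟨Submodule.zero_mem _, bias_zero⟩
  rw [qa, this, Set.ncard_singleton]

/-- the normal form -/
def QCount_phi {W : Type} (t : (W → F) × (W → F) × (W → F)) : (F × F) × W → F :=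
  fun x => (x.1.1 + t.2.1 x.2) * (x.1.2 + t.1 x.2) + t.2.2 x.2

theorem QCount_av4 (u v c : F) :
    av (fun z : F × F => chi ((z.1 + u) * (z.2 + v) + c)) = 1 / 2 * chi c := by
  have hs : ∀ g : F → ℝ, ∑ a, g a = g 0 + g 1 := fun g => Fin.sum_univ_two g
  have h11 : (1 : F) + 1 = 0 := by decide
  rw [av_eq, Fintype.sum_prod_type, hs, hs, hs]
  have hc : (Fintype.card (F × F) : ℝ) = 4 := by simp
  rw [hc]
  have hu : u = 0 ∨ u = 1 := by revert u; decide
  have hv : v = 0 ∨ v = 1 := by revert v; decide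
  rcases hu with rfl | rfl <;> rcases hv with rfl | rfl <;>
    simp only [h11, add_zero, zero_add, mul_zero, mul_one, chi_add, chi_one] <;>
    ring

theorem QCount_bias_phi {W : Type} [Finite W] (t : (W → F) × (W → F) × (W → F)) :
    bias (QCount_phi t) = 1 / 2 * bias t.2.2 := by
  unfold bias
  rw [av_prod, av_comm, ← av_mul_left]
  congr 1
  funext w
  exact QCount_av4 (t.2.1 w) (t.1 w) (t.2.2 w)

/-- On `(F × F) × W` the quadratic functions with `D e1 (D e2 q) = 1` are exactly
`q ((a,b),w) = a b + a l1 w + b l2 w + q0 w` with `l1, l2` affine, `q0` quadratic, and summing over `a, b`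
gives `bias q = bias (q0 + l1 l2) / 2`. -/
theorem qa_split (W : Type) [AddCommGroup W] [Module F W] [Finite W] (h : ℕ) :
    {q : (F × F) × W → F | q ∈ P _ 3 ∧ bias q = 1 / 2 ^ (h + 1) ∧
      D ((1, 0), 0) (D ((0, 1), 0) q) = 1}.ncard = (2 * Nat.card W) ^ 2 * qa W h := by
  have hP2 : (P W 2 : Set (W → F)).ncard = 2 * Nat.card W := by
    rw [← Nat.card_coe_set_eq]
    change Nat.card (P W 2) = _
    rw [card_P, card_V, cP]
    simp [Finset.sum_range_succ, pow_add]
  have hinj : Function.Injective (QCount_phi (W := W)) := by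
    rintro ⟨l1, l2, q1⟩ ⟨m1, m2, r1⟩ e
    have key : ∀ w, l1 w = m1 w ∧ l2 w = m2 w ∧ q1 w = r1 w := fun w => by
      have e0 := congrFun e ((0, 0), w)
      have e1 := congrFun e ((1, 0), w)
      have e2 := congrFun e ((0, 1), w)
      simp only [QCount_phi] at e0 e1 e2
      revert e0 e1 e2
      generalize l1 w = a; generalize l2 w = b; generalize q1 w = c
      generalize m1 w = a'; generalize m2 w = b'; generalize r1 w = c'
      revert a b c a' b' c'
      decide
    exact Prod.ext (funext fun w => (key w).1)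
      (Prod.ext (funext fun w => (key w).2.1) (funext fun w => (key w).2.2))
  have himg : {q : (F × F) × W → F | q ∈ P _ 3 ∧ bias q = 1 / 2 ^ (h + 1) ∧
      D ((1, 0), 0) (D ((0, 1), 0) q) = 1} = QCount_phi '' ((P W 2 : Set (W → F)) ×ˢ
        ((P W 2 : Set (W → F)) ×ˢ {q : W → F | q ∈ P W 3 ∧ bias q = 1 / 2 ^ h})) := by
    ext q
    constructor
    · rintro ⟨h1, h2, h3⟩
      have a1 : (fun w => D ((1, 0), 0) q ((0, 0), w)) ∈ P W 2 :=
        QCount_comp (mem_P_succ.1 h1 ((1, 0), 0)) (LinearMap.inr F (F × F) W)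
      have a2 : (fun w => D ((0, 1), 0) q ((0, 0), w)) ∈ P W 2 :=
        QCount_comp (mem_P_succ.1 h1 ((0, 1), 0)) (LinearMap.inr F (F × F) W)
      have a3 : (fun w => q ((0, 0), w)) ∈ P W 3 := QCount_comp h1 (LinearMap.inr F (F × F) W)
      have a4 := Submodule.add_mem _ a3 (mul_mem_P (d := 1) (e := 1) a1 a2)
      have hq : QCount_phi (fun w => D ((1, 0), 0) q ((0, 0), w),
          fun w => D ((0, 1), 0) q ((0, 0), w),
          (fun w => q ((0, 0), w)) + (fun w => D ((1, 0), 0) q ((0, 0), w)) *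
            fun w => D ((0, 1), 0) q ((0, 0), w)) = q := by
        funext ⟨⟨a, b⟩, w⟩
        have e := congrFun h3 ((0, 0), w)
        simp only [D_apply, Prod.mk_add_mk, add_zero, zero_add, Pi.one_apply] at e
        simp only [QCount_phi, D_apply, Prod.mk_add_mk, add_zero, zero_add, Pi.add_apply,
          Pi.mul_apply]
        have ha : a = 0 ∨ a = 1 := by revert a; decide
        have hb : b = 0 ∨ b = 1 := by revert b; decide
        revert e
        rcases ha with rfl | rfl <;> rcases hb with rfl | rfl <;>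
        · generalize q ((0, 0), w) = c0; generalize q ((1, 0), w) = c1
          generalize q ((0, 1), w) = c2; generalize q ((1, 1), w) = c3
          revert c0 c1 c2 c3
          decide
      refine ⟨_, ⟨a1, a2, a4, ?_⟩, hq⟩
      rw [← hq, QCount_bias_phi, pow_succ] at h2
      have h4 : (2 : ℝ) ^ h ≠ 0 := by positivity
      field_simp at h2 ⊢
      linarith
    · rintro ⟨⟨l1, l2, q1⟩, ⟨h1, h2, h3, h4⟩, rfl⟩
      refine ⟨?_, ?_, ?_⟩
      · have b1 := Submodule.add_mem _
          (dual_mem_P ((LinearMap.fst F F F).comp (LinearMap.fst F (F × F) W)))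
          (QCount_comp h2 (LinearMap.snd F (F × F) W))
        have b2 := Submodule.add_mem _
          (dual_mem_P ((LinearMap.snd F F F).comp (LinearMap.fst F (F × F) W)))
          (QCount_comp h1 (LinearMap.snd F (F × F) W))
        exact Submodule.add_mem _ (mul_mem_P (d := 1) (e := 1) b1 b2)
          (QCount_comp h3 (LinearMap.snd F (F × F) W))
      · rw [QCount_bias_phi]
        change 1 / 2 * bias q1 = _
        rw [h4, pow_succ]
        field_simp
      · funext ⟨⟨a, b⟩, w⟩
        simp only [QCount_phi, D_apply, Prod.mk_add_mk, add_zero, Pi.one_apply]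
        generalize l1 w = c0; generalize l2 w = c1; generalize q1 w = c2
        revert a b c0 c1 c2
        decide
  rw [himg, Set.ncard_image_of_injective _ hinj, Set.ncard_prod, Set.ncard_prod, hP2, qa]
  ring

theorem QCount_ne {V : Type} [Nonempty V] : (0 : V → F) ≠ 1 := fun h => by
  have := congrFun h (Classical.arbitrary V)
  simp at this

/-- for `q` of bias `β ≠ 0` the pairs `(x,y)` with `D x (D y q) = 1`: `y ∉ Per q`, and half of all `x` -/
theorem pairs_count {V : Type} [AddCommGroup V] [Module F V] [Finite V] {q : V → F} (hq : q ∈ P V 3)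
    (h : bias q ≠ 0) :
    ({z : V × V | D z.1 (D z.2 q) = 1}.ncard : ℝ) = (1 - bias q ^ 2) * Nat.card V ^ 2 / 2 := by
  have h0 : (0 : ℝ) < Nat.card V := by exact_mod_cast Nat.card_pos
  have e1 := av_indicator {z : V × V | D z.1 (D z.2 q) = 1}
  rw [av_prod, av_comm, Nat.card_prod] at e1
  have key : ∀ y : V, (av fun x : V =>
      {z : V × V | D z.1 (D z.2 q) = 1}.indicator (fun _ => (1 : ℝ)) (x, y)) =
      1 / 2 + (-1 / 2) * (Per q : Set V).indicator (fun _ => (1 : ℝ)) y := fun y => by
    by_cases hy : y ∈ Per q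
    · have : ∀ x : V, {z : V × V | D z.1 (D z.2 q) = 1}.indicator (fun _ => (1 : ℝ)) (x, y) = 0 :=
        fun x => Set.indicator_of_notMem (by
          change ¬ D x (D y q) = 1
          rw [mem_Per.1 hy, map_zero]
          exact QCount_ne) _
      simp only [this]
      rw [av_const, Set.indicator_of_mem (show y ∈ (Per q : Set V) from hy)]
      norm_num
    · obtain ⟨l, c, hl⟩ := mem_P_two.1 (mem_P_succ.1 hq y)
      have l0 : l ≠ 0 := by
        rintro rfl
        have hc := QCount_two c
        rcases hc with rfl | rfl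
        · exact hy (mem_Per.2 (by rw [hl]; funext x; simp))
        · exact h (bias_eq_zero_of_D (y := y) (by rw [hl]; funext x; simp))
      have hD : ∀ x, D x (D y q) = fun _ => l x := fun x => by
        rw [hl]
        funext u
        simp only [D_apply, map_add]
        exact (by decide : ∀ a b c : F, a + b + c + (a + c) = b) _ _ _
      have : ∀ x : V, {z : V × V | D z.1 (D z.2 q) = 1}.indicator (fun _ => (1 : ℝ)) (x, y) =
          1 / 2 + (-1 / 2) * chi (l x + 0) := fun x => by
        have hc : l x = 0 ∨ l x = 1 := by generalize l x = a; revert a; decide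
        rcases hc with hc | hc
        · rw [Set.indicator_of_notMem, hc, add_zero, chi_zero]
          · norm_num
          · change ¬ D x (D y q) = 1
            rw [hD, hc]
            exact QCount_ne
        · rw [Set.indicator_of_mem, hc, add_zero, chi_one]
          · norm_num
          · change D x (D y q) = 1
            rw [hD, hc]
            rfl
      simp only [this]
      have hb := bias_dual l0 0
      unfold bias at hb
      rw [av_add, av_const, av_mul_left, hb,
        Set.indicator_of_notMem (show y ∉ (Per q : Set V) from hy)]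
  simp only [key] at e1
  rw [av_add, av_const, av_mul_left, av_indicator, ← Nat.card_coe_set_eq] at e1
  have e2 := quad_bias_sq hq h
  change bias q ^ 2 = (Nat.card (Per q : Set V) : ℝ) / Nat.card V at e2
  rw [← e2, eq_div_iff (by push_cast; positivity)] at e1
  rw [← e1]
  push_cast
  ring

theorem QCount_equiv {V : Type} [AddCommGroup V] [Module F V] [Finite V] {n : ℕ}
    (hV : finrank F V = n + 2) {x y : V} (hx : x ≠ 0) (hy : y ≠ 0) (hxy : y ≠ x) :
    ∃ e : ((F × F) × (Fin n → F)) ≃ₗ[F] V, e ((1, 0), 0) = x ∧ e ((0, 1), 0) = y := by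
  let φ : (F × F) →ₗ[F] V :=
    (LinearMap.toSpanSingleton F V x).coprod (LinearMap.toSpanSingleton F V y)
  have hφ : Function.Injective φ := by
    rw [← LinearMap.ker_eq_bot, LinearMap.ker_eq_bot']
    rintro ⟨a, b⟩ hab
    have e : a • x + b • y = 0 := by simpa [φ] using hab
    rcases QCount_two a with rfl | rfl <;> rcases QCount_two b with rfl | rfl
    · rfl
    · exact absurd (by simpa using e) hy
    · exact absurd (by simpa using e) hx
    · rw [one_smul, one_smul, ← add_self_V x] at e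
      exact absurd (add_left_cancel e) hxy
  obtain ⟨U, hU⟩ := (LinearMap.range φ).exists_isCompl
  have h1 := Submodule.finrank_add_eq_of_isCompl hU
  rw [LinearMap.finrank_range_of_inj hφ, hV] at h1
  have h2 : finrank F (Fin n → F) = finrank F U := by
    simp only [finrank_prod, finrank_self] at h1
    rw [finrank_fin_fun]; omega
  refine ⟨((LinearEquiv.ofInjective φ hφ).prodCongr (LinearEquiv.ofFinrankEq _ _ h2)).trans
    (Submodule.prodEquivOfIsCompl _ _ hU), ?_, ?_⟩ <;> simp [φ]

theorem QCount_fib {V : Type} [AddCommGroup V] [Module F V] [Finite V] {n : ℕ}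
    (hV : finrank F V = n + 2) (h : ℕ) {x y : V} (hx : x ≠ 0) (hy : y ≠ 0) (hxy : y ≠ x) :
    {q : V → F | q ∈ P V 3 ∧ bias q = 1 / 2 ^ (h + 1) ∧ D x (D y q) = 1}.ncard =
      (2 * 2 ^ n) ^ 2 * qa (Fin n → F) h := by
  obtain ⟨e, e1, e2⟩ := QCount_equiv hV hx hy hxy
  have hc : Nat.card (Fin n → F) = 2 ^ n := by rw [card_V, finrank_fin_fun]
  rw [← hc, ← qa_split]
  symm
  refine QCount_ncard e.toEquiv _ _ fun q =>
    and_congr (QCount_mem e 3 q) (and_congr (by rw [QCount_bias e.toEquiv q]) ?_)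
  have hD : ∀ u (f : V → F), D u (fun v => f (e v)) = fun v => D (e u) f (e v) := fun u f => by
    funext v
    simp only [D_apply, map_add]
  change D _ (D _ fun v => q (e v)) = 1 ↔ _
  rw [hD, hD, e1, e2]
  constructor
  · intro h'
    funext v
    simpa using congrFun h' (e.symm v)
  · intro h'
    rw [h']
    rfl

/-- double counting of `(q, x, y)`: `x, y` are linearly independent, there are `(2^n - 1)(2^n - 2)` such
pairs, and each is moved to the standard pair by a linear equivalence `V ≃ (F × F) × W` -/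
theorem qa_rec (V : Type) [AddCommGroup V] [Module F V] [Finite V] {n : ℕ} (hV : finrank F V = n + 2)
    (h : ℕ) :
    (qa V (h + 1) : ℝ) * ((1 - (1 / 2 ^ (h + 1)) ^ 2) * (2 ^ (n + 2)) ^ 2 / 2) =
      (2 ^ (n + 2) - 1) * (2 ^ (n + 2) - 2) * ((2 * 2 ^ n) ^ 2 * qa (Fin n → F) h) := by
  classical
  have := Fintype.ofFinite V
  have hc : Nat.card V = 2 ^ (n + 2) := by rw [card_V, hV]
  have hc' : (Fintype.card V : ℝ) = 2 ^ (n + 2) := by
    rw [← Nat.card_eq_fintype_card, hc]; push_cast; rfl
  let Q : Finset (V → F) := Finset.univ.filter fun q => q ∈ P V 3 ∧ bias q = 1 / 2 ^ (h + 1)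
  have hQ : qa V (h + 1) = Q.card := by
    rw [qa, ← Set.ncard_coe_finset]; congr 1; ext q; simp [Q]
  have e1 : ∀ q ∈ Q, ∑ z : V × V, (if D z.1 (D z.2 q) = 1 then (1 : ℝ) else 0) =
      (1 - (1 / 2 ^ (h + 1)) ^ 2) * (2 ^ (n + 2)) ^ 2 / 2 := fun q hq => by
    obtain ⟨-, h1, h2⟩ := Finset.mem_filter.1 hq
    have h3 := pairs_count h1 (by rw [h2]; positivity)
    rw [h2, hc] at h3
    push_cast at h3
    rw [← h3, Finset.sum_boole, ← Set.ncard_coe_finset]
    congr 2
    ext z
    simp
  have e2 : ∀ x y : V, ∑ q ∈ Q, (if D x (D y q) = 1 then (1 : ℝ) else 0) =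
      if x ≠ 0 then (if y ∉ ({0, x} : Finset V) then
        ((2 * 2 ^ n) ^ 2 * qa (Fin n → F) h : ℝ) else 0) else 0 := fun x y => by
    by_cases hx : x = 0
    · subst hx
      simp [D_zero]
    rw [if_pos hx]
    by_cases hy : y = 0
    · subst hy
      simp [D_zero]
    by_cases hxy : y = x
    · subst hxy
      simp [D_D_self]
    rw [if_pos (by simp [hy, hxy]), Finset.sum_boole]
    have h3 := QCount_fib hV h hx hy hxy
    have h4 : (Q.filter fun q => D x (D y q) = 1).card =
        {q : V → F | q ∈ P V 3 ∧ bias q = 1 / 2 ^ (h + 1) ∧ D x (D y q) = 1}.ncard := by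
      rw [← Set.ncard_coe_finset]; congr 1; ext q; simp [Q, and_assoc]
    rw [h4, h3]
    push_cast
    rfl
  have e3 : ∀ x : V, ∑ y : V, (if x ≠ 0 then (if y ∉ ({0, x} : Finset V) then
        ((2 * 2 ^ n) ^ 2 * qa (Fin n → F) h : ℝ) else 0) else 0) =
      if x ∉ ({0} : Finset V) then (2 ^ (n + 2) - 2) * ((2 * 2 ^ n) ^ 2 * qa (Fin n → F) h : ℝ)
        else 0 := fun x => by
    by_cases hx : x = 0
    · simp [hx]
    · simp only [if_pos hx]
      rw [if_pos (by simpa using hx), ← Finset.sum_filter, Finset.sum_const, nsmul_eq_mul]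
      congr 1
      have : (Finset.univ.filter fun y => y ∉ ({0, x} : Finset V)) = ({0, x} : Finset V)ᶜ := by
        ext y; simp
      rw [this, Finset.card_compl, Nat.cast_sub (Finset.card_le_univ _), hc',
        Finset.card_pair (Ne.symm hx)]
      rfl
  rw [hQ, ← nsmul_eq_mul, ← Finset.sum_const, ← Finset.sum_congr rfl e1, Finset.sum_comm,
    Fintype.sum_prod_type]
  simp only [e2, e3]
  rw [← Finset.sum_filter, Finset.sum_const, nsmul_eq_mul, mul_assoc]
  congr 1
  have : (Finset.univ.filter fun y => y ∉ ({0} : Finset V)) = ({0} : Finset V)ᶜ := by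
    ext y; simp
  rw [this, Finset.card_compl, Nat.cast_sub (Finset.card_le_univ _), hc', Finset.card_singleton,
    Nat.cast_one]

/-- induction on `h` from `qa_rec`; limit `2^(2h - h²) / prod (4^j - 1)` -/
theorem qa_lim (h : ℕ) :
    Tendsto (fun n : ℕ => (qa (Fin n → F) h : ℝ) / 2 ^ (2 * h * n)) atTop
      (𝓝 (2 ^ (2 * h) / (2 ^ (h ^ 2) * ∏ j ∈ Finset.range h, ((4 : ℝ) ^ (j + 1) - 1)))) := by
  induction h with
  | zero => simp [qa_zero]
  | succ h ih =>
    rw [← tendsto_add_atTop_iff_nat 2]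
    have t0 : Tendsto (fun n : ℕ => (1 / 2 : ℝ) ^ n) atTop (𝓝 0) :=
      tendsto_pow_atTop_nhds_zero_of_lt_one (by norm_num) (by norm_num)
    have p4 : ∀ j : ℕ, (0 : ℝ) < 4 ^ (j + 1) - 1 := fun j => by
      have : (1 : ℝ) < 4 ^ (j + 1) := one_lt_pow₀ (by norm_num) (by omega)
      linarith
    have e4 : ∀ j : ℕ, (4 : ℝ) ^ j = (2 ^ j) ^ 2 := fun j => by
      rw [← pow_mul, mul_comm, pow_mul]; norm_num
    have t1 := (((t0.const_mul (1 / 4)).const_sub 1).mul ((t0.const_mul (1 / 2)).const_sub 1)).mul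
      (ih.const_mul (2 / (4 ^ h * (4 ^ (h + 1) - 1))))
    have hp : (0 : ℝ) < ∏ j ∈ Finset.range h, ((4 : ℝ) ^ (j + 1) - 1) :=
      Finset.prod_pos fun j _ => p4 j
    have hl : (1 - 1 / 4 * 0) * (1 - 1 / 2 * 0) * (2 / (4 ^ h * (4 ^ (h + 1) - 1)) *
        (2 ^ (2 * h) / (2 ^ (h ^ 2) * ∏ j ∈ Finset.range h, ((4 : ℝ) ^ (j + 1) - 1)))) =
        2 ^ (2 * (h + 1)) / (2 ^ ((h + 1) ^ 2) *
          ∏ j ∈ Finset.range (h + 1), ((4 : ℝ) ^ (j + 1) - 1)) := by
      have a1 : (2 : ℝ) ^ ((h + 1) ^ 2) = 2 ^ (h ^ 2) * 4 ^ h * 2 := by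
        rw [e4, ← pow_mul, ← pow_add, ← pow_succ]; congr 1; ring
      have a2 : (2 : ℝ) ^ (2 * (h + 1)) = 2 ^ (2 * h) * 4 := by
        rw [mul_add, pow_add]; norm_num
      rw [Finset.prod_range_succ, a1, a2]
      have := (p4 h).ne'
      field_simp
      ring
    rw [hl] at t1
    refine t1.congr fun n => ?_
    have r := qa_rec (Fin (n + 2) → F) (n := n) (finrank_fin_fun F) h
    have a3 : (2 : ℝ) ^ (2 * (h + 1) * (n + 2)) = 2 ^ (2 * h * n) * (2 ^ n) ^ 2 * (2 ^ h) ^ 4 * 16 := by
      rw [show (16 : ℝ) = 2 ^ 4 by norm_num, ← pow_mul, ← pow_mul, ← pow_add, ← pow_add, ← pow_add]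
      congr 1; ring
    have a4 := (p4 h).ne'
    rw [a3, one_div_pow, pow_succ (4 : ℝ) h, e4 h] at *
    rw [pow_add, pow_add] at r
    generalize (qa (Fin (n + 2) → F) (h + 1) : ℝ) = A at *
    generalize (qa (Fin n → F) h : ℝ) = B at *
    have b1 : (0 : ℝ) < 2 ^ n := by positivity
    have b2 : (0 : ℝ) < 2 ^ h := by positivity
    have b3 : (0 : ℝ) < 2 ^ (2 * h * n) := by positivity
    generalize (2 : ℝ) ^ n = N at *
    generalize (2 : ℝ) ^ h = H at *
    generalize (2 : ℝ) ^ (2 * h * n) = K at *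
    field_simp at r ⊢
    linarith

end Pool.Agent.P.MP_cb6780_lc
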