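import Pool.Agent.P.MP_cb6780_lc.Res

set_option autoImplicit false

namespace Pool.Agent.P.MP_cb6780_lc

open Module

variable {V : Type} [AddCommGroup V] [Module F V]

theorem Res2_proj (U : Submodule F V) : ∃ π : V →ₗ[F] U, ∀ u : U, π u = u := by
  obtain ⟨π, hπ⟩ := U.subtype.exists_leftInverse_of_injective U.ker_subtype
  exact ⟨π, fun u => LinearMap.congr_fun hπ u⟩

/-- every function of degree `< d` on a coset extends (compose with a projection onto `U`) -/
theorem res_surj (U : Submodule F V) (a : V) {d : ℕ} {g : U → F} (hg : g ∈ P U d) :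
    ∃ f ∈ P V d, res U a f = g := by
  obtain ⟨π, hπ⟩ := Res2_proj U
  refine ⟨_, comp_mem_P hg π (π a), funext fun u => ?_⟩
  rw [res_apply, map_add, hπ, add_assoc, add_self_V, add_zero]

theorem Res2_fib {X Y : Type} [AddCommGroup X] [AddCommGroup Y] (S : AddSubgroup X)
    (T : AddSubgroup Y) (R : X →+ Y) (h1 : ∀ f ∈ S, R f ∈ T) (h2 : ∀ g ∈ T, ∃ f ∈ S, R f = g)
    (A : Set Y) :
    {f | f ∈ S ∧ R f ∈ A}.ncard = {g | g ∈ T ∧ g ∈ A}.ncard * {f | f ∈ S ∧ R f = 0}.ncard := by
  choose! σ h3 h4 using h2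
  rw [← Nat.card_coe_set_eq, ← Nat.card_coe_set_eq, ← Nat.card_coe_set_eq, ← Nat.card_prod]
  refine Nat.card_congr
    { toFun := fun f => (⟨R f.1, h1 _ f.2.1, f.2.2⟩, ⟨f.1 - σ (R f.1),
        S.sub_mem f.2.1 (h3 _ (h1 _ f.2.1)), by rw [map_sub, h4 _ (h1 _ f.2.1), sub_self]⟩)
      invFun := fun p => ⟨p.2.1 + σ p.1.1, S.add_mem p.2.2.1 (h3 _ p.1.2.1), by
        rw [map_add, p.2.2.2, h4 _ p.1.2.1, zero_add]; exact p.1.2.2⟩
      left_inv := fun f => Subtype.ext (sub_add_cancel _ _)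
      right_inv := fun p => ?_ }
  have h5 : R (p.2.1 + σ p.1.1) = p.1.1 := by rw [map_add, p.2.2.2, h4 _ p.1.2.1, zero_add]
  refine Prod.ext (Subtype.ext h5) (Subtype.ext ?_)
  show p.2.1 + σ p.1.1 - σ (R (p.2.1 + σ p.1.1)) = p.2.1
  rw [h5, add_sub_cancel_right]

/-- all fibres of the restriction map have the same size -/
theorem ncard_res_pre [Finite V] (U : Submodule F V) (a : V) (d : ℕ) (A : Set (U → F)) :
    {f | f ∈ P V d ∧ res U a f ∈ A}.ncard * cP (finrank F U) d =
      {g | g ∈ P U d ∧ g ∈ A}.ncard * cP (finrank F V) d := by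
  have h := Res2_fib (P V d).toAddSubgroup (P U d).toAddSubgroup (res U a).toAddMonoidHom
    (fun f hf => res_mem_P hf U a) (fun g hg => res_surj U a hg)
  have h1 : {f | f ∈ P V d ∧ res U a f ∈ A}.ncard =
      {g | g ∈ P U d ∧ g ∈ A}.ncard * {f | f ∈ P V d ∧ res U a f = 0}.ncard := h A
  have h2 : {f | f ∈ P V d ∧ res U a f ∈ Set.univ}.ncard =
      {g | g ∈ P U d ∧ g ∈ Set.univ}.ncard * {f | f ∈ P V d ∧ res U a f = 0}.ncard := h Set.univ
  simp only [Set.mem_univ, and_true] at h2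
  have h3 : {f | f ∈ P V d}.ncard = cP (finrank F V) d := by
    rw [← card_P, ← Nat.card_coe_set_eq]; rfl
  have h4 : {f | f ∈ P U d}.ncard = cP (finrank F U) d := by
    rw [← card_P, ← Nat.card_coe_set_eq]; rfl
  rw [h1, ← h3, h2, h4]
  ring

theorem Res2_av_sum {X W : Type} [Finite W] [Nonempty W] (s : Finset X) (g : X → W → ℝ) :
    av (fun w => ∑ x ∈ s, g x w) = ∑ x ∈ s, av (g x) := by
  classical
  induction s using Finset.induction_on with
  | empty => simpa using av_const (V := W) 0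
  | insert x s hx ih =>
    simp only [Finset.sum_insert hx]
    rw [av_add, ih]

theorem Res2_quad (U : Submodule F V) {a b : V} (hab : a + b ∉ U) (l : Dual F U) :
    ∃ k ∈ P V 3, res U a k = 0 ∧ res U b k = fun x => l x := by
  obtain ⟨π, hπ⟩ := Res2_proj U
  obtain ⟨lam, h1, h2⟩ := Submodule.exists_dual_map_eq_bot_of_notMem hab inferInstance
  have h3 : ∀ u : U, lam u = 0 := fun u => by
    have : lam u ∈ U.map lam := Submodule.mem_map_of_mem u.2
    rw [h2] at this
    exact this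
  have h4 : lam (a + b) = 1 := by
    generalize lam (a + b) = t at h1
    revert t
    decide
  refine ⟨(fun x => lam x + lam a) * fun x => (l.comp π) x + l (π b),
    mul_mem_P (d := 1) (e := 1) (mem_P_two.2 ⟨lam, _, rfl⟩) (mem_P_two.2 ⟨l.comp π, _, rfl⟩),
    funext fun u => ?_, funext fun u => ?_⟩
  · rw [res_apply, Pi.mul_apply, ← map_add, add_assoc, add_self_V, add_zero, h3, zero_mul]
    rfl
  · rw [res_apply, Pi.mul_apply, ← map_add, add_assoc, map_add, h3, add_comm b a, h4, zero_add,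
      one_mul, LinearMap.comp_apply, ← map_add, ← map_add, add_assoc, add_self_V, add_zero, hπ]

/-- second moment on another coset.  For `l : Dual F U` the quadratic function
`k_l x = λ (x + a) * l (π (x + b))` (`λ` vanishes on `U`, `λ (a + b) = 1`, `π` a projection onto
`U`) has `res U a k_l = 0`, `res U b k_l = l`; adding it permutes the set;
then `av_bias_sq_dual`. -/
theorem sum_bias_sq [Finite V] (U : Submodule F V) {a b : V} (hab : a + b ∉ U) {d : ℕ} (hd : 3 ≤ d)
    (A : Set (U → F)) :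
    ∑ᶠ f ∈ {f | f ∈ P V d ∧ res U a f ∈ A}, bias (res U b f) ^ 2 =
      ({f | f ∈ P V d ∧ res U a f ∈ A}.ncard : ℝ) / Nat.card U := by
  have hfin : {f | f ∈ P V d ∧ res U a f ∈ A}.Finite := Set.toFinite _
  have : Finite (Dual F U) := Finite.of_injective (fun l : Dual F U => (l : U → F))
    DFunLike.coe_injective
  rw [finsum_mem_eq_finite_toFinset_sum _ hfin, Set.ncard_eq_toFinset_card _ hfin]
  have h1 : ∀ l : Dual F U, ∑ f ∈ hfin.toFinset, bias (res U b f) ^ 2 =
      ∑ f ∈ hfin.toFinset, bias (res U b f + fun x => l x) ^ 2 := by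
    intro l
    obtain ⟨k, k1, k2, k3⟩ := Res2_quad U hab l
    have k4 : ∀ f ∈ hfin.toFinset, f + k ∈ hfin.toFinset := by
      intro f hf
      rw [Set.Finite.mem_toFinset] at hf ⊢
      exact ⟨(P V d).add_mem hf.1 (P_mono hd k1), by rw [map_add, k2, add_zero]; exact hf.2⟩
    have k5 : ∀ f : V → F, f + k + k = f := fun f => by
      rw [add_assoc, add_self_fun, add_zero]
    symm
    refine Finset.sum_nbij' (fun f => f + k) (fun f => f + k) k4 k4 (fun f _ => k5 f)
      (fun f _ => k5 f) fun f _ => ?_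
    rw [map_add, k3]
  rw [← av_const (V := Dual F U) (∑ f ∈ hfin.toFinset, bias (res U b f) ^ 2), funext h1,
    Res2_av_sum hfin.toFinset fun f (l : Dual F U) => bias (res U b f + fun x => l x) ^ 2,
    Finset.sum_congr rfl fun f _ => av_bias_sq_dual (res U b f), Finset.sum_const, nsmul_eq_mul,
    mul_one_div]

/-- Chebyshev: for most extensions the other cosets contribute little
(`bias_split`, `sq_av_le`, `sum_bias_sq`) -/
theorem cheb [Finite V] (U : Submodule F V) (a : V) {d : ℕ} (hd : 3 ≤ d) (A : Set (U → F))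
    {γ : ℝ} (hγ : 0 < γ) :
    ({f | (f ∈ P V d ∧ res U a f ∈ A) ∧
        bias f < (Nat.card U : ℝ) / Nat.card V * bias (res U a f) - γ}.ncard : ℝ) ≤
      ({f | f ∈ P V d ∧ res U a f ∈ A}.ncard : ℝ) / (γ ^ 2 * Nat.card U) := by
  have hfin : {f | f ∈ P V d ∧ res U a f ∈ A}.Finite := Set.toFinite _
  have hfin' : {f | (f ∈ P V d ∧ res U a f ∈ A) ∧
      bias f < (Nat.card U : ℝ) / Nat.card V * bias (res U a f) - γ}.Finite := Set.toFinite _
  let h : (V → F) → V → ℝ := fun f b =>
    ({b : V | a + b ∉ U}.indicator (fun b => bias (res U b f)) b) ^ 2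
  have hU : (0 : ℝ) < Nat.card U := by exact_mod_cast Nat.card_pos
  have h0 : ∀ f, 0 ≤ av (h f) := fun f =>
    (sq_nonneg _).trans (sq_av_le ({b : V | a + b ∉ U}.indicator fun b => bias (res U b f)))
  have h1 : ∀ f ∈ hfin'.toFinset, γ ^ 2 ≤ av (h f) := by
    intro f hf
    rw [Set.Finite.mem_toFinset] at hf
    have h2 := hf.2
    rw [bias_split U a f] at h2
    refine le_trans ?_ (sq_av_le ({b : V | a + b ∉ U}.indicator fun b => bias (res U b f)))
    nlinarith
  have h2 : ∑ f ∈ hfin.toFinset, av (h f) ≤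
      ({f | f ∈ P V d ∧ res U a f ∈ A}.ncard : ℝ) / Nat.card U := by
    rw [← Res2_av_sum, ← av_const (V := V) (_ / _)]
    refine av_mono fun b => ?_
    by_cases hb : a + b ∉ U
    · rw [← sum_bias_sq U hb hd A, finsum_mem_eq_finite_toFinset_sum _ hfin]
      refine le_of_eq (Finset.sum_congr rfl fun f _ => ?_)
      simp only [h]
      rw [Set.indicator_of_mem (show b ∈ {b : V | a + b ∉ U} from hb)]
    · rw [Finset.sum_eq_zero]
      · positivity
      · intro f _
        simp only [h]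
        rw [Set.indicator_of_notMem (show b ∉ {b : V | a + b ∉ U} from hb)]
        ring
  have h3 : ∑ f ∈ hfin'.toFinset, av (h f) ≤ ∑ f ∈ hfin.toFinset, av (h f) := by
    refine Finset.sum_le_sum_of_subset_of_nonneg (fun f hf => ?_) fun f _ _ => h0 f
    rw [Set.Finite.mem_toFinset] at hf ⊢
    exact hf.1
  have h4 := Finset.card_nsmul_le_sum _ _ _ h1
  rw [nsmul_eq_mul] at h4
  rw [Set.ncard_eq_toFinset_card _ hfin', mul_comm, ← div_div, le_div_iff₀ (by positivity)]
  linarith

end Pool.Agent.P.MP_cb6780_lc
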