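import Pool.Agent.P.MP_cb6780_lc.KT2
import Pool.Agent.P.MP_cb6780_lc.Res2
import Pool.Agent.P.MP_cb6780_lc.QCount

set_option autoImplicit false

/-! Number of cubic functions of bias `≥ θ > 1/2`. -/

namespace Pool.Agent.P.MP_cb6780_lc

open Module Filter Topology

section
variable {V : Type} [AddCommGroup V] [Module F V] [Finite V]

/-- cubics in a hyperplane with bias `(1 + 2^(-h)) / 2` -/
def Eh (V : Type) [AddCommGroup V] [Module F V] (h : ℕ) : Set (V → F) :=
  {g | g ∈ P V 4 ∧ InHyp g ∧ bias g = (1 + 1 / 2 ^ h) / 2}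

omit [Finite V] in
theorem kHyp_cancel (x a : V) : x + a + a = x := by
  rw [add_assoc, add_self_V, add_zero]

omit [Finite V] in
theorem kHyp_exists {H : Submodule F V} (hH : finrank F H + 1 = finrank F V) : ∃ e, e ∉ H := by
  by_contra h
  have h1 : H = ⊤ := eq_top_iff.2 fun x _ => by
    by_contra hx
    exact h ⟨x, hx⟩
  rw [h1, finrank_top] at hH
  omega

theorem kHyp_add {H : Submodule F V} (hH : finrank F H + 1 = finrank F V) {x y : V} (hx : x ∉ H)
    (hy : y ∉ H) : x + y ∈ H := by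
  have h1 := H.finrank_quotient_add_finrank
  have h2 : finrank F (V ⧸ H) = 1 := by omega
  have : Finite (V ⧸ H) := Finite.of_surjective _ H.mkQ_surjective
  have h3 : Nat.card (V ⧸ H) = 2 := by rw [card_V, h2, pow_one]
  obtain ⟨z, -, hz⟩ := (Nat.card_eq_two_iff' (0 : V ⧸ H)).1 h3
  have h4 : (Submodule.Quotient.mk x : V ⧸ H) = Submodule.Quotient.mk y :=
    (hz _ fun h => hx ((Submodule.Quotient.mk_eq_zero H).1 h)).trans
      (hz _ fun h => hy ((Submodule.Quotient.mk_eq_zero H).1 h)).symm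
  have h5 := (Submodule.Quotient.eq H).1 h4
  have h6 : x + y = x - y + (y + y) := by abel
  rw [h6, add_self_V, add_zero]
  exact h5

omit [Finite V] in
theorem kHyp_res_zero {H : Submodule F V} {a b : V} {g : V → F} (h0 : ∀ x, x + a ∉ H → g x = 0)
    (hb : a + b ∉ H) : res H b g = 0 := by
  funext u
  refine h0 _ fun h => hb ?_
  have h1 : a + b = (u : V) + b + a - u := by abel
  rw [h1]
  exact H.sub_mem h u.2

theorem kHyp_bias {H : Submodule F V} (hH : finrank F H + 1 = finrank F V) {a : V} {g : V → F}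
    (h0 : ∀ x, x + a ∉ H → g x = 0) : bias g = (1 + bias (res H a g)) / 2 := by
  have h1 := bias_split H a g
  have h2 := bias_split H a (0 : V → F)
  have h3 : ({b : V | a + b ∉ H}.indicator fun b => bias (res H b g)) =
      {b : V | a + b ∉ H}.indicator fun b => bias (res H b (0 : V → F)) :=
    Set.indicator_congr fun b hb => by
      show bias (res H b g) = bias (res H b 0)
      rw [kHyp_res_zero h0 hb, map_zero]
  rw [h3] at h1
  rw [map_zero, bias_zero, bias_zero] at h2
  rw [card_sub H hH] at h1 h2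
  linarith

theorem kHyp_deg {H : Submodule F V} (hH : finrank F H + 1 = finrank F V) {a : V} {g : V → F}
    {d : ℕ} (hg : g ∈ P V (d + 1)) (h0 : ∀ x, x + a ∉ H → g x = 0) : res H a g ∈ P H d := by
  obtain ⟨e, he⟩ := kHyp_exists hH
  have h1 := res_add_res hg H a (a + e)
  rw [kHyp_res_zero h0 (b := a + e) (by rwa [← add_assoc, add_self_V, zero_add]), add_zero] at h1
  exact h1

/-- a cubic vanishing off `a + H` restricts to a quadratic on `H` (`res_add_res` with the other coset),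
with `bias g = (1 + bias (res H a g)) / 2`; conversely `ind H a * (extension of q)` is cubic -/
theorem hyp_count {H : Submodule F V} (hH : finrank F H + 1 = finrank F V) (a : V) (h : ℕ) :
    {g | g ∈ P V 4 ∧ (∀ x, x + a ∉ H → g x = 0) ∧ bias g = (1 + 1 / 2 ^ h) / 2}.ncard = qa H h := by
  unfold qa
  refine Set.ncard_congr (fun g _ => res H a g) (fun g hg => ⟨kHyp_deg hH hg.1 hg.2.1, ?_⟩)
    (fun g g' hg hg' he => ?_) fun q hq => ?_
  · have h1 := kHyp_bias hH hg.2.1
    have h2 := hg.2.2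
    linarith
  · funext x
    by_cases hx : x + a ∈ H
    · have h1 : g (x + a + a) = g' (x + a + a) := congrFun he ⟨x + a, hx⟩
      rwa [kHyp_cancel] at h1
    · rw [hg.2.1 x hx, hg'.2.1 x hx]
  · obtain ⟨f, hf, hfq⟩ := res_surj H a hq.1
    have h0 : ∀ x, x + a ∉ H → (ind H a * f) x = 0 := fun x hx => by
      rw [Pi.mul_apply, ind, if_neg hx, zero_mul]
    have h1 : res H a (ind H a * f) = q := by
      rw [← hfq]
      funext u
      rw [res_apply, res_apply, Pi.mul_apply, ind, if_pos (by rw [kHyp_cancel]; exact u.2), one_mul]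
    refine ⟨ind H a * f, ⟨mul_mem_P (d := 1) (e := 2) (ind_mem_P hH a) hf, h0, ?_⟩, h1⟩
    rw [kHyp_bias hH h0, h1, hq.2]

theorem inHyp_bias {g : V → F} (hg : g ∈ P V 4) (hH : InHyp g) (h : 1 / 2 < bias g) :
    ∃ h : ℕ, g ∈ Eh V h := by
  obtain ⟨H, a, hH', h0⟩ := id hH
  have h1 := kHyp_bias hH' h0
  obtain ⟨k, hk⟩ := quad_bias (kHyp_deg hH' hg h0) (by linarith)
  exact ⟨k, hg, hH, by rw [h1, hk]⟩

theorem kHyp_affine {r : V → F} (hr : r ∈ P V 2) : bias r = 1 ∨ bias r = 0 ∨ bias r = -1 := by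
  obtain ⟨l, c, rfl⟩ := mem_P_two.1 hr
  by_cases hl : l = 0
  · have hc : c = 0 ∨ c = 1 := (by decide : ∀ c : F, c = 0 ∨ c = 1) c
    rcases hc with rfl | rfl
    · have h1 : (fun x => l x + 0) = (0 : V → F) := by funext x; simp [hl]
      exact Or.inl (by rw [h1, bias_zero])
    · have h1 : (fun x => l x + 1) = (0 : V → F) + 1 := by funext x; simp [hl]
      exact Or.inr (Or.inr (by rw [h1, bias_add_one, bias_zero]))
  · exact Or.inr (Or.inl (bias_dual hl c))

theorem kHyp_inf {H H' : Submodule F V} (hH : finrank F H + 1 = finrank F V)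
    (hH' : finrank F H' + 1 = finrank F V) (hne : H ≠ H') :
    finrank F (H'.comap H.subtype) + 1 = finrank F H := by
  have h1 := Submodule.finrank_map_subtype_eq H (H'.comap H.subtype)
  rw [Submodule.map_comap_subtype] at h1
  have h2 := Submodule.finrank_sup_add_finrank_inf_eq H H'
  have h3 : H < H ⊔ H' := by
    refine lt_of_le_of_ne le_sup_left fun h => hne ?_
    exact (Submodule.eq_of_le_of_finrank_eq (left_eq_sup.1 h) (by omega)).symm
  have h4 := Submodule.finrank_lt_finrank_of_lt h3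
  have h5 := Submodule.finrank_le (H ⊔ H')
  omega

/-- for `h ≥ 2` the hyperplane is unique: a function supported on a coset of codimension two is affine there,
so its bias is `1`, `3/4` or `1/2` -/
theorem hyp_unique {h : ℕ} (hh : 2 ≤ h) {g : V → F} (hg : g ∈ P V 4)
    (hb : bias g = (1 + 1 / 2 ^ h) / 2) {H H' : Submodule F V} {a a' : V}
    (hH : finrank F H + 1 = finrank F V) (hH' : finrank F H' + 1 = finrank F V)
    (h1 : ∀ x, x + a ∉ H → g x = 0) (h2 : ∀ x, x + a' ∉ H' → g x = 0) :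
    H = H' ∧ a + a' ∈ H := by
  have hp : (0 : ℝ) < 1 / 2 ^ h := by positivity
  have hq : (1 : ℝ) / 2 ^ h ≤ 1 / 2 ^ 2 :=
    one_div_le_one_div_of_le (by positivity) (pow_le_pow_right₀ one_le_two hh)
  obtain ⟨x, hx⟩ : ∃ x, g x ≠ 0 := by
    by_contra hno
    have h0 : g = 0 := funext fun x => by
      by_contra hx
      exact hno ⟨x, hx⟩
    rw [h0, bias_zero] at hb
    linarith
  have hxa : x + a ∈ H := by
    by_contra h
    exact hx (h1 x h)
  have hxa' : x + a' ∈ H' := by
    by_contra h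
    exact hx (h2 x h)
  have he : H = H' := by
    by_contra hne
    have hK := kHyp_inf hH hH' hne
    have h3 : ∀ u : H, u + ⟨x + a, hxa⟩ ∉ H'.comap H.subtype → res H a g u = 0 := by
      intro u hu
      refine h2 _ fun hm => hu ?_
      have h4 : (u : V) + (x + a) = (u : V) + a + a' + (x + a') - (a' + a') := by abel
      show (u : V) + (x + a) ∈ H'
      rw [h4, add_self_V, sub_zero]
      exact H'.add_mem hm hxa'
    have h4 := kHyp_bias hK h3
    have h5 := kHyp_affine (kHyp_deg hK (kHyp_deg hH hg h1) h3)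
    have h6 := kHyp_bias hH h1
    rcases h5 with h5 | h5 | h5 <;> rw [h5] at h4 <;> linarith
  refine ⟨he, ?_⟩
  have h4 : a + a' = x + a + (x + a') - (x + x) := by abel
  rw [h4, add_self_V, sub_zero]
  exact H.add_mem hxa (he ▸ hxa')

theorem kHyp_family {n : ℕ} (hV : finrank F V = n + 1) (h : ℕ) :
    ∃ (t : Set (Submodule F V × V)) (s : Submodule F V × V → Set (V → F)), t.Finite ∧
      Eh V h = ⋃ i ∈ t, s i ∧ ∑ᶠ i ∈ t, (s i).ncard = 2 * G V 1 * qa (Fin n → F) h ∧
      (2 ≤ h → t.PairwiseDisjoint s) := by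
  classical
  obtain ⟨e, he⟩ : ∃ e : Submodule F V → V, ∀ H : Submodule F V,
      finrank F H + 1 = finrank F V → e H ∉ H := by
    refine ⟨fun H => if hH : finrank F H + 1 = finrank F V then (kHyp_exists hH).choose else 0,
      fun H hH => ?_⟩
    dsimp only
    rw [dif_pos hH]
    exact (kHyp_exists hH).choose_spec
  obtain ⟨t, ht⟩ : ∃ t : Set (Submodule F V × V),
    t = {i | finrank F i.1 + 1 = finrank F V ∧ (i.2 = 0 ∨ i.2 = e i.1)} := ⟨_, rfl⟩
  have htf : t.Finite := Set.toFinite t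
  refine ⟨t, fun i => {g | g ∈ P V 4 ∧ (∀ x, x + i.2 ∉ i.1 → g x = 0) ∧
    bias g = (1 + 1 / 2 ^ h) / 2}, htf, ?_, ?_, fun hh i hi j hj hij => ?_⟩
  · ext g
    rw [Set.mem_iUnion₂, ht]
    constructor
    · rintro ⟨hg, ⟨H, a, hH, h0⟩, hb⟩
      by_cases ha : a ∈ H
      · refine ⟨(H, 0), ⟨hH, Or.inl rfl⟩, hg, fun x hx => h0 x fun hm => hx ?_, hb⟩
        have h1 : x + 0 = x + a - a := by abel
        show x + 0 ∈ H
        rw [h1]
        exact H.sub_mem hm ha
      · refine ⟨(H, e H), ⟨hH, Or.inr rfl⟩, hg, fun x hx => h0 x fun hm => hx ?_, hb⟩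
        have h1 : x + e H = x + a + (a + e H) - (a + a) := by abel
        show x + e H ∈ H
        rw [h1, add_self_V, sub_zero]
        exact H.add_mem hm (kHyp_add hH ha (he H hH))
    · rintro ⟨i, hi, hg, h0, hb⟩
      exact ⟨hg, ⟨i.1, i.2, hi.1, h0⟩, hb⟩
  · have h1 : ∀ i ∈ t, {g | g ∈ P V 4 ∧ (∀ x, x + i.2 ∉ i.1 → g x = 0) ∧
        bias g = (1 + 1 / 2 ^ h) / 2}.ncard = qa (Fin n → F) h := by
      intro i hi
      rw [ht] at hi
      rw [hyp_count hi.1]
      refine qa_congr (LinearEquiv.ofFinrankEq _ _ ?_) h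
      have h2 := hi.1
      rw [finrank_fin_fun]
      omega
    rw [finsum_mem_congr rfl h1, finsum_mem_eq_finite_toFinset_sum _ htf, Finset.sum_const,
      smul_eq_mul, ← Set.ncard_eq_toFinset_card t htf]
    have h2 : t = (fun H => (H, (0 : V))) '' {W : Submodule F V | finrank F W + 1 = finrank F V} ∪
        (fun H => (H, e H)) '' {W : Submodule F V | finrank F W + 1 = finrank F V} := by
      rw [ht]
      ext ⟨H, a⟩
      constructor
      · rintro ⟨hH, ha | ha⟩
        · exact Or.inl ⟨H, hH, Prod.ext rfl ha.symm⟩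
        · exact Or.inr ⟨H, hH, Prod.ext rfl ha.symm⟩
      · rintro (⟨K, hK, hp⟩ | ⟨K, hK, hp⟩)
        · rw [← hp]; exact ⟨hK, Or.inl rfl⟩
        · rw [← hp]; exact ⟨hK, Or.inr rfl⟩
    have h3 : t.ncard = 2 * G V 1 := by
      rw [h2, Set.ncard_union_eq, Set.ncard_image_of_injective, Set.ncard_image_of_injective, G,
        two_mul]
      · exact fun _ _ h => congrArg Prod.fst h
      · exact fun _ _ h => congrArg Prod.fst h
      · rw [Set.disjoint_left]
        rintro _ ⟨K, -, rfl⟩ ⟨K', hK', hp⟩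
        have h4 : e K' = 0 := congrArg Prod.snd hp
        exact he K' hK' (h4 ▸ K'.zero_mem)
    rw [h3]
  · rw [ht] at hi hj
    rw [Function.onFun, Set.disjoint_left]
    rintro g ⟨hg, h1, hb⟩ ⟨-, h2, -⟩
    obtain ⟨h3, h4⟩ := hyp_unique hh hg hb hi.1 hj.1 h1 h2
    refine hij (Prod.ext h3 ?_)
    have h5 := he _ hi.1
    rcases hi.2 with h6 | h6 <;> rcases hj.2 with h7 | h7
    · rw [h6, h7]
    · rw [h6, h7, ← h3, zero_add] at h4
      exact absurd h4 h5
    · rw [h6, h7, add_zero] at h4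
      exact absurd h4 h5
    · rw [h6, h7, h3]

/-- double counting of triples `(H, a, g)` -/
theorem Eh_le {n : ℕ} (hV : finrank F V = n + 1) (h : ℕ) :
    (Eh V h).ncard ≤ 2 * G V 1 * qa (Fin n → F) h := by
  obtain ⟨t, s, ht, h1, h2, -⟩ := kHyp_family hV h
  rw [h1, ← h2]
  exact ht.ncard_biUnion_le s

theorem Eh_eq {n : ℕ} (hV : finrank F V = n + 1) {h : ℕ} (hh : 2 ≤ h) :
    (Eh V h).ncard = 2 * G V 1 * qa (Fin n → F) h := by
  obtain ⟨t, s, ht, h1, h2, h3⟩ := kHyp_family hV h
  rw [h1, ← h2]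
  exact ht.ncard_biUnion (fun _ _ => Set.toFinite _) (h3 hh)

end

end Pool.Agent.P.MP_cb6780_lc
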