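import Pool.Agent.P.MP_cb6780_lc.KHyp

set_option autoImplicit false

namespace Pool.Agent.P.MP_cb6780_lc

open Module

section
variable {V : Type} [AddCommGroup V] [Module F V] [Finite V]

theorem khyp2_card_quot {Z : Submodule F V} {k : ℕ} (h : finrank F Z + k = finrank F V) :
    Nat.card (V ⧸ Z) = 2 ^ k := by
  have h1 := Submodule.finrank_quotient_add_finrank Z
  have h2 : finrank F (V ⧸ Z) = k := by omega
  have : Finite (V ⧸ Z) := Finite.of_surjective _ (Submodule.mkQ_surjective Z)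
  rw [card_V, h2]

theorem khyp2_mk_eq {Z : Submodule F V} {p q : V} :
    (Submodule.Quotient.mk p : V ⧸ Z) = Submodule.Quotient.mk q ↔ p + q ∈ Z := by
  rw [Submodule.Quotient.eq]
  have : p - q = p + q := by
    have := add_self_V q
    rw [sub_eq_add_neg, neg_eq_of_add_eq_zero_left this]
  rw [this]

/-- flats of codimension `k`, by `ind_eq_iff` -/
theorem flats_count (k : ℕ) :
    {g : V → F | ∃ (Z : Submodule F V) (p : V), finrank F Z + k = finrank F V ∧ g = ind Z p}.ncard =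
      2 ^ k * G V k := by
  classical
  have hfinS : Finite (Submodule F V) :=
    Finite.of_injective (fun W : Submodule F V => (W : Set V)) SetLike.coe_injective
  let I := {W : Submodule F V | finrank F W + k = finrank F V}
  have hq : ∀ Z : Submodule F V, Finite (V ⧸ Z) := fun Z =>
    Finite.of_surjective _ (Submodule.mkQ_surjective Z)
  choose sec hsec using fun (Z : Submodule F V) (x : V ⧸ Z) => Submodule.Quotient.mk_surjective Z x
  let φ : (Σ Z : I, V ⧸ Z.1) →
      {g : V → F | ∃ (Z : Submodule F V) (p : V), finrank F Z + k = finrank F V ∧ g = ind Z p} :=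
    fun x => ⟨ind x.1.1 (sec x.1.1 x.2), x.1.1, _, x.1.2, rfl⟩
  have hφ : Function.Bijective φ := by
    constructor
    · rintro ⟨⟨Z, hZ⟩, x⟩ ⟨⟨Z', hZ'⟩, x'⟩ hxy
      have h1 : ind Z (sec Z x) = ind Z' (sec Z' x') := congrArg Subtype.val hxy
      obtain ⟨rfl, h2⟩ := ind_eq_iff.1 h1
      have h3 : x = x' := by
        rw [← hsec Z x, ← hsec Z x']
        exact khyp2_mk_eq.2 h2
      subst h3
      rfl
    · rintro ⟨g, Z, p, hZ, rfl⟩
      refine ⟨⟨⟨Z, hZ⟩, Submodule.Quotient.mk p⟩, Subtype.ext ?_⟩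
      exact ind_eq_iff.2 ⟨rfl, khyp2_mk_eq.1 (hsec Z _)⟩
  rw [← Nat.card_coe_set_eq, ← Nat.card_eq_of_bijective φ hφ]
  have := Fintype.ofFinite I
  rw [Nat.card_sigma]
  have h4 : ∀ Z : I, Nat.card (V ⧸ Z.1) = 2 ^ k := fun Z => khyp2_card_quot Z.2
  simp only [h4, Finset.sum_const, Finset.card_univ, smul_eq_mul]
  rw [mul_comm, G, ← Nat.card_coe_set_eq, Nat.card_eq_fintype_card]

theorem N_h0 {θ : ℝ} (h1 : 3 / 4 < θ) (h2 : θ ≤ 1) : N V 4 θ = 1 := by
  unfold N
  have : {f : V → F | f ∈ P V 4 ∧ θ ≤ bias f} = {0} := by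
    ext f
    simp only [Set.mem_ofPred_eq, Set.mem_singleton_iff]
    constructor
    · rintro ⟨hf, hb⟩
      by_contra h0
      have := min_dist (d := 3) hf h0
      norm_num at this
      linarith
    · rintro rfl
      exact ⟨Submodule.zero_mem _, by rw [bias_zero]; exact h2⟩
  rw [this, Set.ncard_singleton]

theorem khyp2_bias_cube {Z : Submodule F V} (h : finrank F Z + 3 = finrank F V) (p : V) :
    bias (ind Z p) = 3 / 4 := by
  rw [bias_ind, card_sub Z h]
  norm_num

theorem khyp2_le_of_pow {j h : ℕ} (hh : (1 : ℝ) / 2 ^ (h + 1) < 1 / 2 ^ j) : j ≤ h := by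
  by_contra hc
  have h1 : h + 1 ≤ j := by omega
  have h2 : (2 : ℝ) ^ (h + 1) ≤ 2 ^ j := pow_le_pow_right₀ (by norm_num) h1
  have h3 : (1 : ℝ) / 2 ^ j ≤ 1 / 2 ^ (h + 1) :=
    one_div_le_one_div_of_le (by positivity) h2
  linarith

/-- `kt`, `inHyp_bias`, `minwt` -/
theorem N_h1 {θ : ℝ} (h1 : 5 / 8 < θ) (h2 : θ ≤ 3 / 4) : N V 4 θ = 1 + 8 * G V 3 := by
  unfold N
  have : {f : V → F | f ∈ P V 4 ∧ θ ≤ bias f} = insert 0
      {g : V → F | ∃ (Z : Submodule F V) (p : V), finrank F Z + 3 = finrank F V ∧ g = ind Z p} := by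
    ext f
    simp only [Set.mem_ofPred_eq, Set.mem_insert_iff]
    constructor
    · rintro ⟨hf, hb⟩
      by_cases h0 : f = 0
      · exact Or.inl h0
      right
      have hb2 : 1 / 2 < bias f := by linarith
      rcases kt hf h0 hb2 with hI | ⟨h9, -⟩
      · obtain ⟨j, -, -, hj⟩ := inHyp_bias hf hI hb2
        have hj1 : j ≤ 1 := khyp2_le_of_pow (by norm_num; norm_num at hj; linarith)
        refine minwt hf h0 ?_
        interval_cases j
        · rw [hj]; norm_num
        · rw [hj]; norm_num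
      · linarith
    · rintro (rfl | ⟨Z, p, hZ, rfl⟩)
      · exact ⟨Submodule.zero_mem _, by rw [bias_zero]; linarith⟩
      · exact ⟨ind_mem_P hZ p, by rw [khyp2_bias_cube hZ]; exact h2⟩
  rw [this, Set.ncard_insert_of_notMem, flats_count]
  · ring
  · rintro ⟨Z, p, hZ, h0⟩
    have h3 := khyp2_bias_cube hZ p
    rw [← h0, bias_zero] at h3
    norm_num at h3

theorem two_cubes_le :
    {g : V → F | TwoCubes g}.ncard ≤ 4 * G V 2 * (2 * Nat.card V) * (8 * G V 3) := by
  classical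
  set A := {g : V → F | ∃ (Z : Submodule F V) (p : V), finrank F Z + 2 = finrank F V ∧ g = ind Z p}
    with hA
  set C := {g : V → F | ∃ (Z : Submodule F V) (p : V), finrank F Z + 3 = finrank F V ∧ g = ind Z p}
    with hC
  have hsub : {g : V → F | TwoCubes g} ⊆
      (fun x : ((V → F) × (V → F)) × (V → F) => x.1.1 * x.1.2 + x.2) ''
        ((A ×ˢ (P V 2 : Set (V → F))) ×ˢ C) := by
    rintro g ⟨W, Z, p, q, u, hW, hZ, hu, rfl⟩
    exact ⟨((ind W p, u), ind Z q), ⟨⟨⟨W, p, hW, rfl⟩, hu⟩, ⟨Z, q, hZ, rfl⟩⟩, rfl⟩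
  have h1 := Set.ncard_le_ncard hsub (Set.toFinite _)
  have h2 := Set.ncard_image_le (s := (A ×ˢ (P V 2 : Set (V → F))) ×ˢ C)
    (f := fun x : ((V → F) × (V → F)) × (V → F) => x.1.1 * x.1.2 + x.2) (Set.toFinite _)
  rw [Set.ncard_prod, Set.ncard_prod] at h2
  have hA' : A.ncard = 4 * G V 2 := by rw [hA, flats_count]; norm_num
  have hC' : C.ncard = 8 * G V 3 := by rw [hC, flats_count]; norm_num
  have hP : (P V 2 : Set (V → F)).ncard = 2 * Nat.card V := by
    rw [← Nat.card_coe_set_eq]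
    have := card_P V 2
    rw [show Nat.card (P V 2 : Set (V → F)) = Nat.card (P V 2) from rfl, this, card_V, cP]
    simp [Finset.sum_range_succ, pow_add]
  rw [hA', hC', hP] at h2
  exact h1.trans h2

theorem khyp2_biUnion_le {α : Type} [Finite α] (s : Finset ℕ) (f : ℕ → Set α) :
    (⋃ j ∈ s, f j).ncard ≤ ∑ j ∈ s, (f j).ncard := by
  induction s using Finset.induction_on with
  | empty => simp
  | insert a s ha ih =>
    rw [Finset.set_biUnion_insert, Finset.sum_insert ha]
    exact (Set.ncard_union_le _ _).trans (Nat.add_le_add_left ih _)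

theorem N_sandwich {h : ℕ} {θ : ℝ} (h1 : (1 + 1 / 2 ^ (h + 1)) / 2 < θ) (h2 : θ ≤ (1 + 1 / 2 ^ h) / 2) :
    (Eh V h).ncard ≤ N V 4 θ ∧
      N V 4 θ ≤ 1 + ∑ j ∈ Finset.range (h + 1), (Eh V j).ncard +
        if 3 ≤ h then {g : V → F | TwoCubes g}.ncard else 0 := by
  unfold N
  constructor
  · refine Set.ncard_le_ncard ?_ (Set.toFinite _)
    rintro g ⟨hg, -, hb⟩
    exact ⟨hg, by rw [hb]; exact h2⟩
  · have hpos : (0 : ℝ) < 1 / 2 ^ (h + 1) := by positivity
    have hsub : {f : V → F | f ∈ P V 4 ∧ θ ≤ bias f} ⊆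
        ({0} ∪ ⋃ j ∈ Finset.range (h + 1), Eh V j) ∪
          (if 3 ≤ h then {g : V → F | TwoCubes g} else ∅) := by
      rintro f ⟨hf, hb⟩
      by_cases h0 : f = 0
      · exact Or.inl (Or.inl h0)
      have hb2 : 1 / 2 < bias f := by linarith
      rcases kt hf h0 hb2 with hI | ⟨h9, hT⟩
      · obtain ⟨j, hj⟩ := inHyp_bias hf hI hb2
        have hj2 := hj.2.2
        have hj1 : j ≤ h := khyp2_le_of_pow (by linarith)
        refine Or.inl (Or.inr ?_)
        exact Set.mem_biUnion (Finset.mem_coe.2 (Finset.mem_range.2 (by omega))) hj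
      · have h3 : 3 ≤ h := khyp2_le_of_pow (by norm_num; norm_num at h1; linarith)
        right
        rw [if_pos h3]
        exact hT
    refine (Set.ncard_le_ncard hsub (Set.toFinite _)).trans ?_
    refine (Set.ncard_union_le _ _).trans (Nat.add_le_add ?_ ?_)
    · refine (Set.ncard_union_le _ _).trans ?_
      rw [Set.ncard_singleton]
      exact Nat.add_le_add_left (khyp2_biUnion_le _ _) _
    · split_ifs <;> simp

end

end Pool.Agent.P.MP_cb6780_lc
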