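import Pool.Agent.P.MP_cb6780_lc.Quad

set_option autoImplicit false

/-! Cubic functions of weight `< 2d` (Kasami-Tokura for `r = 3`). -/

namespace Pool.Agent.P.MP_cb6780_lc

open Module

variable {V : Type} [AddCommGroup V] [Module F V] [Finite V]

omit [Finite V] in
theorem KT_mem {W : Submodule F V} {x y : V} (h : x ∈ W) (z : V) (e : y = x + (z + z)) :
    y ∈ W := by
  rw [e, add_self_V, add_zero]
  exact h

theorem KT_F (a : F) : a = 0 ∨ a = 1 := by
  revert a
  decide

theorem KT_add_eq_zero {X : Type} {f g : X → F} (h : f + g = 0) : g = f := by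
  have h1 : f + (f + g) = g := by rw [← add_assoc, add_self_fun, zero_add]
  rw [← h1, h, add_zero]

theorem KT_sup {W : Submodule F V} {e : V} (he : e ∉ W) :
    finrank F ↥(W ⊔ Submodule.span F {e}) = finrank F W + 1 := by
  have h0 : e ≠ 0 := fun h => he (h ▸ W.zero_mem)
  have h1 := Submodule.finrank_add_le_finrank_add_finrank W (Submodule.span F {e})
  rw [finrank_span_singleton h0] at h1
  have h2 : W < W ⊔ Submodule.span F {e} := lt_of_le_of_ne le_sup_left fun h =>
    he (h ▸ Submodule.mem_sup_right (Submodule.mem_span_singleton_self e))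
  have h3 := Submodule.finrank_lt_finrank_of_lt h2
  omega

theorem KT_exists {W : Submodule F V} (h : finrank F W < finrank F V) : ∃ e, e ∉ W := by
  by_contra hc
  push Not at hc
  have h1 : W = ⊤ := Submodule.eq_top_iff'.2 hc
  rw [h1, finrank_top] at h
  exact lt_irrefl _ h

/-- the four cosets of a subspace of codimension two -/
theorem four {W : Submodule F V} (hW : finrank F W + 2 = finrank F V) :
    ∃ e e' : V, e ∉ W ∧ e' ∉ W ∧ e + e' ∉ W ∧
      (∀ x, x ∈ W ∨ x + e ∈ W ∨ x + e' ∈ W ∨ x + (e + e') ∈ W) ∧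
      ∀ (p : V) (g : V → F), 4 * bias g = bias (res W p g) + bias (res W (p + e) g) +
        bias (res W (p + e') g) + bias (res W (p + (e + e')) g) := by
  obtain ⟨e, he⟩ := KT_exists (W := W) (by omega)
  have r1 := KT_sup he
  obtain ⟨e', he'⟩ := KT_exists (W := W ⊔ Submodule.span F {e}) (by omega)
  have r2 := KT_sup he'
  have htop : W ⊔ Submodule.span F {e} ⊔ Submodule.span F {e'} = ⊤ :=
    Submodule.eq_top_of_finrank_eq (by omega)
  have hcov : ∀ x, x ∈ W ∨ x + e ∈ W ∨ x + e' ∈ W ∨ x + (e + e') ∈ W := by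
    intro x
    have hx : x ∈ W ⊔ Submodule.span F {e} ⊔ Submodule.span F {e'} := htop ▸ Submodule.mem_top
    obtain ⟨y, hy, z, hz, rfl⟩ := Submodule.mem_sup.1 hx
    obtain ⟨w, hw, v, hv, rfl⟩ := Submodule.mem_sup.1 hy
    obtain ⟨a, rfl⟩ := Submodule.mem_span_singleton.1 hv
    obtain ⟨b, rfl⟩ := Submodule.mem_span_singleton.1 hz
    rcases KT_F a with rfl | rfl <;> rcases KT_F b with rfl | rfl <;>
      simp only [zero_smul, one_smul, add_zero]
    · exact Or.inl hw
    · exact Or.inr (Or.inr (Or.inl (KT_mem hw e' (by abel))))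
    · exact Or.inr (Or.inl (KT_mem hw e (by abel)))
    · exact Or.inr (Or.inr (Or.inr (KT_mem hw (e + e') (by abel))))
  refine ⟨e, e', he, fun h => he' (Submodule.mem_sup_left h), fun h => he' ?_, hcov, fun p g => ?_⟩
  · exact KT_mem (add_mem (Submodule.mem_sup_left h)
      (Submodule.mem_sup_right (Submodule.mem_span_singleton_self e))) (-e) (by abel)
  set h : V → ℝ := fun a => bias (res W a g) with hh
  have hc : ∀ a b, a + b ∈ W → h a = h b := fun a b hab => bias_res_congr W hab g
  have ht : ∀ c : V, av (fun a => h (a + c)) = bias g := fun c => by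
    rw [bias_eq_av_res W g]
    exact av_congr (Equiv.addRight c) h
  have hs : ∀ a, h a + h (a + e) + h (a + e') + h (a + (e + e')) =
      h p + h (p + e) + h (p + e') + h (p + (e + e')) := by
    intro a
    rcases hcov (a + p) with H | H | H | H
    · rw [hc a p H, hc (a + e) (p + e) (KT_mem H e (by abel)),
        hc (a + e') (p + e') (KT_mem H e' (by abel)),
        hc (a + (e + e')) (p + (e + e')) (KT_mem H (e + e') (by abel))]
    · rw [hc a (p + e) (KT_mem H 0 (by abel)), hc (a + e) p (KT_mem H 0 (by abel)),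
        hc (a + e') (p + (e + e')) (KT_mem H e' (by abel)),
        hc (a + (e + e')) (p + e') (KT_mem H e' (by abel))]
      ring
    · rw [hc a (p + e') (KT_mem H 0 (by abel)), hc (a + e) (p + (e + e')) (KT_mem H e (by abel)),
        hc (a + e') p (KT_mem H 0 (by abel)),
        hc (a + (e + e')) (p + e) (KT_mem H e (by abel))]
      ring
    · rw [hc a (p + (e + e')) (KT_mem H 0 (by abel)), hc (a + e) (p + e') (KT_mem H 0 (by abel)),
        hc (a + e') (p + e) (KT_mem H 0 (by abel)),
        hc (a + (e + e')) p (KT_mem H 0 (by abel))]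
      ring
  have h1 : av (fun a => h a + h (a + e) + h (a + e') + h (a + (e + e'))) =
      h p + h (p + e) + h (p + e') + h (p + (e + e')) := by
    rw [funext hs]
    exact av_const _
  rw [av_add, av_add, av_add, ht, ht, ht, ← bias_eq_av_res W g] at h1
  linarith

/-- two restrictions of a cubic differ by a quadratic -/
theorem res_add_res {d : ℕ} {g : V → F} (hg : g ∈ P V (d + 1)) (W : Submodule F V) (a b : V) :
    res W a g + res W b g ∈ P W d := by
  have h1 : res W a g + res W b g = res W a (D (a + b) g) := by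
    funext u
    have h2 : (u : V) + a + (a + b) = u + b := by
      have h3 : (u : V) + a + (a + b) = u + b + (a + a) := by abel
      rw [h3, add_self_V, add_zero]
    rw [Pi.add_apply, res_apply, res_apply, res_apply, D_apply, h2, add_comm]
  rw [h1]
  exact res_mem_P (mem_P_succ.1 hg _) W a

/-- three cubics with quadratic differences and total bias `> 5/2`: each bias is `> 1/2`, the sums of two
have bias `> 1/2`, hence vanish (`min_dist`), so the common bias is `> 5/6 > 3/4` -/
theorem three {k1 k2 k3 : V → F} (h1 : k1 ∈ P V 4) (h12 : k1 + k2 ∈ P V 3) (h13 : k1 + k3 ∈ P V 3)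
    (h : 5 / 2 < bias k1 + bias k2 + bias k3) : k1 = 0 ∧ k2 = 0 ∧ k3 = 0 := by
  have b2 := (abs_le.1 (abs_bias_le k2)).2
  have b3 := (abs_le.1 (abs_bias_le k3)).2
  have e2 : k2 = k1 := by
    refine KT_add_eq_zero ?_
    by_contra h0
    have a1 := min_dist (d := 2) h12 h0
    have a2 := bias_add_ge k1 k2
    norm_num at a1
    linarith
  have e3 : k3 = k1 := by
    refine KT_add_eq_zero ?_
    by_contra h0
    have a1 := min_dist (d := 2) h13 h0
    have a2 := bias_add_ge k1 k3
    norm_num at a1
    linarith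
  have e1 : k1 = 0 := by
    by_contra h0
    have a1 := min_dist (d := 3) h1 h0
    rw [e2, e3] at h
    norm_num at a1
    linarith
  exact ⟨e1, e2.trans e1, e3.trans e1⟩

theorem KT_half {g : V → F} (hg : g ∈ P V 4) (h0 : g ≠ 0) (h : 1 / 2 < bias g) :
    ∃ y, bias (D y g) = 1 / 2 := by
  classical
  by_contra hc
  push Not at hc
  have h1 : ∀ y, bias (D y g) ≤ 1 / 4 + 3 / 4 * (Per g : Set V).indicator (fun _ => (1 : ℝ)) y := by
    intro y
    by_cases hy : y ∈ (Per g : Set V)
    · rw [Set.indicator_of_mem hy]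
      have := (abs_le.1 (abs_bias_le (D y g))).2
      linarith
    · rw [Set.indicator_of_notMem hy, mul_zero, add_zero]
      have a1 := bias_D_ge g y
      obtain ⟨k, hk⟩ := quad_bias (mem_P_succ.1 hg y) (by linarith)
      rcases k with _ | _ | k
      · exact absurd (mem_Per.2 (eq_zero_of_bias (by rw [hk]; norm_num))) hy
      · exact absurd (by rw [hk]; norm_num) (hc y)
      · rw [hk]
        refine one_div_le_one_div_of_le (by norm_num) ?_
        have a2 : (1 : ℝ) ≤ 2 ^ k := one_le_pow₀ one_le_two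
        rw [pow_succ, pow_succ]
        linarith
  have h2 := av_mono h1
  rw [← bias_sq, av_add, av_const, av_mul_left, av_indicator] at h2
  have h3 : finrank F (Per g) + (finrank F V - finrank F (Per g)) = finrank F V :=
    Nat.add_sub_of_le (Submodule.finrank_le _)
  set j := finrank F V - finrank F (Per g) with hj
  have h4 := card_sub (Per g) h3
  have h5 : ((Per g : Set V).ncard : ℝ) = Nat.card (Per g) := by
    rw [← Nat.card_coe_set_eq]
    rfl
  rw [h5, h4] at h2
  obtain ⟨k, hk⟩ := card_dvd_wt (le_refl (Per g))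
  have h6 : bias g = 1 - 2 * k * (1 / 2 ^ j) := by
    rw [bias_eq_wt, hk, ← h4]
    push_cast
    ring
  have hk0 : k ≠ 0 := by
    rintro rfl
    exact h0 (eq_zero_of_bias (by rw [h6]; simp))
  have hp : (0 : ℝ) < 2 ^ j := by positivity
  have h7 : 4 * k < 2 ^ j := by
    have a1 : (4 * k : ℝ) * (1 / 2 ^ j) < 1 := by linarith
    rw [mul_one_div, div_lt_one hp] at a1
    exact_mod_cast a1
  have h8 : 4 * k + 4 ≤ 2 ^ j := by
    rcases j with _ | _ | i
    · omega
    · omega
    · rw [pow_succ, pow_succ] at h7 ⊢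
      omega
  have h9 : (4 * k + 4 : ℝ) * (1 / 2 ^ j) ≤ 1 := by
    rw [mul_one_div, div_le_one hp]
    exact_mod_cast h8
  have h10 : (0 : ℝ) < 1 / 2 ^ j := by positivity
  have h11 : 1 / 2 + 2 * (1 / 2 ^ j) ≤ bias g := by
    rw [h6]
    linarith
  nlinarith

/-- Some derivative has bias `1/2`.  All derivatives are quadratic of positive bias (`bias_D_ge`), so of bias
`2^(-h)`.  If none has bias `1/2` then `β² ≤ ρ + (1-ρ)/4` with `ρ = |Per g|/|V| = 2^(-j)`; but `β = 1 - 2kρ`
with `k ≥ 1` (`card_dvd_wt`), so `j ≥ 2`, `β ≥ 1/2 + 2ρ`, `β² > 1/4 + 2ρ`. -/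
theorem dec {g : V → F} (hg : g ∈ P V 4) (h0 : g ≠ 0) (h : 1 / 2 < bias g) :
    ∃ (W : Submodule F V) (p y : V), finrank F W + 2 = finrank F V ∧ y ∈ W ∧
      D y g = ind W p ∧ bias (res W p g) = 0 := by
  obtain ⟨y, hy⟩ := KT_half hg h0 h
  obtain ⟨W, p, hW, e⟩ := quad_half (mem_P_succ.1 hg y) hy
  have hyW : y ∈ W := by
    rw [← Per_ind W p, ← e]
    exact mem_Per.2 (D_D_self y g)
  refine ⟨W, p, y, hW, hyW, e, bias_eq_zero_of_D (y := ⟨y, hyW⟩) ?_⟩
  funext u
  have h1 : D y g (u + p) = 1 := by
    rw [e, ind, if_pos (KT_mem u.2 p (by abel))]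
  rw [D_apply] at h1
  rw [D_apply, res_apply, res_apply, Submodule.coe_add, add_right_comm, h1]
  rfl

theorem KT_three {g : V → F} (hg : g ∈ P V 4) (W : Submodule F V) (a b c : V)
    (h : 5 / 2 < bias (res W a g) + bias (res W b g) + bias (res W c g)) :
    res W a g = 0 ∧ res W b g = 0 ∧ res W c g = 0 :=
  three (res_mem_P hg W a) (res_add_res hg W a b) (res_add_res hg W a c) h

omit [Finite V] in
theorem KT_res_zero {g : V → F} {W : Submodule F V} {a x : V} (h : res W a g = 0)
    (hx : x + a ∈ W) : g x = 0 := by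
  have h1 := congrFun h ⟨x + a, hx⟩
  rw [res_apply, add_assoc, add_self_V, add_zero] at h1
  exact h1

/-- `dec`, `four`, `three`: `g` lives on `p + W`, has bias `3/4`, and there it is affine (second derivative
along `e, e'`), so `Per g` contains the kernel `Z` of its linear part in `W`; `eq_ind_of_Per` -/
theorem minwt {g : V → F} (hg : g ∈ P V 4) (h0 : g ≠ 0) (h : 2 / 3 < bias g) :
    ∃ (Z : Submodule F V) (p : V), finrank F Z + 3 = finrank F V ∧ g = ind Z p := by
  obtain ⟨W, p, y, hW, -, -, hb⟩ := dec hg h0 (by linarith)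
  obtain ⟨e, e', he, he', hee, hcov, hsum⟩ := four hW
  have h4 := hsum p g
  obtain ⟨z1, z2, z3⟩ := KT_three hg W (p + e) (p + e') (p + (e + e')) (by linarith)
  rw [hb, z1, z2, z3, bias_zero] at h4
  have hoff : ∀ x, x + p ∉ W → g x = 0 := by
    intro x hx
    rcases hcov (x + p) with H | H | H | H
    · exact absurd H hx
    · exact KT_res_zero z1 (by rwa [← add_assoc])
    · exact KT_res_zero z2 (by rwa [← add_assoc])
    · exact KT_res_zero z3 (by rwa [← add_assoc])
  have haff : res W p g ∈ P W 2 := by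
    have a1 : res W p g = res W p (D e (D e' g)) := by
      funext u
      have b1 : g (u + p + e) = 0 := KT_res_zero z1 (KT_mem u.2 (p + e) (by abel))
      have b2 : g (u + p + e') = 0 := KT_res_zero z2 (KT_mem u.2 (p + e') (by abel))
      have b3 : g (u + p + e + e') = 0 := KT_res_zero z3 (KT_mem u.2 (p + (e + e')) (by abel))
      rw [res_apply, res_apply, D_apply, D_apply, D_apply, b1, b2, b3]
      simp
    rw [a1]
    exact res_mem_P (mem_P_succ.1 (mem_P_succ.1 hg e') e) W p
  obtain ⟨l, c, hl⟩ := mem_P_two.1 haff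
  have hl0 : l ≠ 0 := by
    rintro rfl
    rw [hl] at hb
    have a1 : bias (fun x : W => (0 : Dual F W) x + c) = chi c := by
      simp only [bias, LinearMap.zero_apply, zero_add]
      exact av_const _
    have a2 := abs_chi c
    rw [← a1, hb] at a2
    norm_num at a2
  have hZ : finrank F ((LinearMap.ker l).map W.subtype) + 3 = finrank F V := by
    have a1 := Module.Dual.finrank_ker_add_one_of_ne_zero hl0
    rw [Submodule.finrank_map_subtype_eq]
    omega
  have hper : (LinearMap.ker l).map W.subtype ≤ Per g := by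
    rintro _ ⟨z, hz, rfl⟩
    refine mem_Per.2 (funext fun x => ?_)
    rw [D_apply, Pi.zero_apply, Submodule.subtype_apply]
    by_cases hx : x + p ∈ W
    · have a1 := congrFun hl ⟨x + p, hx⟩
      have a2 := congrFun hl (⟨x + p, hx⟩ + z)
      rw [map_add, LinearMap.mem_ker.1 hz, add_zero, ← a1, res_apply, res_apply] at a2
      have a3 : ((⟨x + p, hx⟩ + z : W) : V) + p = x + z := by
        have a4 : x + p + z + p = x + z + (p + p) := by abel
        rw [Submodule.coe_add, a4, add_self_V, add_zero]
      have a5 : ((⟨x + p, hx⟩ : W) : V) + p = x := by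
        show x + p + p = x
        rw [add_assoc, add_self_V, add_zero]
      rw [a3, a5] at a2
      rw [a2]
      exact CharTwo.add_self_eq_zero _
    · rw [hoff x hx, hoff (x + z) fun H => hx (KT_mem (add_mem H z.2) (-z) (by abel)), add_zero]
  obtain ⟨q, hq⟩ := eq_ind_of_Per hper (by rw [card_sub _ hZ]; linarith)
  exact ⟨_, q, hZ, hq⟩

/-- `g + g'` has bias `> 1/4`, so `1/2`, so it is `ind W p`; off `p + W` the two functions agree, on it they
are complementary; `three` -/
theorem pair {g g' : V → F} (hg : g ∈ P V 4) (h0 : g ≠ 0) (h0' : g' ≠ 0) (hq : g + g' ∈ P V 3)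
    (hne : g ≠ g') (h : 5 / 4 < bias g + bias g') : bias g = 3 / 4 ∧ bias g' = 3 / 4 := by
  have e0 : g' = g + (g + g') := by rw [← add_assoc, add_self_fun, zero_add]
  have hg' : g' ∈ P V 4 := by
    rw [e0]
    exact add_mem hg (P_le_succ 3 hq)
  have a1 := bias_add_ge g g'
  have hhalf : bias (g + g') = 1 / 2 := by
    obtain ⟨k, hk⟩ := quad_bias hq (by linarith)
    rcases k with _ | _ | k
    · exact absurd (KT_add_eq_zero (eq_zero_of_bias (by rw [hk]; norm_num))).symm hne
    · rw [hk]
      norm_num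
    · exfalso
      have a2 : (1 : ℝ) ≤ 2 ^ k := one_le_pow₀ one_le_two
      have a3 : (1 : ℝ) / 2 ^ (k + 1 + 1) ≤ 1 / 4 := by
        refine one_div_le_one_div_of_le (by norm_num) ?_
        rw [pow_succ, pow_succ]
        linarith
      linarith
  obtain ⟨W, p, hW, hi⟩ := quad_half hq hhalf
  obtain ⟨e, e', he, he', hee, -, hsum⟩ := four hW
  have hoff : ∀ c, c ∉ W → res W (p + c) g' = res W (p + c) g := by
    intro c hc
    funext u
    have b1 : ind W p (u + (p + c)) = 0 := by
      rw [ind, if_neg fun H => hc (KT_mem (add_mem H u.2) (-(p + u)) (by abel))]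
    rw [res_apply, res_apply, e0, hi, Pi.add_apply, b1, add_zero]
  have hon : res W p g' = res W p g + 1 := by
    funext u
    have b1 : ind W p (u + p) = 1 := by
      rw [ind, if_pos (KT_mem u.2 p (by abel))]
    rw [Pi.add_apply, res_apply, res_apply, e0, hi, Pi.add_apply, b1, Pi.one_apply]
  have s1 := hsum p g
  have s2 := hsum p g'
  rw [hon, bias_add_one, hoff e he, hoff e' he', hoff _ hee] at s2
  obtain ⟨z1, z2, z3⟩ := KT_three hg W (p + e) (p + e') (p + (e + e')) (by linarith)
  rw [z1, z2, z3, bias_zero] at s1 s2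
  have m1 := min_dist (d := 3) hg h0
  have m2 := min_dist (d := 3) hg' h0'
  norm_num at m1 m2
  constructor <;> linarith

end Pool.Agent.P.MP_cb6780_lc
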