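import Pool.Agent.P.MP_cb6780_lc.KT

set_option autoImplicit false

namespace Pool.Agent.P.MP_cb6780_lc

open Module

variable {V : Type} [AddCommGroup V] [Module F V] [Finite V]

/-- `g` vanishes outside an affine hyperplane -/
def InHyp (g : V → F) : Prop :=
  ∃ (H : Submodule F V) (a : V), finrank F H + 1 = finrank F V ∧ ∀ x, x + a ∉ H → g x = 0

/-- sum of two cubes -/
def TwoCubes (g : V → F) : Prop :=
  ∃ (W Z : Submodule F V) (p q : V) (u : V → F), finrank F W + 2 = finrank F V ∧
    finrank F Z + 3 = finrank F V ∧ u ∈ P V 2 ∧ g = ind W p * u + ind Z q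

theorem kt2_cases (a : F) : a = 0 ∨ a = 1 := by revert a; decide

theorem kt2_rank {W : Submodule F V} {u : V} (hu : u ∉ W) :
    finrank F ↥(W ⊔ Submodule.span F {u}) = finrank F W + 1 := by
  have h0 : u ≠ 0 := fun h => hu (h ▸ W.zero_mem)
  have h1 := Submodule.finrank_sup_add_finrank_inf_eq W (Submodule.span F {u})
  rw [finrank_span_singleton h0,
    (Submodule.disjoint_span_singleton' h0 |>.2 hu).eq_bot, finrank_bot] at h1
  omega

omit [Finite V] in
theorem kt2_mem {W : Submodule F V} {u x : V} :
    x ∈ W ⊔ Submodule.span F {u} ↔ x ∈ W ∨ x + u ∈ W := by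
  constructor
  · intro h
    obtain ⟨w, hw, z, hz, rfl⟩ := Submodule.mem_sup.1 h
    obtain ⟨a, rfl⟩ := Submodule.mem_span_singleton.1 hz
    rcases kt2_cases a with rfl | rfl
    · left; simpa using hw
    · right; rw [one_smul, add_assoc, add_self_V, add_zero]; exact hw
  · rintro (h | h)
    · exact Submodule.mem_sup_left h
    · have : x = x + u + u := by rw [add_assoc, add_self_V, add_zero]
      rw [this]
      exact Submodule.add_mem_sup h (Submodule.mem_span_singleton_self u)

omit [Finite V] in
theorem kt2_val (W : Submodule F V) (g : V → F) {a x : V} (h : x + a ∈ W) :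
    g x = res W a g ⟨x + a, h⟩ := by
  rw [res_apply]
  congr 1
  rw [add_assoc, add_self_V, add_zero]

theorem kt2_two {W : Submodule F V} (hW : finrank F W + 2 = finrank F V) {g : V → F} {p a b : V}
    (hab : a + b ∉ W) (hc : ∀ x, x ∈ W ∨ x + a ∈ W ∨ x + b ∈ W ∨ x + (a + b) ∈ W)
    (ha : res W (p + a) g = 0) (hb : res W (p + b) g = 0) : InHyp g := by
  refine ⟨W ⊔ Submodule.span F {a + b}, p, by rw [kt2_rank hab]; omega, fun x hx => ?_⟩
  rw [kt2_mem, not_or] at hx
  rcases hc (x + p) with h | h | h | h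
  · exact absurd h hx.1
  · rw [add_assoc] at h; rw [kt2_val W g h, ha]; rfl
  · rw [add_assoc] at h; rw [kt2_val W g h, hb]; rfl
  · exact absurd h hx.2

theorem kt2_per {k k' : V → F} (hq : k + k' ∈ P V 3) (hb : bias k' = 3 / 4) : Per k ≤ Per k' := by
  intro w hw
  rw [mem_Per] at hw ⊢
  have h1 : D w k' ∈ P V 2 := by
    have := mem_P_succ.1 hq w
    rwa [map_add, hw, zero_add] at this
  by_contra h
  have h2 := min_dist h1 h
  have h3 := bias_D_ge k' w
  norm_num at h2
  linarith

/-- Take `dec`, `four`; `g1, g2, g3` the restrictions to the three cosets other than `p + W`, total bias `> 2`.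
If one vanishes all are quadratic, so two vanish and `g` vanishes on the union of two cosets: `InHyp`.
Otherwise each bias is `≤ 3/4`; if all three agree the bias is `> 2/3`, else `pair`; so by `minwt` all are
indicators of cosets `p_i + Z_i` in `W`.  They have the same periods (for `w ∈ Per g1`, `D w g2 = D w (g1 + g2)`
is affine of bias `≥ 1/2`, so `0`).  With `q_i ∈ V` the base points, `Z' = Z + <q_1 + q_2, q_1 + q_3>` has
codimension three and `k = g + ind Z' q_1` vanishes off `p + W`, so `k = ind W p * D e (D e' k)`. -/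
theorem kt {g : V → F} (hg : g ∈ P V 4) (h0 : g ≠ 0) (h : 1 / 2 < bias g) :
    InHyp g ∨ (bias g = 9 / 16 ∧ TwoCubes g) := by
  classical
  obtain ⟨W, p, y, hW, -, -, hb0⟩ := dec hg h0 h
  obtain ⟨e, e', he, he', hee, hc, h4⟩ := four hW
  have r1 : e + (e + e') = e' := by rw [← add_assoc, add_self_V, zero_add]
  have r2 : e' + (e + e') = e := by rw [add_comm e, ← add_assoc, add_self_V, zero_add]
  have hs := h4 p g
  have q12 := res_add_res hg W (p + e) (p + e')
  have q13 := res_add_res hg W (p + e) (p + (e + e'))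
  have q23 := res_add_res hg W (p + e') (p + (e + e'))
  have c1 := res_mem_P hg W (p + e)
  have c2 := res_mem_P hg W (p + e')
  have c3 := res_mem_P hg W (p + (e + e'))
  have v1 := fun x (hx : x + (p + e) ∈ W) => kt2_val W g hx
  have v2 := fun x (hx : x + (p + e') ∈ W) => kt2_val W g hx
  have v3 := fun x (hx : x + (p + (e + e')) ∈ W) => kt2_val W g hx
  have t12 := kt2_two (g := g) (p := p) hW hee hc
  have t13 := kt2_two (g := g) (p := p) (a := e) (b := e + e') hW (by rwa [r1])
    (fun x => by rw [r1]; have := hc x; tauto)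
  have t23 := kt2_two (g := g) (p := p) (a := e') (b := e + e') hW (by rwa [r2])
    (fun x => by rw [r2]; have := hc x; tauto)
  generalize res W (p + e) g = g1 at *
  generalize res W (p + e') g = g2 at *
  generalize res W (p + (e + e')) g = g3 at *
  have u1 := (abs_le.1 (abs_bias_le g1)).2
  have u2 := (abs_le.1 (abs_bias_le g2)).2
  have u3 := (abs_le.1 (abs_bias_le g3)).2
  have mq : ∀ k : W → F, k ∈ P W 3 → k ≠ 0 → bias k ≤ 1 / 2 := fun k a b => by
    have := min_dist a b; norm_num at this; linarith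
  have mc : ∀ k : W → F, k ∈ P W 4 → k ≠ 0 → bias k ≤ 3 / 4 := fun k a b => by
    have := min_dist a b; norm_num at this; linarith
  by_cases z1 : g1 = 0
  · left
    by_cases z2 : g2 = 0
    · exact t12 z1 z2
    by_cases z3 : g3 = 0
    · exact t13 z1 z3
    rw [z1, zero_add] at q12 q13
    have := mq _ q12 z2
    have := mq _ q13 z3
    linarith
  by_cases z2 : g2 = 0
  · left
    by_cases z3 : g3 = 0
    · exact t23 z2 z3
    rw [z2] at q12 q23
    rw [add_zero] at q12
    rw [zero_add] at q23
    have := mq _ q12 z1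
    have := mq _ q23 z3
    linarith
  by_cases z3 : g3 = 0
  · exfalso
    rw [z3, add_zero] at q13 q23
    have := mq _ q13 z1
    have := mq _ q23 z2
    linarith
  right
  have m1 := mc _ c1 z1
  have m2 := mc _ c2 z2
  have m3 := mc _ c3 z3
  have hall : 2 / 3 < bias g1 ∧ 2 / 3 < bias g2 ∧ 2 / 3 < bias g3 := by
    by_cases a12 : g1 = g2
    · by_cases a13 : g1 = g3
      · rw [← a12, ← a13] at hs ⊢
        refine ⟨?_, ?_, ?_⟩ <;> linarith
      · have := pair c1 z1 z3 q13 a13 (by linarith)
        rw [← a12]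
        refine ⟨?_, ?_, ?_⟩ <;> linarith [this.1, this.2]
    · have := pair c1 z1 z2 q12 a12 (by linarith)
      by_cases a13 : g1 = g3
      · rw [← a13]
        refine ⟨?_, ?_, ?_⟩ <;> linarith [this.1, this.2]
      · have t := pair c1 z1 z3 q13 a13 (by linarith)
        refine ⟨?_, ?_, ?_⟩ <;> linarith [this.1, this.2, t.2]
  obtain ⟨Z, p1, hZ, e1⟩ := minwt c1 z1 hall.1
  obtain ⟨Z2, p2, hZ2, e2⟩ := minwt c2 z2 hall.2.1
  obtain ⟨Z3, p3, hZ3, e3⟩ := minwt c3 z3 hall.2.2
  have b1 : bias g1 = 3 / 4 := by rw [e1, bias_ind, card_sub Z hZ]; norm_num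
  have b2 : bias g2 = 3 / 4 := by rw [e2, bias_ind, card_sub Z2 hZ2]; norm_num
  have b3 : bias g3 = 3 / 4 := by rw [e3, bias_ind, card_sub Z3 hZ3]; norm_num
  refine ⟨by linarith, ?_⟩
  obtain rfl : Z = Z2 := by
    have := le_antisymm (kt2_per q12 b2) (kt2_per (by rwa [add_comm] at q12) b1)
    rwa [e1, e2, Per_ind, Per_ind] at this
  obtain rfl : Z = Z3 := by
    have := le_antisymm (kt2_per q13 b3) (kt2_per (by rwa [add_comm] at q13) b1)
    rwa [e1, e3, Per_ind, Per_ind] at this
  have hZW : Z.map W.subtype ≤ W := Submodule.map_subtype_le W Z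
  have two : ∀ x : V, x + x = 0 := add_self_V
  have nW : ∀ {x z : V}, x ∈ W → z ∉ W → x + z ∉ W := fun hx hz h =>
    hz ((W.add_mem_iff_right hx).1 h)
  set u : V := (p1 : V) + p2 + (e + e') with hu
  set v : V := (p1 : V) + p3 + e' with hv
  have huv : v + u = (p2 : V) + p3 + e := by
    have : v + u = (p2 : V) + p3 + e + ((p1 : V) + p1) + (e' + e') := by rw [hu, hv]; abel
    rw [this, two, two, add_zero, add_zero]
  have nu : u ∉ W := nW (W.add_mem p1.2 p2.2) hee
  have nv : v ∉ W := nW (W.add_mem p1.2 p3.2) he'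
  have nvu : v + u ∉ W := huv ▸ nW (W.add_mem p2.2 p3.2) he
  set Z' : Submodule F V := Z.map W.subtype ⊔ Submodule.span F {u} ⊔ Submodule.span F {v} with hZ'
  have rk : finrank F Z' + 3 = finrank F V := by
    rw [hZ', kt2_rank, kt2_rank (fun h => nu (hZW h)), Submodule.finrank_map_subtype_eq]
    · omega
    · rw [kt2_mem]
      rintro (h | h)
      · exact nv (hZW h)
      · exact nvu (hZW h)
  have inW : ∀ x : W, (x : V) ∈ Z' ↔ x ∈ Z := by
    intro x
    constructor
    · intro h
      rw [hZ', kt2_mem, kt2_mem, kt2_mem] at h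
      rcases h with (h | h) | h | h
      · obtain ⟨z, hz, e0⟩ := Submodule.mem_map.1 h
        rwa [← Subtype.ext e0]
      · exact absurd (hZW h) (nW x.2 nu)
      · exact absurd (hZW h) (nW x.2 nv)
      · rw [add_assoc] at h
        exact absurd (hZW h) (nW x.2 nvu)
    · intro h
      exact Submodule.mem_sup_left (Submodule.mem_sup_left (Submodule.mem_map_of_mem h))
  have uZ : u ∈ Z' :=
    Submodule.mem_sup_left (Submodule.mem_sup_right (Submodule.mem_span_singleton_self u))
  have vZ : v ∈ Z' := Submodule.mem_sup_right (Submodule.mem_span_singleton_self v)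
  set q : V := p + e + p1 with hq
  have off : ∀ x, x + p ∉ W → (g + ind Z' q) x = 0 := by
    intro x hx
    have fin : ∀ (a : V) (h : x + (p + a) ∈ W) (b : W), x + q + (x + (p + a) + b) ∈ Z' →
        g x = ind Z b ⟨x + (p + a), h⟩ → (g + ind Z' q) x = 0 := by
      intro a h b hm hg'
      have : x + q ∈ Z' ↔ (⟨x + (p + a), h⟩ : W) + b ∈ Z := by
        rw [← inW]
        exact ⟨fun t => (Z'.add_mem_iff_right t).1 hm, fun t => (Z'.add_mem_iff_left t).1 hm⟩
      rw [Pi.add_apply, hg']
      simp only [ind, this]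
      split_ifs <;> decide
    rcases hc (x + p) with h | h | h | h
    · exact absurd h hx
    · rw [add_assoc] at h
      refine fin e h p1 ?_ (by rw [v1 x h, e1])
      have : x + q + (x + (p + e) + p1) = (x + q) + (x + q) := by rw [hq]; abel
      rw [this, two]; exact Z'.zero_mem
    · rw [add_assoc] at h
      refine fin e' h p2 ?_ (by rw [v2 x h, e2])
      have : x + q + (x + (p + e') + p2) = u + ((x + p) + (x + p)) := by rw [hq, hu]; abel
      rw [this, two, add_zero]; exact uZ
    · rw [add_assoc] at h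
      refine fin (e + e') h p3 ?_ (by rw [v3 x h, e3])
      have : x + q + (x + (p + (e + e')) + p3) = v + ((x + p + e) + (x + p + e)) := by
        rw [hq, hv]; abel
      rw [this, two, add_zero]; exact vZ
  have hk : g + ind Z' q ∈ P V 4 := (P V 4).add_mem hg (ind_mem_P rk q)
  refine ⟨W, Z', p, q, D e (D e' (g + ind Z' q)), hW, rk,
    mem_P_succ.1 (mem_P_succ.1 hk e') e, ?_⟩
  have : g + ind Z' q = ind W p * D e (D e' (g + ind Z' q)) := by
    generalize g + ind Z' q = k at off
    funext x
    rw [Pi.mul_apply, D_apply, D_apply, D_apply]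
    by_cases hx : x + p ∈ W
    · have a1 : k (x + e + e') = 0 := off _ (by
        have : x + e + e' + p = x + p + (e + e') := by abel
        rw [this]; exact nW hx hee)
      have a2 : k (x + e) = 0 := off _ (by rw [add_right_comm]; exact nW hx he)
      have a3 : k (x + e') = 0 := off _ (by rw [add_right_comm]; exact nW hx he')
      simp [ind, hx, a1, a2, a3]
    · simp [ind, hx, off x hx]
  rw [← this, add_assoc, add_self_fun, add_zero]

end Pool.Agent.P.MP_cb6780_lc
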