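import Pool.Agent.P.MP_cb6780_lc.Card

set_option autoImplicit false

/-! A biased function of bounded degree is determined by boundedly many derivatives. -/

namespace Pool.Agent.P.MP_cb6780_lc

open Module

/-- `y` is good for `f`: outside a set of density `< δ` the average of the sign of `f` over
`x + span y` has the sign of the bias -/
def Good {V : Type} [AddCommGroup V] [Module F V] {t : ℕ} (δ : ℝ) (f : V → F) (y : Fin t → V) : Prop :=
  ({x | bias f * (av fun s : Fin t → F => chi (f (x + ∑ i, s i • y i))) ≤ 0}.ncard : ℝ) <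
    δ * Nat.card V

theorem Klp_av_transl {V : Type} [AddCommGroup V] (g : V → ℝ) (a : V) :
    av (fun x => g (x + a)) = av g := av_congr (Equiv.addRight a) g

theorem Klp_F_cases (a : F) : a = 0 ∨ a = 1 := by
  revert a; decide

theorem Klp_av_mul {S : Type} [Finite S] (g h : S → ℝ) :
    av g * av h = av fun s => av fun s' => g s * h s' := by
  have h1 : ∀ s, (av fun s' => g s * h s') = av h * g s := fun s => by
    rw [av_mul_left, mul_comm]
  simp only [h1]
  rw [av_mul_left, mul_comm]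

theorem Klp_cross {V : Type} [AddCommGroup V] [Module F V] [Finite V] {t : ℕ} (g : V → ℝ)
    (hg : av g = 0) {s s' : Fin t → F} (hs : s ≠ s') :
    av (fun w : (Fin t → V) × V =>
      g (w.2 + ∑ i, s i • w.1 i) * g (w.2 + ∑ i, s' i • w.1 i)) = 0 := by
  classical
  obtain ⟨i, hi⟩ := Function.ne_iff.1 hs
  have hone : s i + s' i = 1 := by
    rcases Klp_F_cases (s i) with h | h <;> rcases Klp_F_cases (s' i) with h' | h' <;>
      simp_all
  set H : (Fin t → V) × V → ℝ := fun w =>
      g (w.2 + ∑ i, s i • w.1 i) * g (w.2 + ∑ i, s' i • w.1 i) with hH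
  have hsum : ∀ (r : Fin t → F) (y : Fin t → V) (v : V),
      ∑ j, r j • (y + Pi.single i v : Fin t → V) j = ∑ j, r j • y j + r i • v := by
    intro r y v
    simp only [Pi.add_apply, smul_add, Finset.sum_add_distrib]
    congr 1
    rw [Finset.sum_eq_single i]
    · simp
    · intro j _ hj
      simp [Pi.single_eq_of_ne hj]
    · simp
  have h1 : ∀ v : V, av H = av fun w : (Fin t → V) × V =>
      g (w.2 + ∑ i, s i • w.1 i) * g (w.2 + ∑ i, s' i • w.1 i + v) := by
    intro v
    rw [← Klp_av_transl H (Pi.single i v, s i • v)]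
    congr 1
    funext w
    simp only [hH, Prod.fst_add, Prod.snd_add, hsum]
    have e1 : w.2 + s i • v + (∑ j, s j • w.1 j + s i • v) = w.2 + ∑ j, s j • w.1 j := by
      have := add_self_V (s i • v)
      calc _ = w.2 + ∑ j, s j • w.1 j + (s i • v + s i • v) := by abel
        _ = _ := by rw [this, add_zero]
    have e2 : w.2 + s i • v + (∑ j, s' j • w.1 j + s' i • v) =
        w.2 + ∑ j, s' j • w.1 j + v := by
      calc _ = w.2 + ∑ j, s' j • w.1 j + (s i + s' i) • v := by rw [add_smul]; abel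
        _ = _ := by rw [hone, one_smul]
    rw [e1, e2]
  have h2 : av H = av fun v : V => av fun w : (Fin t → V) × V =>
      g (w.2 + ∑ i, s i • w.1 i) * g (w.2 + ∑ i, s' i • w.1 i + v) := by
    simp only [← h1]
    rw [av_const]
  rw [h2, av_comm]
  have h3 : ∀ w : (Fin t → V) × V, (av fun v : V =>
      g (w.2 + ∑ i, s i • w.1 i) * g (w.2 + ∑ i, s' i • w.1 i + v)) = 0 := by
    intro w
    rw [av_mul_left]
    have := Klp_av_transl g (w.2 + ∑ i, s' i • w.1 i)
    simp only [add_comm _ (w.2 + ∑ i, s' i • w.1 i)] at this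
    rw [this, hg, mul_zero]
  simp only [h3]
  exact av_const 0

theorem Klp_second {V : Type} [AddCommGroup V] [Module F V] [Finite V] (t : ℕ) (g : V → ℝ)
    (hg : av g = 0) (hb : ∀ x, g x * g x ≤ 4) :
    av (fun y : Fin t → V => av fun x : V =>
      (av fun s : Fin t → F => g (x + ∑ i, s i • y i)) ^ 2) ≤ 4 / 2 ^ t := by
  classical
  have h0 := av_prod (fun w : (Fin t → V) × V =>
      (av fun s : Fin t → F => g (w.2 + ∑ i, s i • w.1 i)) ^ 2)
  rw [← h0]
  simp only [sq, Klp_av_mul]
  rw [av_comm]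
  have h1 : ∀ s : Fin t → F, (av fun w : (Fin t → V) × V => av fun s' : Fin t → F =>
      g (w.2 + ∑ i, s i • w.1 i) * g (w.2 + ∑ i, s' i • w.1 i)) ≤ 4 / 2 ^ t := by
    intro s
    rw [av_comm]
    have h2 : ∀ s' : Fin t → F, (av fun w : (Fin t → V) × V =>
        g (w.2 + ∑ i, s i • w.1 i) * g (w.2 + ∑ i, s' i • w.1 i)) ≤
        if s' = s then 4 else 0 := by
      intro s'
      split_ifs with h
      · subst h
        exact (av_mono fun w => hb _).trans (av_const 4).le
      · exact (Klp_cross g hg (Ne.symm h)).le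
    refine (av_mono h2).trans ?_
    rw [av_eq]
    simp
  exact (av_mono h1).trans (av_const _).le

/-- For `s ≠ s'` the points `x + s·y`, `x + s'·y` are independent and uniform when `(x,y)` is uniform, so
the mean over `(x,y)` of `(av_s - bias)^2` is at most `2^(-t)`; choose `y` below the mean, Markov. -/
theorem exists_good {η δ : ℝ} (hη : 0 < η) (hδ : 0 < δ) :
    ∃ t : ℕ, ∀ (V : Type) [AddCommGroup V] [Module F V] [Finite V] (f : V → F), η ≤ |bias f| →
      ∃ y : Fin t → V, Good δ f y := by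
  obtain ⟨t, ht⟩ := pow_unbounded_of_one_lt (4 / (δ * η ^ 2)) (one_lt_two (α := ℝ))
  refine ⟨t, fun V _ _ _ f hf => ?_⟩
  have hb := abs_bias_le f
  have hg : av (fun x => chi (f x) + -bias f) = 0 := by
    rw [av_add, av_const]
    exact add_neg_cancel _
  have hb4 : ∀ x, (chi (f x) + -bias f) * (chi (f x) + -bias f) ≤ 4 := by
    intro x
    have h1 := abs_le.1 hb
    have h2 := abs_le.1 (abs_chi (f x)).le
    nlinarith
  have h2 := Klp_second t _ hg hb4
  obtain ⟨y, hy⟩ := exists_le_av (fun y : Fin t → V => av fun x : V =>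
      (av fun s : Fin t → F => chi (f (x + ∑ i, s i • y i)) + -bias f) ^ 2)
  refine ⟨y, ?_⟩
  unfold Good
  set B := {x | bias f * (av fun s : Fin t → F => chi (f (x + ∑ i, s i • y i))) ≤ 0} with hB
  have h3 : av (fun x => η ^ 2 * B.indicator (fun _ => (1 : ℝ)) x) ≤ av fun x : V =>
      (av fun s : Fin t → F => chi (f (x + ∑ i, s i • y i)) + -bias f) ^ 2 := by
    refine av_mono fun x => ?_
    by_cases hx : x ∈ B
    · rw [Set.indicator_of_mem hx, mul_one, av_add, av_const]
      have hx' : bias f * (av fun s : Fin t → F => chi (f (x + ∑ i, s i • y i))) ≤ 0 := hx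
      have h4 : η ^ 2 ≤ bias f ^ 2 := by
        rw [← sq_abs (bias f)]
        exact pow_le_pow_left₀ hη.le hf 2
      nlinarith [sq_nonneg (av fun s : Fin t → F => chi (f (x + ∑ i, s i • y i)))]
    · rw [Set.indicator_of_notMem hx, mul_zero]
      exact sq_nonneg _
  rw [av_mul_left, av_indicator] at h3
  have h5 : η ^ 2 * ((B.ncard : ℝ) / Nat.card V) ≤ 4 / 2 ^ t := h3.trans (hy.trans h2)
  have hV : (0 : ℝ) < Nat.card V := by exact_mod_cast Nat.card_pos
  have hη2 : 0 < η ^ 2 := by positivity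
  have h6 : (4 : ℝ) / 2 ^ t < δ * η ^ 2 := by
    rw [div_lt_iff₀ (by positivity)] at ht ⊢
    linarith
  have h7 : (B.ncard : ℝ) / Nat.card V < δ := by
    by_contra hc
    push Not at hc
    nlinarith
  rwa [div_lt_iff₀ hV] at h7

/-- `h = f + f'` is invariant under the span of `y`, so the two averages differ by the factor
`chi (h x)`; hence `h` vanishes outside density `< 2δ`, and `min_dist` gives `h = 0`. -/
theorem good_inj {V : Type} [AddCommGroup V] [Module F V] [Finite V] {d t : ℕ} {f f' : V → F}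
    (hf : f ∈ P V (d + 1)) (hf' : f' ∈ P V (d + 1)) {y : Fin t → V}
    (h : Good (1 / 2 ^ (d + 1)) f y) (h' : Good (1 / 2 ^ (d + 1)) f' y)
    (hs : 0 < bias f * bias f') (hD : ∀ i, D (y i) f = D (y i) f') : f = f' := by
  classical
  by_contra hne
  have h0 : f + f' ≠ 0 := by
    intro h0
    apply hne
    have := add_self_fun f'
    calc f = f + (f' + f') := by rw [this, add_zero]
      _ = f' := by rw [← add_assoc, h0, zero_add]
  have hmin := min_dist ((P V (d + 1)).add_mem hf hf') h0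
  have hinv1 : ∀ i x, (f + f') (x + y i) = (f + f') x := by
    intro i x
    have h1 : D (y i) (f + f') = 0 := by rw [map_add, hD i, add_self_fun]
    have h2 := congrFun h1 x
    rw [D_apply, Pi.zero_apply] at h2
    have h3 : ∀ a b : F, a + b = 0 → a = b := by decide
    exact h3 _ _ h2
  have hinv : ∀ (s : Fin t → F) (x : V), (f + f') (x + ∑ i, s i • y i) = (f + f') x := by
    intro s x
    induction (Finset.univ : Finset (Fin t)) using Finset.induction_on with
    | empty => simp
    | insert i T hi ih =>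
      rw [Finset.sum_insert hi, add_comm (s i • y i), ← add_assoc]
      rcases Klp_F_cases (s i) with h1 | h1
      · rw [h1, zero_smul, add_zero, ih]
      · rw [h1, one_smul, hinv1, ih]
  set B := {x | bias f * (av fun s : Fin t → F => chi (f (x + ∑ i, s i • y i))) ≤ 0} with hB
  set B' := {x | bias f' * (av fun s : Fin t → F => chi (f' (x + ∑ i, s i • y i))) ≤ 0} with hB'
  have hsub : {x | (f + f') x ≠ 0} ⊆ B ∪ B' := by
    intro x hx
    have hx1 : (f + f') x = 1 := (Klp_F_cases _).resolve_left hx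
    have h1 : ∀ s : Fin t → F, chi (f' (x + ∑ i, s i • y i)) =
        -1 * chi (f (x + ∑ i, s i • y i)) := by
      intro s
      have h2 := hinv s x
      rw [hx1, Pi.add_apply] at h2
      have h3 : ∀ a b : F, a + b = 1 → b = 1 + a := by decide
      rw [h3 _ _ h2, chi_add, chi_one]
    by_contra hc
    rw [Set.mem_union, not_or] at hc
    obtain ⟨c1, c2⟩ := hc
    simp only [hB, hB', Set.mem_ofPred_eq, not_le, h1, av_mul_left] at c1 c2
    nlinarith [mul_pos c1 c2, sq_nonneg (av fun s : Fin t → F => chi (f (x + ∑ i, s i • y i))),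
      mul_nonneg hs.le (sq_nonneg (av fun s : Fin t → F => chi (f (x + ∑ i, s i • y i))))]
  have hc : ({x | (f + f') x ≠ 0}.ncard : ℝ) ≤ B.ncard + B'.ncard := by
    exact_mod_cast (Set.ncard_le_ncard hsub (Set.toFinite _)).trans (Set.ncard_union_le B B')
  have hV : (0 : ℝ) < Nat.card V := by exact_mod_cast Nat.card_pos
  rw [bias_eq_wt] at hmin
  unfold Good at h h'
  have h8 : ({x | (f + f') x ≠ 0}.ncard : ℝ) < 1 / 2 ^ d * Nat.card V := by
    have : (1 : ℝ) / 2 ^ d = 1 / 2 ^ (d + 1) + 1 / 2 ^ (d + 1) := by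
      rw [pow_succ]; field_simp; norm_num
    rw [this, add_mul]
    linarith
  have h9 : 2 * ({x | (f + f') x ≠ 0}.ncard : ℝ) / Nat.card V < 2 / 2 ^ d := by
    rw [div_lt_iff₀ hV]
    have : (2 : ℝ) / 2 ^ d = 2 * (1 / 2 ^ d) := by ring
    rw [this]
    linarith
  linarith

/-- counting form: `f ↦ (sign of the bias, y, derivatives)` is injective -/
theorem klp {η : ℝ} (hη : 0 < η) (d : ℕ) :
    ∃ t : ℕ, ∀ (V : Type) [AddCommGroup V] [Module F V] [Finite V] (A : Set (V → F))
      (B : Set (Fin t → V → F)), (∀ f ∈ A, f ∈ P V (d + 1) ∧ η ≤ |bias f|) →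
      (∀ f ∈ A, ∀ y : Fin t → V, (fun i => D (y i) f) ∈ B) →
      A.ncard ≤ 2 * Nat.card V ^ t * B.ncard := by
  classical
  obtain ⟨t, ht⟩ := exists_good (δ := 1 / 2 ^ (d + 1)) hη (by positivity)
  refine ⟨t, fun V _ _ _ A B hA hB => ?_⟩
  have hy : ∀ f : V → F, ∃ y : Fin t → V, f ∈ A → Good (1 / 2 ^ (d + 1)) f y := by
    intro f
    by_cases hf : f ∈ A
    · obtain ⟨y, hy⟩ := ht V f (hA f hf).2
      exact ⟨y, fun _ => hy⟩
    · exact ⟨0, fun h => (hf h).elim⟩
  choose y hy using hy
  have h1 : A.ncard ≤ ((Set.univ : Set Bool) ×ˢ ((Set.univ : Set (Fin t → V)) ×ˢ B)).ncard := by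
    refine Set.ncard_le_ncard_of_injOn
      (fun f => (decide (0 < bias f), y f, fun i => D (y f i) f)) ?_ ?_ (Set.toFinite _)
    · intro f hf
      exact ⟨trivial, trivial, hB f hf _⟩
    · intro f hf f' hf' he
      simp only [Prod.mk.injEq, decide_eq_decide] at he
      obtain ⟨e1, e2, e3⟩ := he
      have g1 := hy f hf
      have g2 := hy f' hf'
      rw [← e2] at g2 e3
      refine good_inj (hA f hf).1 (hA f' hf').1 g1 g2 ?_ fun i => congrFun e3 i
      have n1 : bias f ≠ 0 := by
        intro h0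
        have := (hA f hf).2
        rw [h0, abs_zero] at this
        linarith
      have n2 : bias f' ≠ 0 := by
        intro h0
        have := (hA f' hf').2
        rw [h0, abs_zero] at this
        linarith
      by_cases hp : 0 < bias f
      · exact mul_pos hp (e1.1 hp)
      · have hp' : ¬ 0 < bias f' := fun h => hp (e1.2 h)
        exact mul_pos_of_neg_of_neg (lt_of_le_of_ne (not_lt.1 hp) n1)
          (lt_of_le_of_ne (not_lt.1 hp') n2)
  rw [Set.ncard_prod, Set.ncard_prod, Set.ncard_univ, Set.ncard_univ, Nat.card_fun] at h1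
  simpa [mul_assoc] using h1

/-- number of biased functions of degree `≤ d` -/
theorem card_biased {η : ℝ} (hη : 0 < η) (d : ℕ) :
    ∃ K : ℕ, ∀ (V : Type) [AddCommGroup V] [Module F V] [Finite V],
      {f | f ∈ P V (d + 1) ∧ η ≤ |bias f|}.ncard ≤
        (2 * Nat.card V * cP (finrank F V) d) ^ K := by
  obtain ⟨t, ht⟩ := klp hη d
  refine ⟨t + 1, fun V _ _ _ => ?_⟩
  have h1 := ht V {f | f ∈ P V (d + 1) ∧ η ≤ |bias f|} {g | ∀ i, g i ∈ P V d} (fun f hf => hf)
    (fun f hf y i => mem_P_succ.1 hf.1 (y i))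
  have h2 : {g : Fin t → V → F | ∀ i, g i ∈ P V d}.ncard = cP (finrank F V) d ^ t := by
    rw [← Nat.card_coe_set_eq, ← card_P]
    have e : {g : Fin t → V → F | ∀ i, g i ∈ P V d} ≃ (Fin t → P V d) :=
      Equiv.subtypePiEquivPi (p := fun _ g => g ∈ P V d)
    rw [Nat.card_congr e, Nat.card_fun]
    simp
  rw [h2] at h1
  refine h1.trans ?_
  have hV : 1 ≤ Nat.card V := Nat.card_pos
  have hc : 1 ≤ cP (finrank F V) d := cP_pos _ _
  have h3 : 1 ≤ 2 ^ t := Nat.one_le_two_pow
  calc 2 * Nat.card V ^ t * cP (finrank F V) d ^ t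
      = 2 * Nat.card V ^ t * cP (finrank F V) d ^ t * (1 * 1 * 1) := by ring
    _ ≤ 2 * Nat.card V ^ t * cP (finrank F V) d ^ t *
        (2 ^ t * Nat.card V * cP (finrank F V) d) := by gcongr
    _ = _ := by ring

/-- iterated sumset -/
def KlpSums {V : Type} [AddCommGroup V] (A : Set V) : ℕ → Set V
  | 0 => {0}
  | j + 1 => {x | ∃ w ∈ KlpSums A j, ∃ a ∈ A, x = w + a}

theorem Klp_sums_mono {V : Type} [AddCommGroup V] {A : Set V} (h0 : 0 ∈ A) :
    Monotone (KlpSums A) :=
  monotone_nat_of_le_succ fun _ x hx => ⟨x, hx, 0, h0, (add_zero x).symm⟩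

theorem Klp_sums_rep {V : Type} [AddCommGroup V] {A : Set V} (j : ℕ) :
    ∀ x ∈ KlpSums A j, ∃ s : Fin j → V, (∀ i, s i ∈ A) ∧ x = ∑ i, s i := by
  induction j with
  | zero =>
    intro x hx
    exact ⟨Fin.elim0, fun i => i.elim0, hx⟩
  | succ j ih =>
    rintro x ⟨w, hw, a, ha, rfl⟩
    obtain ⟨s, hs, rfl⟩ := ih w hw
    refine ⟨Fin.cons a s, fun i => Fin.cases ha hs i, ?_⟩
    rw [Fin.sum_univ_succ, add_comm]
    rfl

theorem Klp_sums_grow {V : Type} [AddCommGroup V] [Module F V] [Finite V] {A : Set V}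
    (h0 : 0 ∈ A) (j : ℕ) (h : ¬ KlpSums A (j + 2) ⊆ KlpSums A (j + 1)) :
    (KlpSums A j).ncard + A.ncard ≤ (KlpSums A (j + 3)).ncard := by
  obtain ⟨x, hx, hx'⟩ := Set.not_subset.1 h
  have hd : Disjoint (KlpSums A j) ((fun a => x + a) '' A) := by
    rw [Set.disjoint_left]
    rintro w hw ⟨a, ha, rfl⟩
    refine hx' ⟨x + a, hw, a, ha, ?_⟩
    rw [add_assoc, add_self_V, add_zero]
  rw [← Set.ncard_image_of_injective A (add_right_injective x),
    ← Set.ncard_union_eq hd (Set.toFinite _) (Set.toFinite _)]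
  refine Set.ncard_le_ncard ?_ (Set.toFinite _)
  rintro w (hw | ⟨a, ha, rfl⟩)
  · exact Klp_sums_mono h0 (Nat.le_add_right j 3) hw
  · exact ⟨x, hx, a, ha, rfl⟩

/-- a dense set containing `0` spans in boundedly many steps: with `A_j` the `j`-fold sumset, if
`x ∈ A_(j+2) \ A_(j+1)` then `x + A` is disjoint from `A_j` and lies in `A_(j+3)`. -/
theorem span_bdd {δ : ℝ} (hδ : 0 < δ) :
    ∃ R : ℕ, ∀ (V : Type) [AddCommGroup V] [Module F V] [Finite V] (A : Set V), 0 ∈ A →
      δ * Nat.card V ≤ A.ncard → ∀ u ∈ Submodule.span F A,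
        ∃ s : Fin R → V, (∀ i, s i ∈ A) ∧ u = ∑ i, s i := by
  obtain ⟨k, hk⟩ := exists_nat_gt (1 / δ)
  refine ⟨3 * k, fun V _ _ _ A h0 hA u hu => ?_⟩
  have hst : ∃ j ≤ 3 * k, KlpSums A (j + 1) ⊆ KlpSums A j := by
    by_contra hc
    push Not at hc
    have h1 : ∀ m ≤ k, m * A.ncard ≤ (KlpSums A (3 * m)).ncard := by
      intro m
      induction m with
      | zero => simp
      | succ m ih =>
        intro hm
        have h2 := ih (by omega)
        have h3 := Klp_sums_grow h0 (3 * m) (hc (3 * m + 1) (by omega))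
        rw [Nat.succ_mul, show 3 * (m + 1) = 3 * m + 3 by ring]
        omega
    have h4 : (KlpSums A (3 * k)).ncard ≤ Nat.card V := Set.ncard_le_card _
    have h5 : (k : ℝ) * A.ncard ≤ Nat.card V := by exact_mod_cast (h1 k le_rfl).trans h4
    have hV : (0 : ℝ) < Nat.card V := by exact_mod_cast Nat.card_pos
    rw [div_lt_iff₀ hδ] at hk
    have hk0 : (0 : ℝ) ≤ k := Nat.cast_nonneg k
    nlinarith [mul_le_mul_of_nonneg_left hA hk0]
  obtain ⟨j, hj, hs⟩ := hst
  have h6 : ∀ w ∈ KlpSums A j, w + u ∈ KlpSums A j := by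
    induction hu using Submodule.span_induction with
    | mem a ha => exact fun w hw => hs ⟨w, hw, a, ha, rfl⟩
    | zero => exact fun w hw => by rwa [add_zero]
    | add a b _ _ iha ihb => exact fun w hw => by rw [← add_assoc]; exact ihb _ (iha w hw)
    | smul c a _ iha =>
      intro w hw
      rcases Klp_F_cases c with h | h
      · rwa [h, zero_smul, add_zero]
      · rw [h, one_smul]; exact iha w hw
  have h7 : (0 : V) ∈ KlpSums A j := Klp_sums_mono h0 (Nat.zero_le j) rfl
  have h8 := h6 0 h7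
  rw [zero_add] at h8
  exact Klp_sums_rep _ u (Klp_sums_mono h0 hj h8)

end Pool.Agent.P.MP_cb6780_lc
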