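import Mathlib

set_option autoImplicit false
set_option linter.unusedSectionVars false

namespace Pool.Agent.P.MP_cb6780_lc

open Module

theorem LClt_sq {m g E : ℝ} (h0 : 0 ≤ m) (h1 : m ≤ 1) (g0 : 0 ≤ g) (g1 : g ≤ 1) (hE : 0 ≤ E)
    (h : m ≤ g + E) : m ^ 2 ≤ g ^ 2 + 2 * E := by
  rcases le_total m g with h2 | h2
  · nlinarith
  · nlinarith

theorem LClt_u (p u : ℕ → ℝ → ℝ) (hu1 : ∀ n t, u n t ≤ 1)
    (hrec : ∀ n t, ∃ m : ℝ, 0 ≤ m ∧ m ≤ 1 ∧ m ≤ p n (2 * t) + 1 / 2 ^ n ∧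
      u (n + 2) t ≤ 7 / 8 * m ^ 2 + u n (2 * t) / 8 + 1 / 2 ^ n) {B D : ℝ} (hB : 0 ≤ B)
    (hD : 0 < D) (hp : ∀ n t, p n t ≤ Real.exp (-(t ^ 2 * 2 ^ n / 2)) +
      (t ^ 2 * 2 ^ n) ^ 2 / 8 / D + B / 2 ^ n) (n : ℕ) : ∀ t : ℝ,
    u n t ≤ Real.exp (-(t ^ 2 * 2 ^ n)) + (t ^ 2 * 2 ^ n) ^ 2 / 4 / D + (14 * B + 22) / 2 ^ n := by
  have hs : ∀ (n : ℕ) (t : ℝ), 1 ≤ (14 * B + 22) / 2 ^ n → u n t ≤ Real.exp (-(t ^ 2 * 2 ^ n)) +
      (t ^ 2 * 2 ^ n) ^ 2 / 4 / D + (14 * B + 22) / 2 ^ n := fun n t h4 => by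
    have h1 := Real.exp_pos (-(t ^ 2 * 2 ^ n))
    have h2 : 0 ≤ (t ^ 2 * 2 ^ n) ^ 2 / 4 / D := by positivity
    have h3 := hu1 n t
    linarith
  induction n using Nat.twoStepInduction with
  | zero => exact fun t => hs _ t (by rw [le_div_iff₀ (by positivity)]; norm_num; linarith)
  | one => exact fun t => hs _ t (by rw [le_div_iff₀ (by positivity)]; norm_num; linarith)
  | more n ih _ =>
    intro t
    obtain ⟨m, m0, m1, m2, m3⟩ := hrec n t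
    have e : (2 * t) ^ 2 * 2 ^ n = t ^ 2 * 2 ^ (n + 2) := by ring
    have h1 := hp n (2 * t)
    have h2 := ih (2 * t)
    rw [e] at h1 h2
    have hT : 0 ≤ t ^ 2 * 2 ^ (n + 2) := by positivity
    generalize t ^ 2 * 2 ^ (n + 2) = T at *
    have g1 : Real.exp (-(T / 2)) ≤ 1 := Real.exp_le_one_iff.2 (by linarith)
    have g2 : Real.exp (-(T / 2)) ^ 2 = Real.exp (-T) := by
      rw [sq, ← Real.exp_add]
      congr 1
      ring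
    have h3 := LClt_sq (E := T ^ 2 / 8 / D + B / 2 ^ n + 1 / 2 ^ n) m0 m1 (Real.exp_pos _).le g1
      (by positivity) (by linarith)
    rw [g2] at h3
    have e1 : T ^ 2 / 4 / D = 2 * (T ^ 2 / 8 / D) := by ring
    have e2 : (14 * B + 22) / 2 ^ n = 14 * (B / 2 ^ n) + 22 * (1 / 2 ^ n) := by ring
    have e3 : (14 * B + 22) / 2 ^ (n + 2) = 7 / 2 * (B / 2 ^ n) + 11 / 2 * (1 / 2 ^ n) := by ring
    rw [e1, e2] at h2
    rw [e1, e3]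
    linarith

theorem clt_upper (p u : ℕ → ℝ → ℝ) (hp1 : ∀ n t, p n t ≤ 1) (hu1 : ∀ n t, u n t ≤ 1)
    (hpu : ∀ n t, p (n + 1) t ≤ u n t)
    (hrec : ∀ n t, ∃ m : ℝ, 0 ≤ m ∧ m ≤ 1 ∧ m ≤ p n (2 * t) + 1 / 2 ^ n ∧
      u (n + 2) t ≤ 7 / 8 * m ^ 2 + u n (2 * t) / 8 + 1 / 2 ^ n)
    (hT : ∀ n t, p n t ≤ 1 - t ^ 2 * 2 ^ n / 2 + (t ^ 2 * 2 ^ n) ^ 2 / 8) (j n : ℕ) (t : ℝ) :
    p n t ≤ Real.exp (-(t ^ 2 * 2 ^ n / 2)) + (t ^ 2 * 2 ^ n) ^ 2 / 8 / 2 ^ j +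
      11 * 32 ^ j / 2 ^ n := by
  induction j generalizing n t with
  | zero =>
    have h1 := hT n t
    have h2 := Real.add_one_le_exp (-(t ^ 2 * 2 ^ n / 2))
    have h3 : (0 : ℝ) ≤ 11 * 32 ^ 0 / 2 ^ n := by positivity
    rw [pow_zero, div_one]
    linarith
  | succ j ih =>
    have hB : (1 : ℝ) ≤ 32 ^ j := one_le_pow₀ (by norm_num)
    rcases n with _ | n
    · have h1 := Real.exp_pos (-(t ^ 2 * 2 ^ 0 / 2))
      have h2 : 0 ≤ (t ^ 2 * 2 ^ 0) ^ 2 / 8 / 2 ^ (j + 1) := by positivity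
      have h3 := hp1 0 t
      have h4 : (11 : ℝ) * 32 ^ (j + 1) / 2 ^ 0 = 352 * 32 ^ j := by ring
      linarith
    · have h1 := (hpu n t).trans (LClt_u p u hu1 hrec (by positivity) (by positivity) ih n t)
      have e1 : t ^ 2 * 2 ^ (n + 1) / 2 = t ^ 2 * 2 ^ n := by ring
      have e2 : (t ^ 2 * 2 ^ (n + 1)) ^ 2 / 8 / 2 ^ (j + 1) = (t ^ 2 * 2 ^ n) ^ 2 / 4 / 2 ^ j := by
        ring
      have e3 : (11 : ℝ) * 32 ^ (j + 1) / 2 ^ (n + 1) = 176 * 32 ^ j / 2 ^ n := by ring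
      have h2 : ((14 : ℝ) * (11 * 32 ^ j) + 22) / 2 ^ n ≤ 176 * 32 ^ j / 2 ^ n :=
        div_le_div_of_nonneg_right (by linarith) (by positivity)
      rw [e1, e2, e3]
      linarith

theorem LClt_pow {a b : ℝ} (hb : 0 ≤ b) (hab : b ≤ a) (ha : a ≤ 1) (N : ℕ) :
    a ^ N - b ^ N ≤ N * (a - b) := by
  induction N with
  | zero => simp
  | succ N ih =>
    have h1 : a ^ N ≤ 1 := pow_le_one₀ (hb.trans hab) ha
    have h2 : b ^ N ≤ a ^ N := pow_le_pow_left₀ hb hab N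
    have e : a ^ (N + 1) - b ^ (N + 1) = a ^ N * (a - b) + b * (a ^ N - b ^ N) := by ring
    rw [e]
    push_cast
    nlinarith [mul_le_mul_of_nonneg_right h1 (sub_nonneg.2 hab),
      mul_le_mul_of_nonneg_right (hab.trans ha) (sub_nonneg.2 h2)]

theorem LClt_exp {y : ℝ} (hy : 0 ≤ y) : Real.exp (-y) ≤ 1 - y + y ^ 2 / 2 := by
  have h1 : 1 + y + y ^ 2 / 2 + y ^ 3 / 6 ≤ Real.exp y := by
    have := Real.sum_le_exp_of_nonneg hy 4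
    simp only [Finset.sum_range_succ, Finset.sum_range_zero, Nat.factorial] at this
    norm_num at this
    linarith
  have h2 : 0 < 1 - y + y ^ 2 / 2 := by nlinarith [sq_nonneg (y - 1)]
  rw [Real.exp_neg, inv_le_iff_one_le_mul₀ (Real.exp_pos y)]
  refine le_trans ?_ (mul_le_mul_of_nonneg_left h1 h2.le)
  have h3 : 0 ≤ y ^ 3 := by positivity
  have h4 : 0 ≤ y ^ 4 := by positivity
  have h5 : 0 ≤ y ^ 5 := by positivity
  nlinarith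

theorem clt_lower (n : ℕ) {t : ℝ} (ht : t ^ 2 ≤ 2) :
    Real.exp (-(t ^ 2 * 2 ^ n / 2)) - (t ^ 2 * 2 ^ n) ^ 2 / 8 / 2 ^ n ≤ Real.cos t ^ 2 ^ n := by
  have hy : 0 ≤ t ^ 2 / 2 := by positivity
  have h1 : 1 - t ^ 2 / 2 ≤ Real.cos t := Real.one_sub_sq_div_two_le_cos
  have h2 : 0 ≤ 1 - t ^ 2 / 2 := by linarith
  have h3 := pow_le_pow_left₀ h2 h1 (2 ^ n)
  have h4 := Real.add_one_le_exp (-(t ^ 2 / 2))
  have h5 := LClt_pow (a := Real.exp (-(t ^ 2 / 2))) h2 (by linarith)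
    (Real.exp_le_one_iff.2 (by linarith)) (2 ^ n)
  have h6 := LClt_exp hy
  rw [← Real.exp_nat_mul] at h5
  push_cast at h5
  have e1 : (2 : ℝ) ^ n * -(t ^ 2 / 2) = -(t ^ 2 * 2 ^ n / 2) := by ring
  have e2 : (t ^ 2 * 2 ^ n) ^ 2 / 8 / 2 ^ n = 2 ^ n * ((t ^ 2 / 2) ^ 2 / 2) := by
    field_simp
    ring
  have h7 : (2 : ℝ) ^ n * (Real.exp (-(t ^ 2 / 2)) - (1 - t ^ 2 / 2)) ≤
      2 ^ n * ((t ^ 2 / 2) ^ 2 / 2) := mul_le_mul_of_nonneg_left (by linarith) (by positivity)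
  rw [e1] at h5
  rw [e2]
  linarith

theorem LClt_cos {y : ℝ} (hy : 0 ≤ y) :
    Real.cos (2 * y) ≤ 1 - (2 * y) ^ 2 / 2 + (2 * y) ^ 4 / 24 := by
  rcases le_total (y ^ 2) 3 with h | h
  · have h1 : y - y ^ 3 / 6 ≤ Real.sin y := Real.sin_ge_sub_cube hy
    have h2 : 0 ≤ y - y ^ 3 / 6 := by nlinarith [mul_nonneg hy (sub_nonneg.2 h)]
    have h3 := pow_le_pow_left₀ h2 h1 2
    rw [Real.cos_two_mul, Real.cos_sq']
    have h4 : 0 ≤ y ^ 6 := by positivity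
    nlinarith
  · have h1 := Real.cos_le_one (2 * y)
    nlinarith [mul_nonneg (sq_nonneg y) (sub_nonneg.2 h)]

theorem cos_quartic (x : ℝ) : Real.cos x ≤ 1 - x ^ 2 / 2 + x ^ 4 / 24 := by
  have h := LClt_cos (y := |x| / 2) (by positivity)
  have e : 2 * (|x| / 2) = |x| := by ring
  have e4 : |x| ^ 4 = x ^ 4 := (by decide : Even 4).pow_abs x
  rwa [e, Real.cos_abs, sq_abs, e4] at h

end Pool.Agent.P.MP_cb6780_lc
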