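import Mathlib

set_option autoImplicit false
set_option linter.unusedSectionVars false

namespace Pool.Agent.P.MP_cb6780_lc

open Module

/-- the recursive inequalities for the characteristic functions `p r n` -/
structure Rec (p : ℕ → ℕ → ℝ → ℝ) : Prop where
  le_one : ∀ r n t, p r n t ≤ 1
  base : ∀ r n t, n ≤ r → p r n t = Real.cos t ^ 2 ^ n
  taylor : ∀ r n t, 3 ≤ r → p r n t ≤ 1 - t ^ 2 * 2 ^ n / 2 + (t ^ 2 * 2 ^ n) ^ 2 / 8
  step : ∀ r L n t, 3 ≤ L → L ≤ r → ∃ m : ℝ, 0 ≤ m ∧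
    m ≤ (1 - 1 / 2 ^ (n + 1)) * p r n (2 * t) + 1 / 2 ^ (n + 1) ∧
    p r (n + L) t ≤ ((1 - 2 / 2 ^ (n + L)) * m + 2 / 2 ^ (n + L)) ^ 2 + 1 / 2 ^ L * (m - m ^ 2)

/-- `t` lies in the first half period -/
def Alw (r n : ℕ) (t : ℝ) : Prop := 1 ≤ n ∧ 0 ≤ t ∧ t * 2 ^ ((n + r - 1) / r) ≤ Real.pi

/-- the allowed predecessor -/
theorem alw_pred {r n : ℕ} {t : ℝ} (hr : 3 ≤ r) (hn : r < n) (h : Alw r n t) :
    ∃ L n' : ℕ, 3 ≤ L ∧ L ≤ r ∧ n = n' + L ∧ Alw r n' (2 * t) ∧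
      (L = 3 ∨ ∃ k : ℕ, 1 ≤ k ∧ n' = r * k ∧ 2 * 2 ^ ((r - 2) * k) ≤ (2 * t) ^ 2 * 2 ^ n') := by
  obtain ⟨-, h0, hp⟩ := h
  by_cases h3 : Alw r (n - 3) (2 * t)
  · exact ⟨3, n - 3, le_rfl, hr, by omega, h3, Or.inl rfl⟩
  have hr0 : 0 < r := by omega
  have h4 : Real.pi < 2 * t * 2 ^ ((n - 3 + r - 1) / r) := by
    by_contra hc
    exact h3 ⟨by omega, by linarith, not_lt.1 hc⟩
  have h5 : (n + r - 1) / r ≤ (n - 3 + r - 1) / r := by
    by_contra hc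
    have h6 : (2 : ℝ) ^ ((n - 3 + r - 1) / r + 1) ≤ 2 ^ ((n + r - 1) / r) :=
      pow_le_pow_right₀ one_le_two (by omega)
    have h7 := mul_le_mul_of_nonneg_left h6 h0
    rw [pow_succ] at h7
    linarith
  have h6 : (n - 3 + r - 1) / r ≤ (n + r - 1) / r := Nat.div_le_div_right (by omega)
  have h7 : 2 ≤ (n + r - 1) / r := (Nat.le_div_iff_mul_le hr0).2 (by omega)
  obtain ⟨k, hk⟩ : ∃ k, (n + r - 1) / r = k + 1 := ⟨(n + r - 1) / r - 1, by omega⟩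
  have h8 : (k + 1) * r ≤ n - 3 + r - 1 := (Nat.le_div_iff_mul_le hr0).1 (by omega)
  have h9 : n + r - 1 < (k + 2) * r := (Nat.div_lt_iff_lt_mul hr0).1 (by omega)
  have e1 : (k + 1) * r = r * k + r := by ring
  have e2 : (k + 2) * r = r * k + 2 * r := by ring
  have hk1 : 1 ≤ k := by omega
  have h10 : 1 ≤ r * k := Nat.mul_pos hr0 hk1
  have e3 : (r * k + r - 1) / r = k := by
    apply Nat.div_eq_of_lt_le
    · rw [mul_comm]
      omega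
    · omega
  refine ⟨n - r * k, r * k, by omega, by omega, by omega, ⟨h10, by linarith, ?_⟩,
    Or.inr ⟨k, hk1, rfl, ?_⟩⟩
  · rw [e3]
    rw [hk, pow_succ] at hp
    linarith
  · rw [le_antisymm h6 h5, hk, pow_succ] at h4
    have e4 : (2 : ℝ) ^ (r * k) = 2 ^ ((r - 2) * k) * (2 ^ k) ^ 2 := by
      rw [← pow_mul, ← pow_add]
      congr 1
      obtain ⟨s, rfl⟩ : ∃ s, r = s + 2 := ⟨r - 2, by omega⟩
      rw [Nat.add_sub_cancel]
      ring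
    have h11 : 3 / 2 ≤ 2 * t * 2 ^ k := by linarith [Real.pi_gt_three]
    have h12 : 2 ≤ (2 * t * 2 ^ k) ^ 2 := by nlinarith
    have h13 := mul_le_mul_of_nonneg_right h12 (show (0 : ℝ) ≤ 2 ^ ((r - 2) * k) by positivity)
    rw [e4]
    linarith

theorem alw_small {r n : ℕ} {t : ℝ} (hr : 3 ≤ r) (h : Alw r n t) :
    t ^ 2 ≤ 5 / 2 := by
  obtain ⟨h1, h0, hp⟩ := h
  have h2 : 1 ≤ (n + r - 1) / r := (Nat.le_div_iff_mul_le (by omega)).2 (by omega)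
  have h3 : (2 : ℝ) ^ 1 ≤ 2 ^ ((n + r - 1) / r) := pow_le_pow_right₀ one_le_two h2
  have h4 := mul_le_mul_of_nonneg_left h3 h0
  have h5 := Real.pi_lt_d2
  nlinarith

theorem Rec.base_exp {p : ℕ → ℕ → ℝ → ℝ} (H : Rec p) {r n : ℕ} {t : ℝ} (hn : n ≤ r)
    (h : Alw r n t) : p r n t ≤ Real.exp (-(t ^ 2 * 2 ^ n / 5)) := by
  obtain ⟨h1, h0, hp⟩ := h
  have h2 : 1 ≤ (n + r - 1) / r := (Nat.le_div_iff_mul_le (by omega)).2 (by omega)
  have h3 : (2 : ℝ) ^ 1 ≤ 2 ^ ((n + r - 1) / r) := pow_le_pow_right₀ one_le_two h2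
  have h4 := mul_le_mul_of_nonneg_left h3 h0
  have h5 := Real.pi_lt_d2
  have h6 := Real.pi_pos
  have h7 : 0 ≤ Real.cos t := Real.cos_nonneg_of_mem_Icc ⟨by linarith, by linarith⟩
  have h8 : Real.cos t ≤ 1 - 2 / Real.pi ^ 2 * t ^ 2 :=
    Real.cos_le_one_sub_mul_cos_sq (by rw [abs_of_nonneg h0]; linarith)
  have h9 : 1 / 5 ≤ 2 / Real.pi ^ 2 := by
    rw [div_le_div_iff₀ (by norm_num) (by positivity)]
    nlinarith
  have h10 : Real.cos t ≤ Real.exp (-(t ^ 2 / 5)) := by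
    have := mul_le_mul_of_nonneg_right h9 (sq_nonneg t)
    linarith [Real.add_one_le_exp (-(t ^ 2 / 5))]
  rw [H.base r n t hn]
  refine (pow_le_pow_left₀ h7 h10 _).trans (le_of_eq ?_)
  rw [← Real.exp_nat_mul]
  congr 1
  push_cast
  ring

/-- uniformly away from `1` -/
theorem Rec.gap_one {p : ℕ → ℕ → ℝ → ℝ} (H : Rec p) {r : ℕ} (hr : 3 ≤ r) (n : ℕ) :
    ∀ t : ℝ, Alw r n t → 1 / 2 ≤ t ^ 2 * 2 ^ n → (1 + 2 / 2 ^ n) / 22 ≤ 1 - p r n t := by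
  induction n using Nat.strong_induction_on with
  | _ n ih =>
  intro t h hT
  have h2 : (2 : ℝ) / 2 ^ n ≤ 1 := by
    rw [div_le_one (by positivity)]
    simpa using pow_le_pow_right₀ (one_le_two (α := ℝ)) h.1
  by_cases hn : n ≤ r
  · have h3 := H.base_exp hn h
    have h4 : Real.exp (-(t ^ 2 * 2 ^ n / 5)) ≤ 10 / 11 := by
      rw [Real.exp_neg, inv_le_comm₀ (Real.exp_pos _) (by norm_num)]
      linarith [Real.add_one_le_exp (t ^ 2 * 2 ^ n / 5)]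
    linarith
  by_cases hT1 : t ^ 2 * 2 ^ n ≤ 1
  · have h3 := H.taylor r n t hr
    nlinarith
  obtain ⟨L, n', hL, hLr, rfl, h', hc⟩ := alw_pred hr (not_le.1 hn) h
  have hT' : 1 / 2 ≤ (2 * t) ^ 2 * 2 ^ n' := by
    rcases hc with rfl | ⟨k, -, -, hk⟩
    · rw [pow_add] at hT1
      linarith [not_le.1 hT1]
    · have : (1 : ℝ) ≤ 2 ^ ((r - 2) * k) := one_le_pow₀ one_le_two
      linarith
  have h3 := ih n' (by omega) (2 * t) h' hT'
  obtain ⟨m, m0, m1, m2⟩ := H.step r L n' t hL hLr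
  have h4 := H.le_one r n' (2 * t)
  obtain ⟨x, hx⟩ : ∃ x : ℝ, x = 1 / 2 ^ n' := ⟨_, rfl⟩
  obtain ⟨e, he⟩ : ∃ e : ℝ, e = 1 / 2 ^ L := ⟨_, rfl⟩
  have x0 : 0 ≤ x := by rw [hx]; positivity
  have e0 : 0 ≤ e := by rw [he]; positivity
  have x1 : x ≤ 1 / 2 := by
    rw [hx]
    exact one_div_le_one_div_of_le two_pos
      (by simpa using pow_le_pow_right₀ (one_le_two (α := ℝ)) h'.1)
  have e1 : e ≤ 1 / 8 := by
    rw [he]
    refine one_div_le_one_div_of_le (by norm_num) ?_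
    have := pow_le_pow_right₀ (one_le_two (α := ℝ)) hL
    linarith
  have a1 : (1 : ℝ) / 2 ^ (n' + 1) = x / 2 := by
    rw [hx, pow_succ]
    field_simp
  have a2 : (2 : ℝ) / 2 ^ n' = 2 * x := by
    rw [hx]
    ring
  obtain ⟨d, hd⟩ : ∃ d : ℝ, d = 2 / 2 ^ (n' + L) := ⟨_, rfl⟩
  have a3 : d = 2 * x * e := by
    rw [hd, hx, he, pow_add]
    field_simp
  rw [a1] at m1
  rw [a2] at h3
  rw [← hd, ← he] at m2
  rw [← hd]
  have d0 : 0 ≤ d := by rw [a3]; positivity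
  have d1 : d ≤ x / 4 := by nlinarith
  have b1 : (1 - x / 2) * ((1 + 2 * x) / 22) ≤ 1 - m := by
    have := mul_le_mul_of_nonneg_left h3 (show 0 ≤ 1 - x / 2 by linarith)
    linarith
  have b0 : 0 ≤ (1 - x / 2) * ((1 + 2 * x) / 22) := mul_nonneg (by linarith) (by positivity)
  have b2 : e * m ≤ (1 - d) * ((1 - d) * m + d) := by
    have c1 : e ≤ (1 - d) * (1 - d) := by nlinarith
    have c2 := mul_le_mul_of_nonneg_right c1 m0
    have c3 : 0 ≤ (1 - d) * d := mul_nonneg (by linarith) d0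
    linarith
  have b3 := mul_le_mul_of_nonneg_left b2 (b0.trans b1)
  have b4 : (1 - m) * (1 - d) ≤ 1 - p r (n' + L) t := by linarith
  have b5 := mul_le_mul b1 (show 1 - x / 4 ≤ 1 - d by linarith) (by linarith) (b0.trans b1)
  have b6 : 0 ≤ x * (1 - 11 / 8 * x) + x ^ 3 / 4 :=
    add_nonneg (mul_nonneg x0 (by linarith)) (by positivity)
  nlinarith

end Pool.Agent.P.MP_cb6780_lc
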