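import Pool.Agent.P.MP_cb6780_lc.LDec1

set_option autoImplicit false
set_option linter.unusedSectionVars false

namespace Pool.Agent.P.MP_cb6780_lc

open Module

theorem LDec2_num {a x m d e q : ℝ} (ha0 : 0 < a) (ha : a ≤ 21 / 22) (hx0 : 0 ≤ x)
    (hx : 120 * x ≤ a) (hm0 : 0 ≤ m) (hm1 : m ≤ 1) (hm : m ≤ a + x / 2) (hd0 : 0 ≤ d)
    (hd : d ≤ x / 4) (he : e ≤ 1 / 8)
    (hq : q ≤ ((1 - d) * m + d) ^ 2 + e * (m - m ^ 2)) : q ≤ 49 / 50 * a := by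
  have hd1 : d ≤ 1 := by linarith
  have h1 : 0 ≤ m - m ^ 2 := by nlinarith
  have h2 : e * (m - m ^ 2) ≤ 1 / 8 * (m - m ^ 2) := mul_le_mul_of_nonneg_right he h1
  have h3 : d * (1 - m) ≤ d := by nlinarith
  have h3' : 0 ≤ d * (1 - m) := mul_nonneg hd0 (by linarith)
  have h4 : ((1 - d) * m + d) ^ 2 ≤ m ^ 2 + 3 * d := by
    have e1 : ((1 - d) * m + d) ^ 2 = m ^ 2 + (d * (1 - m)) * (2 * m + d * (1 - m)) := by ring
    have e2 : (d * (1 - m)) * (2 * m + d * (1 - m)) ≤ d * 3 :=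
      mul_le_mul h3 (by linarith) (by linarith) hd0
    linarith
  have h5 : m ^ 2 ≤ (a + x / 2) ^ 2 := pow_le_pow_left₀ hm0 hm 2
  have h6 : (a + x / 2) ^ 2 ≤ 21 / 22 * a + 5 / 4 * x := by nlinarith
  linarith

/-- one contraction step -/
theorem Rec.contract {p : ℕ → ℕ → ℝ → ℝ} (H : Rec p) {a T0 : ℝ} (ha0 : 0 < a) (ha : a ≤ 21 / 22)
    (h : ∀ r n t, 3 ≤ r → Alw r n t → T0 ≤ t ^ 2 * 2 ^ n → p r n t ≤ a) :
    ∃ T1 : ℝ, ∀ r n t, 3 ≤ r → Alw r n t → T1 ≤ t ^ 2 * 2 ^ n → p r n t ≤ 49 / 50 * a := by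
  obtain ⟨T2, h20, h2a, h21⟩ : ∃ T2 : ℝ, T0 ≤ T2 ∧ 300 / a ≤ T2 ∧ 1 ≤ T2 :=
    ⟨max (max T0 (300 / a)) 1, (le_max_left _ _).trans (le_max_left _ _),
      (le_max_right _ _).trans (le_max_left _ _), le_max_right _ _⟩
  refine ⟨max (2 * T2) (T2 ^ 2), fun r n t hr hA hT => ?_⟩
  have hT1 : 2 * T2 ≤ t ^ 2 * 2 ^ n := (le_max_left _ _).trans hT
  have hT2 : T2 ^ 2 ≤ t ^ 2 * 2 ^ n := (le_max_right _ _).trans hT
  have h2a' : 300 ≤ T2 * a := (div_le_iff₀ ha0).1 h2a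
  by_cases hn : n ≤ r
  · refine (H.base_exp hn hA).trans ?_
    obtain ⟨T, hTe⟩ : ∃ T : ℝ, T = t ^ 2 * 2 ^ n := ⟨_, rfl⟩
    rw [← hTe] at hT1 ⊢
    have h1 : T / 5 + 1 ≤ Real.exp (T / 5) := Real.add_one_le_exp _
    rw [Real.exp_neg, inv_le_iff_one_le_mul₀ (Real.exp_pos _)]
    have h2 : 49 / 50 * a * (T / 5 + 1) ≤ 49 / 50 * a * Real.exp (T / 5) :=
      mul_le_mul_of_nonneg_left h1 (by positivity)
    have h3 : 2 * T2 * a ≤ T * a := mul_le_mul_of_nonneg_right hT1 ha0.le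
    nlinarith
  · obtain ⟨L, n', hL3, hLr, rfl, hA', hc⟩ := alw_pred hr (not_le.1 hn) hA
    obtain ⟨L2, rfl⟩ : ∃ L2, L = L2 + 2 := ⟨L - 2, by omega⟩
    obtain ⟨T', hT'⟩ : ∃ T' : ℝ, T' = (2 * t) ^ 2 * 2 ^ n' := ⟨_, rfl⟩
    have hT0 : 0 ≤ T' := by rw [hT']; positivity
    have hTe : t ^ 2 * 2 ^ (n' + (L2 + 2)) = T' * 2 ^ L2 := by rw [hT']; ring
    rw [hTe] at hT1 hT2
    have hT2' : T2 ≤ T' := by
      rcases hc with hc | ⟨k, hk, _, hb⟩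
      · have : L2 = 1 := by omega
        subst this
        linarith
      · rw [← hT'] at hb
        have h1 : (2 : ℝ) ^ L2 ≤ 2 ^ ((r - 2) * k) :=
          pow_le_pow_right₀ (by norm_num)
            ((show L2 ≤ r - 2 by omega).trans (Nat.le_mul_of_pos_right _ hk))
        have h0 : (0 : ℝ) < 2 ^ ((r - 2) * k) := by positivity
        have h2 : T' * 2 ^ L2 ≤ T' * T' := mul_le_mul_of_nonneg_left (by linarith) hT0
        exact (pow_le_pow_iff_left₀ (by linarith) hT0 two_ne_zero).1 (by rw [pow_two T']; linarith)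
    have hp' : p r n' (2 * t) ≤ a := h r n' (2 * t) hr hA' (by rw [← hT']; linarith)
    have hp1 := H.le_one r n' (2 * t)
    obtain ⟨m, hm0, hm, hq⟩ := H.step r (L2 + 2) n' t hL3 hLr
    obtain ⟨x, hx⟩ : ∃ x : ℝ, x = 1 / 2 ^ n' := ⟨_, rfl⟩
    have hx0 : 0 < x := by rw [hx]; positivity
    have hxT : T' * x ≤ 5 / 2 := by
      have e : T' * x = (2 * t) ^ 2 := by rw [hT', hx]; field_simp
      rw [e]; exact alw_small hr hA'
    have hxa : 120 * x ≤ a := by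
      have h1 : T2 * a ≤ T' * a := mul_le_mul_of_nonneg_right hT2' ha0.le
      have h2 : T' * (120 * x) ≤ T' * a := by linarith
      exact le_of_mul_le_mul_left h2 (by linarith)
    have e1 : (1 : ℝ) / 2 ^ (n' + 1) = x / 2 := by rw [hx, pow_succ]; field_simp
    rw [e1] at hm
    have h8 : (2 : ℝ) ^ 3 ≤ 2 ^ (L2 + 2) := pow_le_pow_right₀ (by norm_num) hL3
    have he : (1 : ℝ) / 2 ^ (L2 + 2) ≤ 1 / 8 :=
      one_div_le_one_div_of_le (by norm_num) (by linarith)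
    have e2 : (2 : ℝ) / 2 ^ (n' + (L2 + 2)) = 2 * x * (1 / 2 ^ (L2 + 2)) := by
      rw [hx, pow_add]; field_simp
    have hx2 : 0 ≤ 1 - x / 2 := by linarith
    refine LDec2_num ha0 ha hx0.le hxa hm0 ?_ ?_ (by positivity) ?_ he hq
    · have := mul_le_mul_of_nonneg_left hp1 hx2
      linarith
    · have := mul_le_mul_of_nonneg_left hp' hx2
      nlinarith
    · rw [e2]; nlinarith

theorem LDec2_iter {p : ℕ → ℕ → ℝ → ℝ} (H : Rec p) (j : ℕ) :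
    ∃ T1 : ℝ, ∀ r n t, 3 ≤ r → Alw r n t → T1 ≤ t ^ 2 * 2 ^ n →
      p r n t ≤ (49 / 50) ^ j * (21 / 22) := by
  induction j with
  | zero =>
    refine ⟨1 / 2, fun r n t hr hA hT => ?_⟩
    have h1 := H.gap_one hr n t hA hT
    have h2 : (0 : ℝ) ≤ 2 / 2 ^ n := by positivity
    rw [pow_zero]; linarith
  | succ j ih =>
    obtain ⟨T0, h0⟩ := ih
    have h1 : ((49 : ℝ) / 50) ^ j ≤ 1 := pow_le_one₀ (by norm_num) (by norm_num)
    obtain ⟨T1, h⟩ := H.contract (by positivity) (by linarith) h0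
    refine ⟨T1, fun r n t hr hA hT => (h r n t hr hA hT).trans (le_of_eq ?_)⟩
    ring

/-- uniformly small for large normalised frequency -/
theorem Rec.small {p : ℕ → ℕ → ℝ → ℝ} (H : Rec p) {η : ℝ} (hη : 0 < η) :
    ∃ T1 : ℝ, ∀ r n t, 3 ≤ r → Alw r n t → T1 ≤ t ^ 2 * 2 ^ n → p r n t ≤ η := by
  obtain ⟨j, hj⟩ := exists_pow_lt_of_lt_one hη (show (49 : ℝ) / 50 < 1 by norm_num)
  obtain ⟨T1, h⟩ := LDec2_iter H j
  refine ⟨T1, fun r n t hr hA hT => (h r n t hr hA hT).trans ?_⟩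
  have : (0 : ℝ) ≤ (49 / 50) ^ j := by positivity
  linarith

end Pool.Agent.P.MP_cb6780_lc
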