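import Pool.Agent.P.MP_cb6780_lc.LDec2

set_option autoImplicit false
set_option linter.unusedSectionVars false

namespace Pool.Agent.P.MP_cb6780_lc

open Module

theorem LDec3_exp1 (y : ℝ) : Real.exp (-y) * y ≤ 1 := by
  have h1 := Real.add_one_le_exp y
  have h2 : Real.exp (-y) * Real.exp y = 1 := by rw [← Real.exp_add]; simp
  have h3 := Real.exp_pos (-y)
  nlinarith

theorem LDec3_exp2 {y : ℝ} (hy : 0 ≤ y) : Real.exp (-y) * y ^ 2 ≤ 2 := by
  have h1 := Real.quadratic_le_exp_of_nonneg hy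
  have h2 : Real.exp (-y) * Real.exp y = 1 := by rw [← Real.exp_add]; simp
  have h3 := Real.exp_pos (-y)
  nlinarith

/-- the arithmetic of one step -/
theorem LDec3_step {p p' m x E b : ℝ} (hE0 : 0 < E) (hE : E ≤ 1 / 8) (hx0 : 0 < x) (hxE : x ≤ E)
    (hxb : x ≤ b / 16) (hpb : p' ≤ b) (hpE : p' ≤ E / 2) (hm0 : 0 ≤ m)
    (hm : m ≤ (1 - x / 2) * p' + x / 2)
    (hp : p ≤ ((1 - 2 * E * x) * m + 2 * E * x) ^ 2 + E * (m - m ^ 2)) : p ≤ 4 * E * b := by
  have hb0 : 0 ≤ b := by linarith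
  have h1 : 0 ≤ 1 - x / 2 := by linarith
  have hmE : m ≤ E := by
    have := mul_le_mul_of_nonneg_left hpE h1
    nlinarith
  have hmb : m ≤ 33 / 32 * b := by
    have := mul_le_mul_of_nonneg_left hpb h1
    nlinarith
  have hd0 : 0 ≤ 2 * E * x := by positivity
  have hd1 : 2 * E * x ≤ 1 := by nlinarith
  generalize hd : 2 * E * x = d at hp hd0 hd1
  have hm1 : m ≤ 1 := by linarith
  have h2 : ((1 - d) * m + d) ^ 2 ≤ m ^ 2 + 3 * d := by
    have e : ((1 - d) * m + d) ^ 2 = m ^ 2 + d * (2 * (m * (1 - m)) + d * (1 - m) ^ 2) := by ring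
    have a1 : m * (1 - m) ≤ 1 := by nlinarith
    have a2 : (1 - m) ^ 2 ≤ 1 := by nlinarith
    have a3 : d * (1 - m) ^ 2 ≤ 1 := by nlinarith [sq_nonneg (1 - m)]
    have a4 : d * (2 * (m * (1 - m)) + d * (1 - m) ^ 2) ≤ d * 3 :=
      mul_le_mul_of_nonneg_left (by linarith) hd0
    linarith
  have h3 : m ^ 2 ≤ E * m := by nlinarith
  have h4 : E * m ≤ E * (33 / 32 * b) := mul_le_mul_of_nonneg_left hmb hE0.le
  have h5 : E * x ≤ E * (b / 16) := mul_le_mul_of_nonneg_left hxb hE0.le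
  have h6 : 0 ≤ E * m ^ 2 := by positivity
  have h7 : 0 ≤ E * b := by positivity
  nlinarith

/-- the induction for one `r` -/
theorem Rec.decay_of {p : ℕ → ℕ → ℝ → ℝ} (H : Rec p) {r : ℕ} (hr : 3 ≤ r) {c : ℝ} (hc : 40 ≤ c)
    (h3 : ∀ n t, Alw r n t → c / 2 ≤ t ^ 2 * 2 ^ n → p r n t ≤ 1 / 16)
    (hb : 16 * c ≤ 2 ^ r ∨
      ∀ n t, Alw r n t → c ≤ (t ^ 2 * 2 ^ n) ^ 2 → p r n t ≤ 1 / 2 ^ (r + 1)) (n : ℕ) :
    ∀ t : ℝ, Alw r n t → p r n t * (t ^ 2 * 2 ^ n) ≤ c := by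
  induction n using Nat.strong_induction_on with
  | _ n ih =>
  intro t ht
  have hT0 : 0 ≤ t ^ 2 * 2 ^ n := by positivity
  rcases le_or_gt (t ^ 2 * 2 ^ n) c with hTc | hTc
  · have := mul_le_mul_of_nonneg_right (H.le_one r n t) hT0
    linarith
  rcases le_or_gt n r with hn | hn
  · have h1 := mul_le_mul_of_nonneg_right (H.base_exp hn ht) hT0
    have h2 := LDec3_exp1 (t ^ 2 * 2 ^ n / 5)
    nlinarith
  obtain ⟨L, n', hL3, hLr, rfl, hA, hcase⟩ := alw_pred hr hn ht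
  obtain ⟨m, hm0, hm, hp⟩ := H.step r L n' t hL3 hLr
  have hIH := ih n' (by omega) (2 * t) hA
  have hsm := alw_small hr hA
  have hN : (0 : ℝ) < 2 ^ n' := by positivity
  have hM : (0 : ℝ) < 2 ^ L := by positivity
  have hM8 : (8 : ℝ) ≤ 2 ^ L := by
    have : (2 : ℝ) ^ 3 ≤ 2 ^ L := pow_le_pow_right₀ (by norm_num) hL3
    linarith
  have hMR : (2 : ℝ) ^ L ≤ 2 ^ r := pow_le_pow_right₀ (by norm_num) hLr
  have hTT : t ^ 2 * 2 ^ (n' + L) = (2 * t) ^ 2 * 2 ^ n' * 2 ^ L / 4 := by rw [pow_add]; ring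
  have hTN : (2 * t) ^ 2 * 2 ^ n' ≤ 5 / 2 * 2 ^ n' := mul_le_mul_of_nonneg_right hsm hN.le
  have hbase : n' ≤ r → p r n' (2 * t) ≤ Real.exp (-((2 * t) ^ 2 * 2 ^ n' / 5)) :=
    fun h => H.base_exp h hA
  have h3' := h3 n' (2 * t) hA
  have hb' : 16 * c ≤ 2 ^ r ∨
      (c ≤ ((2 * t) ^ 2 * 2 ^ n') ^ 2 → p r n' (2 * t) ≤ 1 / 2 ^ (r + 1)) :=
    hb.imp id fun h => h n' (2 * t) hA
  rw [hTT] at hTc ⊢
  generalize (2 * t) ^ 2 * 2 ^ n' = T at *
  have hT : 0 < T := by
    by_contra hneg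
    have : T * 2 ^ L ≤ 0 := mul_nonpos_of_nonpos_of_nonneg (not_lt.1 hneg) hM.le
    linarith
  have hx : (1 : ℝ) / 2 ^ n' ≤ 5 / 2 / T := by
    rw [div_le_div_iff₀ hN hT]; linarith
  have hsmall : p r n' (2 * t) ≤ 1 / 2 ^ L / 2 ∧ (1 : ℝ) / 2 ^ n' ≤ 1 / 2 ^ L := by
    rcases hcase with rfl | ⟨k, hk, hnk, hTk⟩
    · have hT2 : c / 2 ≤ T := by norm_num at hTc; linarith
      refine ⟨by have := h3' hT2; norm_num; linarith, hx.trans ?_⟩
      rw [div_le_iff₀ hT]; norm_num; linarith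
    · have hrn : r ≤ n' := by rw [hnk]; exact Nat.le_mul_of_pos_right r hk
      refine ⟨?_, one_div_le_one_div_of_le hM (pow_le_pow_right₀ (by norm_num) (by omega))⟩
      have hR : (0 : ℝ) < 2 ^ r := by positivity
      have hr2 : (2 : ℝ) ^ r = 4 * 2 ^ (r - 2) := by
        obtain ⟨s, rfl⟩ : ∃ s, r = s + 2 := ⟨r - 2, by omega⟩
        rw [Nat.add_sub_cancel, pow_add]; ring
      have hfin : p r n' (2 * t) ≤ 1 / 2 ^ (r + 1) := by
        have hk1 : (2 : ℝ) ^ (r - 2) ≤ 2 ^ ((r - 2) * k) :=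
          pow_le_pow_right₀ (by norm_num) (Nat.le_mul_of_pos_right _ hk)
        rcases hb' with hb' | hb'
        · rw [pow_succ, le_div_iff₀ (by positivity)]
          rcases hk.eq_or_lt with rfl | hk2
          · have h1 := hbase (by omega)
            have h2 := LDec3_exp2 (y := T / 5) (by positivity)
            have h4 := Real.exp_pos (-(T / 5))
            have h5 : 2 ^ r / 2 ≤ T := by linarith
            have h6 : (640 : ℝ) ≤ 2 ^ r := by linarith
            generalize (2 : ℝ) ^ r = R at *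
            have h7 : R * 2 * 50 ≤ T ^ 2 := by nlinarith
            have h8 := mul_le_mul_of_nonneg_left h7 h4.le
            have h9 := mul_le_mul_of_nonneg_right h1 (by positivity : 0 ≤ R * 2)
            nlinarith
          · have hk3 : (2 : ℝ) ^ ((r - 2) * 2) ≤ 2 ^ ((r - 2) * k) :=
              pow_le_pow_right₀ (by norm_num) (Nat.mul_le_mul_left _ hk2)
            rw [pow_mul] at hk3
            have h5 : (2 ^ r) ^ 2 / 8 ≤ T := by rw [hr2]; nlinarith
            generalize (2 : ℝ) ^ r = R at *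
            rcases le_or_gt (p r n' (2 * t)) 0 with h0 | h0
            · have := mul_nonpos_of_nonpos_of_nonneg h0 (by positivity : 0 ≤ R * 2)
              linarith
            · have h6 := mul_le_mul_of_nonneg_left h5 h0.le
              have h7 : p r n' (2 * t) * (R * 2) * R ≤ 1 * R := by nlinarith
              exact le_of_mul_le_mul_right h7 hR
        · refine hb' (hTc.le.trans ?_)
          have h1 : 2 ^ L / 4 ≤ T := by
            have : (0 : ℝ) < 2 ^ (r - 2) := by positivity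
            linarith
          nlinarith
      refine hfin.trans ?_
      rw [div_div, ← pow_succ]
      exact one_div_le_one_div_of_le (by positivity) (pow_le_pow_right₀ (by norm_num) (by omega))
  have hkey : p r (n' + L) t ≤ 4 * (1 / 2 ^ L) * (c / T) := by
    refine LDec3_step (p' := p r n' (2 * t)) (m := m) (x := 1 / 2 ^ n') (by positivity)
      (one_div_le_one_div_of_le (by norm_num) hM8) (by positivity) hsmall.2 (hx.trans ?_)
      ((le_div_iff₀ hT).2 hIH) hsmall.1 hm0 ?_ ?_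
    · rw [div_div c, div_le_div_iff₀ hT (by positivity)]; nlinarith
    · have e : (1 : ℝ) / 2 ^ n' / 2 = 1 / 2 ^ (n' + 1) := by rw [div_div, pow_succ]
      rw [e]; exact hm
    · have e : (2 : ℝ) * (1 / 2 ^ L) * (1 / 2 ^ n') = 2 / 2 ^ (n' + L) := by
        rw [pow_add]; field_simp
      rw [e]; exact hp
  have h9 := mul_le_mul_of_nonneg_right hkey (by positivity : 0 ≤ T * 2 ^ L / 4)
  refine h9.trans (le_of_eq ?_)
  field_simp

theorem Rec.decay {p : ℕ → ℕ → ℝ → ℝ} (H : Rec p) :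
    ∃ C : ℝ, ∀ r n t, 3 ≤ r → Alw r n t → p r n t * (t ^ 2 * 2 ^ n) ≤ C := by
  obtain ⟨T1, h1⟩ := H.small (η := 1 / 16) (by norm_num)
  obtain ⟨r0, hr0⟩ := pow_unbounded_of_one_lt (16 * max 40 (2 * T1)) (by norm_num : (1 : ℝ) < 2)
  obtain ⟨T2, h2⟩ := H.small (η := 1 / 2 ^ (r0 + 1)) (by positivity)
  have ha : (40 : ℝ) ≤ max 40 (2 * T1) := le_max_left _ _
  have hb : 2 * T1 ≤ max 40 (2 * T1) := le_max_right _ _
  generalize max 40 (2 * T1) = c1 at *
  have hc : c1 ≤ max c1 (T2 ^ 2) := le_max_left _ _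
  have hd : T2 ^ 2 ≤ max c1 (T2 ^ 2) := le_max_right _ _
  generalize max c1 (T2 ^ 2) = c2 at *
  refine ⟨c2, fun r n t hr ht => ?_⟩
  rcases le_or_gt r0 r with h | h
  · refine (H.decay_of hr ha (fun n t ht hT => h1 r n t hr ht (by linarith)) (Or.inl ?_) n t ht).trans hc
    exact hr0.le.trans (pow_le_pow_right₀ (by norm_num) h)
  · refine H.decay_of hr (ha.trans hc) (fun n t ht hT => h1 r n t hr ht (by linarith))
      (Or.inr fun n t ht hT => (h2 r n t hr ht ?_).trans ?_) n t ht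
    · exact le_trans (le_abs_self _) ((sq_le_sq.1 (hd.trans hT)).trans
        (abs_of_nonneg (by positivity)).le)
    · exact one_div_le_one_div_of_le (by positivity) (pow_le_pow_right₀ (by norm_num) (by omega))

end Pool.Agent.P.MP_cb6780_lc
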