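import Pool.Agent.P.MP_cb6780_lc.Quad
import Pool.Agent.P.MP_cb6780_lc.Res2

set_option autoImplicit false
set_option linter.unusedSectionVars false

/-! Characteristic functions of the signed sum over cosets of Reed-Muller codes. -/

namespace Pool.Agent.P.MP_cb6780_lc

open Module

/-- the signed sum `#zeros - #ones` -/
noncomputable def gap {V : Type} (f : V → F) : ℝ := ∑ᶠ x, chi (f x)

/-- characteristic function of the signed sum over the coset `f + P V d` -/
noncomputable def psi {V : Type} [AddCommGroup V] (d : ℕ) (t : ℝ) (f : V → F) : ℝ :=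
  av fun q : P V d => Real.cos (t * gap (f + q.1))

/-- mean square of `psi d` over the coset `g + P V e` -/
noncomputable def mu {V : Type} [AddCommGroup V] (e d : ℕ) (t : ℝ) (g : V → F) : ℝ :=
  av fun q : P V e => psi d t (g + q.1) ^ 2

/-- characteristic function for the code of order `r` in `n` variables -/
noncomputable def phi (r n : ℕ) (t : ℝ) : ℝ := psi (r + 1) t (0 : (Fin n → F) → F)

/-- mean square over the cosets of the second order code -/
noncomputable def uu (r n : ℕ) (t : ℝ) : ℝ := mu (r + 1) 3 t (0 : (Fin n → F) → F)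

theorem gap_eq {V : Type} [Fintype V] (f : V → F) : gap f = ∑ x, chi (f x) :=
  finsum_eq_sum_of_fintype _

theorem gap_eq_bias {V : Type} [Finite V] [Nonempty V] (f : V → F) :
    gap f = Nat.card V * bias f := by
  have h : (Nat.card V : ℝ) ≠ 0 := by exact_mod_cast Nat.card_pos.ne'
  unfold bias av gap
  field_simp

theorem gap_add_one {V : Type} [Finite V] (f : V → F) : gap (f + 1) = -gap f := by
  have := Fintype.ofFinite V
  rw [gap_eq, gap_eq, ← Finset.sum_neg_distrib]
  refine Finset.sum_congr rfl fun x _ => ?_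
  rw [Pi.add_apply, chi_add, Pi.one_apply, chi_one, mul_neg_one]

theorem gap_congr {V W : Type} (e : W ≃ V) (f : V → F) : gap (fun w => f (e w)) = gap f :=
  finsum_comp_equiv e (f := fun x => chi (f x))

/-- a surjective homomorphism pushes the uniform measure to the uniform measure -/
theorem av_surj {A B : Type} [AddCommGroup A] [AddCommGroup B] [Finite A] (π : A →+ B)
    (h : Function.Surjective π) (g : B → ℝ) : av (fun a => g (π a)) = av g := by
  have : Finite B := Finite.of_surjective π h
  choose σ hσ using h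
  have h1 : ∀ b, av (fun a => g (π a)) = av fun a => g (π a + b) := fun b => by
    rw [← av_congr (Equiv.addRight (σ b)) fun a => g (π a)]
    simp only [Equiv.coe_addRight, map_add, hσ]
  have h2 : ∀ a, (av fun b => g (π a + b)) = av g := fun a =>
    av_congr (Equiv.addLeft (π a)) g
  calc av (fun a => g (π a)) = av fun _ : B => av fun a => g (π a) := (av_const _).symm
    _ = av fun b => av fun a => g (π a + b) := congrArg av (funext h1)
    _ = av fun a => av fun b => g (π a + b) := av_comm fun b a => g (π a + b)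
    _ = av g := by rw [funext h2, av_const]

theorem av_nonneg {V : Type} [Finite V] {g : V → ℝ} (h : ∀ x, 0 ≤ g x) : 0 ≤ av g := by
  have := Fintype.ofFinite V
  rw [av_eq]
  exact div_nonneg (Finset.sum_nonneg fun x _ => h x) (Nat.cast_nonneg _)

theorem av_le_of_le {V : Type} [Finite V] [Nonempty V] {g : V → ℝ} {c : ℝ} (h : ∀ x, g x ≤ c) :
    av g ≤ c := (av_mono h).trans (av_const c).le

theorem av_sub {V : Type} [Finite V] (g h : V → ℝ) : av (fun x => g x - h x) = av g - av h := by
  have := Fintype.ofFinite V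
  simp only [av_eq, Finset.sum_sub_distrib, sub_div]

theorem av_mul_av {V W : Type} [Finite V] [Finite W] (g : V → ℝ) (h : W → ℝ) :
    av g * av h = av fun x => av fun y => g x * h y := by
  simp only [av_mul_left, mul_comm _ (av h)]

section
variable {V W : Type} [AddCommGroup V] [Module F V] [AddCommGroup W] [Module F W]

theorem av_P_shift [Finite V] {d : ℕ} {p : V → F} (hp : p ∈ P V d) (Φ : (V → F) → ℝ) :
    av (fun q : P V d => Φ (q.1 + p)) = av fun q : P V d => Φ q.1 :=
  av_congr (Equiv.addRight (⟨p, hp⟩ : P V d)) fun q : P V d => Φ q.1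

theorem av_P_av [Finite V] {d e : ℕ} (h : d ≤ e) (Φ : (V → F) → ℝ) :
    av (fun q : P V e => av fun p : P V d => Φ (q.1 + p.1)) = av fun q : P V e => Φ q.1 := by
  rw [av_comm fun (q : P V e) (p : P V d) => Φ (q.1 + p.1),
    funext fun p : P V d => av_P_shift (P_mono h p.2) Φ, av_const]

/-- pull-back along an injective affine map -/
theorem av_P_comp [Finite V] (ι : W →ₗ[F] V) (hι : Function.Injective ι) (a : V) (d : ℕ)
    (Φ : (W → F) → ℝ) :
    av (fun q : P V d => Φ fun w => q.1 (ι w + a)) = av fun q : P W d => Φ q.1 := by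
  obtain ⟨π, hπ⟩ := ι.exists_leftInverse_of_injective (LinearMap.ker_eq_bot.2 hι)
  let R : P V d →+ P W d :=
    { toFun := fun q => ⟨fun w => q.1 (ι w + a), comp_mem_P q.2 ι a⟩
      map_zero' := rfl
      map_add' := fun _ _ => rfl }
  refine av_surj R (fun g => ⟨⟨_, comp_mem_P g.2 π (π a)⟩, Subtype.ext (funext fun w => ?_)⟩)
    fun q => Φ q.1
  have h : π (ι w) = w := LinearMap.congr_fun hπ w
  show g.1 (π (ι w + a) + π a) = g.1 w
  rw [map_add, h, add_assoc, add_self_V, add_zero]

theorem av_P_res [Finite V] (U : Submodule F V) (a : V) (d : ℕ) (Φ : (U → F) → ℝ) :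
    av (fun q : P V d => Φ (res U a q.1)) = av fun q : P U d => Φ q.1 :=
  av_P_comp U.subtype U.injective_subtype a d Φ

theorem psi_add_mem [Finite V] {d : ℕ} (t : ℝ) (f : V → F) {p : V → F} (hp : p ∈ P V d) :
    psi d t (f + p) = psi d t f := by
  have := av_P_shift hp fun q => Real.cos (t * gap (f + q))
  unfold psi
  rw [← this]
  simp only [add_assoc, add_comm p]

theorem psi_av [Finite V] {d e : ℕ} (h : d ≤ e) (t : ℝ) (f : V → F) :
    av (fun q : P V e => psi d t (f + q.1)) = psi e t f := by
  have := av_P_av h fun q => Real.cos (t * gap (f + q))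
  unfold psi
  rw [← this]
  simp only [add_assoc]

theorem psi_congr [Finite V] (e : W ≃ₗ[F] V) (a : V) (d : ℕ) (t : ℝ) (f : V → F) :
    psi d t (fun w => f (e w + a)) = psi d t f := by
  have := av_P_comp e.toLinearMap e.injective a d
    fun q => Real.cos (t * gap ((fun w => f (e w + a)) + q))
  unfold psi
  rw [← this]
  refine congrArg av (funext fun q => ?_)
  rw [← gap_congr (e.toEquiv.trans (Equiv.addRight a)) (f + q.1)]
  rfl

theorem abs_psi_le_one [Finite V] (d : ℕ) (t : ℝ) (f : V → F) : |psi d t f| ≤ 1 :=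
  (abs_av_le _).trans (av_le_of_le fun _ => Real.abs_cos_le_one _)

theorem psi_le_one [Finite V] (d : ℕ) (t : ℝ) (f : V → F) : psi d t f ≤ 1 :=
  (le_abs_self _).trans (abs_psi_le_one d t f)

theorem psi_sq_le_one [Finite V] (d : ℕ) (t : ℝ) (f : V → F) : psi d t f ^ 2 ≤ 1 :=
  (sq_le_one_iff_abs_le_one _).2 (abs_psi_le_one d t f)

theorem mu_nonneg [Finite V] (e d : ℕ) (t : ℝ) (g : V → F) : 0 ≤ mu e d t g :=
  av_nonneg fun _ => sq_nonneg _

theorem mu_le_one [Finite V] (e d : ℕ) (t : ℝ) (g : V → F) : mu e d t g ≤ 1 :=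
  av_le_of_le fun _ => psi_sq_le_one _ _ _

theorem mu_add_mem [Finite V] {e : ℕ} (d : ℕ) (t : ℝ) (g : V → F) {p : V → F} (hp : p ∈ P V e) :
    mu e d t (g + p) = mu e d t g := by
  have := av_P_shift hp fun q => psi d t (g + q) ^ 2
  unfold mu
  rw [← this]
  simp only [add_assoc, add_comm p]

theorem mu_congr [Finite V] (e : W ≃ₗ[F] V) (a : V) (c d : ℕ) (t : ℝ) (f : V → F) :
    mu c d t (fun w => f (e w + a)) = mu c d t f := by
  have : Finite W := Finite.of_equiv V e.toEquiv.symm
  have := av_P_comp e.toLinearMap e.injective a c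
    fun q => psi d t ((fun w => f (e w + a)) + q) ^ 2
  unfold mu
  rw [← this]
  refine congrArg av (funext fun q => ?_)
  rw [← psi_congr e a d t (f + q.1)]
  rfl

/-- Jensen: finer cosets have the larger mean square -/
theorem mu_anti [Finite V] {c d e : ℕ} (h1 : c ≤ d) (h2 : d ≤ e) (t : ℝ) (g : V → F) :
    mu e d t g ≤ mu e c t g := by
  have := av_P_av h2 fun q => psi c t (g + q) ^ 2
  unfold mu
  rw [← this]
  refine av_mono fun q => ?_
  rw [← psi_av h1]
  simp only [← add_assoc]
  exact sq_av_le _

theorem psi_zero_eq [Finite V] (r : ℕ) (t : ℝ) :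
    psi (r + 1) t (0 : V → F) = phi r (finrank F V) t := by
  have : Module.Finite F V := Module.Finite.of_finite
  exact psi_congr (Module.finBasis F V).equivFun 0 (r + 1) t 0

theorem mu_zero_eq [Finite V] (e d : ℕ) (t : ℝ) :
    mu e d t (0 : V → F) = mu e d t (0 : (Fin (finrank F V) → F) → F) := by
  have : Module.Finite F V := Module.Finite.of_finite
  exact mu_congr (Module.finBasis F V).equivFun 0 e d t 0

theorem P_top [Finite V] {d : ℕ} (h : finrank F V ≤ d) : P V (d + 1) = ⊤ := by
  have := Fintype.ofFinite V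
  classical
  have h1 : Nat.card (P V (d + 1)) = Nat.card (V → F) := by
    rw [card_P, Nat.card_fun, card_V (V := V), Nat.card_zmod, cP,
      ← Nat.sum_range_choose (finrank F V)]
    refine congrArg (fun k => 2 ^ k) (Eq.symm ?_)
    refine Finset.sum_subset (Finset.range_mono (by omega)) fun i _ hi => ?_
    exact Nat.choose_eq_zero_of_lt (by simpa using hi)
  exact Submodule.toAddSubgroup_injective
    (AddSubgroup.eq_top_of_card_eq (P V (d + 1)).toAddSubgroup h1)

theorem finrank_ker_dual [Finite V] {l : Dual F V} (hl : l ≠ 0) :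
    finrank F (LinearMap.ker l) + 1 = finrank F V := by
  have : Module.Finite F V := Module.Finite.of_finite
  exact Module.Dual.finrank_ker_add_one_of_ne_zero hl

theorem exists_eq_one {l : Dual F V} (hl : l ≠ 0) : ∃ e, l e = 1 := by
  obtain ⟨y, hy⟩ := DFunLike.ne_iff.1 hl
  rcases Av_cases (l y) with h | h
  · exact absurd h hy
  · exact ⟨y, h⟩

end

end Pool.Agent.P.MP_cb6780_lc
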