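import Pool.Agent.P.MP_cb6780_lc.LDef

set_option autoImplicit false
set_option linter.unusedSectionVars false

namespace Pool.Agent.P.MP_cb6780_lc

open Module

variable {H : Type} [AddCommGroup H] [Module F H] [Finite H]

open Classical in
/-- average over the affine hyperplanes of `W` -/
noncomputable def XX (W : Submodule F H) (L : ℕ) (t : ℝ) (g : H → F) : ℝ :=
  av fun l : Dual F W => av fun y : W =>
    if l = 0 then 1 else psi L (2 * t) (res (LinearMap.ker l) y (res W 0 g))

/-- signed sum over the support of `b` -/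
noncomputable def LDesc_gs {V : Type} (h b : V → F) : ℝ :=
  ∑ᶠ x, if b x = 1 then chi (h x) else 0

open Classical in
theorem LDesc_sub (U : Submodule F H) (φ : H → ℝ) :
    (∑ᶠ x, if x ∈ U then φ x else 0) = ∑ᶠ u : U, φ u := by
  have := Fintype.ofFinite H
  rw [finsum_eq_sum_of_fintype, finsum_eq_sum_of_fintype, ← Finset.sum_filter]
  exact Finset.sum_subtype _ (by simp) φ

theorem LDesc_gap (W : Submodule F H) (h b : H → F) :
    gap h - gap (h + ind W 0 * b) = 2 * LDesc_gs (res W 0 h) (res W 0 b) := by
  classical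
  have := Fintype.ofFinite H
  have h1 := LDesc_sub W fun x => if b x = 1 then chi (h x) else 0
  have h2 : LDesc_gs (res W 0 h) (res W 0 b) =
      ∑ᶠ u : W, if b u = 1 then chi (h u) else 0 := by
    unfold LDesc_gs
    simp only [res_apply, add_zero]
  rw [h2, ← h1, finsum_eq_sum_of_fintype, gap_eq, gap_eq, ← Finset.sum_sub_distrib,
    Finset.mul_sum]
  refine Finset.sum_congr rfl fun x _ => ?_
  simp only [Pi.add_apply, Pi.mul_apply, ind, add_zero, chi_add]
  by_cases hx : x ∈ W
  · rcases Av_cases (b x) with hb | hb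
    · simp [hx, hb, chi_zero]
    · simp only [hx, hb, if_true, one_mul, chi_one]; ring
  · simp [hx, chi_zero]

theorem LDesc_ker (l : Dual F H) (y : H) (h : H → F) :
    LDesc_gs h (fun w => l w + (l y + 1)) = gap (res (LinearMap.ker l) y h) := by
  classical
  have h1 := LDesc_sub (LinearMap.ker l) fun x => chi (h (x + y))
  have h2 := finsum_comp_equiv (Equiv.addRight y)
    (f := fun w => if l w + (l y + 1) = 1 then chi (h w) else 0)
  have h3 : ∀ a b : F, (a + b + (b + 1) = 1) ↔ a = 0 := by decide
  unfold LDesc_gs gap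
  rw [← h2]
  simp only [res_apply]
  rw [← h1]
  refine finsum_congr fun x => ?_
  simp only [Equiv.coe_addRight, map_add, h3, LinearMap.mem_ker]

open Classical in
theorem LDesc_if (a b : ℝ) :
    av (fun l : Dual F H => if l = 0 then a else b) = b + (a - b) * (1 / 2 ^ finrank F H) := by
  have : Finite (Dual F H) := DFunLike.finite _
  have : Module.Finite F H := Module.Finite.of_finite
  have h1 : (fun l : Dual F H => if l = 0 then a else b) =
      fun l => b + (a - b) * ({0} : Set (Dual F H)).indicator (fun _ => (1 : ℝ)) l := by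
    funext l
    by_cases hl : l = 0 <;> simp [hl]
  rw [h1, av_add, av_const, av_mul_left, av_indicator, Set.ncard_singleton,
    card_V (V := Dual F H), Subspace.dual_finrank_eq]
  push_cast
  rfl

open Classical in
theorem LDesc_aff (L : ℕ) (t : ℝ) (g : H → F) :
    av (fun b : P H 2 => av fun q : P H L => Real.cos (t * LDesc_gs (g + q.1) b.1)) ≤
      av fun l : Dual F H => av fun y : H =>
        if l = 0 then 1 else psi L t (res (LinearMap.ker l) y g) := by
  have : Finite (Dual F H) := DFunLike.finite _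
  let π : Dual F H × F →+ P H 2 :=
    { toFun := fun x => ⟨fun w => x.1 w + x.2, mem_P_two.2 ⟨x.1, x.2, rfl⟩⟩
      map_zero' := Subtype.ext (funext fun w => by simp)
      map_add' := fun x y => Subtype.ext (funext fun w => by
        simp only [Prod.fst_add, Prod.snd_add, LinearMap.add_apply, Submodule.coe_add,
          Pi.add_apply]
        ring) }
  have hπ : Function.Surjective π := fun b => by
    obtain ⟨l, c, h⟩ := mem_P_two.1 b.2
    exact ⟨(l, c), Subtype.ext h.symm⟩
  let Λ : (H → F) → ℝ := fun b => av fun q : P H L => Real.cos (t * LDesc_gs (g + q.1) b)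
  rw [← av_surj π hπ fun b => Λ b.1, av_prod]
  refine av_mono fun l => ?_
  show av (fun c : F => Λ fun w => l w + c) ≤ _
  by_cases hl : l = 0
  · simp only [hl, if_true]
    rw [av_const]
    exact av_le_of_le fun c => av_le_of_le fun q => Real.cos_le_one _
  · simp only [hl, if_false]
    obtain ⟨e, he⟩ := exists_eq_one hl
    have hs : Function.Surjective l.toAddMonoidHom := fun c => by
      rcases Av_cases c with rfl | rfl
      · exact ⟨0, map_zero _⟩
      · exact ⟨e, he⟩
    rw [← av_congr (Equiv.addRight (1 : F)) fun c : F => Λ fun w => l w + c,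
      ← av_surj l.toAddMonoidHom hs]
    refine le_of_eq (congrArg av (funext fun y => ?_))
    show av (fun q : P H L => Real.cos (t * LDesc_gs (g + q.1) fun w => l w + (l y + 1))) = _
    simp only [LDesc_ker, map_add]
    exact av_P_res (LinearMap.ker l) y L
      fun q => Real.cos (t * gap (res (LinearMap.ker l) y g + q))

theorem LDesc_sq {A : Type} [Finite A] (x : A → ℝ) :
    av (fun a => Real.cos (x a)) ^ 2 ≤ av fun a => av fun b => Real.cos (x a - x b) := by
  simp only [Real.cos_sub, av_add]
  rw [← av_mul_av, ← av_mul_av]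
  nlinarith [mul_self_nonneg (av fun a => Real.sin (x a))]

/-- step (B) of the paper -/
theorem descent (W : Submodule F H) {d : ℕ} (hW : finrank F W + d = finrank F H) (t : ℝ)
    (g : H → F) : mu (d + 3) (d + 2) t g ≤ XX W (d + 3) t g := by
  classical
  have hs : ∀ a : P H 2, ind W 0 * a.1 ∈ P H (d + 2) := fun a =>
    mul_mem_P (d := d) (e := 1) (ind_mem_P hW 0) a.2
  let Ψ : (H → F) → ℝ := fun x => av fun a : P H 2 => av fun b : P H 2 =>
    Real.cos (t * gap (g + (x + ind W 0 * a.1)) - t * gap (g + (x + ind W 0 * b.1)))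
  let Ξ : (H → F) → ℝ := fun x => av fun b : P H 2 =>
    Real.cos (t * gap (g + x) - t * gap (g + x + ind W 0 * b.1))
  have h1 : ∀ q : H → F, psi (d + 2) t (g + q) ^ 2 ≤ av fun p : P H (d + 2) => Ψ (q + p.1) := by
    intro q
    have e1 : psi (d + 2) t (g + q) = av fun p : P H (d + 2) => av fun a : P H 2 =>
        Real.cos (t * gap (g + (q + p.1 + ind W 0 * a.1))) := by
      rw [av_comm fun (p : P H (d + 2)) (a : P H 2) =>
        Real.cos (t * gap (g + (q + p.1 + ind W 0 * a.1)))]
      have : ∀ a : P H 2, (av fun p : P H (d + 2) =>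
          Real.cos (t * gap (g + (q + p.1 + ind W 0 * a.1)))) = psi (d + 2) t (g + q) := by
        intro a
        have := av_P_shift (hs a) fun x => Real.cos (t * gap (g + q + x))
        unfold psi
        rw [← this]
        simp only [add_assoc]
      rw [funext this, av_const]
    rw [e1]
    exact (sq_av_le _).trans (av_mono fun p => LDesc_sq _)
  have h2 : ∀ (q : H → F) (a : P H 2), (av fun b : P H 2 =>
      Real.cos (t * gap (g + (q + ind W 0 * a.1)) - t * gap (g + (q + ind W 0 * b.1)))) =
      Ξ (q + ind W 0 * a.1) := by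
    intro q a
    rw [← av_congr (Equiv.addLeft a) fun b : P H 2 =>
      Real.cos (t * gap (g + (q + ind W 0 * a.1)) - t * gap (g + (q + ind W 0 * b.1)))]
    simp only [Ξ, Equiv.coe_addLeft, Submodule.coe_add, mul_add, add_assoc]
  have h3 : av (fun q : P H (d + 3) => Ψ q.1) = av fun q : P H (d + 3) => Ξ q.1 := by
    simp only [Ψ, h2]
    rw [av_comm fun (q : P H (d + 3)) (a : P H 2) => Ξ (q.1 + ind W 0 * a.1),
      funext fun a : P H 2 => av_P_shift (P_le_succ _ (hs a)) Ξ, av_const]
  let Λ : (W → F) → ℝ := fun b => av fun q : P W (d + 3) =>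
    Real.cos (2 * t * LDesc_gs (res W 0 g + q.1) b)
  have h4 : av (fun q : P H (d + 3) => Ξ q.1) = av fun b : P W 2 => Λ b.1 := by
    rw [← av_P_res W 0 2 Λ, av_comm fun (q : P H (d + 3)) (b : P H 2) =>
      Real.cos (t * gap (g + q.1) - t * gap (g + q.1 + ind W 0 * b.1))]
    refine congrArg av (funext fun b => ?_)
    rw [show Λ (res W 0 b.1) = _ from (av_P_res W 0 (d + 3)
      fun q => Real.cos (2 * t * LDesc_gs (res W 0 g + q) (res W 0 b.1))).symm]
    refine congrArg av (funext fun q => ?_)
    rw [← mul_sub, LDesc_gap, map_add, ← mul_assoc, mul_comm t 2]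
  calc mu (d + 3) (d + 2) t g
      ≤ av fun q : P H (d + 3) => av fun p : P H (d + 2) => Ψ (q.1 + p.1) :=
        av_mono fun q => h1 q.1
    _ = av fun q : P H (d + 3) => Ψ q.1 := av_P_av (by omega) Ψ
    _ = av fun b : P W 2 => Λ b.1 := h3.trans h4
    _ ≤ XX W (d + 3) t g := LDesc_aff (d + 3) (2 * t) (res W 0 g)

theorem LDesc_two (W : Submodule F H) (U : Submodule F W) (y : W) (e : ℕ) (Φ : (U → F) → ℝ) :
    av (fun g : P H e => Φ (res U y (res W 0 g.1))) = av fun g : P U e => Φ (0 + g.1) := by
  rw [av_P_res W 0 e fun x => Φ (res U y x), av_P_res U y e Φ]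
  simp only [zero_add]

open Classical in
theorem LDesc_all (W : Submodule F H) (e : ℕ) (Φ : ∀ U : Submodule F W, (U → F) → ℝ) (c : ℝ)
    (hc : ∀ l : Dual F W, l ≠ 0 →
      av (fun g : P (LinearMap.ker l) e => Φ (LinearMap.ker l) (0 + g.1)) = c) :
    av (fun g : P H e => av fun l : Dual F W => av fun y : W =>
      if l = 0 then 1 else Φ (LinearMap.ker l) (res (LinearMap.ker l) y (res W 0 g.1))) =
      c + (1 - c) * (1 / 2 ^ finrank F W) := by
  have : Finite (Dual F W) := DFunLike.finite _
  rw [← LDesc_if]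
  refine (av_comm _).trans (congrArg av (funext fun l => ?_))
  refine (av_comm _).trans (Eq.trans (congrArg av (funext fun y => ?_)) (av_const (V := W) _))
  by_cases hl : l = 0
  · rw [if_pos hl]
    exact Eq.trans (congrArg av (funext fun g => if_pos hl)) (av_const _)
  · rw [if_neg hl, ← hc l hl, ← LDesc_two W _ y e (Φ _)]
    exact congrArg av (funext fun g => if_neg hl)

theorem m1_le {d n r : ℕ} (hH : finrank F H = n + 1 + d) (h : d + 2 ≤ r) (t : ℝ) :
    av (fun g : P H (r + 1) => mu (d + 3) (d + 2) t g.1) ≤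
      (1 - 1 / 2 ^ (n + 1)) * phi r n (2 * t) + 1 / 2 ^ (n + 1) := by
  obtain ⟨f, hf⟩ := exists_linearIndependent_of_le_finrank (R := F) (M := H) (n := n + 1)
    (by omega)
  have hW := finrank_span_eq_card hf
  rw [Fintype.card_fin] at hW
  generalize Submodule.span F (Set.range f) = W at hW
  have hd : finrank F W + d = finrank F H := by omega
  have h1 := LDesc_all W (r + 1) (fun _ x => psi (d + 3) (2 * t) x) (phi r n (2 * t))
    fun l hl => by
      have := finrank_ker_dual hl
      rw [psi_av (by omega), psi_zero_eq, show finrank F (LinearMap.ker l) = n by omega]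
  have h2 : av (fun g : P H (r + 1) => mu (d + 3) (d + 2) t g.1) ≤
      av fun g : P H (r + 1) => XX W (d + 3) t g.1 := av_mono fun g => descent W hd t g.1
  refine h2.trans (le_of_eq (h1.trans ?_))
  rw [hW]
  ring

open Classical in
theorem LDesc_m2 (W : Submodule F H) (hd : finrank F W + 0 = finrank F H) (t : ℝ) (g : H → F) :
    mu 3 2 t g ^ 2 ≤ av fun l : Dual F W => av fun y : W =>
      if l = 0 then 1 else psi 3 (2 * t) (res (LinearMap.ker l) y (res W 0 g)) ^ 2 := by
  have : Finite (Dual F W) := DFunLike.finite _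
  have h1 : mu 3 2 t g ≤ XX W 3 t g := descent W hd t g
  refine (pow_le_pow_left₀ (mu_nonneg _ _ _ _) h1 2).trans ?_
  unfold XX
  refine (sq_av_le _).trans (av_mono fun l => (sq_av_le _).trans (le_of_eq ?_))
  refine congrArg av (funext fun y => ?_)
  by_cases hl : l = 0
  · rw [if_pos hl, if_pos hl, one_pow]
  · rw [if_neg hl, if_neg hl]

theorem m2_le {n r : ℕ} (hH : finrank F H = n + 1) (h : 2 ≤ r) (t : ℝ) :
    av (fun g : P H (r + 1) => mu 3 2 t g.1 ^ 2) ≤ uu r n (2 * t) + 1 / 2 ^ (n + 1) := by
  have hW : finrank F (⊤ : Submodule F H) = n + 1 := by rw [finrank_top, hH]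
  generalize (⊤ : Submodule F H) = W at hW
  have hd : finrank F W + 0 = finrank F H := by omega
  have h1 := LDesc_all W (r + 1) (fun _ x => psi 3 (2 * t) x ^ 2) (uu r n (2 * t))
    fun l hl => by
      have := finrank_ker_dual hl
      have e := mu_zero_eq (V := LinearMap.ker l) (r + 1) 3 (2 * t)
      rw [show finrank F (LinearMap.ker l) = n by omega] at e
      exact e
  refine le_trans (av_mono (V := P H (r + 1)) fun g => LDesc_m2 W hd t g.1) (h1.le.trans ?_)
  rw [hW]
  have h3 : 0 ≤ uu r n (2 * t) := mu_nonneg _ _ _ _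
  have h4 : (0 : ℝ) ≤ 1 / 2 ^ (n + 1) := by positivity
  nlinarith [mul_nonneg h3 h4]

end Pool.Agent.P.MP_cb6780_lc
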