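import Pool.Agent.P.MP_cb6780_lc.LDef

set_option autoImplicit false
set_option linter.unusedSectionVars false

namespace Pool.Agent.P.MP_cb6780_lc

open Module

/-- Fourier coefficient -/
noncomputable def LFour_hat {Γ : Type} [AddCommGroup Γ] [Module F Γ] (g : Γ → ℝ) (ξ : Dual F Γ) :
    ℝ := av fun x => g x * chi (ξ x)

section
variable {Γ : Type} [AddCommGroup Γ] [Module F Γ] [Finite Γ]

theorem LFour_sum {J : Type} (s : Finset J) {V : Type} [Finite V] (g : J → V → ℝ) :
    ∑ j ∈ s, av (g j) = av fun x => ∑ j ∈ s, g j x := by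
  have := Fintype.ofFinite V
  simp only [av_eq]
  rw [← Finset.sum_div, Finset.sum_comm]

theorem LFour_orth [Fintype (Dual F Γ)] [DecidableEq Γ] (y : Γ) :
    ∑ ξ : Dual F Γ, chi (ξ y) = if y = 0 then (Nat.card Γ : ℝ) else 0 := by
  have hc : Fintype.card (Dual F Γ) = Nat.card Γ := by
    have : Module.Finite F Γ := Module.Finite.of_finite
    rw [← Nat.card_eq_fintype_card, card_V, card_V, Subspace.dual_finrank_eq]
  split_ifs with h
  · simp [h, chi_zero, hc]
  · have h1 : Dual.eval F Γ y ≠ 0 := fun e =>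
      h ((forall_dual_apply_eq_zero_iff F y).1 fun φ => LinearMap.congr_fun e φ)
    have h2 := bias_dual h1 0
    unfold bias at h2
    rw [av_eq, div_eq_zero_iff] at h2
    rcases h2 with h2 | h2
    · simpa using h2
    · exact absurd h2 (by exact_mod_cast Fintype.card_ne_zero)

theorem LFour_par [Fintype (Dual F Γ)] (g : Γ → ℝ) :
    av (fun x => g x ^ 2) = ∑ ξ : Dual F Γ, LFour_hat g ξ ^ 2 := by
  classical
  have := Fintype.ofFinite Γ
  have hn : (Nat.card Γ : ℝ) ≠ 0 := by exact_mod_cast Nat.card_pos.ne'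
  simp only [LFour_hat, sq (av _), av_mul_av, LFour_sum]
  refine congrArg av (funext fun x => ?_)
  have e : ∀ y, ∑ ξ : Dual F Γ, g x * chi (ξ x) * (g y * chi (ξ y)) =
      if y = x then g x ^ 2 * Nat.card Γ else 0 := fun y => by
    have e1 : ∀ ξ : Dual F Γ, g x * chi (ξ x) * (g y * chi (ξ y)) =
        g x * g y * chi (ξ (x + y)) := fun ξ => by
      rw [map_add, chi_add]
      ring
    rw [funext e1, ← Finset.mul_sum, LFour_orth]
    by_cases h : y = x
    · rw [h, if_pos (add_self_V x), if_pos rfl, sq]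
    · rw [if_neg h, if_neg, mul_zero]
      intro h1
      exact h (add_left_cancel (h1.trans (add_self_V x).symm))
  rw [funext e, av_eq, Finset.sum_ite_eq', if_pos (Finset.mem_univ x), ← Nat.card_eq_fintype_card,
    mul_div_cancel_right₀ _ hn]

theorem LFour_zero (g : Γ → ℝ) : LFour_hat g 0 = av g := by
  simp [LFour_hat, chi_zero]

theorem LFour_van {g : Γ → ℝ} {k : Γ} (hk : ∀ x, g (x + k) = g x) {ξ : Dual F Γ} (h : ξ k ≠ 0) :
    LFour_hat g ξ = 0 := by
  have h1 : ξ k = 1 := (Av_cases _).resolve_left h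
  have h2 := av_congr (Equiv.addRight k) fun x => g x * chi (ξ x)
  have h3 : ∀ x, g (x + k) * chi (ξ (x + k)) = -1 * (g x * chi (ξ x)) := fun x => by
    rw [hk, map_add, chi_add, h1, chi_one]
    ring
  simp only [Equiv.coe_addRight, h3, av_mul_left] at h2
  unfold LFour_hat
  linarith

theorem LFour_av {I : Type} [Finite I] (Y : I → Γ → ℝ) (ξ : Dual F Γ) :
    LFour_hat (fun x => av fun i => Y i x) ξ = av fun i => LFour_hat (Y i) ξ := by
  unfold LFour_hat
  rw [av_comm fun i x => Y i x * chi (ξ x)]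
  simp only [mul_comm _ (chi _), av_mul_left]

end

theorem LFour_cs {I : Type} [Finite I] (a b : I → ℝ) :
    av (fun i => a i * b i) ^ 2 ≤ av (fun i => a i ^ 2) * av fun i => b i ^ 2 := by
  have := Fintype.ofFinite I
  simp only [av_eq]
  rw [div_pow, div_mul_div_comm, ← sq]
  exact div_le_div_of_nonneg_right (Finset.sum_mul_sq_le_sq_mul_sq _ _ _) (by positivity)

/-- decorrelation: Parseval on `Γ` and Cauchy-Schwarz in `i` -/
theorem decor {Γ I : Type} [AddCommGroup Γ] [Module F Γ] [Finite Γ] [Finite I] [Nonempty I]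
    (Y : I → Γ → ℝ) (K : I → Submodule F Γ) (hK : ∀ i x, ∀ k ∈ K i, Y i (x + k) = Y i x)
    {ε : ℝ} (hε : ∀ ξ : Dual F Γ, ξ ≠ 0 → ({i | ∀ k ∈ K i, ξ k = 0}.ncard : ℝ) ≤ ε * Nat.card I) :
    av (fun x => av (fun i => Y i x) ^ 2) ≤
      av (fun i => av (Y i)) ^ 2 + ε * av fun i => av (fun x => Y i x ^ 2) - av (Y i) ^ 2 := by
  classical
  have : Finite (Dual F Γ) := DFunLike.finite _
  have := Fintype.ofFinite (Dual F Γ)
  have hI : (0 : ℝ) < Nat.card I := by exact_mod_cast Nat.card_pos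
  have split : ∀ g : Γ → ℝ, av (fun x => g x ^ 2) =
      av g ^ 2 + ∑ ξ ∈ Finset.univ.erase (0 : Dual F Γ), LFour_hat g ξ ^ 2 := fun g => by
    rw [LFour_par, ← Finset.add_sum_erase _ _ (Finset.mem_univ (0 : Dual F Γ)), LFour_zero]
  rw [split, av_comm fun x i => Y i x]
  simp only [split, add_sub_cancel_left]
  rw [← LFour_sum, Finset.mul_sum]
  refine add_le_add le_rfl (Finset.sum_le_sum fun ξ hξ => ?_)
  obtain ⟨A, hA⟩ : ∃ A, A = {i | ∀ k ∈ K i, ξ k = 0} := ⟨_, rfl⟩
  have h1 := hε ξ (Finset.ne_of_mem_erase hξ)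
  rw [← hA, ← div_le_iff₀ hI, ← av_indicator] at h1
  have h2 : ∀ i, LFour_hat (Y i) ξ = A.indicator (fun _ => (1 : ℝ)) i * LFour_hat (Y i) ξ :=
    fun i => by
      by_cases hi : i ∈ A
      · rw [Set.indicator_of_mem hi, one_mul]
      · rw [Set.indicator_of_notMem hi, zero_mul]
        rw [hA, Set.mem_ofPred_eq] at hi
        push Not at hi
        obtain ⟨k, hk, h0⟩ := hi
        exact LFour_van (fun x => hK i x k hk) h0
  have h3 : (fun i => A.indicator (fun _ => (1 : ℝ)) i ^ 2) = A.indicator fun _ => (1 : ℝ) := by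
    funext i
    by_cases hi : i ∈ A
    · rw [Set.indicator_of_mem hi, one_pow]
    · rw [Set.indicator_of_notMem hi, sq, zero_mul]
  have h4 := LFour_cs (A.indicator fun _ => (1 : ℝ)) fun i => LFour_hat (Y i) ξ
  rw [h3, ← funext h2] at h4
  rw [LFour_av]
  exact h4.trans (mul_le_mul_of_nonneg_right h1 (av_nonneg fun _ => sq_nonneg _))

end Pool.Agent.P.MP_cb6780_lc
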