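import Mathlib

set_option autoImplicit false
set_option linter.unusedSectionVars false

namespace Pool.Agent.P.MP_cb6780_lc

open Module

theorem LGauss_int {N : ℝ} (hN : 0 < N) (v : ℝ) :
    ∫ t : ℝ, Real.exp (-(t ^ 2 * N / 2)) * Real.cos (t * v) =
      Real.sqrt (2 * Real.pi / N) * Real.exp (-(v ^ 2 / (2 * N))) := by
  have hb : (((-(N / 2) : ℝ) : ℂ)).re < 0 := by
    rw [Complex.ofReal_re]; linarith
  have h1 := integral_cexp_quadratic hb (v * Complex.I) 0
  have h2 := integrable_cexp_quadratic' hb (v * Complex.I) 0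
  have h3 := integral_re h2
  rw [h1] at h3
  have e1 : ∀ x : ℝ, RCLike.re (Complex.exp (((-(N / 2) : ℝ) : ℂ) * x ^ 2 + v * Complex.I * x + 0)) =
      Real.exp (-(x ^ 2 * N / 2)) * Real.cos (x * v) := by
    intro x
    have : ((-(N / 2) : ℝ) : ℂ) * x ^ 2 + v * Complex.I * x + 0 =
        ((-(x ^ 2 * N / 2) : ℝ) : ℂ) + ((x * v : ℝ) : ℂ) * Complex.I := by
      push_cast; ring
    rw [this, Complex.exp_add, ← Complex.ofReal_exp, RCLike.re_to_complex, Complex.re_ofReal_mul,
      Complex.exp_ofReal_mul_I_re]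
  simp only [e1] at h3
  rw [h3]
  have e2 : ((Real.pi : ℂ) / -((-(N / 2) : ℝ) : ℂ)) ^ (1 / 2 : ℂ) =
      ((Real.sqrt (2 * Real.pi / N) : ℝ) : ℂ) := by
    rw [Real.sqrt_eq_rpow, Complex.ofReal_cpow (by positivity)]
    congr 1
    · push_cast
      field_simp
    · push_cast
      rfl
  have e3 : (0 : ℂ) - (v * Complex.I) ^ 2 / (4 * ((-(N / 2) : ℝ) : ℂ)) =
      ((-(v ^ 2 / (2 * N)) : ℝ) : ℂ) := by
    have : (N : ℂ) ≠ 0 := by exact_mod_cast hN.ne'
    rw [mul_pow, Complex.I_sq]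
    push_cast
    field_simp
    ring
  rw [e2, e3, ← Complex.ofReal_exp, ← Complex.ofReal_mul, RCLike.re_to_complex, Complex.ofReal_re]

theorem LGauss_maj {N S : ℝ} (K : ℝ) (hN : 0 < N) (hS : 0 < S) :
    MeasureTheory.Integrable (fun t : ℝ => K / (S ^ 2 + t ^ 2 * N)) ∧
      ∫ t : ℝ, K / (S ^ 2 + t ^ 2 * N) = K * Real.pi / (S * Real.sqrt N) := by
  have hs : 0 < Real.sqrt N := Real.sqrt_pos.2 hN
  have e : (fun t : ℝ => K / (S ^ 2 + t ^ 2 * N)) =
      fun t : ℝ => K / S ^ 2 * (1 + (Real.sqrt N / S * t) ^ 2)⁻¹ := by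
    funext t
    rw [mul_pow, div_pow, Real.sq_sqrt hN.le]
    field_simp
  rw [e]
  refine ⟨(integrable_inv_one_add_sq.comp_mul_left' (by positivity)).const_mul _, ?_⟩
  rw [MeasureTheory.integral_const_mul,
    MeasureTheory.Measure.integral_comp_mul_left (fun x : ℝ => (1 + x ^ 2)⁻¹),
    integral_univ_inv_one_add_sq, abs_of_pos (by positivity), smul_eq_mul]
  field_simp

/-- comparison with the Gaussian integral through one integrable majorant -/
theorem gauss_cmp (φ : ℝ → ℝ) (hφ : Continuous φ) {N b S K : ℝ} (hN : 0 < N) (hb : 0 < b)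
    (hS : 0 < S) (v : ℝ)
    (h1 : ∀ t, |t| ≤ b → |φ t - Real.exp (-(t ^ 2 * N / 2))| ≤ K / (S ^ 2 + t ^ 2 * N))
    (h2 : ∀ t, b ≤ |t| → Real.exp (-(t ^ 2 * N / 2)) ≤ K / (S ^ 2 + t ^ 2 * N)) :
    |(∫ t in (-b)..b, φ t * Real.cos (t * v)) -
        Real.sqrt (2 * Real.pi / N) * Real.exp (-(v ^ 2 / (2 * N)))| ≤
      K * Real.pi / (S * Real.sqrt N) := by
  obtain ⟨m1, m2⟩ := LGauss_maj K hN hS
  have c1 : Continuous fun t => φ t * Real.cos (t * v) := by fun_prop
  have i1 : MeasureTheory.Integrable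
      ((Set.Ioc (-b) b).indicator fun t => φ t * Real.cos (t * v)) :=
    (MeasureTheory.integrable_indicator_iff measurableSet_Ioc).2
      (c1.integrableOn_Icc.mono_set Set.Ioc_subset_Icc_self)
  have i2 : MeasureTheory.Integrable
      fun t : ℝ => Real.exp (-(t ^ 2 * N / 2)) * Real.cos (t * v) := by
    refine (integrable_exp_neg_mul_sq (show 0 < N / 2 by linarith)).mono' (by fun_prop)
      (Filter.Eventually.of_forall fun t => ?_)
    rw [norm_mul, Real.norm_of_nonneg (Real.exp_pos _).le,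
      show -(N / 2) * t ^ 2 = -(t ^ 2 * N / 2) by ring]
    exact mul_le_of_le_one_right (Real.exp_pos _).le (Real.abs_cos_le_one _)
  rw [← LGauss_int hN v, ← m2, intervalIntegral.integral_of_le (by linarith),
    ← MeasureTheory.integral_indicator measurableSet_Ioc, ← MeasureTheory.integral_sub i1 i2,
    ← Real.norm_eq_abs]
  refine MeasureTheory.norm_integral_le_of_norm_le m1 (Filter.Eventually.of_forall fun t => ?_)
  by_cases ht : t ∈ Set.Ioc (-b) b
  · rw [Set.indicator_of_mem ht, ← sub_mul, norm_mul]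
    exact (mul_le_of_le_one_right (norm_nonneg _) (Real.abs_cos_le_one _)).trans
      (h1 t (abs_le.2 ⟨ht.1.le, ht.2⟩))
  · rw [Set.indicator_of_notMem ht, zero_sub, norm_neg, norm_mul,
      Real.norm_of_nonneg (Real.exp_pos _).le]
    refine (mul_le_of_le_one_right (Real.exp_pos _).le (Real.abs_cos_le_one _)).trans (h2 t ?_)
    rw [Set.mem_Ioc, not_and_or, not_lt, not_le] at ht
    rcases ht with h | h
    · exact le_abs.2 (Or.inr (by linarith))
    · exact le_abs.2 (Or.inl h.le)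

end Pool.Agent.P.MP_cb6780_lc
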