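import Pool.Agent.P.MP_cb6780_lc.LDef

set_option autoImplicit false
set_option linter.unusedSectionVars false

namespace Pool.Agent.P.MP_cb6780_lc

open Module

theorem LInv_one {a : ℝ} (ha : 0 < a) (n : ℤ) :
    ∫ t in (-(Real.pi / a))..(Real.pi / a), Real.cos (t * (a * n)) =
      if n = 0 then 2 * Real.pi / a else 0 := by
  split_ifs with h
  · subst h
    simp
    ring
  · have h0 : a * n ≠ 0 := mul_ne_zero ha.ne' (by exact_mod_cast h)
    rw [intervalIntegral.integral_comp_mul_right (fun x => Real.cos x) h0, integral_cos]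
    have e : Real.pi / a * (a * n) = n * Real.pi := by field_simp
    rw [neg_mul, e, Real.sin_neg, Real.sin_int_mul_pi]
    simp

/-- inversion formula on the lattice `a ℤ` for a symmetric variable -/
theorem inversion {Ω : Type} [Finite Ω] [Nonempty Ω] (X : Ω → ℝ) {a : ℝ} (ha : 0 < a)
    (hX : ∀ ω, ∃ z : ℤ, X ω = a * z) (hs : ∀ t, av (fun ω => Real.sin (t * X ω)) = 0)
    (z : ℤ) :
    ({ω | X ω = a * z}.ncard : ℝ) / Nat.card Ω = a / (2 * Real.pi) *
      ∫ t in (-(Real.pi / a))..(Real.pi / a),
        av (fun ω => Real.cos (t * X ω)) * Real.cos (t * (a * z)) := by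
  have := Fintype.ofFinite Ω
  choose Z hZ using hX
  have h1 : ∀ t, av (fun ω => Real.cos (t * X ω)) * Real.cos (t * (a * z)) =
      (∑ ω, Real.cos (t * (a * ((Z ω - z : ℤ) : ℝ)))) / Fintype.card Ω := fun t => by
    have e : ∀ ω, Real.cos (t * (a * ((Z ω - z : ℤ) : ℝ))) =
        Real.cos (t * (a * z)) * Real.cos (t * X ω) +
          Real.sin (t * (a * z)) * Real.sin (t * X ω) := fun ω => by
      rw [← Real.cos_sub, ← Real.cos_neg, hZ]
      congr 1
      push_cast
      ring
    rw [← av_eq, funext e, av_add, av_mul_left, av_mul_left, hs]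
    ring
  simp only [h1]
  rw [intervalIntegral.integral_div, intervalIntegral.integral_finset_sum
    fun ω _ => (by fun_prop : Continuous _).intervalIntegrable _ _, ← av_eq, ← av_mul_left,
    ← av_indicator]
  refine congrArg av (funext fun ω => ?_)
  rw [LInv_one ha]
  have hp := Real.pi_pos
  by_cases h : Z ω - z = 0
  · have : X ω = a * z := by rw [hZ, sub_eq_zero.1 h]
    rw [if_pos h, Set.indicator_of_mem (s := {ω | X ω = a * z}) this]
    field_simp
  · have : ¬ X ω = a * z := fun h2 => by
      rw [hZ] at h2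
      exact h (sub_eq_zero.2 (by exact_mod_cast mul_left_cancel₀ ha.ne' h2))
    rw [if_neg h, Set.indicator_of_notMem (s := {ω | X ω = a * z}) this, mul_zero]

theorem continuous_av_cos {Ω : Type} [Finite Ω] (X : Ω → ℝ) :
    Continuous fun t : ℝ => av fun ω => Real.cos (t * X ω) := by
  have := Fintype.ofFinite Ω
  simp only [av_eq]
  fun_prop

end Pool.Agent.P.MP_cb6780_lc
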