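import Pool.Agent.P.MP_cb6780_lc.LDef

set_option autoImplicit false
set_option linter.unusedSectionVars false

namespace Pool.Agent.P.MP_cb6780_lc

open Module

/-- a nonzero functional on `P V R` lives on few hyperplanes modulo degree `< L` -/
theorem ker_density {V : Type} [AddCommGroup V] [Module F V] [Finite V] {R L : ℕ} (hL : 1 ≤ L)
    (h : L ≤ R) (ξ : Dual F (P V R)) (hξ : ξ ≠ 0) :
    ({l : Dual F V | ∀ f : P V R,
        res (LinearMap.ker l) 0 f.1 ∈ P (LinearMap.ker l) L → ξ f = 0}.ncard : ℝ) ≤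
      1 / 2 ^ L * Nat.card (Dual F V) := by
  classical
  have : Module.Finite F V := Module.Finite.of_finite
  have : Finite (Dual F V) := Module.finite_of_finite F
  set S := {l : Dual F V | ∀ f : P V R,
    res (LinearMap.ker l) 0 f.1 ∈ P (LinearMap.ker l) L → ξ f = 0} with hS
  rcases S.eq_empty_or_nonempty with h0 | ⟨l₀, hl₀⟩
  · rw [h0, Set.ncard_empty, Nat.cast_zero]
    positivity
  have hex : ∃ n, ∃ B : Submodule F V, finrank F B = n ∧
      ∀ f : P V R, (∀ x ∈ B, f.1 x = 0) → ξ f = 0 := by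
    refine ⟨_, ⊤, rfl, fun f hf => ?_⟩
    have : f = 0 := Subtype.ext (funext fun x => hf x trivial)
    rw [this, map_zero]
  obtain ⟨B, hB, hG⟩ := Nat.find_spec hex
  have hle : ∀ l ∈ S, B ≤ LinearMap.ker l := by
    intro l hl b hb
    by_contra hn
    have h1 : l b = 1 := by
      have h2 : l b ≠ 0 := hn
      generalize l b = c at h2
      revert c
      decide
    let π : V →ₗ[F] V := LinearMap.id + l.smulRight b
    have hπ : ∀ x, π x = x + l x • b := fun x => rfl
    have hlt : B ⊓ LinearMap.ker l < B :=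
      lt_of_le_of_ne inf_le_left fun e => hn (inf_eq_left.1 e hb)
    refine Nat.find_min hex (hB ▸ Submodule.finrank_lt_finrank_of_lt hlt) ⟨_, rfl, fun f hf => ?_⟩
    let g : P V R := ⟨fun w => f.1 (π w + 0), comp_mem_P f.2 π 0⟩
    have hg : ∀ w, g.1 w = f.1 (w + l w • b) := fun w => by
      show f.1 (π w + 0) = _
      rw [add_zero, hπ]
    have e1 : ξ g = 0 := hG g fun x hx => by
      rw [hg]
      refine hf _ ⟨B.add_mem hx (B.smul_mem _ hb), ?_⟩
      show l (x + l x • b) = 0
      rw [map_add, map_smul, h1, smul_eq_mul, mul_one]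
      exact CharTwo.add_self_eq_zero _
    have e2 : ξ (f + g) = 0 := by
      refine hl _ ?_
      have : res (LinearMap.ker l) 0 (f + g).1 = 0 := by
        funext u
        have hu : l u = 0 := u.2
        show f.1 (u + 0) + g.1 (u + 0) = 0
        rw [add_zero, hg, hu, zero_smul, add_zero]
        exact CharTwo.add_self_eq_zero _
      rw [this]
      exact Submodule.zero_mem _
    rwa [map_add, e1, add_zero] at e2
  have hLB : L ≤ finrank F B := by
    by_contra hc
    obtain ⟨L', rfl⟩ : ∃ L', L = L' + 1 := ⟨L - 1, by omega⟩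
    have ht : P B (L' + 1) = ⊤ := P_top (by omega)
    refine hξ (LinearMap.ext fun f => ?_)
    obtain ⟨q, hq, e⟩ := res_surj B 0 (d := L' + 1) (g := res B 0 f.1) (by rw [ht]; trivial)
    have e1 : ξ ⟨q, P_mono h hq⟩ = 0 := hl₀ _ (res_mem_P hq _ _)
    have e2 : ξ (f + ⟨q, P_mono h hq⟩) = 0 := hG _ fun x hx => by
      have e3 := congrFun e ⟨x, hx⟩
      rw [res_apply, res_apply, add_zero] at e3
      show f.1 x + q x = 0
      rw [show q x = f.1 x from e3]
      exact CharTwo.add_self_eq_zero _
    rwa [map_add, e1, add_zero] at e2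
  have h1 : S.ncard ≤ Nat.card B.dualAnnihilator :=
    Set.ncard_le_ncard (t := (B.dualAnnihilator : Set (Dual F V)))
      (fun l hl => (Submodule.mem_dualAnnihilator l).2 fun x hx => hle l hl hx)
  have h2 := Subspace.finrank_add_finrank_dualAnnihilator_eq B
  rw [card_V] at h1
  rw [card_V, Subspace.dual_finrank_eq, ← h2, one_div, inv_mul_eq_div,
    le_div_iff₀ (by positivity)]
  have h3 : S.ncard * 2 ^ L ≤ 2 ^ (finrank F B + finrank F B.dualAnnihilator) := by
    rw [pow_add, mul_comm]
    exact Nat.mul_le_mul (Nat.pow_le_pow_right (by norm_num) hLB) h1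
  exact_mod_cast h3

end Pool.Agent.P.MP_cb6780_lc
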