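import Pool.Agent.P.MP_cb6780_lc.LDef

set_option autoImplicit false
set_option linter.unusedSectionVars false

namespace Pool.Agent.P.MP_cb6780_lc

open Module

/-- extension by zero -/
def LMcE_ext {n : ℕ} (T : Finset (Fin n)) : ({i // i ∉ T} → F) →ₗ[F] (Fin n → F) where
  toFun w := fun i => if h : i ∈ T then 0 else w ⟨i, h⟩
  map_add' x y := by
    funext i
    by_cases h : i ∈ T <;> simp [h]
  map_smul' a x := by
    funext i
    by_cases h : i ∈ T <;> simp [h]

theorem LMcE_ext_apply {n : ℕ} (T : Finset (Fin n)) (w : {i // i ∉ T} → F) (i : Fin n) :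
    LMcE_ext T w i = if h : i ∈ T then 0 else w ⟨i, h⟩ := rfl

theorem LMcE_mon {n : ℕ} (s : Fin n →₀ ℕ) (x : Fin n → F) :
    ∏ i, x i ^ s i = if ∀ i ∈ s.support, x i = 1 then 1 else 0 := by
  split_ifs with h
  · refine Finset.prod_eq_one fun i _ => ?_
    by_cases hi : i ∈ s.support
    · rw [h i hi, one_pow]
    · rw [Finsupp.notMem_support_iff.1 hi, pow_zero]
  · obtain ⟨i, hi⟩ := not_forall.1 h
    obtain ⟨h1, h2⟩ := Classical.not_imp.1 hi
    refine Finset.prod_eq_zero (Finset.mem_univ i) ?_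
    rw [(Av_cases (x i)).resolve_right h2, zero_pow (Finsupp.mem_support_iff.1 h1)]

theorem LMcE_step {n : ℕ} (T : Finset (Fin n)) (g m : (Fin n → F) → F)
    (hm : ∀ x, m x = if ∀ i ∈ T, x i = 1 then 1 else 0) :
    gap (g + m) = gap g -
      2 * gap fun w => g (LMcE_ext T w + fun i => if i ∈ T then 1 else 0) := by
  have h1 : (∑ x ∈ Finset.univ.filter fun x : Fin n → F => ∀ i ∈ T, x i = 1, chi (g x)) =
      ∑ w, chi (g (LMcE_ext T w + fun i => if i ∈ T then 1 else 0)) := by
    have e : ∀ x : Fin n → F, (∀ i ∈ T, x i = 1) →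
        (LMcE_ext T (fun j => x j.1) + fun i => if i ∈ T then 1 else 0) = x := fun x hx => by
      funext i
      rw [Pi.add_apply, LMcE_ext_apply]
      by_cases h : i ∈ T
      · rw [dif_pos h, if_pos h, zero_add, hx i h]
      · rw [dif_neg h, if_neg h, add_zero]
    refine Finset.sum_nbij' (fun x j => x j.1)
      (fun w => LMcE_ext T w + fun i => if i ∈ T then 1 else 0) (fun _ _ => Finset.mem_univ _)
      (fun w _ => Finset.mem_filter.2 ⟨Finset.mem_univ _, fun i h => ?_⟩)
      (fun x hx => e x (Finset.mem_filter.1 hx).2) (fun w _ => funext fun j => ?_)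
      fun x hx => by rw [e x (Finset.mem_filter.1 hx).2]
    · rw [Pi.add_apply, LMcE_ext_apply, dif_pos h, if_pos h, zero_add]
    · show (LMcE_ext T w + fun i => if i ∈ T then (1 : F) else 0) j.1 = w j
      rw [Pi.add_apply, LMcE_ext_apply, dif_neg j.2, if_neg j.2, add_zero]
  rw [gap_eq, gap_eq, gap_eq, ← h1, Finset.sum_filter, Finset.mul_sum, ← Finset.sum_sub_distrib]
  refine Finset.sum_congr rfl fun x _ => ?_
  rw [Pi.add_apply, chi_add, hm]
  split_ifs
  · rw [chi_one]
    ring
  · rw [chi_zero]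
    ring

theorem LMcE_gen {r k : ℕ} {ι : Type} [Fintype ι]
    (H : ∀ f ∈ P (Fin (Fintype.card ι) → F) (r + 1), ∃ z : ℤ, gap f = 2 ^ k * z)
    (f : (ι → F) → F) (hf : f ∈ P _ (r + 1)) : ∃ z : ℤ, gap f = 2 ^ k * z := by
  let e := LinearEquiv.funCongrLeft F F (Fintype.equivFin ι)
  obtain ⟨z, hz⟩ := H _ (Card_comp hf e.toLinearMap)
  exact ⟨z, (gap_congr e.toEquiv f).symm.trans hz⟩

theorem LMcE_card {n : ℕ} (s : Fin n →₀ ℕ) : s.support.card ≤ ∑ i, s i := by
  rw [Finset.card_eq_sum_ones]
  exact (Finset.sum_le_sum fun i hi => Nat.pos_of_ne_zero (Finsupp.mem_support_iff.1 hi)).trans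
    (Finset.sum_le_sum_of_subset (Finset.subset_univ _))

/-- McEliece divisibility -/
theorem mcEliece {r : ℕ} (hr : 1 ≤ r) (n : ℕ) (f : (Fin n → F) → F) (hf : f ∈ P _ (r + 1)) :
    ∃ z : ℤ, gap f = 2 ^ ((n + r - 1) / r) * z := by
  induction n using Nat.strong_induction_on with
  | _ n ih =>
  have key : ∀ (S : Finset (Fin n →₀ ℕ)) (c : (Fin n →₀ ℕ) → F), (∀ s ∈ S, ∑ i, s i ≤ r) →
      (∑ s ∈ S, c s • fun x : Fin n → F => ∏ i, x i ^ s i) ∈ P (Fin n → F) (r + 1) ∧
      ∃ z : ℤ, gap (∑ s ∈ S, c s • fun x : Fin n → F => ∏ i, x i ^ s i) =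
        2 ^ ((n + r - 1) / r) * z := by
    intro S c
    induction S using Finset.induction_on with
    | empty =>
      intro _
      have hk : (n + r - 1) / r ≤ n := by
        refine Nat.lt_succ_iff.1 ((Nat.div_lt_iff_lt_mul hr).2 ?_)
        have : n ≤ n * r := Nat.le_mul_of_pos_right n hr
        rw [Nat.succ_mul]
        omega
      refine ⟨by rw [Finset.sum_empty]; exact zero_mem _, 2 ^ (n - (n + r - 1) / r), ?_⟩
      rw [Finset.sum_empty, gap_eq]
      push_cast
      rw [← pow_add, Nat.add_sub_cancel' hk]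
      simp [chi_zero]
    | insert s S hs ihS =>
      intro h
      obtain ⟨g1, z, hz⟩ := ihS fun t ht => h t (Finset.mem_insert_of_mem ht)
      have hs' := h s (Finset.mem_insert_self _ _)
      rw [Finset.sum_insert hs]
      refine ⟨add_mem (Submodule.smul_mem _ _ (P_mono (by omega) (Card_mon s Finset.univ))) g1, ?_⟩
      rcases Av_cases (c s) with e | e <;> rw [e]
      · rw [zero_smul, zero_add]
        exact ⟨z, hz⟩
      rw [one_smul, add_comm]
      rcases s.support.eq_empty_or_nonempty with e0 | e0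
      · have e1 : (fun x : Fin n → F => ∏ i, x i ^ s i) = 1 := by
          funext x
          rw [LMcE_mon, e0, if_pos (by simp)]
          rfl
        rw [e1, gap_add_one, hz]
        exact ⟨-z, by push_cast; ring⟩
      · have c1 := (LMcE_card s).trans hs'
        have c2 := e0.card_pos
        have c3 : Fintype.card {i // i ∉ s.support} + s.support.card = n := by
          have b1 : s.support.card ≤ n := by simpa using Finset.card_le_univ s.support
          rw [Fintype.card_subtype_compl, Fintype.card_coe, Fintype.card_fin]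
          omega
        obtain ⟨z', hz'⟩ := LMcE_gen (ih (Fintype.card {i // i ∉ s.support}) (by omega)) _
          (comp_mem_P g1 (LMcE_ext s.support) fun i => if i ∈ s.support then 1 else 0)
        have c4 : (n + r - 1) / r ≤ (Fintype.card {i // i ∉ s.support} + r - 1) / r + 1 := by
          rw [← Nat.add_div_right _ hr]
          exact Nat.div_le_div_right (by omega)
        obtain ⟨j, hj⟩ := Nat.exists_eq_add_of_le c4
        rw [LMcE_step s.support _ _ (LMcE_mon s), hz, hz']
        refine ⟨z - 2 ^ j * z', ?_⟩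
        push_cast
        rw [mul_sub, ← mul_assoc, ← mul_assoc, ← pow_succ', hj, pow_add]
  obtain ⟨p, p1, p2⟩ := (mem_P_iff_poly f).1 hf
  have e : f = ∑ s ∈ p.support, p.coeff s • fun x : Fin n → F => ∏ i, x i ^ s i := by
    funext x
    rw [p2, MvPolynomial.eval_eq', Finset.sum_apply]
    rfl
  rw [e]
  refine (key _ _ fun s hs => ?_).2
  have := (MvPolynomial.le_totalDegree hs).trans p1
  rwa [Finsupp.sum_fintype _ _ fun _ => rfl] at this

end Pool.Agent.P.MP_cb6780_lc
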