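import Pool.Agent.P.MP_cb6780_lc.LRec
import Pool.Agent.P.MP_cb6780_lc.LMcE
import Pool.Agent.P.MP_cb6780_lc.LInv
import Pool.Agent.P.MP_cb6780_lc.LGauss

set_option autoImplicit false
set_option linter.unusedSectionVars false

namespace Pool.Agent.P.MP_cb6780_lc

open Module

theorem LMain_exp {T : ℝ} (hT : 0 ≤ T) : Real.exp (-(T / 2)) * T ≤ 2 := by
  have h := Real.add_one_le_exp (T / 2)
  have h0 := Real.exp_pos (T / 2)
  rw [Real.exp_neg, inv_mul_le_iff₀ h0]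
  linarith

theorem LMain_k {r m : ℕ} (hr : 3 ≤ r) (hm : 1 ≤ m) :
    1 ≤ (m + r - 1) / r ∧ 3 * ((m + r - 1) / r) ≤ m + 2 := by
  have h1 : 1 ≤ (m + r - 1) / r := (Nat.le_div_iff_mul_le (by omega)).2 (by omega)
  have h2 := Nat.div_mul_le_self (m + r - 1) r
  obtain ⟨k, hk⟩ : ∃ k, (m + r - 1) / r = k + 1 := ⟨(m + r - 1) / r - 1, by omega⟩
  rw [hk] at h2 ⊢
  have h3 : k * 3 ≤ k * r := Nat.mul_le_mul_left k hr
  rw [add_mul, one_mul] at h2
  omega

/-- the pointwise majorant -/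
theorem majorant : ∃ K : ℝ, 4 ≤ K ∧ ∀ r m : ℕ, 3 ≤ r → 1 ≤ m → ∀ t : ℝ,
    |t| ≤ Real.pi / 2 ^ ((m + r - 1) / r) →
      |phi r m t - Real.exp (-(t ^ 2 * 2 ^ m / 2))| ≤ K / ((2 ^ (m / 36)) ^ 2 + t ^ 2 * 2 ^ m) := by
  obtain ⟨C, hC⟩ := rec_phi.decay
  refine ⟨23 + 2 * |C|, by linarith [abs_nonneg C], fun r m hr hm t ht => ?_⟩
  obtain ⟨r', rfl⟩ : ∃ s, r = s + 1 := ⟨r - 1, by omega⟩
  obtain ⟨m', rfl⟩ : ∃ s, m = s + 1 := ⟨m - 1, by omega⟩
  set r := r' + 1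
  set m := m' + 1
  set S : ℝ := 2 ^ (m / 36) with hS
  set T : ℝ := t ^ 2 * 2 ^ m with hT
  have T0 : 0 ≤ T := by positivity
  have S1 : 1 ≤ S := one_le_pow₀ one_le_two
  have g0 := Real.exp_pos (-(T / 2))
  have C0 := abs_nonneg C
  rw [le_div_iff₀ (by positivity)]
  rcases le_total T (S ^ 2) with h | h
  · have J0 : (0 : ℝ) < 2 ^ (m / 6) := by positivity
    have N0 : (0 : ℝ) < 2 ^ m := by positivity
    have a1 : S ^ 6 ≤ 2 ^ (m / 6) := by
      rw [hS, ← pow_mul]; exact pow_le_pow_right₀ one_le_two (by omega)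
    have a2 : (2 : ℝ) ^ (m / 6) ≤ 2 ^ m := pow_le_pow_right₀ one_le_two (by omega)
    have a3 : (11 : ℝ) * 32 ^ (m / 6) / 2 ^ m ≤ 11 / 2 ^ (m / 6) := by
      rw [div_le_div_iff₀ N0 J0, mul_assoc, ← mul_pow]
      refine mul_le_mul_of_nonneg_left ?_ (by norm_num)
      rw [show (32 * 2 : ℝ) = 2 ^ 6 by norm_num, ← pow_mul]
      exact pow_le_pow_right₀ one_le_two (by omega)
    have a4 : S ^ 2 ≤ S ^ 6 := pow_le_pow_right₀ S1 (by norm_num)
    have a5 : t ^ 2 ≤ 2 := by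
      have : t ^ 2 * 2 ^ m ≤ 2 * 2 ^ m := by linarith
      exact le_of_mul_le_mul_right this N0
    have u := phi_upper hr (m / 6) m t
    have l := (clt_lower m a5).trans (cos_pow_le_phi r' m' t)
    have a6 : T ^ 2 ≤ S ^ 4 := by nlinarith
    have a7 : T ^ 2 / 8 / 2 ^ m ≤ T ^ 2 / 8 / 2 ^ (m / 6) :=
      div_le_div_of_nonneg_left (by positivity) J0 a2
    have a8 : T ^ 2 / 8 / 2 ^ (m / 6) ≤ S ^ 4 / 8 / 2 ^ (m / 6) := by gcongr
    have a9 : (0 : ℝ) ≤ 11 / 2 ^ (m / 6) := by positivity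
    have b : |phi r m t - Real.exp (-(T / 2))| ≤ (S ^ 4 / 8 + 11) / 2 ^ (m / 6) := by
      rw [add_div]
      exact abs_le.2 ⟨by linarith, by linarith⟩
    refine (mul_le_mul b (by linarith : S ^ 2 + T ≤ 2 * S ^ 2) (by positivity)
      (by positivity)).trans ?_
    rw [div_mul_eq_mul_div, div_le_iff₀ J0]
    nlinarith
  · have p0 := phi_nonneg r' m' t
    have hA : Alw r m |t| := ⟨hm, abs_nonneg t, (le_div_iff₀ (by positivity)).1 ht⟩
    have p1 := hC r m |t| hr hA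
    have e : phi r m |t| = phi r m t := by
      rcases abs_cases t with h | h <;> rw [h.1]
      exact phi_even _ _ _
    rw [e, sq_abs] at p1
    have p2 := LMain_exp T0
    have p3 := le_abs_self C
    have b : |phi r m t - Real.exp (-(T / 2))| ≤ phi r m t + Real.exp (-(T / 2)) :=
      abs_le.2 ⟨by linarith, by linarith⟩
    refine (mul_le_mul b (by linarith : S ^ 2 + T ≤ 2 * T) (by positivity)
      (by positivity)).trans ?_
    nlinarith

theorem gap_wt {m : ℕ} (f : (Fin m → F) → F) : gap f = 2 ^ m - 2 * (hammingNorm f : ℝ) := by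
  have e1 : ({x | f x ≠ 0}.ncard : ℝ) = hammingNorm f := by
    rw [hammingNorm, ← Set.ncard_coe_finset]
    congr 2
    ext x
    simp
  have e2 : (Nat.card (Fin m → F) : ℝ) = 2 ^ m := by
    rw [card_V]; simp
  rw [gap_eq_bias, bias_eq_wt, e1, e2]
  field_simp

theorem local_limit : ∃ K : ℝ, 0 ≤ K ∧ ∀ r m : ℕ, 3 ≤ r → 1 ≤ m → ∀ z : ℤ,
    |({f : P (Fin m → F) (r + 1) | gap f.1 = 2 ^ ((m + r - 1) / r) * z}.ncard : ℝ) /
          2 ^ (∑ i ∈ Finset.range (r + 1), m.choose i) * Real.sqrt (2 ^ m) / 2 ^ ((m + r - 1) / r) -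
        Real.exp (-((2 ^ ((m + r - 1) / r) * z : ℝ) ^ 2 / 2 ^ (m + 1))) / Real.sqrt (2 * Real.pi)| ≤
      K / 2 ^ (m / 36) := by
  obtain ⟨K, K4, hK⟩ := majorant
  refine ⟨K / 2, by linarith, fun r m hr hm z => ?_⟩
  obtain ⟨k1, k2⟩ := LMain_k hr hm
  set k := (m + r - 1) / r with hk
  have a0 : (0 : ℝ) < 2 ^ k := by positivity
  have N0 : (0 : ℝ) < 2 ^ m := by positivity
  have S0 : (0 : ℝ) < 2 ^ (m / 36) := by positivity
  have hpi := Real.pi_gt_three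
  have i1 := inversion (fun f : P (Fin m → F) (r + 1) => gap f.1) a0
    (fun f => mcEliece (by omega) m f.1 f.2) (fun t => by simpa using av_sin r t 0) z
  have e : ∀ t, av (fun f : P (Fin m → F) (r + 1) => Real.cos (t * gap f.1)) = phi r m t :=
    fun t => by simp only [phi, psi, zero_add]
  have hc : Continuous (phi r m) := by
    rw [← funext e]; exact continuous_av_cos _
  have i2 := gauss_cmp (phi r m) hc N0 (div_pos Real.pi_pos a0) S0 (2 ^ k * z) (hK r m hr hm)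
    fun t ht => by
      have h1 : (Real.pi / 2 ^ k) ^ 2 ≤ t ^ 2 := by
        rw [← sq_abs t]; exact pow_le_pow_left₀ (by positivity) ht 2
      have h2 : ((2 : ℝ) ^ (m / 36)) ^ 2 ≤ (Real.pi / 2 ^ k) ^ 2 * 2 ^ m := by
        rw [div_pow, div_mul_eq_mul_div, le_div_iff₀ (by positivity), ← pow_mul, ← pow_mul,
          ← pow_add]
        have h3 : (2 : ℝ) ^ (m / 36 * 2 + k * 2) ≤ 2 ^ (3 + m) :=
          pow_le_pow_right₀ one_le_two (by omega)
        rw [pow_add 2 3] at h3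
        refine h3.trans (mul_le_mul_of_nonneg_right (by nlinarith) N0.le)
      have h4 : ((2 : ℝ) ^ (m / 36)) ^ 2 ≤ t ^ 2 * 2 ^ m :=
        h2.trans (mul_le_mul_of_nonneg_right h1 N0.le)
      have h5 := LMain_exp (T := t ^ 2 * 2 ^ m) (by positivity)
      have h6 := Real.exp_pos (-(t ^ 2 * 2 ^ m / 2))
      rw [le_div_iff₀ (by positivity)]
      nlinarith
  simp only [e] at i1
  rw [card_P, finrank_fin_fun, cP] at i1
  push_cast at i1
  rw [i1]
  set I := ∫ t in (-(Real.pi / 2 ^ k))..(Real.pi / 2 ^ k), phi r m t * Real.cos (t * (2 ^ k * z))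
  have s0 : 0 < Real.sqrt (2 ^ m) := Real.sqrt_pos.2 N0
  have s1 : 0 < Real.sqrt (2 * Real.pi) := Real.sqrt_pos.2 (by positivity)
  have s2 : Real.sqrt (2 * Real.pi) * Real.sqrt (2 * Real.pi) = 2 * Real.pi :=
    Real.mul_self_sqrt (by positivity)
  rw [Real.sqrt_div (by positivity), ← pow_succ' (2 : ℝ) m] at i2
  set E := Real.exp (-((2 ^ k * z : ℝ) ^ 2 / 2 ^ (m + 1)))
  have e2 : 2 ^ k / (2 * Real.pi) * I * Real.sqrt (2 ^ m) / 2 ^ k - E / Real.sqrt (2 * Real.pi) =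
      Real.sqrt (2 ^ m) / (2 * Real.pi) *
        (I - Real.sqrt (2 * Real.pi) / Real.sqrt (2 ^ m) * E) := by
    have : E / Real.sqrt (2 * Real.pi) = Real.sqrt (2 * Real.pi) * E / (2 * Real.pi) := by
      rw [div_eq_div_iff s1.ne' (by positivity)]
      linear_combination -E * s2
    rw [this]
    field_simp
  rw [e2, abs_mul, abs_of_pos (by positivity)]
  refine (mul_le_mul_of_nonneg_left i2 (by positivity)).trans (le_of_eq ?_)
  field_simp

theorem local_main : ∃ C : ℝ, ∀ r m w : ℕ, 3 ≤ r → 1 ≤ m →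
    |({f : (Fin m → ZMod 2) → ZMod 2 | (∃ p : MvPolynomial (Fin m) (ZMod 2),
          p.totalDegree ≤ r ∧ ∀ x, f x = MvPolynomial.eval x p) ∧ hammingNorm f = w}.ncard : ℝ) /
          2 ^ (∑ i ∈ Finset.range (r + 1), m.choose i) * Real.sqrt (2 ^ m) / 2 ^ ((m + r - 1) / r) -
        if 2 ^ ((m + r - 1) / r - 1) ∣ w then
          Real.exp (-((2 ^ m - 2 * w : ℝ) ^ 2 / 2 ^ (m + 1))) / Real.sqrt (2 * Real.pi) else 0| ≤
      if 2 ^ ((m + r - 1) / r - 1) ∣ w then C * (2 : ℝ) ^ (-(m : ℝ) / 36) else 0 := by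
  obtain ⟨K, K0, hK⟩ := local_limit
  refine ⟨2 * K, fun r m w hr hm => ?_⟩
  obtain ⟨k1, k2⟩ := LMain_k hr hm
  have h := hK r m hr hm
  have hM := mcEliece (r := r) (by omega) m
  obtain ⟨k, hk⟩ : ∃ k, (m + r - 1) / r = k + 1 := ⟨(m + r - 1) / r - 1, by omega⟩
  obtain ⟨j, hj⟩ : ∃ j, m = k + 1 + j := ⟨m - (k + 1), by omega⟩
  rw [hk] at h hM ⊢
  simp only [← mem_P_iff_poly, Nat.add_sub_cancel]
  split_ifs with hw
  · obtain ⟨c, rfl⟩ := hw
    have e : (2 : ℝ) ^ (k + 1) * ((2 ^ j - c : ℤ) : ℝ) = 2 ^ m - 2 * ((2 ^ k * c : ℕ) : ℝ) := by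
      push_cast
      rw [hj]
      ring
    have h1 := h (2 ^ j - c)
    rw [e] at h1
    have e2 : {f : (Fin m → F) → F | f ∈ P (Fin m → F) (r + 1) ∧ hammingNorm f = 2 ^ k * c} =
        Subtype.val '' {f : P (Fin m → F) (r + 1) |
          gap f.1 = 2 ^ m - 2 * ((2 ^ k * c : ℕ) : ℝ)} := by
      ext f
      constructor
      · rintro ⟨h1, h2⟩
        exact ⟨⟨f, h1⟩, by rw [Set.mem_ofPred_eq, gap_wt, h2], rfl⟩
      · rintro ⟨f, h2, rfl⟩
        rw [Set.mem_ofPred_eq, gap_wt] at h2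
        refine ⟨f.2, ?_⟩
        have : (hammingNorm f.1 : ℝ) = ((2 ^ k * c : ℕ) : ℝ) := by linarith
        exact_mod_cast this
    rw [e2, Set.ncard_image_of_injective _ Subtype.val_injective]
    refine h1.trans ?_
    rw [mul_comm 2 K, mul_assoc, div_eq_mul_inv]
    refine mul_le_mul_of_nonneg_left ?_ K0
    rw [← Real.rpow_natCast, ← Real.rpow_neg zero_le_two, mul_comm,
      ← Real.rpow_add_one two_ne_zero]
    refine Real.rpow_le_rpow_of_exponent_le one_le_two ?_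
    have : (m : ℝ) ≤ 36 * ((m / 36 : ℕ) : ℝ) + 36 := by exact_mod_cast (by omega)
    linarith
  · have e2 : {f : (Fin m → F) → F | f ∈ P (Fin m → F) (r + 1) ∧ hammingNorm f = w} = ∅ := by
      refine Set.eq_empty_of_forall_notMem fun f hf => hw ?_
      obtain ⟨z, hz⟩ := hM f hf.1
      rw [gap_wt, hf.2] at hz
      have h2 : (w : ℝ) = 2 ^ k * ((2 ^ j - z : ℤ) : ℝ) := by
        push_cast
        rw [hj] at hz
        linear_combination -hz / 2
      have h3 : (w : ℤ) = 2 ^ k * (2 ^ j - z) := by exact_mod_cast h2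
      exact Int.natCast_dvd_natCast.1 ⟨2 ^ j - z, by rw [h3]; push_cast; rfl⟩
    rw [e2]
    simp

end Pool.Agent.P.MP_cb6780_lc
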