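import Pool.Agent.P.MP_cb6780_lc.LSplit
import Pool.Agent.P.MP_cb6780_lc.LClt

set_option autoImplicit false
set_option linter.unusedSectionVars false

namespace Pool.Agent.P.MP_cb6780_lc

open Module

theorem av_gap_sq {V : Type} [AddCommGroup V] [Module F V] [Finite V] (d : ℕ) (h : V → F) :
    av (fun p : P V (d + 2) => gap (h + p.1) ^ 2) = Nat.card V := by
  have : Finite (Dual F V) := DFunLike.finite _
  have h0 : (Nat.card V : ℝ) ≠ 0 := by exact_mod_cast Nat.card_pos.ne'
  have h1 : ∀ l : Dual F V, av (fun p : P V (d + 2) => gap (h + p.1) ^ 2) =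
      av fun p : P V (d + 2) => gap (h + p.1 + fun x => l x) ^ 2 := fun l => by
    rw [← av_P_shift (P_mono (by omega) (dual_mem_P l)) fun q => gap (h + q) ^ 2]
    simp only [add_assoc]
  have h2 : ∀ g : V → F, av (fun l : Dual F V => gap (g + fun x => l x) ^ 2) = Nat.card V :=
    fun g => by
      simp only [gap_eq_bias, mul_pow, av_mul_left, av_bias_sq_dual]
      field_simp
  rw [← av_const (V := Dual F V) (av fun p : P V (d + 2) => gap (h + p.1) ^ 2), funext h1,
    av_comm fun (l : Dual F V) (p : P V (d + 2)) => gap (h + p.1 + fun x => l x) ^ 2]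
  simp only [h2, av_const]

theorem av_gap_four (d n : ℕ) : ∀ (V : Type) [AddCommGroup V] [Module F V] [Finite V],
    finrank F V = n → ∀ f : V → F,
      av (fun q : P V (d + 3) => gap (f + q.1) ^ 4) ≤ 3 * (2 ^ n) ^ 2 := by
  induction n with
  | zero =>
    intro V _ _ _ hV f
    have : Module.Finite F V := Module.Finite.of_finite
    have : Subsingleton V := Module.finrank_zero_iff.1 hV
    have := Fintype.ofFinite V
    refine av_le_of_le fun q => ?_
    rw [gap_eq, Fintype.sum_subsingleton _ 0]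
    have := chi_sq ((f + q.1) 0)
    have e : chi ((f + q.1) 0) ^ 4 = (chi ((f + q.1) 0) * chi ((f + q.1) 0)) ^ 2 := by ring
    rw [e, this]
    norm_num
  | succ n ih =>
    intro V _ _ _ hV f
    have : Module.Finite F V := Module.Finite.of_finite
    have : Nontrivial V := Module.nontrivial_of_finrank_eq_succ hV
    obtain ⟨e, he0⟩ := exists_ne (0 : V)
    obtain ⟨l, he⟩ := Module.Projective.exists_dual_eq_one F he0
    have hl : l ≠ 0 := fun h => by rw [h] at he; exact zero_ne_one he
    have hk := finrank_ker_dual hl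
    have hk' : finrank F (LinearMap.ker l) = n := by omega
    have hc : (Nat.card (LinearMap.ker l) : ℝ) = 2 ^ n := by
      rw [card_V, hk']; push_cast; rfl
    rw [av_split he (d + 2) f fun x => x ^ 4]
    set U := LinearMap.ker l
    have o1 : ∀ g : U → F, av (fun p : P U (d + 2) => gap (g + p.1)) = 0 := fun g =>
      av_odd (d + 1) g (fun x => x) fun _ => rfl
    have o3 : ∀ g : U → F, av (fun p : P U (d + 2) => gap (g + p.1) ^ 3) = 0 := fun g =>
      av_odd (d + 1) g (fun x => x ^ 3) fun _ => by ring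
    have e1 : ∀ (a : ℝ) (g : U → F), av (fun p : P U (d + 2) => (a + gap (g + p.1)) ^ 4) =
        a ^ 4 + 6 * 2 ^ n * a ^ 2 + av fun p : P U (d + 2) => gap (g + p.1) ^ 4 := fun a g => by
      have : ∀ b : ℝ, (a + b) ^ 4 =
          a ^ 4 + 4 * a ^ 3 * b + 6 * a ^ 2 * b ^ 2 + 4 * a * b ^ 3 + b ^ 4 := fun b => by ring
      simp only [this, av_add, av_mul_left, av_const, o1, o3, av_gap_sq, hc]
      ring
    simp only [e1, av_add, av_mul_left, av_const, av_gap_sq, hc]
    have i0 := ih U hk' (res U 0 f)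
    have i1 := ih U hk' (res U e f)
    rw [← av_P_av (Nat.le_succ (d + 2)) fun q => gap (res U 0 f + q) ^ 4] at i0
    rw [← av_P_av (Nat.le_succ (d + 2)) fun q => gap (res U e f + q) ^ 4] at i1
    simp only [← add_assoc] at i0 i1
    rw [pow_succ (2 : ℝ) n]
    nlinarith

theorem phi_taylor {r : ℕ} (hr : 2 ≤ r) (n : ℕ) (t : ℝ) :
    phi r n t ≤ 1 - t ^ 2 * 2 ^ n / 2 + (t ^ 2 * 2 ^ n) ^ 2 / 8 := by
  obtain ⟨d, rfl⟩ : ∃ d, r = d + 2 := ⟨r - 2, by omega⟩
  have h2 := av_gap_sq (d + 1) (0 : (Fin n → F) → F)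
  have h4 := av_gap_four d n (Fin n → F) (finrank_fin_fun F) 0
  have hc : (Nat.card (Fin n → F) : ℝ) = 2 ^ n := by
    rw [card_V, finrank_fin_fun]; push_cast; rfl
  have h : phi (d + 2) n t ≤ av fun q : P (Fin n → F) (d + 3) =>
      1 + -(t ^ 2 / 2) * gap (0 + q.1) ^ 2 + t ^ 4 / 24 * gap (0 + q.1) ^ 4 :=
    av_mono fun q => (cos_quartic _).trans (le_of_eq (by ring))
  rw [av_add, av_add, av_const, av_mul_left, av_mul_left, h2, hc] at h
  have h5 := mul_le_mul_of_nonneg_left h4 (by positivity : 0 ≤ t ^ 4 / 24)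
  refine h.trans ?_
  nlinarith

end Pool.Agent.P.MP_cb6780_lc
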