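import Pool.Agent.P.MP_cb6780_lc.LMom
import Pool.Agent.P.MP_cb6780_lc.LFour
import Pool.Agent.P.MP_cb6780_lc.LKer
import Pool.Agent.P.MP_cb6780_lc.LDesc
import Pool.Agent.P.MP_cb6780_lc.LDec3

set_option autoImplicit false
set_option linter.unusedSectionVars false

namespace Pool.Agent.P.MP_cb6780_lc

open Module

theorem LRec_congr {H : Type} [AddCommGroup H] [Module F H] [Finite H] {k : ℕ}
    (hH : finrank F H = k) (R e d : ℕ) (t : ℝ) (Φ : ℝ → ℝ) :
    av (fun g : P H R => Φ (mu e d t g.1)) = av fun g : P (Fin k → F) R => Φ (mu e d t g.1) := by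
  subst hH
  have : Module.Finite F H := Module.Finite.of_finite
  let E := (Module.finBasis F H).equivFun
  rw [← av_P_comp E.toLinearMap E.injective 0 R fun g => Φ (mu e d t g)]
  exact congrArg av (funext fun q => congrArg Φ (mu_congr E 0 e d t q.1))

theorem LRec_ite {V : Type} [AddCommGroup V] [Module F V] [Finite V] [DecidableEq (Dual F V)]
    (a b : ℝ) : av (fun l : Dual F V => if l = 0 then a else b) =
      (1 - 1 / 2 ^ finrank F V) * b + 1 / 2 ^ finrank F V * a := by
  have : Finite (Dual F V) := DFunLike.finite _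
  have h : (fun l : Dual F V => if l = 0 then a else b) =
      fun l => b + (a - b) * ({0} : Set (Dual F V)).indicator (fun _ => (1 : ℝ)) l := by
    funext l
    by_cases hl : l = 0 <;> simp [hl]
  rw [h, av_add, av_const, av_mul_left, av_indicator, Set.ncard_singleton, card_V,
    Subspace.dual_finrank_eq]
  push_cast
  ring

/-- inequality (*) of the paper -/
theorem star {V : Type} [AddCommGroup V] [Module F V] [Finite V] {d k R : ℕ}
    (hV : finrank F V = k + 1) (h : d + 3 ≤ R) (t : ℝ) :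
    mu R (d + 3) t (0 : V → F) ≤
      ((1 - 1 / 2 ^ (k + 1)) * av (fun g : P (Fin k → F) R => mu (d + 3) (d + 2) t g.1) +
          1 / 2 ^ (k + 1)) ^ 2 +
        1 / 2 ^ (d + 3) * (av (fun g : P (Fin k → F) R => mu (d + 3) (d + 2) t g.1 ^ 2) -
          av (fun g : P (Fin k → F) R => mu (d + 3) (d + 2) t g.1) ^ 2) := by
  classical
  have : Finite (Dual F V) := DFunLike.finite _
  set m1 := av fun g : P (Fin k → F) R => mu (d + 3) (d + 2) t g.1 with hm1
  set m2 := av fun g : P (Fin k → F) R => mu (d + 3) (d + 2) t g.1 ^ 2 with hm2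
  have h12 : m1 ^ 2 ≤ m2 := sq_av_le _
  let Y : Dual F V → (V → F) → ℝ := fun l f =>
    if l = 0 then 1 else mu (d + 3) (d + 2) t (res (LinearMap.ker l) 0 f)
  have s1 : ∀ f : V → F, psi (d + 3) t f ^ 2 ≤
      av fun x : V => av (fun l => Y l fun w => f (w + x)) ^ 2 := fun f => by
    refine le_trans ?_ (sq_av_le _)
    rw [← sq_abs]
    refine pow_le_pow_left₀ (abs_nonneg _) ?_ 2
    rw [av_comm fun x l => Y l fun w => f (w + x), ← av_const (V := Dual F V) |psi (d + 3) t f|]
    refine av_mono fun l => ?_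
    by_cases hl : l = 0
    · simp only [Y, if_pos hl, av_const]
      exact abs_psi_le_one _ _ _
    · simp only [Y, if_neg hl]
      exact abs_psi_le hl (d + 1) t f
  have s2 : mu R (d + 3) t (0 : V → F) ≤ av fun f : P V R => av (fun l => Y l f.1) ^ 2 := by
    refine (av_mono fun f : P V R => s1 (0 + f.1)).trans (le_of_eq ?_)
    rw [av_comm fun (f : P V R) (x : V) => av (fun l => Y l fun w => (0 + f.1) (w + x)) ^ 2]
    have : ∀ x : V, (av fun f : P V R => av (fun l => Y l fun w => (0 + f.1) (w + x)) ^ 2) =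
        av fun f : P V R => av (fun l => Y l f.1) ^ 2 := fun x => by
      simp only [zero_add]
      exact av_P_comp LinearMap.id Function.injective_id x R fun g => av (fun l => Y l g) ^ 2
    rw [funext this, av_const]
  have s3 := decor (Γ := P V R) (fun l f => Y l f.1)
    (fun l => (P (LinearMap.ker l) (d + 3)).comap ((res (LinearMap.ker l) 0).comp (P V R).subtype))
    (fun l x p hp => by
      by_cases hl : l = 0
      · simp only [Y, if_pos hl]
      · simp only [Y, if_neg hl, Submodule.coe_add, map_add]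
        exact mu_add_mem _ _ _ hp)
    (ε := 1 / 2 ^ (d + 3)) fun ξ hξ => ker_density (by omega) h ξ hξ
  have e0 : ∀ l : Dual F V, l ≠ 0 → ∀ Φ : ℝ → ℝ, av (fun f : P V R => Φ (Y l f.1)) =
      av fun g : P (Fin k → F) R => Φ (mu (d + 3) (d + 2) t g.1) := fun l hl Φ => by
    have hk := finrank_ker_dual hl
    simp only [Y, if_neg hl]
    rw [av_P_res (LinearMap.ker l) 0 R fun g => Φ (mu (d + 3) (d + 2) t g)]
    exact LRec_congr (by omega) _ _ _ _ _
  have e1 : ∀ l : Dual F V, av (fun f : P V R => Y l f.1) = if l = 0 then 1 else m1 := fun l => by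
    by_cases hl : l = 0
    · simp only [Y, if_pos hl, av_const]
    · rw [if_neg hl]
      exact e0 l hl fun x => x
  have e2 : ∀ l : Dual F V, av (fun f : P V R => Y l f.1 ^ 2) - av (fun f : P V R => Y l f.1) ^ 2 =
      if l = 0 then 0 else m2 - m1 ^ 2 := fun l => by
    by_cases hl : l = 0
    · simp only [Y, if_pos hl, av_const, sub_self]
    · rw [if_neg hl, e1, if_neg hl, e0 l hl fun x => x ^ 2]
  simp only [e2] at s3
  simp only [e1, LRec_ite, hV, mul_one, mul_zero, add_zero] at s3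
  refine s2.trans (s3.trans (add_le_add le_rfl (mul_le_mul_of_nonneg_left ?_ (by positivity))))
  have : (0 : ℝ) ≤ 1 / 2 ^ (k + 1) * (m2 - m1 ^ 2) := mul_nonneg (by positivity) (by linarith)
  linarith

theorem phi_le_mu {r L : ℕ} (h : L ≤ r) (hL : 1 ≤ L) (n : ℕ) (t : ℝ) :
    phi r (n + 1) t ≤ mu (r + 1) L t (0 : (Fin n → F) → F) := by
  obtain ⟨r, rfl⟩ : ∃ s, r = s + 1 := ⟨r - 1, by omega⟩
  rw [phi_succ]
  exact mu_anti h (Nat.le_succ _) t 0

theorem rec_phi : Rec phi where
  le_one := phi_le_one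
  base := fun r n t h => phi_base r t n h
  taylor := fun r n t h => phi_taylor (by omega) n t
  step := fun r L n t h3 hL => by
    obtain ⟨d, rfl⟩ : ∃ d, L = d + 3 := ⟨L - 3, by omega⟩
    have h1 := star (V := Fin (n + d + 2) → F) (d := d) (k := n + 1 + d) (R := r + 1)
      (by rw [finrank_fin_fun]; omega) (by omega) t
    refine ⟨_, av_nonneg fun _ => mu_nonneg _ _ _ _,
      m1_le (H := Fin (n + 1 + d) → F) (finrank_fin_fun F) (by omega) t, ?_⟩
    have h2 := phi_le_mu hL (by omega) (n + d + 2) t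
    have e : (2 : ℝ) / 2 ^ (n + (d + 3)) = 1 / 2 ^ (n + 1 + d + 1) := by
      rw [show n + (d + 3) = n + 1 + d + 1 + 1 by omega, pow_succ _ (n + 1 + d + 1)]
      field_simp
    rw [e]
    refine h2.trans (h1.trans (add_le_add le_rfl (mul_le_mul_of_nonneg_left
      (sub_le_sub_right (av_mono fun g => ?_) _) (by positivity))))
    have a := mu_nonneg (d + 3) (d + 2) t g.1
    have b := mu_le_one (d + 3) (d + 2) t g.1
    nlinarith

theorem phi_upper {r : ℕ} (hr : 3 ≤ r) (j n : ℕ) (t : ℝ) :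
    phi r n t ≤ Real.exp (-(t ^ 2 * 2 ^ n / 2)) + (t ^ 2 * 2 ^ n) ^ 2 / 8 / 2 ^ j +
      11 * 32 ^ j / 2 ^ n := by
  refine clt_upper (phi r) (uu r) (phi_le_one r) (fun n t => mu_le_one _ _ _ _)
    (fun n t => phi_le_mu hr (by omega) n t) (fun n t => ?_) (phi_taylor (by omega)) j n t
  have h1 := star (V := Fin (n + 2) → F) (d := 0) (k := n + 1) (R := r + 1)
    (finrank_fin_fun F) (by omega) t
  have h2 := m1_le (H := Fin (n + 1) → F) (d := 0) (n := n) (r := r) (finrank_fin_fun F)
    (by omega) t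
  have h3 := m2_le (H := Fin (n + 1) → F) (n := n) (r := r) (finrank_fin_fun F) (by omega) t
  simp only [zero_add] at h1 h2
  set m := av fun g : P (Fin (n + 1) → F) (r + 1) => mu 3 2 t g.1
  have m0 : 0 ≤ m := av_nonneg fun _ => mu_nonneg _ _ _ _
  have m1 : m ≤ 1 := av_le_of_le fun _ => mu_le_one _ _ _ _
  have e1 : (1 : ℝ) / 2 ^ (n + 1) = 1 / 2 ^ n / 2 := by rw [pow_succ]; field_simp
  have e2 : (1 : ℝ) / 2 ^ (n + 1 + 1) = 1 / 2 ^ n / 4 := by rw [pow_succ, pow_succ]; field_simp; ring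
  rw [e1] at h2 h3
  rw [e2] at h1
  have x0 : (0 : ℝ) < 1 / 2 ^ n := by positivity
  have x1 : (1 : ℝ) / 2 ^ n ≤ 1 := by
    rw [div_le_one (by positivity)]; exact one_le_pow₀ one_le_two
  set x := (1 : ℝ) / 2 ^ n
  have p1 := neg_one_le_phi r n (2 * t)
  refine ⟨m, m0, m1, by nlinarith, h1.trans ?_⟩
  have a : ((1 - x / 4) * m + x / 4) ^ 2 ≤ (m + x / 4) ^ 2 :=
    pow_le_pow_left₀ (by nlinarith) (by nlinarith) 2
  nlinarith

end Pool.Agent.P.MP_cb6780_lc
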