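import Pool.Agent.P.MP_cb6780_lc.LDef

set_option autoImplicit false
set_option linter.unusedSectionVars false

namespace Pool.Agent.P.MP_cb6780_lc

open Module

section
variable {V : Type} [AddCommGroup V] [Module F V] [Finite V]

theorem LSplit_bij {l : Dual F V} {e : V} (he : l e = 1) :
    Function.Bijective (Sum.elim (fun u : LinearMap.ker l => (u : V) + 0)
      fun u : LinearMap.ker l => (u : V) + e) := by
  have h01 : (0 : F) ≠ 1 := by decide
  constructor
  · rintro (u | u) (v | v) h <;> simp only [Sum.elim_inl, Sum.elim_inr] at h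
    · rw [Subtype.ext (add_right_cancel h)]
    · have := congrArg l h
      rw [map_add, map_add, u.2, v.2, he, map_zero, add_zero, zero_add] at this
      exact absurd this h01
    · have := congrArg l h
      rw [map_add, map_add, u.2, v.2, he, map_zero, add_zero, zero_add] at this
      exact absurd this.symm h01
    · rw [Subtype.ext (add_right_cancel h)]
  · intro x
    rcases Av_cases (l x) with h | h
    · exact ⟨Sum.inl ⟨x, h⟩, add_zero x⟩
    · refine ⟨Sum.inr ⟨x + e, ?_⟩, ?_⟩
      · rw [LinearMap.mem_ker, map_add, h, he]; decide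
      · show x + e + e = x
        rw [add_assoc, add_self_V, add_zero]

theorem gap_split {l : Dual F V} {e : V} (he : l e = 1) (f : V → F) :
    gap f = gap (res (LinearMap.ker l) 0 f) + gap (res (LinearMap.ker l) e f) := by
  have := Fintype.ofFinite (LinearMap.ker l)
  rw [← gap_congr (Equiv.ofBijective _ (LSplit_bij he)) f, gap_eq, gap_eq, gap_eq,
    Fintype.sum_sum_type]
  rfl

theorem av_split {l : Dual F V} {e : V} (he : l e = 1) (d : ℕ) (f : V → F) (Φ : ℝ → ℝ) :
    av (fun q : P V (d + 1) => Φ (gap (f + q.1))) =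
      av fun q : P (LinearMap.ker l) (d + 1) => av fun p' : P (LinearMap.ker l) d =>
        av fun p : P (LinearMap.ker l) d =>
          Φ (gap (res (LinearMap.ker l) 0 f + q.1 + p'.1) +
            gap (res (LinearMap.ker l) e f + q.1 + p.1)) := by
  set U := LinearMap.ker l with hU
  let R : P V (d + 1) →+ P U (d + 1) × P U d :=
    { toFun := fun q => (⟨res U 0 q.1, res_mem_P q.2 U 0⟩,
        ⟨res U 0 (D e q.1), res_mem_P (mem_P_succ.1 q.2 e) U 0⟩)
      map_zero' := by simp
      map_add' := fun a b => by simp }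
  have hR : Function.Surjective R := by
    rintro ⟨g, p⟩
    let π : V →ₗ[F] U := LinearMap.codRestrict U (LinearMap.id + l.smulRight e) fun x => by
      rw [hU, LinearMap.mem_ker]
      simp only [LinearMap.add_apply, LinearMap.id_apply, LinearMap.smulRight_apply, map_add,
        map_smul, he, smul_eq_mul, mul_one]
      exact CharTwo.add_self_eq_zero _
    have h0 : ∀ u : U, l u = 0 := fun u => u.2
    have p0 : ∀ u : U, π ((u : V) + 0) = u := fun u => Subtype.ext (by simp [π, h0 u])
    have p1 : ∀ u : U, π ((u : V) + 0 + e) = u := fun u => Subtype.ext (by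
      simp only [π, LinearMap.codRestrict_apply, LinearMap.add_apply, LinearMap.id_apply,
        LinearMap.smulRight_apply, map_add, h0 u, he, add_zero, zero_add, one_smul, zero_smul,
        Submodule.coe_add]
      rw [add_self_V, add_zero])
    have m1 : ((fun x => l x) * fun x => p.1 (π x)) ∈ P V (d + 1) := by
      cases d with
      | zero =>
        rw [mem_P_zero.1 (Card_comp p.2 π), mul_zero]
        exact zero_mem _
      | succ d =>
        have := mul_mem_P (d := 1) (dual_mem_P l) (Card_comp p.2 π)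
        rwa [add_comm 1 d] at this
    refine ⟨⟨_, add_mem (Card_comp g.2 π) m1⟩, Prod.ext (Subtype.ext (funext fun u => ?_))
      (Subtype.ext (funext fun u => ?_))⟩
    · show g.1 (π ((u : V) + 0)) + l ((u : V) + 0) * p.1 (π ((u : V) + 0)) = g.1 u
      rw [p0, add_zero, h0, zero_mul, add_zero]
    · show g.1 (π ((u : V) + 0 + e)) + l ((u : V) + 0 + e) * p.1 (π ((u : V) + 0 + e)) +
        (g.1 (π ((u : V) + 0)) + l ((u : V) + 0) * p.1 (π ((u : V) + 0))) = p.1 u
      rw [p0, p1, add_zero, map_add, h0, he]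
      have h : ∀ a b : F, a + (0 + 1) * b + (a + 0 * b) = b := by decide
      exact h _ _
  have h1 := av_surj R hR fun z => Φ (gap (res U 0 f + z.1.1) + gap (res U e f + z.1.1 + z.2.1))
  have h2 : ∀ q : P V (d + 1), Φ (gap (f + q.1)) =
      Φ (gap (res U 0 f + (R q).1.1) + gap (res U e f + (R q).1.1 + (R q).2.1)) := fun q => by
    rw [gap_split he, map_add, map_add]
    congr 3
    funext u
    show f (u + e) + q.1 (u + e) = f (u + e) + q.1 (u + 0) + (q.1 (u + 0 + e) + q.1 (u + 0))
    rw [add_zero]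
    have h : ∀ a b c : F, a + b = a + c + (b + c) := by decide
    exact h _ _ _
  rw [funext h2, h1, av_prod, ← av_P_av (Nat.le_succ d) fun q =>
    av fun p : P U d => Φ (gap (res U 0 f + q) + gap (res U e f + q + p.1))]
  refine congrArg av (funext fun q => congrArg av (funext fun p' => ?_))
  rw [← av_P_shift p'.2 fun p => Φ (gap (res U 0 f + q.1 + p'.1) + gap (res U e f + q.1 + p))]
  refine congrArg av (funext fun p => ?_)
  congr 3
  · rw [add_assoc]
  · abel

theorem av_odd (d : ℕ) (f : V → F) (Φ : ℝ → ℝ) (hΦ : ∀ x, Φ (-x) = -Φ x) :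
    av (fun q : P V (d + 1) => Φ (gap (f + q.1))) = 0 := by
  have h1 : (1 : V → F) ∈ P V (d + 1) := P_mono (by omega) (mem_P_one.2 ⟨1, rfl⟩)
  have h2 := av_P_shift h1 fun q => Φ (gap (f + q))
  simp only [← add_assoc, gap_add_one, hΦ] at h2
  have h3 := av_mul_left (-1) fun q : P V (d + 1) => Φ (gap (f + q.1))
  simp only [neg_mul, one_mul] at h3
  linarith

theorem av_sin (d : ℕ) (t : ℝ) (f : V → F) :
    av (fun q : P V (d + 1) => Real.sin (t * gap (f + q.1))) = 0 :=
  av_odd d f (fun x => Real.sin (t * x)) fun x => by rw [mul_neg, Real.sin_neg]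

theorem psi_prod {l : Dual F V} {e : V} (he : l e = 1) (d : ℕ) (t : ℝ) (f : V → F) :
    psi (d + 2) t f = av fun q : P (LinearMap.ker l) (d + 2) =>
      psi (d + 1) t (res (LinearMap.ker l) 0 f + q.1) *
        psi (d + 1) t (res (LinearMap.ker l) e f + q.1) := by
  refine (av_split he (d + 1) f fun x => Real.cos (t * x)).trans
    (congrArg av (funext fun q => ?_))
  simp only [mul_add, Real.cos_add, av_sub, av_mul_left, av_sin, mul_zero, av_const, sub_zero]
  simp only [mul_comm (Real.cos _), av_mul_left]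
  exact mul_comm _ _

theorem LSplit_half {l : Dual F V} {e : V} (he : l e = 1) (d : ℕ) (t : ℝ) (f : V → F) :
    |psi (d + 2) t f| ≤ 1 / 2 * mu (d + 2) (d + 1) t (res (LinearMap.ker l) 0 f) +
      1 / 2 * mu (d + 2) (d + 1) t (res (LinearMap.ker l) e f) := by
  rw [psi_prod he]
  refine (abs_av_le _).trans ?_
  unfold mu
  rw [← av_mul_left, ← av_mul_left, ← av_add]
  refine av_mono fun q => abs_le.2 ⟨?_, ?_⟩
  · nlinarith [sq_nonneg (psi (d + 1) t (res (LinearMap.ker l) 0 f + q.1) +
      psi (d + 1) t (res (LinearMap.ker l) e f + q.1))]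
  · nlinarith [sq_nonneg (psi (d + 1) t (res (LinearMap.ker l) 0 f + q.1) -
      psi (d + 1) t (res (LinearMap.ker l) e f + q.1))]

theorem abs_psi_le {l : Dual F V} (hl : l ≠ 0) (d : ℕ) (t : ℝ) (f : V → F) :
    |psi (d + 2) t f| ≤
      av fun x : V => mu (d + 2) (d + 1) t (res (LinearMap.ker l) 0 fun w => f (w + x)) := by
  obtain ⟨e, he⟩ := exists_eq_one hl
  set Y : V → ℝ := fun x => mu (d + 2) (d + 1) t (res (LinearMap.ker l) 0 fun w => f (w + x))
  have h1 : ∀ x, |psi (d + 2) t f| ≤ 1 / 2 * Y x + 1 / 2 * Y (e + x) := fun x => by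
    have h2 := LSplit_half he d t fun w => f (w + x)
    have h3 := psi_congr (LinearEquiv.refl F V) x (d + 2) t f
    have h4 : (res (LinearMap.ker l) e fun w => f (w + x)) =
        res (LinearMap.ker l) 0 fun w => f (w + (e + x)) := by
      funext u
      simp only [res_apply, add_zero, add_assoc]
    rw [h4] at h2
    rw [← h3]
    exact h2
  have h5 := av_mono h1
  rw [av_const, av_add, av_mul_left, av_mul_left] at h5
  have h6 : av (fun x => Y (e + x)) = av Y := av_congr (Equiv.addLeft e) Y
  rw [h6] at h5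
  linarith

end

theorem phi_succ (r n : ℕ) (t : ℝ) :
    phi (r + 1) (n + 1) t = mu (r + 2) (r + 1) t (0 : (Fin n → F) → F) := by
  let l : Dual F (Fin (n + 1) → F) := LinearMap.proj 0
  have he : l (Pi.single 0 1) = 1 := by simp [l]
  have hl : l ≠ 0 := fun h => by rw [h] at he; exact zero_ne_one he
  have hk := finrank_ker_dual hl
  rw [finrank_fin_fun] at hk
  have hk' : finrank F (LinearMap.ker l) = n := by omega
  have h := mu_zero_eq (V := LinearMap.ker l) (r + 2) (r + 1) t
  rw [hk'] at h
  rw [← h, phi, psi_prod he, mu]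
  simp only [map_zero, sq]

theorem phi_le_one (r n : ℕ) (t : ℝ) : phi r n t ≤ 1 := psi_le_one _ _ _

theorem neg_one_le_phi (r n : ℕ) (t : ℝ) : -1 ≤ phi r n t := (abs_le.1 (abs_psi_le_one _ _ _)).1

theorem phi_nonneg (r n : ℕ) (t : ℝ) : 0 ≤ phi (r + 1) (n + 1) t := by
  rw [phi_succ]
  exact mu_nonneg _ _ _ _

theorem phi_sq_le (r n : ℕ) (t : ℝ) : phi (r + 1) n t ^ 2 ≤ phi (r + 1) (n + 1) t := by
  rw [phi_succ, phi, ← psi_av (Nat.le_succ (r + 1))]
  exact sq_av_le _

theorem phi_zero (r : ℕ) (t : ℝ) : phi r 0 t = Real.cos t := by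
  have h : ∀ g : (Fin 0 → F) → F, Real.cos (t * gap g) = Real.cos t := fun g => by
    rw [gap_eq, Fintype.sum_subsingleton _ 0]
    rcases Av_cases (g 0) with h | h <;> rw [h] <;> simp [chi_zero, chi_one]
  unfold phi psi
  simp only [h, av_const]

theorem cos_pow_le_phi (r n : ℕ) (t : ℝ) : Real.cos t ^ 2 ^ (n + 1) ≤ phi (r + 1) (n + 1) t := by
  induction n with
  | zero =>
    have := phi_sq_le r 0 t
    rwa [phi_zero] at this
  | succ n ih =>
    refine le_trans ?_ (phi_sq_le r (n + 1) t)
    rw [pow_succ 2 (n + 1), pow_mul]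
    exact pow_le_pow_left₀ (Even.pow_nonneg (by simp [pow_succ]) _) ih 2

theorem phi_base (r : ℕ) (t : ℝ) : ∀ n, n ≤ r → phi r n t = Real.cos t ^ 2 ^ n := by
  intro n
  induction n with
  | zero => intro _; simp [phi_zero]
  | succ n ih =>
    intro h
    obtain ⟨r, rfl⟩ : ∃ s, r = s + 1 := ⟨r - 1, by omega⟩
    have h1 : P (Fin n → F) (r + 1) = ⊤ := P_top (by rw [finrank_fin_fun]; omega)
    have h2 : ∀ q : (Fin n → F) → F, psi (r + 1) t (0 + q) = psi (r + 1) t 0 := fun q =>
      psi_add_mem t 0 (by rw [h1]; trivial)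
    have h3 := psi_av (Nat.le_succ (r + 1)) t (0 : (Fin n → F) → F)
    simp only [h2, av_const] at h3
    rw [phi_succ, mu, pow_succ 2 n, pow_mul, ← ih (by omega), phi, ← h3]
    simp only [h2, av_const]

theorem phi_even (r n : ℕ) (t : ℝ) : phi r n (-t) = phi r n t := by
  unfold phi psi
  simp only [neg_mul, Real.cos_neg]

end Pool.Agent.P.MP_cb6780_lc
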