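import Pool.Agent.P.MP_cb6780_lc.KCount

set_option autoImplicit false

namespace Pool.Agent.P.MP_cb6780_lc

open Module Filter Topology

/-- weight at most `δ 2^m` means bias at least `1 - 2δ` -/
theorem count_eq (r m : ℕ) (δ : ℝ) :
    {f : (Fin m → ZMod 2) → ZMod 2 |
      (∃ p : MvPolynomial (Fin m) (ZMod 2), p.totalDegree ≤ r ∧ ∀ x, f x = MvPolynomial.eval x p) ∧
        (hammingNorm f : ℝ) ≤ δ * 2 ^ m}.ncard = Nn m (r + 1) (1 - 2 * δ) := by
  unfold Nn N
  congr 1
  ext f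
  simp only [Set.mem_ofPred_eq]
  rw [mem_P_iff_poly, bias_eq_wt]
  have e1 : ({x | f x ≠ 0}.ncard : ℝ) = hammingNorm f := by
    rw [hammingNorm, ← Set.ncard_coe_finset]
    congr 2
    ext x
    simp
  have e2 : (Nat.card (Fin m → F) : ℝ) = 2 ^ m := by
    rw [card_V]; simp
  rw [e1, e2]
  refine and_congr Iff.rfl ?_
  have hp : (0 : ℝ) < 2 ^ m := by positivity
  rw [sub_le_sub_iff_left, div_le_iff₀ hp]
  constructor <;> intro h <;> linarith

theorem main (c h : ℕ) (δ : ℝ) (h1 : (1 + 1 / 2 ^ (h + 1)) / 2 < 2 ^ c * (1 - 2 * δ))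
    (h2 : 2 ^ c * (1 - 2 * δ) < (1 + 1 / 2 ^ h) / 2) :
    Tendsto (fun n : ℕ =>
      ({f : (Fin (n + c) → ZMod 2) → ZMod 2 |
        (∃ p : MvPolynomial (Fin (n + c)) (ZMod 2), p.totalDegree ≤ 3 ∧
          ∀ x, f x = MvPolynomial.eval x p) ∧ (hammingNorm f : ℝ) ≤ δ * 2 ^ (n + c)}.ncard : ℝ) /
      (2 ^ (c * (n + 1) + ∑ i ∈ Finset.range c, (1 + (n + i) + (n + i).choose 2)) /
          (∏ j ∈ Finset.range c, (1 - 1 / 2 ^ (j + 1) : ℝ)) *
        if h = 0 then 1 else
          2 ^ ((2 * h + 1) * n + 1) / (2 ^ (h ^ 2) * (if h = 1 then 7 else 1) *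
            ∏ j ∈ Finset.range h, ((4 : ℝ) ^ (j + 1) - 1)))) atTop (𝓝 1) := by
  set ε := 1 - 2 * δ with hε
  have p1 : (0 : ℝ) < 1 / 2 ^ (h + 1) := by positivity
  have p2 : (1 : ℝ) / 2 ^ h ≤ 1 := by
    rw [div_le_one (by positivity)]; exact one_le_pow₀ (by norm_num)
  obtain ⟨θ, t1, t2⟩ := exists_between h1
  set φ : ℝ := ∏ j ∈ Finset.range c, (1 - 1 / 2 ^ (j + 1) : ℝ) with hφ
  have φ0 : 0 < φ := Finset.prod_pos fun j _ => by
    rw [sub_pos, div_lt_one (by positivity)]; exact one_lt_pow₀ (by norm_num) (by omega)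
  have K0 : ∀ n, 0 < Kh h n := by
    intro n
    unfold Kh
    have : 0 < ∏ j ∈ Finset.range h, ((4 : ℝ) ^ (j + 1) - 1) := Finset.prod_pos fun j _ => by
      rw [sub_pos]; exact one_lt_pow₀ (by norm_num) (by omega)
    split_ifs <;> positivity
  let M : ℕ → ℝ := fun n =>
    2 ^ (c * (n + 1) + ∑ i ∈ Finset.range c, (1 + (n + i) + (n + i).choose 2)) / φ * Kh h n
  have M0 : ∀ n, 0 < M n := fun n => mul_pos (by positivity) (K0 n)
  have key : ∀ θ' : ℝ, (1 + 1 / 2 ^ (h + 1)) / 2 < θ' → θ' ≤ (1 + 1 / 2 ^ h) / 2 →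
      Tendsto (fun n : ℕ => Mult n c * Nn n 4 θ' / M n) atTop (𝓝 1) := by
    intro θ' a1 a2
    have := ((G_lim c).mul_const φ).mul (N_lim a1 a2)
    rw [← hφ, one_div_mul_cancel φ0.ne', one_mul] at this
    refine this.congr fun n => ?_
    have e : (∏ i ∈ Finset.range c, (cP (n + i) 3 : ℝ)) =
        2 ^ ∑ i ∈ Finset.range c, (1 + (n + i) + (n + i).choose 2) := by
      rw [← Finset.prod_pow_eq_pow_sum]
      refine Finset.prod_congr rfl fun i _ => ?_
      simp [cP, Finset.sum_range_succ]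
    have := K0 n
    simp only [Mult, M, e, pow_add, mul_add, mul_one]
    field_simp
  have goal : Tendsto (fun n : ℕ => (Nn (n + c) 4 ε : ℝ) / M n) atTop (𝓝 1) := by
    rw [tendsto_order]
    constructor
    · intro b hb
      obtain ⟨κ, k1, k2⟩ := exists_between hb
      have l1 := reduce_low (c := c) (ε := ε) (θ := (1 + 1 / 2 ^ h) / 2) (by linarith) h2
        (by linarith) k2
      have l2 := (key _ (h1.trans h2) le_rfl).const_mul κ
      rw [mul_one] at l2
      filter_upwards [l1, l2.eventually (lt_mem_nhds k1)] with n n1 n2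
      refine n2.trans_le ?_
      rw [← mul_div_assoc]
      exact div_le_div_of_nonneg_right n1 (M0 n).le
    · intro b hb
      obtain ⟨κ, k1, k2⟩ := exists_between hb
      have l1 := reduce_up (c := c) (ε := ε) (θ := θ) (by linarith) t2 (by linarith) k1
      have l2 := (key θ t1 (by linarith)).const_mul κ
      rw [mul_one] at l2
      filter_upwards [l1, l2.eventually (gt_mem_nhds k2)] with n n1 n2
      refine lt_of_le_of_lt ?_ n2
      rw [← mul_div_assoc]
      exact div_le_div_of_nonneg_right n1 (M0 n).le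
  refine goal.congr fun n => ?_
  rw [count_eq]
  rfl

end Pool.Agent.P.MP_cb6780_lc
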