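import Pool.Agent.P.MP_cb6780_lc.Res

set_option autoImplicit false

/-! Quadratic functions: bias values and their counts (weight distribution of `RM(2,n)`). -/

namespace Pool.Agent.P.MP_cb6780_lc

open Module Filter Topology

section
variable {V : Type} [AddCommGroup V] [Module F V]

/-- the periods of a function -/
def Per (f : V → F) : Submodule F V where
  carrier := {y | D y f = 0}
  add_mem' := by
    intro y z hy hz
    simp only [Set.mem_ofPred_eq] at hy hz ⊢
    rw [D_add, hz, hy]; simp
  zero_mem' := D_zero f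
  smul_mem' := by
    intro a y hy
    have : a = 0 ∨ a = 1 := by revert a; decide
    rcases this with rfl | rfl
    · simpa using D_zero f
    · simpa using hy

theorem mem_Per {f : V → F} {y : V} : y ∈ Per f ↔ D y f = 0 := Iff.rfl

theorem Quad_F_cases (a : F) : a = 0 ∨ a = 1 := by revert a; decide

theorem Quad_ind_ne {Z : Submodule F V} {p x : V} : ind Z p x ≠ 0 ↔ x + p ∈ Z := by
  unfold ind
  by_cases h : x + p ∈ Z <;> simp [h]

theorem Quad_ext {f g : V → F} (h : ∀ x, f x ≠ 0 ↔ g x ≠ 0) : f = g := by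
  funext x
  have := h x
  rcases Quad_F_cases (f x) with h1 | h1 <;> rcases Quad_F_cases (g x) with h2 | h2 <;>
    simp_all

theorem Quad_per_apply {f : V → F} {y : V} (h : y ∈ Per f) (x : V) : f (x + y) = f x := by
  have h1 : D y f x = 0 := by rw [mem_Per.1 h]; rfl
  rw [D_apply] at h1
  have h2 : ∀ a b : F, a + b = 0 → a = b := by decide
  exact h2 _ _ h1

theorem Quad_mem_per {f : V → F} {y : V} (h : ∀ x, f (x + y) = f x) : y ∈ Per f := by
  rw [mem_Per]
  funext x
  rw [D_apply, h x]
  have h2 : ∀ a : F, a + a = 0 := by decide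
  exact h2 _

theorem Quad_ncard_coset (Z : Submodule F V) (p : V) :
    {x | x + p ∈ Z}.ncard = Nat.card Z := by
  have h : {x | x + p ∈ Z} = (fun x => x + p) ⁻¹' (Z : Set V) := rfl
  rw [h, Set.ncard_preimage_of_injective_subset_range (add_left_injective p)
    (by rw [(Equiv.addRight p).surjective.range_eq.trans rfl |> fun h => (h : Set.range (fun x => x + p) = Set.univ)]; exact Set.subset_univ _)]
  rfl

theorem Quad_supp_ind (Z : Submodule F V) (p : V) :
    {x | ind Z p x ≠ 0} = {x | x + p ∈ Z} := by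
  ext x; exact Quad_ind_ne

variable [Finite V]

theorem bias_ind (Z : Submodule F V) (p : V) :
    bias (ind Z p) = 1 - 2 * ((Nat.card Z : ℝ) / Nat.card V) := by
  rw [bias_eq_wt, Quad_supp_ind, Quad_ncard_coset]; ring

theorem Per_ind (Z : Submodule F V) (p : V) : Per (ind Z p) = Z := by
  ext y
  constructor
  · intro hy
    have h1 := Quad_per_apply hy p
    have h2 : ind Z p p ≠ 0 := Quad_ind_ne.2 (by rw [add_self_V]; exact Z.zero_mem)
    rw [← h1, Quad_ind_ne] at h2
    have h3 : p + y + p = y := by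
      rw [add_right_comm, add_self_V, zero_add]
    rwa [h3] at h2
  · intro hy
    apply Quad_mem_per
    intro x
    have h1 : (fun x => ind Z p (x + y)) = ind Z p := by
      apply Quad_ext
      intro x
      rw [Quad_ind_ne, Quad_ind_ne, add_right_comm]
      exact Z.add_mem_iff_left hy
    exact congrFun h1 x

theorem ind_eq_iff {Z Z' : Submodule F V} {p p' : V} :
    ind Z p = ind Z' p' ↔ Z = Z' ∧ p + p' ∈ Z := by
  constructor
  · intro h
    have h1 : Z = Z' := by rw [← Per_ind Z p, h, Per_ind]
    subst h1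
    refine ⟨rfl, ?_⟩
    have h2 : ind Z p p ≠ 0 := Quad_ind_ne.2 (by rw [add_self_V]; exact Z.zero_mem)
    rwa [h, Quad_ind_ne] at h2
  · rintro ⟨rfl, h⟩
    apply Quad_ext
    intro x
    rw [Quad_ind_ne, Quad_ind_ne]
    have h3 : x + p' = x + p + (p + p') := by
      rw [add_assoc, ← add_assoc p, add_self_V, zero_add]
    rw [h3]
    exact (Z.add_mem_iff_left h).symm

/-- product of `k` affine functions (a basis of the annihilator, or induction on `k`) -/
theorem ind_mem_P {Z : Submodule F V} {k : ℕ} (h : finrank F Z + k = finrank F V) (p : V) :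
    ind Z p ∈ P V (k + 1) := by
  have : Module.Finite F V := Module.Finite.of_finite
  induction k generalizing Z with
  | zero =>
    have hZ : Z = ⊤ := Submodule.eq_top_of_finrank_eq (by simpa using h)
    subst hZ
    exact mem_P_one.2 ⟨1, by funext x; simp [ind]⟩
  | succ k ih =>
    have hZ : Z ≠ ⊤ := by
      rintro rfl
      rw [finrank_top] at h
      omega
    obtain ⟨v, hv⟩ : ∃ v, v ∉ Z := by
      by_contra hc
      push Not at hc
      exact hZ (Submodule.eq_top_iff'.2 hc)
    obtain ⟨l, hl1, hl2⟩ := Submodule.exists_dual_map_eq_bot_of_notMem hv inferInstance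
    have hlZ : ∀ z ∈ Z, l z = 0 := by
      intro z hz
      have : l z ∈ Z.map l := Submodule.mem_map_of_mem hz
      rwa [hl2, Submodule.mem_bot] at this
    have hr := Submodule.finrank_sup_span_singleton hv
    have h1 := ih (Z := Z ⊔ Submodule.span F {v}) (by omega)
    have h2 : (fun x => l x + (l p + 1)) ∈ P V (1 + 1) := mem_P_two.2 ⟨l, _, rfl⟩
    have h3 := mul_mem_P h1 h2
    have h4 : ind Z p = ind (Z ⊔ Submodule.span F {v}) p * fun x => l x + (l p + 1) := by
      apply Quad_ext
      intro x
      rw [Pi.mul_apply, mul_ne_zero_iff, Quad_ind_ne, Quad_ind_ne, ← add_assoc, ← map_add]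
      constructor
      · intro hx
        refine ⟨Submodule.mem_sup_left hx, ?_⟩
        rw [hlZ _ hx]; decide
      · rintro ⟨hx, hx'⟩
        obtain ⟨z, hz, w, hw, hzw⟩ := Submodule.mem_sup.1 hx
        obtain ⟨a, rfl⟩ := Submodule.mem_span_singleton.1 hw
        rcases Quad_F_cases a with rfl | rfl
        · rw [← hzw]; simpa using hz
        · exfalso
          apply hx'
          rw [← hzw, one_smul, map_add, hlZ z hz, zero_add]
          rcases Quad_F_cases (l v) with h5 | h5
          · exact absurd h5 hl1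
          · rw [h5]; decide
    rw [h4]
    exact h3

/-- the support is a union of cosets of `Z` -/
theorem card_dvd_wt {Z : Submodule F V} {f : V → F} (h : Z ≤ Per f) :
    Nat.card Z ∣ {x | f x ≠ 0}.ncard := by
  set t : Set (V ⧸ Z.toAddSubgroup) := QuotientAddGroup.mk '' {x | f x ≠ 0} with ht
  have h1 : {x | f x ≠ 0} = QuotientAddGroup.mk ⁻¹' t := by
    ext x
    constructor
    · intro hx; exact ⟨x, hx, rfl⟩
    · rintro ⟨y, hy, hxy⟩
      have h2 : -y + x ∈ Z := QuotientAddGroup.eq.1 hxy
      have h3 := Quad_per_apply (h h2) y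
      rw [add_neg_cancel_left] at h3
      show f x ≠ 0
      rw [h3]; exact hy
  rw [h1, ← Nat.card_coe_set_eq,
    Nat.card_congr (QuotientAddGroup.preimageMkEquivAddSubgroupProdSet _ _), Nat.card_prod]
  exact Dvd.intro _ rfl

theorem eq_ind_of_Per {Z : Submodule F V} {f : V → F} (h : Z ≤ Per f)
    (hb : bias f = 1 - 2 * ((Nat.card Z : ℝ) / Nat.card V)) : ∃ p, f = ind Z p := by
  have hV : (0 : ℝ) < Nat.card V := by exact_mod_cast Nat.card_pos
  have h1 : {x | f x ≠ 0}.ncard = Nat.card Z := by
    rw [bias_eq_wt] at hb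
    have : ({x | f x ≠ 0}.ncard : ℝ) = Nat.card Z := by
      field_simp at hb
      linarith
    exact_mod_cast this
  have h2 : {x | f x ≠ 0}.Nonempty := by
    apply Set.nonempty_of_ncard_ne_zero
    rw [h1]; exact Nat.card_pos.ne'
  obtain ⟨p, hp⟩ := h2
  refine ⟨p, Quad_ext fun x => ?_⟩
  have h3 : {x | x + p ∈ Z} = {x | f x ≠ 0} := by
    apply Set.eq_of_subset_of_ncard_le _ (by rw [h1, Quad_ncard_coset])
    intro y hy
    have h4 := Quad_per_apply (h hy) p
    have h5 : p + (y + p) = y := by rw [add_comm y p, ← add_assoc, add_self_V, zero_add]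
    rw [h5] at h4
    show f y ≠ 0
    rw [h4]; exact hp
  rw [Quad_ind_ne]
  exact (Set.ext_iff.1 h3 x).symm

/-- `bias_sq`: `D y q` is affine, of bias `0` unless constant; a constant `1` forces bias `0` -/
theorem quad_bias_sq {q : V → F} (hq : q ∈ P V 3) (h : bias q ≠ 0) :
    bias q ^ 2 = (Nat.card (Per q) : ℝ) / Nat.card V := by
  have h1 : (fun y => bias (D y q)) = (Per q : Set V).indicator fun _ => (1 : ℝ) := by
    funext y
    by_cases hy : y ∈ Per q
    · rw [Set.indicator_of_mem hy, mem_Per.1 hy, bias_zero]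
    · rw [Set.indicator_of_notMem hy]
      obtain ⟨l, c, hlc⟩ := mem_P_two.1 (mem_P_succ.1 hq y)
      by_cases hl : l = 0
      · exfalso
        subst hl
        rcases Quad_F_cases c with rfl | rfl
        · apply hy
          rw [mem_Per, hlc]; funext x; simp
        · apply h
          apply bias_eq_zero_of_D (y := y)
          rw [hlc]; funext x; simp
      · rw [hlc]; exact bias_dual hl c
  rw [bias_sq, h1, av_indicator]
  rfl

/-- `|Per q| / |V| = 2^(-k)` is the square of the rational number `bias q`, so `k` is even -/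
theorem quad_bias {q : V → F} (hq : q ∈ P V 3) (h : 0 < bias q) : ∃ h : ℕ, bias q = 1 / 2 ^ h := by
  have : Module.Finite F V := Module.Finite.of_finite
  have h1 := quad_bias_sq hq h.ne'
  obtain ⟨c, hc⟩ := Nat.exists_eq_add_of_le (Submodule.finrank_le (Per q))
  rw [card_sub (Per q) hc.symm] at h1
  rcases Nat.even_or_odd' c with ⟨k, rfl | rfl⟩
  · refine ⟨k, ?_⟩
    have h2 : bias q ^ 2 = (1 / 2 ^ k) ^ 2 := by rw [h1, div_pow, ← pow_mul, one_pow, mul_comm]
    exact (pow_left_inj₀ h.le (by positivity) two_ne_zero).1 h2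
  · exfalso
    have h2 : (bias q * 2 ^ (k + 1)) ^ 2 = 2 := by
      rw [mul_pow, h1]; field_simp; ring
    have h3 : Real.sqrt 2 = bias q * 2 ^ (k + 1) := by
      rw [Real.sqrt_eq_iff_eq_sq (by norm_num) (by positivity)]
      exact h2.symm
    apply irrational_sqrt_two
    refine ⟨(1 - 2 * ({x | q x ≠ 0}.ncard : ℚ) / Nat.card V) * 2 ^ (k + 1), ?_⟩
    rw [h3, bias_eq_wt]
    push_cast
    rfl

theorem quad_half {q : V → F} (hq : q ∈ P V 3) (h : bias q = 1 / 2) :
    ∃ (W : Submodule F V) (p : V), finrank F W + 2 = finrank F V ∧ q = ind W p := by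
  have : Module.Finite F V := Module.Finite.of_finite
  have h1 := quad_bias_sq hq (by rw [h]; norm_num)
  obtain ⟨c, hc⟩ := Nat.exists_eq_add_of_le (Submodule.finrank_le (Per q))
  have h2 := card_sub (Per q) hc.symm
  have h3 : c = 2 := by
    rw [h2, h] at h1
    have h4 : (2 : ℝ) ^ c = 2 ^ 2 := by
      field_simp at h1
      linarith
    exact pow_right_injective₀ (by norm_num : (0 : ℝ) < 2) (by norm_num) h4
  subst h3
  obtain ⟨p, hp⟩ := eq_ind_of_Per (Z := Per q) le_rfl (by rw [h2, h]; norm_num)
  exact ⟨Per q, p, hc.symm, hp⟩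

end

/-- number of quadratic functions of bias `2^(-h)` -/
noncomputable def qa (V : Type) [AddCommGroup V] (h : ℕ) : ℕ :=
  {q : V → F | q ∈ P V 3 ∧ bias q = 1 / 2 ^ h}.ncard

end Pool.Agent.P.MP_cb6780_lc
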