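import Pool.Agent.P.MP_cb6780_lc.Card

set_option autoImplicit false

/-! Restriction to cosets. -/

namespace Pool.Agent.P.MP_cb6780_lc

open Module

variable {V W : Type} [AddCommGroup V] [Module F V] [AddCommGroup W] [Module F W]

theorem Res_mem (e : V ≃ₗ[F] W) {d : ℕ} {θ : ℝ} {f : W → F} (h : f ∈ P W d ∧ θ ≤ bias f) :
    (fun x => f (e x)) ∈ P V d ∧ θ ≤ bias fun x => f (e x) := by
  refine ⟨by simpa using comp_mem_P h.1 e.toLinearMap 0, ?_⟩
  have := av_congr e.toEquiv fun w => chi (f w)
  exact h.2.trans (le_of_eq this.symm)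

theorem N_congr (e : V ≃ₗ[F] W) (d : ℕ) (θ : ℝ) : N V d θ = N W d θ := by
  unfold N
  refine Set.ncard_congr (fun f _ => fun w => f (e.symm w)) (fun f hf => Res_mem e.symm hf)
    (fun f g _ _ h => funext fun v => ?_) fun g hg => ⟨fun v => g (e v), Res_mem e hg, ?_⟩
  · simpa using congrFun h (e v)
  · funext w
    simp

theorem N_eq [Finite V] (d : ℕ) (θ : ℝ) : N V d θ = Nn (finrank F V) d θ := by
  have : Module.Finite F V := Module.Finite.of_finite
  exact N_congr (Module.finBasis F V).equivFun d θ

theorem N_anti [Finite V] (d : ℕ) {θ θ' : ℝ} (h : θ ≤ θ') : N V d θ' ≤ N V d θ :=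
  Set.ncard_le_ncard (fun _ hf => ⟨hf.1, h.trans hf.2⟩) (Set.toFinite _)

theorem one_le_N [Finite V] (d : ℕ) {θ : ℝ} (h : θ ≤ 1) : 1 ≤ N V d θ :=
  (Set.ncard_pos (Set.toFinite _)).2 ⟨0, (P V d).zero_mem, h.trans (le_of_eq bias_zero.symm)⟩

theorem card_sub [Finite V] (U : Submodule F V) {c : ℕ} (h : finrank F U + c = finrank F V) :
    (Nat.card U : ℝ) / Nat.card V = 1 / 2 ^ c := by
  rw [card_V (V := U), card_V (V := V), ← h]
  push_cast
  rw [pow_add]
  field_simp

theorem bias_res_congr [Finite V] (U : Submodule F V) {a b : V} (h : a + b ∈ U) (f : V → F) :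
    bias (res U a f) = bias (res U b f) := by
  rw [← bias_transl (res U b f) ⟨a + b, h⟩]
  refine congrArg bias (funext fun u => ?_)
  simp only [res_apply, Submodule.coe_add]
  rw [add_assoc, add_assoc, add_self_V, add_zero]

theorem bias_eq_av_res [Finite V] (U : Submodule F V) (f : V → F) :
    bias f = av fun a => bias (res U a f) := by
  have h : (av fun a => bias (res U a f)) = av fun u : U => av fun a : V => chi (f (u + a)) :=
    av_comm fun (a : V) (u : U) => chi (f (u + a))
  have h2 : ∀ u : U, (av fun a : V => chi (f (u + a))) = bias f := fun u => by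
    rw [← bias_transl f u]
    exact congrArg av (funext fun a => by rw [add_comm])
  rw [h, funext h2, av_const]

theorem Res_ind [Finite V] (U : Submodule F V) (a : V) (h : V → ℝ) :
    av ({x : V | a + x ∈ U}.indicator h) =
      (Nat.card U : ℝ) / Nat.card V * av fun u : U => h (u + a) := by
  classical
  have := Fintype.ofFinite V
  have := Fintype.ofFinite U
  have h0 : (Fintype.card U : ℝ) ≠ 0 := Nat.cast_ne_zero.2 Fintype.card_ne_zero
  have e : ∑ x, {x : V | a + x ∈ U}.indicator h x = ∑ u : U, h (u + a) := by
    rw [← Equiv.sum_comp (Equiv.addRight a),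
      ← Finset.sum_subtype (Finset.univ.filter fun x => x ∈ U) (by simp) fun x => h (x + a),
      Finset.sum_filter]
    refine Finset.sum_congr rfl fun x _ => ?_
    have : a + (x + a) = x := by rw [add_comm x a, ← add_assoc, add_self_V, zero_add]
    simp [Set.indicator_apply, this]
  rw [av_eq, av_eq, e, Nat.card_eq_fintype_card, Nat.card_eq_fintype_card]
  field_simp

/-- splitting off one coset -/
theorem bias_split [Finite V] (U : Submodule F V) (a : V) (f : V → F) :
    bias f = (Nat.card U : ℝ) / Nat.card V * bias (res U a f) +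
      av ({b : V | a + b ∉ U}.indicator fun b => bias (res U b f)) := by
  have h1 := Res_ind U a fun _ => bias (res U a f)
  rw [av_const] at h1
  rw [← h1, ← av_add, bias_eq_av_res U f]
  refine congrArg av (funext fun b => ?_)
  by_cases h : a + b ∈ U
  · simp [Set.indicator_apply, h, bias_res_congr U h f]
  · simp [Set.indicator_apply, h]

theorem Res_ann [Finite V] (U : Submodule F V) (a : V) (h : V → ℝ) (x : V) :
    h x * av (fun l : U.dualAnnihilator => chi (l.1 (a + x))) =
      {x : V | a + x ∈ U}.indicator h x := by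
  have : Finite (Dual F V) := Finite.of_injective _ DFunLike.coe_injective
  by_cases hx : a + x ∈ U
  · have : ∀ l : U.dualAnnihilator, chi (l.1 (a + x)) = 1 := fun l => by
      rw [(Submodule.mem_dualAnnihilator _).1 l.2 _ hx, chi_zero]
    rw [funext this, av_const]
    simp [Set.indicator_apply, hx]
  · let L : Dual F U.dualAnnihilator := (Dual.eval F V (a + x)).comp U.dualAnnihilator.subtype
    have hl : L ≠ 0 := fun h0 =>
      hx ((Subspace.forall_mem_dualAnnihilator_apply_eq_zero_iff U _).1 fun l hl =>
        DFunLike.congr_fun h0 ⟨l, hl⟩)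
    have h2 := bias_dual (V := U.dualAnnihilator) (l := L) hl 0
    have h3 : av (fun l : U.dualAnnihilator => chi (l.1 (a + x))) = 0 := by
      rw [← h2]
      exact congrArg av (funext fun l => by simp [L])
    rw [h3]
    simp [Set.indicator_apply, hx]

/-- Fourier expansion of the indicator of a coset over the annihilator -/
theorem av_ann [Finite V] (U : Submodule F V) (a : V) (g : V → F) :
    av (fun l : U.dualAnnihilator => chi (l.1 a) * bias (g + fun x => l.1 x)) =
      (Nat.card U : ℝ) / Nat.card V * bias (res U a g) := by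
  have : Finite (Dual F V) := Finite.of_injective _ DFunLike.coe_injective
  have h1 : ∀ l : U.dualAnnihilator, chi (l.1 a) * bias (g + fun x => l.1 x) =
      av fun x => chi (g x) * chi (l.1 (a + x)) := fun l => by
    unfold bias
    rw [← av_mul_left]
    refine congrArg av (funext fun x => ?_)
    rw [Pi.add_apply, chi_add, map_add, chi_add]
    ring
  rw [funext h1, av_comm fun (l : U.dualAnnihilator) (x : V) => chi (g x) * chi (l.1 (a + x))]
  have h2 := fun x => (av_mul_left (chi (g x))
    fun l : U.dualAnnihilator => chi (l.1 (a + x))).trans (Res_ann U a (fun x => chi (g x)) x)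
  rw [funext h2]
  exact Res_ind U a fun x => chi (g x)

theorem exists_dual [Finite V] (U : Submodule F V) (a : V) (g : V → F) :
    ∃ l : Dual F V, (Nat.card U : ℝ) / Nat.card V * |bias (res U a g)| ≤
      |bias (g + fun x => l x)| := by
  have : Finite (Dual F V) := Finite.of_injective _ DFunLike.coe_injective
  obtain ⟨l, hl⟩ := exists_av_le
    fun l : U.dualAnnihilator => |chi (l.1 a) * bias (g + fun x => l.1 x)|
  refine ⟨l.1, ?_⟩
  have h := (abs_av_le _).trans hl
  rw [av_ann, abs_mul, abs_mul, abs_chi, one_mul, abs_of_nonneg (by positivity)] at h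
  exact h

end Pool.Agent.P.MP_cb6780_lc
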