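import Pool.Agent.P.MP_cb6780_lc.UForm
import Pool.Agent.P.MP_cb6780_lc.LDef

set_option autoImplicit false

/-! A regularity step for families of subspaces. -/

namespace Pool.Agent.P.MP_cb6780_lc

open Module

variable {W : Type} [AddCommGroup W] [Module F W] [Finite W]

/-- both subspaces have codimension at most `s` in their sum -/
def Close (s : ℕ) (X Y : Submodule F W) : Prop :=
  finrank F ↥(X ⊔ Y) ≤ finrank F X + s ∧ finrank F ↥(X ⊔ Y) ≤ finrank F Y + s

theorem SReg_pair {s : ℕ} {A B : Submodule F W} (hAB : A ≤ B)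
    (h : finrank F B ≤ finrank F A + s) :
    (∃ φ : W →ₗ[F] (Fin s → F), B ⊓ LinearMap.ker φ = A) ∧
      ∃ ψ : (Fin s → F) →ₗ[F] W, A ⊔ LinearMap.range ψ = B := by
  have : Module.Finite F W := Module.Finite.of_finite
  let A' := A.comap B.subtype
  have h1 := A'.finrank_quotient_add_finrank
  rw [(Submodule.comapSubtypeEquivOfLe hAB).finrank_eq] at h1
  have h2 : finrank F (B ⧸ A') ≤ finrank F (Fin s → F) := by
    rw [finrank_fin_fun]
    omega
  obtain ⟨ι, hι⟩ := finrank_le_iff_exists_linearMap.1 h2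
  obtain ⟨π, hπ⟩ := ι.exists_leftInverse_of_injective (LinearMap.ker_eq_bot.2 hι)
  obtain ⟨φ, hφ⟩ := LinearMap.exists_extend (ι.comp A'.mkQ)
  obtain ⟨ψ, hψ⟩ := Module.projective_lifting_property A'.mkQ π A'.mkQ_surjective
  have h3 : ∀ x : B, φ x = 0 ↔ (x : W) ∈ A := fun x => by
    rw [show φ x = ι (A'.mkQ x) from LinearMap.congr_fun hφ x, map_eq_zero_iff _ hι,
      Submodule.mkQ_apply, Submodule.Quotient.mk_eq_zero]
    rfl
  refine ⟨⟨φ, le_antisymm (fun x hx => (h3 ⟨x, hx.1⟩).1 hx.2)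
    fun x hx => ⟨hAB hx, (h3 ⟨x, hAB hx⟩).2 hx⟩⟩, B.subtype.comp ψ, le_antisymm (sup_le hAB ?_) ?_⟩
  · rintro _ ⟨z, rfl⟩
    exact (ψ z).2
  · intro x hx
    have h4 : A'.mkQ (⟨x, hx⟩ - ψ (ι (A'.mkQ ⟨x, hx⟩))) = 0 := by
      rw [map_sub, show ∀ z, A'.mkQ (ψ z) = π z from LinearMap.congr_fun hψ,
        show ∀ z, π (ι z) = z from LinearMap.congr_fun hπ, sub_self]
    exact Submodule.mem_sup.2 ⟨_, (Submodule.Quotient.mk_eq_zero A').1 h4, _,
      ⟨ι (A'.mkQ ⟨x, hx⟩), rfl⟩, sub_add_cancel x _⟩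

theorem close_count (s : ℕ) (X : Submodule F W) :
    {Y | Close s X Y}.ncard ≤ 2 ^ (2 * s * finrank F W) := by
  have : Module.Finite F W := Module.Finite.of_finite
  have f1 : Finite (W →ₗ[F] (Fin s → F)) := DFunLike.finite _
  have f2 : Finite ((Fin s → F) →ₗ[F] W) := DFunLike.finite _
  let Φ : (W →ₗ[F] (Fin s → F)) × ((Fin s → F) →ₗ[F] W) → Submodule F W := fun z =>
    (X ⊓ LinearMap.ker z.1) ⊔ LinearMap.range z.2
  have h1 : {Y | Close s X Y} ⊆ Φ '' Set.univ := by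
    rintro Y ⟨h2, h3⟩
    have h4 := Submodule.finrank_sup_add_finrank_inf_eq X Y
    obtain ⟨φ, hφ⟩ := (SReg_pair (s := s) (inf_le_left : X ⊓ Y ≤ X) (by omega)).1
    obtain ⟨ψ, hψ⟩ := (SReg_pair (s := s) (inf_le_right : X ⊓ Y ≤ Y) (by omega)).2
    exact ⟨(φ, ψ), trivial, by simp only [Φ, hφ, hψ]⟩
  refine (Set.ncard_le_ncard h1 (Set.toFinite _)).trans
    ((Set.ncard_image_le (Set.toFinite _)).trans ?_)
  rw [Set.ncard_univ, Nat.card_prod, card_V (V := W →ₗ[F] (Fin s → F)),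
    card_V (V := (Fin s → F) →ₗ[F] W), ← pow_add, Module.finrank_linearMap,
    Module.finrank_linearMap, finrank_fin_fun]
  exact le_of_eq (congrArg _ (by ring))

theorem SReg_tele (f : ℕ → ℝ) {w : ℝ} {L : ℕ} (hL : 1 ≤ L) (h0 : 0 ≤ f 0) (h1 : f L ≤ w) :
    ∃ i, i < L ∧ f (i + 1) - f i ≤ w / L := by
  by_contra hc
  push Not at hc
  have hLr : (0 : ℝ) < L := by exact_mod_cast hL
  have h2 : ∑ i ∈ Finset.range L, w / L < ∑ i ∈ Finset.range L, (f (i + 1) - f i) :=
    Finset.sum_lt_sum_of_nonempty (Finset.nonempty_range_iff.2 (by omega))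
      fun i hi => hc i (Finset.mem_range.1 hi)
  rw [Finset.sum_range_sub, Finset.sum_const, Finset.card_range, nsmul_eq_mul,
    mul_div_cancel₀ _ hLr.ne'] at h2
  linarith

theorem SReg_append {Z : Type} (K : Z → Submodule F W) {k l : ℕ} (τ : Fin k → Z) (σ : Fin l → Z) :
    ⨆ i, K (Fin.append τ σ i) = (⨆ i, K (τ i)) ⊔ ⨆ i, K (σ i) := by
  apply le_antisymm
  · refine iSup_le fun i => ?_
    refine Fin.addCases (fun j => ?_) (fun j => ?_) i
    · rw [Fin.append_left]
      exact le_sup_of_le_left (le_iSup (fun i => K (τ i)) j)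
    · rw [Fin.append_right]
      exact le_sup_of_le_right (le_iSup (fun i => K (σ i)) j)
  · refine sup_le (iSup_le fun j => ?_) (iSup_le fun j => ?_)
    · rw [← Fin.append_left τ σ j]
      exact le_iSup (fun i => K (Fin.append τ σ i)) _
    · rw [← Fin.append_right τ σ j]
      exact le_iSup (fun i => K (Fin.append τ σ i)) _

theorem SReg_gap (s : ℕ) (X Y : Submodule F W) (A : Prop) [Decidable A] (hA : Close s X Y → A) :
    ((s : ℝ) + 1) * (1 - if A then 1 else 0) ≤
      2 * (finrank F ↥(X ⊔ Y) : ℝ) - finrank F X - finrank F Y := by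
  have h1 : finrank F X ≤ finrank F ↥(X ⊔ Y) := Submodule.finrank_mono le_sup_left
  have h2 : finrank F Y ≤ finrank F ↥(X ⊔ Y) := Submodule.finrank_mono le_sup_right
  have h1' : (finrank F X : ℝ) ≤ finrank F ↥(X ⊔ Y) := by exact_mod_cast h1
  have h2' : (finrank F Y : ℝ) ≤ finrank F ↥(X ⊔ Y) := by exact_mod_cast h2
  split_ifs with h
  · linarith
  · have h3 : finrank F X + s + 1 ≤ finrank F ↥(X ⊔ Y) ∨
        finrank F Y + s + 1 ≤ finrank F ↥(X ⊔ Y) := by
      by_contra hc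
      push Not at hc
      exact h (hA ⟨by omega, by omega⟩)
    rcases h3 with h3 | h3
    · have : (finrank F X : ℝ) + s + 1 ≤ finrank F ↥(X ⊔ Y) := by exact_mod_cast h3
      linarith
    · have : (finrank F Y : ℝ) + s + 1 ≤ finrank F ↥(X ⊔ Y) := by exact_mod_cast h3
      linarith

theorem reg {Z : Type} [Finite Z] [Nonempty Z] (K : Z → Submodule F W) {L s : ℕ} (hL : 1 ≤ L)
    (hs : 4 * finrank F W ≤ L * s) :
    ∃ (k : ℕ) (X : Submodule F W), 1 ≤ k ∧ k ≤ 2 ^ L ∧
      Nat.card Z ^ k ≤ 2 * {τ : Fin k → Z | Close s X (⨆ i, K (τ i))}.ncard := by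
  classical
  let sp : (k : ℕ) → (Fin k → Z) → Submodule F W := fun k τ => ⨆ i, K (τ i)
  let Dk : ℕ → ℝ := fun k => av fun τ : Fin k → Z => (finrank F (sp k τ) : ℝ)
  have hLr : (0 : ℝ) < L := by exact_mod_cast hL
  obtain ⟨i, hi, hD⟩ := SReg_tele (fun i => Dk (2 ^ i)) (w := finrank F W) hL
    (av_nonneg fun τ => Nat.cast_nonneg _)
    (av_le_of_le fun τ => by exact_mod_cast Submodule.finrank_le _)
  have hk2 : 2 ^ (i + 1) = 2 ^ i + 2 ^ i := by rw [pow_succ, mul_two]
  simp only [hk2] at hD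
  have hk1 : 1 ≤ 2 ^ i := Nat.one_le_two_pow
  have hkL : 2 ^ i ≤ 2 ^ L := Nat.pow_le_pow_right (by norm_num) hi.le
  generalize 2 ^ i = k at hD hk1 hkL
  have hDD : Dk (k + k) = av fun τ : Fin k → Z => av fun σ : Fin k → Z =>
      (finrank F ↥(sp k τ ⊔ sp k σ) : ℝ) := by
    have e1 := av_congr (Fin.appendEquiv (α := Z) k k)
      fun τ : Fin (k + k) → Z => (finrank F (sp (k + k) τ) : ℝ)
    have e2 : Dk (k + k) = av fun x : (Fin k → Z) × (Fin k → Z) =>
        (finrank F ↥(sp k x.1 ⊔ sp k x.2) : ℝ) := by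
      refine e1.symm.trans (congrArg av (funext fun x => ?_))
      have : sp (k + k) (Fin.appendEquiv k k x) = sp k x.1 ⊔ sp k x.2 := SReg_append K x.1 x.2
      rw [this]
    rw [e2, av_prod]
  have hav : (av fun τ : Fin k → Z => av fun σ : Fin k → Z =>
      2 * (finrank F ↥(sp k τ ⊔ sp k σ) : ℝ) - finrank F (sp k τ) - finrank F (sp k σ)) =
      2 * Dk (k + k) - Dk k - Dk k := by
    simp only [av_sub, av_mul_left, av_const, hDD]
    rfl
  obtain ⟨τ, hτ⟩ := exists_le_av fun τ : Fin k → Z => av fun σ : Fin k → Z =>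
      2 * (finrank F ↥(sp k τ ⊔ sp k σ) : ℝ) - finrank F (sp k τ) - finrank F (sp k σ)
  rw [hav] at hτ
  refine ⟨k, sp k τ, hk1, hkL, ?_⟩
  set A : Set (Fin k → Z) := {σ | Close s (sp k τ) (⨆ i, K (σ i))} with hA
  have h1 : av (fun σ : Fin k → Z => ((s : ℝ) + 1) * (1 - A.indicator (fun _ => (1 : ℝ)) σ)) ≤
      2 * Dk (k + k) - Dk k - Dk k := by
    refine le_trans (av_mono fun σ => ?_) hτ
    rw [Set.indicator_apply]
    exact SReg_gap s (sp k τ) (sp k σ) (σ ∈ A) fun h => h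
  rw [av_mul_left, av_sub, av_const, av_indicator] at h1
  have hs' : (4 : ℝ) * finrank F W ≤ L * s := by exact_mod_cast hs
  have h2 : (finrank F W : ℝ) / L ≤ s / 4 := by
    rw [div_le_div_iff₀ hLr (by norm_num)]
    linarith
  have hN : (0 : ℝ) < Nat.card (Fin k → Z) := by exact_mod_cast Nat.card_pos
  have hs0 : (0 : ℝ) ≤ s := Nat.cast_nonneg s
  have h3 : (1 : ℝ) / 2 ≤ A.ncard / Nat.card (Fin k → Z) := by
    by_contra hc
    push Not at hc
    nlinarith
  rw [div_le_div_iff₀ (by norm_num) hN] at h3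
  have h4 : Nat.card (Fin k → Z) = Nat.card Z ^ k := by
    rw [Nat.card_fun, Nat.card_eq_fintype_card (α := Fin k), Fintype.card_fin]
  rw [← h4]
  have : (Nat.card (Fin k → Z) : ℝ) ≤ 2 * A.ncard := by linarith
  exact_mod_cast this

theorem reg_shift {Z : Type} [AddCommGroup Z] [Finite Z] (Gd : Set Z) (K : Z → Submodule F W)
    {L s : ℕ} (hL : 1 ≤ L) (hG : Nat.card Z ≤ L * Gd.ncard) (hs : 4 * finrank F W ≤ L * s) :
    ∃ (d : Fin (2 ^ L) → Z) (X : Submodule F W), Nat.card Z ≤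
      2 * L ^ 2 ^ L * {u | (∀ i, u + d i ∈ Gd) ∧ Close s X (⨆ i, K (u + d i))}.ncard := by
  classical
  have hZ : 0 < Nat.card Z := Nat.card_pos
  have hne : Gd.Nonempty := by
    apply Set.nonempty_of_ncard_ne_zero
    intro h0
    rw [h0] at hG
    omega
  have : Nonempty Gd := hne.to_subtype
  obtain ⟨k, X, hk1, hkL, hk⟩ := reg (Z := Gd) (fun z => K z.1) hL hs
  set Good : Set (Fin k → Z) := {τ | (∀ i, τ i ∈ Gd) ∧ Close s X (⨆ i, K (τ i))} with hGood
  have h1 : {τ : Fin k → Gd | Close s X (⨆ i, K (τ i).1)}.ncard ≤ Good.ncard := by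
    refine Set.ncard_le_ncard_of_injOn (fun τ i => (τ i).1) (fun τ hτ => ⟨fun i => (τ i).2, hτ⟩)
      (fun τ _ σ _ h => funext fun i => Subtype.ext (congrFun h i)) (Set.toFinite _)
  have h2 : Nat.card Z ^ k ≤ 2 * L ^ k * Good.ncard := by
    calc Nat.card Z ^ k ≤ (L * Gd.ncard) ^ k := Nat.pow_le_pow_left hG k
      _ = L ^ k * Nat.card Gd ^ k := by rw [mul_pow, Nat.card_coe_set_eq]
      _ ≤ L ^ k * (2 * Good.ncard) :=
        Nat.mul_le_mul_left _ (hk.trans (Nat.mul_le_mul_left 2 h1))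
      _ = 2 * L ^ k * Good.ncard := by ring
  have h4 : Nat.card (Fin k → Z) = Nat.card Z ^ k := by
    rw [Nat.card_fun, Nat.card_eq_fintype_card (α := Fin k), Fintype.card_fin]
  have hav : (av fun d : Fin k → Z => av fun u : Z =>
      Good.indicator (fun _ => (1 : ℝ)) fun i => u + d i) =
      Good.ncard / Nat.card (Fin k → Z) := by
    rw [av_comm]
    have e : ∀ u : Z, (av fun d : Fin k → Z =>
        Good.indicator (fun _ => (1 : ℝ)) fun i => u + d i) =
        Good.ncard / Nat.card (Fin k → Z) := fun u => by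
      rw [← av_indicator]
      exact av_congr (Equiv.addLeft (fun _ : Fin k => u)) (Good.indicator fun _ => (1 : ℝ))
    simp only [e, av_const]
  obtain ⟨d, hd⟩ := exists_av_le fun d : Fin k → Z => av fun u : Z =>
      Good.indicator (fun _ => (1 : ℝ)) fun i => u + d i
  rw [hav] at hd
  have : Nonempty (Fin k) := ⟨⟨0, hk1⟩⟩
  have hsurj : Function.Surjective (Function.invFun (Fin.castLE hkL)) :=
    Function.invFun_surjective (Fin.castLE_injective hkL)
  generalize Function.invFun (Fin.castLE hkL) = π at hsurj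
  refine ⟨fun j => d (π j), X, ?_⟩
  have hset : {u | (∀ j, u + d (π j) ∈ Gd) ∧ Close s X (⨆ j, K (u + d (π j)))} =
      {u | (fun i => u + d i) ∈ Good} := by
    ext u
    rw [Set.mem_ofPred_eq, Set.mem_ofPred_eq, hGood, Set.mem_ofPred_eq,
      hsurj.iSup_comp fun i => K (u + d i), hsurj.forall (p := fun i => u + d i ∈ Gd)]
  rw [hset]
  have hind : (fun u : Z => Good.indicator (fun _ => (1 : ℝ)) fun i => u + d i) =
      {u | (fun i => u + d i) ∈ Good}.indicator fun _ => (1 : ℝ) := by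
    funext u
    simp only [Set.indicator_apply, Set.mem_ofPred_eq]
  rw [hind, av_indicator, h4] at hd
  generalize {u | (fun i => u + d i) ∈ Good}.ncard = m at hd
  have hZr : (0 : ℝ) < Nat.card Z := by exact_mod_cast hZ
  rw [div_le_div_iff₀ (by exact_mod_cast pow_pos hZ k) hZr] at hd
  have hd' : Good.ncard * Nat.card Z ≤ m * Nat.card Z ^ k := by exact_mod_cast hd
  have h5 : Nat.card Z ^ k * Nat.card Z ≤ Nat.card Z ^ k * (2 * L ^ k * m) := by
    calc Nat.card Z ^ k * Nat.card Z ≤ 2 * L ^ k * Good.ncard * Nat.card Z :=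
          Nat.mul_le_mul_right _ h2
      _ = 2 * L ^ k * (Good.ncard * Nat.card Z) := by ring
      _ ≤ 2 * L ^ k * (m * Nat.card Z ^ k) := Nat.mul_le_mul_left _ hd'
      _ = Nat.card Z ^ k * (2 * L ^ k * m) := by ring
  have h6 := Nat.le_of_mul_le_mul_left h5 (pow_pos hZ k)
  exact h6.trans (Nat.mul_le_mul_right _
    (Nat.mul_le_mul_left 2 (Nat.pow_le_pow_right hL hkL)))

theorem exists_span (A : Set W) {r : ℕ} (h : Nat.card W ≤ 2 ^ r * A.ncard) :
    ∃ e : Fin (finrank F W) → W, Submodule.span F (Set.range e) = ⊤ ∧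
      finrank F W ≤ {i | e i ∈ A}.ncard + r := by
  classical
  have : Module.Finite F W := Module.Finite.of_finite
  obtain ⟨b, hb, h1, h2⟩ := exists_linearIndependent F A
  let B := Basis.extend (K := F) (s := b) h2
  let B' := B.reindex (B.indexEquiv (Module.finBasis F W))
  have h3 : b ⊆ B' '' {i | B' i ∈ A} := fun x hx => by
    have h4 : x ∈ Set.range B' := by
      rw [Basis.range_reindex]
      exact (Basis.range_extend (K := F) (s := b) h2).ge
        (Basis.subset_extend (K := F) (s := b) h2 hx)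
    obtain ⟨i, rfl⟩ := h4
    exact ⟨i, hb hx, rfl⟩
  have h4 : finrank F (Submodule.span F A) ≤ {i | B' i ∈ A}.ncard := by
    have := Fintype.ofFinite b
    rw [← h1]
    refine (finrank_span_le_card b).trans ?_
    rw [← Set.ncard_eq_toFinset_card']
    exact (Set.ncard_le_ncard h3 (Set.toFinite _)).trans (Set.ncard_image_le (Set.toFinite _))
  have h5 : A.ncard ≤ 2 ^ finrank F (Submodule.span F A) := by
    rw [← card_V]
    exact Set.ncard_le_ncard (Submodule.subset_span (R := F)) (Set.toFinite _)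
  refine ⟨B', B'.span_eq, ?_⟩
  have h6 := h.trans (Nat.mul_le_mul_left _ h5)
  rw [card_V, ← pow_add, Nat.pow_le_pow_iff_right one_lt_two] at h6
  omega

end Pool.Agent.P.MP_cb6780_lc
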