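import Pool.Agent.P.MP_cb6780_lc.SLevel
import Pool.Agent.P.MP_cb6780_lc.SReg

set_option autoImplicit false

/-! Counting linear families of quadratic functions with many forms of large corank. -/

namespace Pool.Agent.P.MP_cb6780_lc

open Module

/-- linear families of quadratic functions -/
abbrev Hm (Z W : Type) [AddCommGroup Z] [Module F Z] [AddCommGroup W] := Z →ₗ[F] P W 3

/-- families in which a share `1 / L` of the forms has corank at least `κ` -/
def Lo (Z W : Type) [AddCommGroup Z] [Module F Z] [AddCommGroup W] [Module F W] (L κ : ℕ) :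
    Set (Hm Z W) :=
  {Q | Nat.card Z ≤ L * {u | κ ≤ finrank F (LinearMap.ker (bf (Q u).1))}.ncard}

variable {Z W : Type} [AddCommGroup Z] [Module F Z] [Finite Z] [AddCommGroup W] [Module F W]
  [Finite W]

theorem fin_Hm : Finite (Hm Z W) := DFunLike.finite _

theorem card_Hm : Nat.card (Hm Z W) = cP (finrank F W) 3 ^ finrank F Z := by
  have := @fin_Hm Z W _ _ _ _ _ _
  have : Module.Finite F Z := Module.Finite.of_finite
  have : Module.Finite F (P W 3) := Module.Finite.of_finite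
  rw [← card_P, card_V (V := Hm Z W), card_V (V := P W 3), Module.finrank_linearMap, ← pow_mul,
    mul_comm]

theorem SCnt_fin_sub : Finite (Submodule F W) :=
  Finite.of_injective (fun X : Submodule F W => (X : Set W)) SetLike.coe_injective

theorem SCnt_card_sub : Nat.card (Submodule F W) ≤ 2 ^ (2 * finrank F W * finrank F W) := by
  have : Module.Finite F W := Module.Finite.of_finite
  have h := close_count (finrank F W) (⊥ : Submodule F W)
  have e : {Y | Close (finrank F W) (⊥ : Submodule F W) Y} = Set.univ := by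
    refine Set.eq_univ_of_forall fun Y => ⟨?_, ?_⟩
    · exact le_trans (Submodule.finrank_le _) (Nat.le_add_left _ _)
    · exact le_trans (Submodule.finrank_le _) (Nat.le_add_left _ _)
  rwa [e, Set.ncard_univ] at h

theorem level_close {k s κ H : ℕ} (hk : 1 ≤ k) (A : Fin k → Bil W) (hA : ∀ i x y, A i x y = A i y x)
    (X : Submodule F W) (hH : 2 * H ≤ κ * finrank F W) :
    {q : W → F | q ∈ P W 3 ∧ (∀ a, κ ≤ finrank F (kr q (A a))) ∧
        Close s X (⨆ a, kr q (A a))}.ncard * 2 ^ H ≤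
      cP (finrank F W) 3 * (k ^ finrank F W * 2 ^ (2 * s * finrank F W + 2 * finrank F W + 3)) := by
  have := @SCnt_fin_sub W _ _ _
  have h1 := fib_le
    {q : W → F | q ∈ P W 3 ∧ (∀ a, κ ≤ finrank F (kr q (A a))) ∧ Close s X (⨆ a, kr q (A a))}
    {Y | Close s X Y} (fun q => ⨆ a, kr q (A a))
    (cP (finrank F W) 3 * (k ^ finrank F W * 2 ^ (2 * finrank F W + 3)) / 2 ^ H)
    (fun q hq => hq.2.2) (fun Y _ => by
      rw [Nat.le_div_iff_mul_le (by positivity)]
      refine le_trans (Nat.mul_le_mul_right _ (Set.ncard_le_ncard ?_ (Set.toFinite _)))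
        (level hk A hA Y hH)
      rintro q ⟨hq, hY⟩
      exact ⟨hq.1, hq.2.1, hY⟩)
  have h2 := close_count s X
  have h3 := Nat.div_mul_le_self
    (cP (finrank F W) 3 * (k ^ finrank F W * 2 ^ (2 * finrank F W + 3))) (2 ^ H)
  calc _ ≤ (2 ^ (2 * s * finrank F W) *
        (cP (finrank F W) 3 * (k ^ finrank F W * 2 ^ (2 * finrank F W + 3)) / 2 ^ H)) * 2 ^ H :=
        Nat.mul_le_mul_right _ (h1.trans (Nat.mul_le_mul_right _ h2))
    _ ≤ 2 ^ (2 * s * finrank F W) *
        (cP (finrank F W) 3 * (k ^ finrank F W * 2 ^ (2 * finrank F W + 3))) := by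
        rw [mul_assoc]
        exact Nat.mul_le_mul_left _ h3
    _ = _ := by ring

theorem span_count {p r H E : ℕ} (e : Fin p → Z) (he : Submodule.span F (Set.range e) = ⊤)
    (I : Set (Fin p)) (hI : p ≤ I.ncard + r) (C : Set (W → F))
    (hC : C.ncard * 2 ^ H ≤ cP (finrank F W) 3 * 2 ^ E) :
    {Q : Hm Z W | ∀ i ∈ I, (Q (e i)).1 ∈ C}.ncard * 2 ^ (p * H) ≤
      cP (finrank F W) 3 ^ p * 2 ^ (p * E + r * H) := by
  classical
  have := @fin_Hm Z W _ _ _ _ _ _
  let T : Fin p → Set (W → F) := fun i => if i ∈ I then C ∩ (P W 3 : Set (W → F)) else P W 3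
  have h1 : {Q : Hm Z W | ∀ i ∈ I, (Q (e i)).1 ∈ C}.ncard ≤ ∏ i, (T i).ncard := by
    let Φ : {Q : Hm Z W | ∀ i ∈ I, (Q (e i)).1 ∈ C} → ∀ i, T i := fun Q i =>
      ⟨(Q.1 (e i)).1, by
        by_cases hi : i ∈ I
        · simp only [T, if_pos hi]
          exact ⟨Q.2 i hi, (Q.1 (e i)).2⟩
        · simp only [T, if_neg hi]
          exact (Q.1 (e i)).2⟩
    have hΦ : Function.Injective Φ := by
      intro Q Q' hQ
      refine Subtype.ext (LinearMap.ext_on_range he fun i => Subtype.ext ?_)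
      have h7 : (Φ Q i).1 = (Φ Q' i).1 := by rw [hQ]
      exact h7
    have h2 := Nat.card_le_card_of_injective Φ hΦ
    rw [Nat.card_pi] at h2
    simpa only [Nat.card_coe_set_eq] using h2
  have h2 : ∀ i, (T i).ncard * 2 ^ H ≤
      cP (finrank F W) 3 * 2 ^ E * (if i ∈ I then 1 else 2 ^ H) := by
    intro i
    by_cases hi : i ∈ I
    · simp only [T, if_pos hi, mul_one]
      exact le_trans (Nat.mul_le_mul_right _
        (Set.ncard_le_ncard Set.inter_subset_left (Set.toFinite _))) hC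
    · simp only [T, if_neg hi]
      rw [ncard_P]
      exact Nat.mul_le_mul_right _ (Nat.le_mul_of_pos_right _ (by positivity))
  have h3 : ∏ i : Fin p, (if i ∈ I then 1 else 2 ^ H) ≤ 2 ^ (r * H) := by
    rw [Finset.prod_ite, Finset.prod_const_one, one_mul, Finset.prod_const, ← pow_mul, mul_comm H]
    refine Nat.pow_le_pow_right (by norm_num) (Nat.mul_le_mul_right _ ?_)
    have h4 := Finset.card_filter_add_card_filter_not (s := (Finset.univ : Finset (Fin p)))
      (fun i => i ∈ I)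
    have h5 : (Finset.univ.filter fun i : Fin p => i ∈ I).card = I.ncard := by
      rw [← Set.ncard_coe_finset]
      congr 1
      ext i
      simp
    rw [Finset.card_univ, Fintype.card_fin, h5] at h4
    omega
  calc _ ≤ (∏ i, (T i).ncard) * 2 ^ (p * H) := Nat.mul_le_mul_right _ h1
    _ = ∏ i, ((T i).ncard * 2 ^ H) := by
        rw [Finset.prod_mul_distrib, Finset.prod_const, Finset.card_univ, Fintype.card_fin,
          ← pow_mul, mul_comm H]
    _ ≤ ∏ i : Fin p, (cP (finrank F W) 3 * 2 ^ E * (if i ∈ I then 1 else 2 ^ H)) :=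
        Finset.prod_le_prod' fun i _ => h2 i
    _ = (cP (finrank F W) 3 * 2 ^ E) ^ p * ∏ i : Fin p, (if i ∈ I then 1 else 2 ^ H) := by
        rw [Finset.prod_mul_distrib, Finset.prod_const, Finset.card_univ, Fintype.card_fin]
    _ ≤ (cP (finrank F W) 3 * 2 ^ E) ^ p * 2 ^ (r * H) := Nat.mul_le_mul_left _ h3
    _ = _ := by ring

theorem cnt {L s κ H p w : ℕ} (hp : finrank F Z = p) (hw : finrank F W = w) (hL : 1 ≤ L)
    (hs : 4 * w ≤ L * s) (hH : 2 * H ≤ κ * w) (hκ : κ ≤ w) :
    (Lo Z W L κ).ncard * 2 ^ (p * H) ≤ cP w 3 ^ p *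
      2 ^ (p * 2 ^ L + 2 * w * w + p * p + p + 2 ^ L * (w + 1 + w * w) +
        p * (L * w + (2 * s * w + 2 * w + 3)) + (L * 2 ^ L + 1) * (w * w)) := by
  subst hp hw
  have := @fin_Hm Z W _ _ _ _ _ _
  have := @SCnt_fin_sub W _ _ _
  let Cs : Submodule F W → (Fin (2 ^ L) → P W 3) → Set (W → F) := fun X v =>
    {q : W → F | q ∈ P W 3 ∧ (∀ a, κ ≤ finrank F (kr q (bf (v a).1))) ∧
      Close s X (⨆ a, kr q (bf (v a).1))}
  have hCs : ∀ X v, (Cs X v).ncard * 2 ^ H ≤ cP (finrank F W) 3 *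
      2 ^ (L * finrank F W + (2 * s * finrank F W + 2 * finrank F W + 3)) := by
    intro X v
    have h := level_close (s := s) (Nat.one_le_two_pow (n := L)) (fun a => bf (v a).1)
      (fun a x y => bf_symm (v a).2 x y) X hH
    rwa [← pow_mul, ← pow_add] at h
  have hcov := cover_le (Lo Z W L κ)
    {y : Submodule F W × (Fin (finrank F Z) → Z) × Set (Fin (finrank F Z)) ×
        (Fin (2 ^ L) → P W 3) |
      Submodule.span F (Set.range y.2.1) = ⊤ ∧ finrank F Z ≤ y.2.2.1.ncard + (L * 2 ^ L + 1)}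
    (fun y => {Q : Hm Z W | ∀ i ∈ y.2.2.1, (Q (y.2.1 i)).1 ∈ Cs y.1 y.2.2.2})
    (cP (finrank F W) 3 ^ finrank F Z * 2 ^ (finrank F Z *
      (L * finrank F W + (2 * s * finrank F W + 2 * finrank F W + 3)) + (L * 2 ^ L + 1) * H) /
        2 ^ (finrank F Z * H))
    (fun Q hQ => by
      obtain ⟨d, X, hd⟩ := reg_shift {u | κ ≤ finrank F (LinearMap.ker (bf (Q u).1))}
        (fun u => LinearMap.ker (bf (Q u).1)) hL hQ hs
      have hr : 2 * L ^ 2 ^ L ≤ 2 ^ (L * 2 ^ L + 1) := by
        rw [pow_succ, mul_comm, pow_mul]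
        exact Nat.mul_le_mul_right _ (Nat.pow_le_pow_left Nat.lt_two_pow_self.le _)
      obtain ⟨e, he, hI⟩ := exists_span _ (hd.trans (Nat.mul_le_mul_right _ hr))
      refine ⟨(X, e, _, fun a => Q (d a)), ⟨he, hI⟩, fun i hi => ?_⟩
      have hk : ∀ a, kr (Q (e i)).1 (bf (Q (d a)).1) = LinearMap.ker (bf (Q (e i + d a)).1) := by
        intro a
        rw [map_add, Submodule.coe_add, bf_add (Q (e i)).2 (Q (d a)).2, kr]
      refine ⟨(Q (e i)).2, fun a => ?_, ?_⟩
      · show κ ≤ finrank F (kr (Q (e i)).1 (bf (Q (d a)).1))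
        rw [hk a]
        exact hi.1 a
      · show Close s X (⨆ a, kr (Q (e i)).1 (bf (Q (d a)).1))
        rw [iSup_congr hk]
        exact hi.2)
    (fun y hy => by
      rw [Nat.le_div_iff_mul_le (by positivity)]
      exact span_count y.2.1 hy.1 y.2.2.1 hy.2 _ (hCs y.1 y.2.2.2))
  have hP : cP (finrank F W) 3 ≤ 2 ^ (finrank F W + 1 + finrank F W * finrank F W) := by
    have h3 : cP (finrank F W) 3 = 2 ^ (finrank F W + 1 + (finrank F W).choose 2) := by
      simp [cP, Finset.sum_range_succ, add_comm]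
    rw [h3]
    refine Nat.pow_le_pow_right (by norm_num) (Nat.add_le_add_left ?_ _)
    have := Nat.choose_le_pow (finrank F W) 2
    rwa [sq] at this
  have hT : Nat.card (Submodule F W × (Fin (finrank F Z) → Z) × Set (Fin (finrank F Z)) ×
      (Fin (2 ^ L) → P W 3)) ≤ 2 ^ (2 * finrank F W * finrank F W) *
        (2 ^ (finrank F Z * finrank F Z) * (2 ^ finrank F Z *
          2 ^ (2 ^ L * (finrank F W + 1 + finrank F W * finrank F W)))) := by
    rw [Nat.card_prod, Nat.card_prod, Nat.card_prod]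
    refine Nat.mul_le_mul SCnt_card_sub (Nat.mul_le_mul ?_ (Nat.mul_le_mul ?_ ?_))
    · rw [Nat.card_fun, card_V (V := Z), Nat.card_eq_fintype_card, Fintype.card_fin, ← pow_mul]
    · rw [Nat.card_eq_fintype_card, Fintype.card_set, Fintype.card_fin]
    · rw [Nat.card_fun, card_P, Nat.card_eq_fintype_card, Fintype.card_fin, mul_comm, pow_mul]
      exact Nat.pow_le_pow_left hP _
  have hT2 := (Set.ncard_le_card
    {y : Submodule F W × (Fin (finrank F Z) → Z) × Set (Fin (finrank F Z)) ×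
        (Fin (2 ^ L) → P W 3) |
      Submodule.span F (Set.range y.2.1) = ⊤ ∧
        finrank F Z ≤ y.2.2.1.ncard + (L * 2 ^ L + 1)}).trans hT
  have hHw : H ≤ finrank F W * finrank F W := by
    have := Nat.mul_le_mul_right (finrank F W) hκ
    omega
  have hdiv := Nat.div_mul_le_self (cP (finrank F W) 3 ^ finrank F Z * 2 ^ (finrank F Z *
      (L * finrank F W + (2 * s * finrank F W + 2 * finrank F W + 3)) + (L * 2 ^ L + 1) * H))
    (2 ^ (finrank F Z * H))
  have hfin := (Nat.mul_le_mul_right (2 ^ (finrank F Z * H))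
    (hcov.trans (Nat.mul_le_mul_right _ hT2))).trans
    (le_of_eq_of_le (mul_assoc _ _ _) (Nat.mul_le_mul_left _ hdiv))
  refine hfin.trans ?_
  rw [← pow_add, ← pow_add, ← pow_add, mul_left_comm, ← pow_add]
  refine Nat.mul_le_mul_left _ (Nat.pow_le_pow_right (by norm_num) ?_)
  have h6 := Nat.mul_le_mul_left (L * 2 ^ L + 1) hHw
  omega

end Pool.Agent.P.MP_cb6780_lc
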