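import Pool.Agent.P.MP_cb6780_lc.LDef

set_option autoImplicit false

/-! Duality of the degree filtration and the MacWilliams identity. -/

namespace Pool.Agent.P.MP_cb6780_lc

open Module

/-- elementary symmetric function of the signs of `f` (a Krawtchouk number) -/
noncomputable def ew {X : Type} [Fintype X] (w : ℕ) (f : X → F) : ℝ :=
  ∑ A ∈ Finset.powersetCard w Finset.univ, ∏ x ∈ A, chi (f x)

variable {V : Type} [AddCommGroup V] [Module F V] [Fintype V]

theorem SDual_D_mem (y : V) (f : V → F) : D y f ∈ P V (finrank F V) :=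
  mem_P_succ.1 (by rw [P_top le_rfl]; exact Submodule.mem_top) y

theorem SDual_ker {h : V → F} (hs : ∑ x, h x = 0) : h ∈ P V (finrank F V) := by
  classical
  have e : h = ∑ y, h y • D y (Pi.single (0 : V) (1 : F)) := by
    funext x
    simp only [Finset.sum_apply, Pi.smul_apply, D_apply, smul_eq_mul, mul_add,
      Finset.sum_add_distrib, ← Finset.sum_mul, hs, zero_mul, add_zero]
    rw [Finset.sum_eq_single x]
    · rw [add_self_V, Pi.single_eq_same, mul_one]
    · intro y _ hy
      have h1 : x + y ≠ 0 := fun h0 => hy (add_left_cancel (h0.trans (add_self_V x).symm))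
      rw [Pi.single_eq_of_ne h1, mul_zero]
    · intro hx
      exact absurd (Finset.mem_univ x) hx
  rw [e]
  exact Submodule.sum_mem _ fun y _ => Submodule.smul_mem _ _ (SDual_D_mem _ _)

theorem sum_P {h : V → F} (hh : h ∈ P V (finrank F V)) : ∑ x, h x = 0 := by
  classical
  rcases Av_cases (∑ x, h x) with h0 | h1
  · exact h0
  exfalso
  have ht : P V (finrank F V) = ⊤ := by
    refine eq_top_iff.2 fun f _ => ?_
    rcases Av_cases (∑ x, f x) with hf | hf
    · exact SDual_ker hf
    · have h2 : f + h ∈ P V (finrank F V) := by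
        refine SDual_ker ?_
        simp only [Pi.add_apply, Finset.sum_add_distrib, hf, h1]
        decide
      have h3 := sub_mem h2 hh
      rwa [add_sub_cancel_right] at h3
  have h4 := card_P V (finrank F V)
  rw [ht, Nat.card_congr (Submodule.topEquiv (R := F) (M := V → F)).toEquiv, Nat.card_fun,
    card_V (V := V), Nat.card_zmod, cP] at h4
  have h5 := Nat.pow_right_injective le_rfl h4
  have h6 := Nat.sum_range_choose (finrank F V)
  rw [Finset.sum_range_succ, Nat.choose_self] at h6
  omega

theorem SDual_adj (y : V) (g h : V → F) : ∑ x, D y g x * h x = ∑ x, g x * D y h x := by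
  simp only [D_apply, add_mul, mul_add, Finset.sum_add_distrib]
  refine congrArg (fun t => t + ∑ x, g x * h x) ?_
  rw [← Equiv.sum_comp (Equiv.addRight y) fun x => g x * h (x + y)]
  refine Finset.sum_congr rfl fun x _ => ?_
  rw [Equiv.coe_addRight, add_assoc, add_self_V, add_zero]

theorem mem_P_dual {k e : ℕ} (hke : k + e = finrank F V + 1) (g : V → F) :
    g ∈ P V k ↔ ∀ h ∈ P V e, ∑ x, g x * h x = 0 := by
  classical
  refine ⟨fun hg h hh => sum_P (basic_mul _ k e g h hke.le hg hh), ?_⟩
  induction k generalizing e g with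
  | zero =>
    intro H
    rw [zero_add] at hke
    subst hke
    refine mem_P_zero.2 (funext fun x => ?_)
    have h1 := H (Pi.single x 1) (by rw [P_top le_rfl]; exact Submodule.mem_top)
    rw [Finset.sum_eq_single x] at h1
    · rwa [Pi.single_eq_same, mul_one] at h1
    · intro y _ hy
      rw [Pi.single_eq_of_ne hy, mul_zero]
    · intro hx
      exact absurd (Finset.mem_univ x) hx
  | succ k ih =>
    intro H
    refine mem_P_succ.2 fun y => ih (e := e + 1) (by omega) _ fun h hh => ?_
    rw [SDual_adj]
    exact H _ (mem_P_succ.1 hh y)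

theorem SDual_chi_sum {X : Type} (A : Finset X) (f : X → F) :
    ∏ x ∈ A, chi (f x) = chi (∑ x ∈ A, f x) := by
  classical
  induction A using Finset.induction_on with
  | empty => simp [chi_zero]
  | insert a s ha ih => rw [Finset.prod_insert ha, Finset.sum_insert ha, chi_add, ih]

open Classical in
theorem SDual_av {k e : ℕ} (hke : k + e = finrank F V + 1) (g : V → F) :
    (av fun h : P V e => chi (∑ x, g x * h.1 x)) = if g ∈ P V k then 1 else 0 := by
  split_ifs with hg
  · have h1 : ∀ h : P V e, chi (∑ x, g x * h.1 x) = 1 := fun h => by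
      rw [(mem_P_dual hke g).1 hg h.1 h.2, chi_zero]
    rw [funext h1, av_const]
  · let l : Dual F (P V e) :=
      { toFun := fun h => ∑ x, g x * h.1 x
        map_add' := fun a b => by
          simp only [Submodule.coe_add, Pi.add_apply, mul_add, Finset.sum_add_distrib]
        map_smul' := fun c a => by
          simp only [Submodule.coe_smul, Pi.smul_apply, smul_eq_mul, RingHom.id_apply,
            Finset.mul_sum, mul_left_comm] }
    have hl : l ≠ 0 := fun h0 =>
      hg ((mem_P_dual hke g).2 fun h hh => LinearMap.congr_fun h0 ⟨h, hh⟩)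
    have h2 := bias_dual hl 0
    simp only [add_zero] at h2
    exact h2

theorem macw {k e : ℕ} (hke : k + e = finrank F V + 1) (w : ℕ) :
    ({g : V → F | g ∈ P V k ∧ hammingNorm g = w}.ncard : ℝ) = av fun h : P V e => ew w h.1 := by
  classical
  let I : Finset V → V → F := fun A x => if x ∈ A then 1 else 0
  have h1 : ∀ (A : Finset V) (h : P V e), ∏ x ∈ A, chi (h.1 x) = chi (∑ x, I A x * h.1 x) := by
    intro A h
    rw [SDual_chi_sum]
    simp only [I, ite_mul, one_mul, zero_mul, Finset.sum_ite_mem, Finset.univ_inter]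
  have h2 : ∀ A : Finset V, Finset.univ.filter (fun x => I A x ≠ 0) = A := by
    intro A
    ext x
    by_cases hx : x ∈ A <;> simp [I, hx]
  have h3 : Function.Injective I := fun A B hAB => by rw [← h2 A, ← h2 B, hAB]
  have h4 : {g : V → F | g ∈ P V k ∧ hammingNorm g = w} =
      I '' ((Finset.powersetCard w Finset.univ).filter fun A => I A ∈ P V k : Finset (Finset V)) := by
    ext g
    simp only [Set.mem_ofPred_eq, Set.mem_image, Finset.coe_filter, Finset.mem_powersetCard,
      Finset.subset_univ, true_and]
    constructor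
    · rintro ⟨hg, hw⟩
      have e1 : I (Finset.univ.filter fun x => g x ≠ 0) = g := by
        funext x
        rcases Av_cases (g x) with hx | hx <;> simp [I, hx]
      exact ⟨_, ⟨hw, e1.symm ▸ hg⟩, e1⟩
    · rintro ⟨A, ⟨hw, hA⟩, rfl⟩
      refine ⟨hA, ?_⟩
      rw [← hw]
      exact congrArg Finset.card (h2 A)
  unfold ew
  rw [Res2_av_sum (Finset.powersetCard w Finset.univ)
    fun (A : Finset V) (h : P V e) => ∏ x ∈ A, chi (h.1 x), h4,
    Set.ncard_image_of_injective _ h3, Set.ncard_coe_finset, Finset.card_filter]
  push_cast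
  refine Finset.sum_congr rfl fun A _ => ?_
  rw [funext (h1 A), SDual_av hke]

end Pool.Agent.P.MP_cb6780_lc
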