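import Pool.Agent.P.MP_cb6780_lc.SDual

set_option autoImplicit false

/-! Two estimates of Krawtchouk numbers. -/

namespace Pool.Agent.P.MP_cb6780_lc

/-- the coefficient of `z ^ w` in `(1 + z) ^ a * (1 - z ^ 2) ^ i` -/
noncomputable def Kr (a i w : ℕ) : ℝ :=
  ∑ j ∈ Finset.range (i + 1), if 2 * j ≤ w then (-1) ^ j * (i.choose j * a.choose (w - 2 * j) : ℝ) else 0

theorem ew_zero {X : Type} [Fintype X] (w : ℕ) :
    ew w (0 : X → F) = (Fintype.card X).choose w := by
  simp [ew, chi_zero, Finset.card_powersetCard]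

theorem ew_add_one {X : Type} [Fintype X] (w : ℕ) (f : X → F) :
    ew w (f + 1) = (-1) ^ w * ew w f := by
  rw [ew, ew, Finset.mul_sum]
  refine Finset.sum_congr rfl fun A hA => ?_
  simp only [Pi.add_apply, Pi.one_apply, chi_add, chi_one, Finset.prod_mul_distrib,
    Finset.prod_const, (Finset.mem_powersetCard.1 hA).2, mul_comm]

open Polynomial in
theorem SKraw_coeff {X : Type} [Fintype X] (w : ℕ) (f : X → F) :
    ew w f = (∏ x, (1 + C (chi (f x)) * Polynomial.X)).coeff w := by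
  classical
  rw [Finset.prod_one_add, finsetSum_coeff, ew, Finset.powersetCard_eq_filter, Finset.sum_filter]
  refine Finset.sum_congr rfl fun A _ => ?_
  rw [Finset.prod_mul_distrib, Finset.prod_const, ← map_prod, coeff_C_mul_X_pow]
  exact if_congr eq_comm rfl rfl

open Polynomial in
theorem SKraw_Kr (a i w : ℕ) : ((1 + X) ^ (a + i) * (1 - X) ^ i : ℝ[X]).coeff w = Kr a i w := by
  have h : ((1 + X) ^ (a + i) * (1 - X) ^ i : ℝ[X]) = (1 + X) ^ a * (-X ^ 2 + 1) ^ i := by
    rw [pow_add, mul_assoc, ← mul_pow]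
    congr 2
    ring
  rw [h, add_pow (-X ^ 2), Finset.mul_sum, finsetSum_coeff, Kr]
  refine Finset.sum_congr rfl fun j _ => ?_
  have e : ((1 + X) ^ a * ((-X ^ 2) ^ j * 1 ^ (i - j) * (i.choose j : ℝ[X])) : ℝ[X]) =
      C ((-1) ^ j * (i.choose j : ℝ)) * (1 + X) ^ a * X ^ (2 * j) := by
    rw [neg_pow, ← pow_mul]
    simp only [map_mul, map_pow, map_neg, map_one, map_natCast]
    ring
  rw [e, coeff_mul_X_pow', coeff_C_mul, coeff_one_add_X_pow, mul_assoc]

theorem ew_eq_Kr {X : Type} [Fintype X] [Nonempty X] (w : ℕ) {f : X → F} (hf : 0 ≤ bias f) :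
    ∃ a i : ℕ, a + 2 * i = Fintype.card X ∧ (a : ℝ) = Fintype.card X * bias f ∧
      ew w f = Kr a i w := by
  classical
  have hn : (0 : ℝ) < Fintype.card X := by exact_mod_cast Fintype.card_pos
  set z := (Finset.univ.filter fun x => f x = 0).card with hz
  set i := (Finset.univ.filter fun x => ¬ f x = 0).card with hi
  have h1 : z + i = Fintype.card X := Finset.card_filter_add_card_filter_not _
  have h2 : Fintype.card X * bias f = (z : ℝ) - i := by
    rw [bias, av_eq, mul_div_cancel₀ _ hn.ne']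
    simp only [chi, Finset.sum_ite, Finset.sum_const, nsmul_eq_mul, mul_one, mul_neg]
    rfl
  obtain ⟨a, ha⟩ : ∃ a, z = a + i := by
    have h3 : (i : ℝ) ≤ z := by nlinarith [mul_nonneg hn.le hf]
    exact ⟨z - i, (Nat.sub_add_cancel (by exact_mod_cast h3)).symm⟩
  refine ⟨a, i, by omega, by rw [h2, ha]; push_cast; ring, ?_⟩
  rw [SKraw_coeff, ← SKraw_Kr, ← ha]
  congr 1
  simp only [chi, apply_ite Polynomial.C, ite_mul, add_ite, Finset.prod_ite, Finset.prod_const,
    map_one, map_neg, one_mul, neg_mul, ← sub_eq_add_neg]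
  rfl

theorem desc_ge (a w : ℕ) {b : ℝ} (h0 : 0 < b) (hb : (a : ℝ) ≤ b) :
    (a : ℝ) ^ w - w.factorial * a.choose w ≤ (w : ℝ) ^ 2 / b * b ^ w := by
  have key : ∀ w : ℕ, b * ((a : ℝ) ^ w - a.descFactorial w) ≤ (w : ℝ) ^ 2 * b ^ w := by
    intro w
    induction w with
    | zero => simp
    | succ w ih =>
      have ha : (0 : ℝ) ≤ a := Nat.cast_nonneg a
      have hw : (0 : ℝ) ≤ w := Nat.cast_nonneg w
      have h1 : (a.descFactorial w : ℝ) ≤ (a : ℝ) ^ w := by
        exact_mod_cast Nat.descFactorial_le_pow a w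
      have h2 : (a : ℝ) ^ w ≤ b ^ w := pow_le_pow_left₀ ha hb w
      have h3 : (a : ℝ) - w ≤ ((a - w : ℕ) : ℝ) := by
        rcases le_total w a with h | h
        · rw [Nat.cast_sub h]
        · have : (a : ℝ) ≤ w := by exact_mod_cast h
          have h4 : (0 : ℝ) ≤ ((a - w : ℕ) : ℝ) := Nat.cast_nonneg _
          linarith
      have hD : (0 : ℝ) ≤ a.descFactorial w := Nat.cast_nonneg _
      have hp : 0 < b ^ w := pow_pos h0 w
      rw [Nat.descFactorial_succ]
      push_cast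
      generalize ((a - w : ℕ) : ℝ) = m at h3
      generalize (a.descFactorial w : ℝ) = D at *
      have h5 : (a : ℝ) ^ (w + 1) - m * D ≤ a * ((a : ℝ) ^ w - D) + w * D := by
        rw [pow_succ]; nlinarith [mul_le_mul_of_nonneg_right h3 hD]
      have h6 : (a : ℝ) * ((a : ℝ) ^ w - D) ≤ (w : ℝ) ^ 2 * b ^ w :=
        (mul_le_mul_of_nonneg_right hb (sub_nonneg.2 h1)).trans ih
      have h7 : (w : ℝ) * D ≤ w * b ^ w := mul_le_mul_of_nonneg_left (h1.trans h2) hw
      have h8 : (a : ℝ) ^ (w + 1) - m * D ≤ ((w : ℝ) + 1) ^ 2 * b ^ w := by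
        nlinarith [mul_nonneg hw hp.le]
      rw [pow_succ b w]
      nlinarith [mul_le_mul_of_nonneg_left h8 h0.le]
  have h := key w
  rw [Nat.descFactorial_eq_factorial_mul_choose] at h
  push_cast at h
  rw [div_mul_eq_mul_div, le_div_iff₀ h0]
  linarith

theorem SKraw_term {a i w n j : ℕ} (hi : i ≤ n) {c : ℝ} (h0 : 0 < c) (ha : (a : ℝ) ≤ c)
    (hj : 2 * j ≤ w) :
    (w.factorial : ℝ) * (i.choose j * a.choose (w - 2 * j)) ≤
      c ^ w * (n * (w : ℝ) ^ 2 / c ^ 2) ^ j := by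
  have h1 : w.factorial ≤ (w - 2 * j).factorial * w ^ (2 * j) := by
    rw [← Nat.factorial_mul_descFactorial hj]
    exact Nat.mul_le_mul_left _ (Nat.descFactorial_le_pow _ _)
  have h2 : i.choose j ≤ n ^ j := (Nat.choose_le_pow i j).trans (Nat.pow_le_pow_left hi j)
  have h3 : (w - 2 * j).factorial * a.choose (w - 2 * j) ≤ a ^ (w - 2 * j) := by
    rw [← Nat.descFactorial_eq_factorial_mul_choose]
    exact Nat.descFactorial_le_pow _ _
  have h4 : w.factorial * (i.choose j * a.choose (w - 2 * j)) ≤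
      w ^ (2 * j) * n ^ j * a ^ (w - 2 * j) := by
    calc w.factorial * (i.choose j * a.choose (w - 2 * j))
        ≤ (w - 2 * j).factorial * w ^ (2 * j) * (n ^ j * a.choose (w - 2 * j)) :=
          Nat.mul_le_mul h1 (Nat.mul_le_mul_right _ h2)
      _ = w ^ (2 * j) * n ^ j * ((w - 2 * j).factorial * a.choose (w - 2 * j)) := by ring
      _ ≤ _ := Nat.mul_le_mul_left _ h3
  have h5 : (w.factorial : ℝ) * (i.choose j * a.choose (w - 2 * j)) ≤
      (w : ℝ) ^ (2 * j) * (n : ℝ) ^ j * (a : ℝ) ^ (w - 2 * j) := by exact_mod_cast h4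
  have h6 : (a : ℝ) ^ (w - 2 * j) ≤ c ^ (w - 2 * j) := pow_le_pow_left₀ (Nat.cast_nonneg a) ha _
  have h7 : c ^ w = c ^ (w - 2 * j) * (c ^ 2) ^ j := by
    rw [← pow_mul, ← pow_add, Nat.sub_add_cancel hj]
  refine h5.trans ((mul_le_mul_of_nonneg_left h6 (by positivity)).trans (le_of_eq ?_))
  rw [h7, div_pow, mul_pow, pow_mul]
  field_simp

theorem Kr_small {a i w n : ℕ} (h : a + 2 * i = n) {b : ℝ} (h0 : 0 < b) (h1 : b ≤ n)
    (hx : 2 * (n * (w : ℝ) ^ 2) ≤ b ^ 2) :
    |w.factorial * Kr a i w - (a : ℝ) ^ w| ≤ 3 * (n * (w : ℝ) ^ 2 / b ^ 2) * ((a : ℝ) ^ w + b ^ w) := by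
  have hc0 : 0 < max (a : ℝ) b := lt_max_of_lt_right h0
  have hac : (a : ℝ) ≤ max (a : ℝ) b := le_max_left _ _
  have hbc : b ≤ max (a : ℝ) b := le_max_right _ _
  have hcw : (max (a : ℝ) b) ^ w ≤ (a : ℝ) ^ w + b ^ w := by
    have h2 : (0 : ℝ) ≤ (a : ℝ) ^ w := by positivity
    have h3 : (0 : ℝ) ≤ b ^ w := by positivity
    rcases max_cases (a : ℝ) b with ⟨h4, _⟩ | ⟨h4, _⟩ <;> rw [h4] <;> linarith
  generalize max (a : ℝ) b = c at *
  have hx0 : 0 ≤ n * (w : ℝ) ^ 2 / b ^ 2 := by positivity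
  have hx1 : n * (w : ℝ) ^ 2 / b ^ 2 ≤ 1 / 2 := by
    rw [div_le_iff₀ (by positivity)]; linarith
  have hx2 : n * (w : ℝ) ^ 2 / c ^ 2 ≤ n * (w : ℝ) ^ 2 / b ^ 2 :=
    div_le_div_of_nonneg_left (by positivity) (by positivity) (pow_le_pow_left₀ h0.le hbc 2)
  have hx3 : (w : ℝ) ^ 2 / c ≤ n * (w : ℝ) ^ 2 / b ^ 2 := by
    refine (div_le_div_of_nonneg_left (by positivity) h0 hbc).trans ?_
    rw [div_le_div_iff₀ h0 (by positivity)]
    nlinarith [mul_le_mul_of_nonneg_left h1 (mul_nonneg (sq_nonneg (w : ℝ)) h0.le)]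
  have hx4 : 0 ≤ n * (w : ℝ) ^ 2 / c ^ 2 := by positivity
  have hcp : 0 < c ^ w := pow_pos hc0 w
  have hT := fun j hj => SKraw_term (a := a) (i := i) (w := w) (n := n) (j := j) (by omega) hc0 hac hj
  generalize n * (w : ℝ) ^ 2 / c ^ 2 = y at *
  generalize n * (w : ℝ) ^ 2 / b ^ 2 = x at *
  have hA : |(w.factorial : ℝ) * a.choose w - (a : ℝ) ^ w| ≤ x * c ^ w := by
    have h2 := desc_ge a w hc0 hac
    have h3 : (w.factorial : ℝ) * a.choose w ≤ (a : ℝ) ^ w := by
      have := Nat.descFactorial_le_pow a w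
      rw [Nat.descFactorial_eq_factorial_mul_choose] at this
      exact_mod_cast this
    rw [abs_sub_comm, abs_of_nonneg (by linarith)]
    exact h2.trans (mul_le_mul_of_nonneg_right hx3 hcp.le)
  have hB : |∑ j ∈ Finset.range i, (w.factorial : ℝ) * (if 2 * (j + 1) ≤ w then
      (-1) ^ (j + 1) * (i.choose (j + 1) * a.choose (w - 2 * (j + 1)) : ℝ) else 0)| ≤
      2 * x * c ^ w := by
    refine (Finset.abs_sum_le_sum_abs _ _).trans ?_
    refine (Finset.sum_le_sum (g := fun j => x * c ^ w * (1 / 2) ^ j) fun j _ => ?_).trans ?_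
    · split_ifs with h2
      · rw [mul_left_comm, abs_mul, abs_pow, abs_neg, abs_one, one_pow, one_mul,
          abs_of_nonneg (by positivity)]
        refine (hT _ h2).trans ?_
        have h3 : y ^ (j + 1) ≤ x * (1 / 2) ^ j := by
          rw [pow_succ']
          exact mul_le_mul hx2 (pow_le_pow_left₀ hx4 (hx2.trans hx1) j) (by positivity) hx0
        nlinarith [mul_le_mul_of_nonneg_left h3 hcp.le]
      · rw [mul_zero, abs_zero]; positivity
    · rw [← Finset.mul_sum]
      nlinarith [mul_le_mul_of_nonneg_left (sum_geometric_two_le i) (mul_nonneg hx0 hcp.le)]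
  unfold Kr
  rw [Finset.sum_range_succ', mul_add, Finset.mul_sum]
  simp only [mul_zero, Nat.zero_le, if_true, pow_zero, Nat.choose_zero_right, Nat.cast_one,
    one_mul, Nat.sub_zero]
  rw [add_sub_assoc]
  refine (abs_add_le _ _).trans ?_
  nlinarith [mul_le_mul_of_nonneg_left hcw hx0]

theorem SKraw_up {n w j : ℕ} (hw : w ≤ n) (hj : j < w) :
    n.choose j * (w ^ j * (n - w) ^ (n - j)) ≤
      n.choose (j + 1) * (w ^ (j + 1) * (n - w) ^ (n - (j + 1))) := by
  have h1 : n.choose j * (n - w) ≤ n.choose (j + 1) * w := by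
    refine Nat.le_of_mul_le_mul_right ?_ (Nat.succ_pos j)
    calc n.choose j * (n - w) * (j + 1) ≤ n.choose j * (n - j) * w :=
          Nat.mul_le_mul (Nat.mul_le_mul_left _ (by omega)) hj
      _ = n.choose (j + 1) * (j + 1) * w := by rw [Nat.choose_succ_right_eq]
      _ = _ := by simp only [Nat.succ_eq_add_one]; ring
  have h2 : n - j = n - (j + 1) + 1 := by omega
  calc n.choose j * (w ^ j * (n - w) ^ (n - j))
      = n.choose j * (n - w) * (w ^ j * (n - w) ^ (n - (j + 1))) := by rw [h2, pow_succ]; ring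
    _ ≤ n.choose (j + 1) * w * (w ^ j * (n - w) ^ (n - (j + 1))) := Nat.mul_le_mul_right _ h1
    _ = _ := by ring

theorem SKraw_down {n w j : ℕ} (hw : w ≤ j) (hj : j < n) :
    n.choose (j + 1) * (w ^ (j + 1) * (n - w) ^ (n - (j + 1))) ≤
      n.choose j * (w ^ j * (n - w) ^ (n - j)) := by
  have h1 : n.choose (j + 1) * w ≤ n.choose j * (n - w) := by
    refine Nat.le_of_mul_le_mul_right ?_ (Nat.succ_pos j)
    calc n.choose (j + 1) * w * (j + 1) = n.choose (j + 1) * (j + 1) * w := by ring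
      _ = n.choose j * (n - j) * w := by rw [Nat.choose_succ_right_eq]
      _ ≤ n.choose j * (n - w) * (j + 1) :=
          Nat.mul_le_mul (Nat.mul_le_mul_left _ (by omega)) (by omega)
  have h2 : n - j = n - (j + 1) + 1 := by omega
  calc n.choose (j + 1) * (w ^ (j + 1) * (n - w) ^ (n - (j + 1)))
      = n.choose (j + 1) * w * (w ^ j * (n - w) ^ (n - (j + 1))) := by ring
    _ ≤ n.choose j * (n - w) * (w ^ j * (n - w) ^ (n - (j + 1))) := Nat.mul_le_mul_right _ h1
    _ = _ := by rw [h2, pow_succ]; ring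

theorem mode_le {n w : ℕ} (hw : w ≤ n) :
    n ^ n ≤ (n + 1) * (n.choose w * (w ^ w * (n - w) ^ (n - w))) := by
  have hup : ∀ d j, j + d = w → n.choose j * (w ^ j * (n - w) ^ (n - j)) ≤
      n.choose w * (w ^ w * (n - w) ^ (n - w)) := by
    intro d
    induction d with
    | zero => intro j hj; rw [show j = w by omega]
    | succ d ih => intro j hj; exact (SKraw_up hw (by omega)).trans (ih (j + 1) (by omega))
  have hdn : ∀ d, w + d ≤ n → n.choose (w + d) * (w ^ (w + d) * (n - w) ^ (n - (w + d))) ≤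
      n.choose w * (w ^ w * (n - w) ^ (n - w)) := by
    intro d
    induction d with
    | zero => intro _; exact le_rfl
    | succ d ih =>
      intro hd
      exact (SKraw_down (j := w + d) (by omega) (by omega)).trans (ih (by omega))
  have h1 : n ^ n = (w + (n - w)) ^ n := by rw [Nat.add_sub_cancel' hw]
  rw [h1, add_pow]
  refine (Finset.sum_le_card_nsmul _ _ (n.choose w * (w ^ w * (n - w) ^ (n - w)))
    fun j hj => ?_).trans (by simp)
  have hj' := Finset.mem_range.1 hj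
  rw [Nat.cast_id, mul_comm]
  rcases le_total j w with h | h
  · exact hup (w - j) j (by omega)
  · have := hdn (j - w) (by omega)
    rwa [Nat.add_sub_cancel' h] at this

theorem SKraw_one (a m : ℕ) {r : ℝ} (hr : 0 ≤ r) : (a.choose m : ℝ) * r ^ m ≤ (r + 1) ^ a := by
  rcases lt_or_ge a m with h | h
  · rw [Nat.choose_eq_zero_of_lt h, Nat.cast_zero, zero_mul]; positivity
  · rw [add_pow]
    refine le_trans (le_of_eq ?_) (Finset.single_le_sum
      (f := fun j => r ^ j * 1 ^ (a - j) * (a.choose j : ℝ)) (fun j _ => by positivity)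
      (Finset.mem_range.2 (Nat.lt_succ_of_le h)))
    simp [mul_comm]

theorem SKraw_gen (a i w : ℕ) {r : ℝ} (hr : 0 ≤ r) :
    |Kr a i w| * r ^ w ≤ (r ^ 2 + 1) ^ i * (r + 1) ^ a := by
  unfold Kr
  refine (mul_le_mul_of_nonneg_right (Finset.abs_sum_le_sum_abs _ _) (by positivity)).trans ?_
  rw [add_pow (r ^ 2), Finset.sum_mul, Finset.sum_mul]
  refine Finset.sum_le_sum fun j _ => ?_
  split_ifs with h
  · rw [abs_mul, abs_pow, abs_neg, abs_one, one_pow, one_mul, abs_of_nonneg (by positivity)]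
    have h1 : r ^ w = (r ^ 2) ^ j * r ^ (w - 2 * j) := by
      rw [← pow_mul, ← pow_add, Nat.add_sub_cancel' h]
    have h2 := mul_le_mul_of_nonneg_left (SKraw_one a (w - 2 * j) hr)
      (show 0 ≤ (r ^ 2) ^ j * (i.choose j : ℝ) by positivity)
    rw [h1, one_pow, mul_one]
    linarith
  · rw [abs_zero, zero_mul]; positivity

theorem Kr_big {a i w n : ℕ} (h : a + 2 * i = n) (hi : n ≤ 8 * i) (hw : 2 * w ≤ n) :
    |Kr a i w| ≤ (n + 1) * n.choose w * Real.exp (-((w : ℝ) / 8)) := by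
  rcases Nat.eq_zero_or_pos w with rfl | hw0
  · have h1 := SKraw_gen a i 0 (le_refl (0 : ℝ))
    have h2 : (0 : ℝ) ≤ n := Nat.cast_nonneg n
    simp at h1 ⊢
    linarith
  have hwn : w ≤ n := by omega
  have hW : (0 : ℝ) < w := by exact_mod_cast hw0
  have hw' : 2 * (w : ℝ) ≤ n := by exact_mod_cast hw
  have hi' : (n : ℝ) ≤ 8 * i := by exact_mod_cast hi
  have hv : (0 : ℝ) < n - w := by linarith
  have hn : (0 : ℝ) < n := by linarith
  have hm : (n : ℝ) ^ n ≤ (n + 1) * (n.choose w * ((w : ℝ) ^ w * ((n : ℝ) - w) ^ (n - w))) := by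
    have := mode_le hwn
    rw [← Nat.cast_sub hwn]
    exact_mod_cast this
  obtain ⟨r, hr⟩ : ∃ r : ℝ, r = w / (n - w) := ⟨_, rfl⟩
  have hr0 : 0 < r := by rw [hr]; positivity
  have hr1 : r + 1 = n / (n - w) := by rw [hr]; field_simp; ring
  have h1 : (r + 1) ^ n ≤ (n + 1) * n.choose w * r ^ w := by
    rw [hr1, hr, div_pow, div_pow, div_le_iff₀ (by positivity)]
    refine hm.trans (le_of_eq ?_)
    have : ((n : ℝ) - w) ^ n = ((n : ℝ) - w) ^ (n - w) * ((n : ℝ) - w) ^ w := by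
      rw [← pow_add, Nat.sub_add_cancel hwn]
    rw [this]
    field_simp
  have h2 : r ^ 2 + 1 ≤ (r + 1) ^ 2 * Real.exp (-((w : ℝ) / n)) := by
    have h3 := Real.add_one_le_exp (-((w : ℝ) / n))
    refine le_trans ?_ (mul_le_mul_of_nonneg_left h3 (by positivity))
    have h4 : (r + 1) ^ 2 * ((w : ℝ) / n) ≤ 2 * r := by
      rw [hr1, hr, div_pow, div_mul_div_comm, ← mul_div_assoc,
        div_le_div_iff₀ (by positivity) hv]
      have h5 : 0 ≤ (n : ℝ) * w * (n - w) * (n - 2 * w) :=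
        mul_nonneg (by positivity) (by linarith)
      nlinarith
    nlinarith
  have h3 : (r ^ 2 + 1) ^ i ≤ (r + 1) ^ (2 * i) * Real.exp (-((w : ℝ) / 8)) := by
    refine (pow_le_pow_left₀ (by positivity) h2 i).trans ?_
    rw [mul_pow, ← pow_mul, ← Real.exp_nat_mul]
    refine mul_le_mul_of_nonneg_left (Real.exp_le_exp.2 ?_) (by positivity)
    have h4 : (w : ℝ) / 8 ≤ i * (w / n) := by
      rw [← mul_div_assoc, div_le_div_iff₀ (by norm_num) hn]
      nlinarith
    linarith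
  have h4 := SKraw_gen a i w hr0.le
  have h5 : (r + 1) ^ n = (r + 1) ^ (2 * i) * (r + 1) ^ a := by rw [← pow_add, ← h, add_comm a]
  refine le_of_mul_le_mul_right ?_ (pow_pos hr0 w)
  calc |Kr a i w| * r ^ w ≤ (r ^ 2 + 1) ^ i * (r + 1) ^ a := h4
    _ ≤ (r + 1) ^ (2 * i) * Real.exp (-((w : ℝ) / 8)) * (r + 1) ^ a :=
        mul_le_mul_of_nonneg_right h3 (by positivity)
    _ = (r + 1) ^ n * Real.exp (-((w : ℝ) / 8)) := by rw [h5]; ring
    _ ≤ (n + 1) * n.choose w * r ^ w * Real.exp (-((w : ℝ) / 8)) :=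
        mul_le_mul_of_nonneg_right h1 (Real.exp_pos _).le
    _ = _ := by ring

theorem ew_small {X : Type} [Fintype X] [Nonempty X] (f : X → F) {w : ℕ} (hw : Even w) {β : ℝ}
    (h0 : 0 < β) (h1 : β ≤ 1) (hx : 2 * (w : ℝ) ^ 2 ≤ β ^ 2 * Fintype.card X) :
    |w.factorial * ew w f / (Fintype.card X : ℝ) ^ w - bias f ^ w| ≤
      3 * ((w : ℝ) ^ 2 / (β ^ 2 * Fintype.card X)) * (bias f ^ w + β ^ w) := by
  wlog hf : 0 ≤ bias f generalizing f
  · have h := this (f + 1) (by rw [bias_add_one]; linarith)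
    rwa [ew_add_one, bias_add_one, hw.neg_pow, hw.neg_pow, one_pow, one_mul] at h
  obtain ⟨a, i, h2, h3, h4⟩ := ew_eq_Kr w hf
  have hn : (0 : ℝ) < Fintype.card X := by exact_mod_cast Fintype.card_pos
  generalize Fintype.card X = n at *
  have h5 := Kr_small (w := w) h2 (mul_pos hn h0) (mul_le_of_le_one_right hn.le h1)
    (by nlinarith [mul_le_mul_of_nonneg_left hx hn.le])
  have hp : (0 : ℝ) < (n : ℝ) ^ w := by positivity
  rw [h3, mul_pow, mul_pow _ β w, ← mul_add] at h5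
  rw [h4, div_sub' hp.ne', abs_div, abs_of_pos hp, div_le_iff₀ hp]
  refine h5.trans (le_of_eq ?_)
  field_simp

theorem ew_big {X : Type} [Fintype X] [Nonempty X] {f : X → F} (hb : |bias f| ≤ 3 / 4) {w : ℕ}
    (hw : 2 * w ≤ Fintype.card X) :
    |ew w f| ≤ (Fintype.card X + 1) * (Fintype.card X).choose w * Real.exp (-((w : ℝ) / 8)) := by
  wlog hf : 0 ≤ bias f generalizing f
  · have h := this (f := f + 1) (by rwa [bias_add_one, abs_neg]) (by rw [bias_add_one]; linarith)
    rwa [ew_add_one, abs_mul, abs_pow, abs_neg, abs_one, one_pow, one_mul] at h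
  obtain ⟨a, i, h2, h3, h4⟩ := ew_eq_Kr w hf
  rw [h4]
  refine Kr_big h2 ?_ hw
  have h5 : (a : ℝ) + 2 * i = Fintype.card X := by exact_mod_cast h2
  have h6 := mul_le_mul_of_nonneg_left ((le_abs_self _).trans hb)
    (Nat.cast_nonneg (α := ℝ) (Fintype.card X))
  exact_mod_cast (by linarith : (Fintype.card X : ℝ) ≤ 8 * i)

theorem choose_mul_le (a k w : ℕ) : k ^ w * a.choose w ≤ (k * a).choose w := by
  have key : ∀ w : ℕ, k ^ w * a.descFactorial w ≤ (k * a).descFactorial w := by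
    intro w
    induction w with
    | zero => simp
    | succ w ih =>
      rcases Nat.eq_zero_or_pos k with rfl | hk
      · simp
      have h1 : k * (a - w) ≤ k * a - w := by
        rw [Nat.mul_sub]
        exact Nat.sub_le_sub_left (Nat.le_mul_of_pos_left w hk) _
      rw [Nat.descFactorial_succ, Nat.descFactorial_succ]
      calc k ^ (w + 1) * ((a - w) * a.descFactorial w)
          = k * (a - w) * (k ^ w * a.descFactorial w) := by ring
        _ ≤ _ := Nat.mul_le_mul h1 ih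
  have h := key w
  rw [Nat.descFactorial_eq_factorial_mul_choose, Nat.descFactorial_eq_factorial_mul_choose,
    mul_left_comm] at h
  exact Nat.le_of_mul_le_mul_left h (Nat.factorial_pos w)

end Pool.Agent.P.MP_cb6780_lc
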