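import Pool.Agent.P.MP_cb6780_lc.URec
import Pool.Agent.P.MP_cb6780_lc.Reduce

set_option autoImplicit false
set_option linter.unusedSectionVars false

/-! The flat is almost always unique. -/

namespace Pool.Agent.P.MP_cb6780_lc

open Module

section
variable {V : Type} [AddCommGroup V] [Module F V] [Finite V]

theorem exists_point {E E' : Submodule F V} (h : finrank F E = finrank F E') {a a' : V}
    (hne : ¬ (E = E' ∧ a + a' ∈ E)) : ∃ x, x + a' ∈ E' ∧ x + a ∉ E := by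
  have : Module.Finite F V := Module.Finite.of_finite
  by_contra hc
  push Not at hc
  have h1 : a' + a ∈ E := hc a' (by rw [add_self_V]; exact E'.zero_mem)
  have h2 : E' ≤ E := fun x hx => by
    have h3 := hc (x + a') (by rwa [add_assoc, add_self_V, add_zero])
    rw [add_assoc] at h3
    exact (Submodule.add_mem_iff_left _ h1).1 h3
  exact hne ⟨(Submodule.eq_of_le_of_finrank_le h2 h.le).symm, by rwa [add_comm]⟩

theorem pair_le {n : ℕ} {E E' : Submodule F V} (hE : finrank F E = n + 1) (hE' : finrank F E' = n + 1)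
    {a a' : V} (hne : ¬ (E = E' ∧ a + a' ∈ E)) (A : Set (E → F)) (A' : Set (E' → F)) :
    {f | (f ∈ P V 4 ∧ res E a f ∈ A) ∧ res E' a' f ∈ A'}.ncard * cP n 3 ≤
      {f | f ∈ P V 4 ∧ res E a f ∈ A}.ncard * A'.ncard := by
  have : Module.Finite F V := Module.Finite.of_finite
  obtain ⟨x₀, x1, x2⟩ := exists_point (hE.trans hE'.symm) hne
  obtain ⟨ξ, h1, h2⟩ := Submodule.exists_dual_map_eq_bot_of_notMem x2 inferInstance
  have h3 : ∀ u ∈ E, ξ u = 0 := fun u hu => by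
    have : ξ u ∈ E.map ξ := Submodule.mem_map_of_mem hu
    rw [h2] at this
    exact this
  have h4 : ξ (x₀ + a) = 1 := (Av_cases _).resolve_left h1
  set Z := E' ⊓ LinearMap.ker ξ with hZ
  have h5 : n ≤ finrank F Z := by
    have b1 := Submodule.finrank_sup_add_finrank_inf_eq E' (LinearMap.ker ξ)
    have b2 := Submodule.finrank_le (E' ⊔ LinearMap.ker ξ)
    have b3 : ξ ≠ 0 := fun h => h1 (by rw [h]; rfl)
    have b4 := finrank_ker_dual b3
    rw [← hZ] at b1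
    omega
  have h6 : ∀ q : P Z 3, ∃ k ∈ P V 4, res E a k = 0 ∧ res Z x₀ k = q.1 := fun q => by
    obtain ⟨r, r1, r2⟩ := res_surj Z x₀ q.2
    refine ⟨(fun x => ξ x + ξ a) * r, mul_mem_P (d := 1) (e := 2) (mem_P_two.2 ⟨ξ, _, rfl⟩) r1,
      funext fun u => ?_, funext fun u => ?_⟩
    · rw [res_apply, Pi.mul_apply, ← map_add, add_assoc, add_self_V, add_zero, h3 _ u.2, zero_mul]
      rfl
    · have b1 : ξ u = 0 := u.2.2
      rw [res_apply, Pi.mul_apply, ← map_add, add_assoc, map_add, b1, h4, zero_add, one_mul, ← r2]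
      rfl
  choose k k1 k2 k3 using h6
  let Ψ : {f | (f ∈ P V 4 ∧ res E a f ∈ A) ∧ res E' a' f ∈ A'} × P Z 3 →
      {f | f ∈ P V 4 ∧ res E a f ∈ A} × A' := fun z =>
    (⟨z.1.1 + k z.2, (P V 4).add_mem z.1.2.1.1 (k1 _), by
      rw [map_add, k2, add_zero]; exact z.1.2.1.2⟩, ⟨res E' a' z.1.1, z.1.2.2⟩)
  have hΨ : Function.Injective Ψ := by
    rintro ⟨f, q⟩ ⟨g, r⟩ e
    obtain ⟨e1, e2⟩ := Prod.ext_iff.1 e
    have e3 : f.1 + k q = g.1 + k r := congrArg Subtype.val e1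
    have e4 : res E' a' f.1 = res E' a' g.1 := congrArg Subtype.val e2
    have e5 : res Z x₀ f.1 = res Z x₀ g.1 := funext fun u => by
      have := congrFun e4 ⟨u + (x₀ + a'), E'.add_mem u.2.1 x1⟩
      simp only [res_apply, add_assoc, add_self_V, add_zero] at this
      exact this
    have e6 := congrArg (res Z x₀) e3
    rw [map_add, map_add, k3, k3, e5] at e6
    have e7 : q = r := Subtype.ext (add_left_cancel e6)
    subst e7
    exact Prod.ext (Subtype.ext (add_right_cancel e3)) rfl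
  have h7 := Nat.card_le_card_of_injective Ψ hΨ
  rw [Nat.card_prod, Nat.card_prod, Nat.card_coe_set_eq, Nat.card_coe_set_eq, Nat.card_coe_set_eq,
    card_P] at h7
  obtain ⟨i, hi⟩ := Nat.exists_eq_add_of_le h5
  rw [hi] at h7
  exact (Nat.mul_le_mul_left _ (Reduce_cP_mono n i)).trans h7

/-- the function of the triple has a second flat -/
def Two (c : ℕ) (θ : ℝ) (z : Submodule F V × V × (V → F)) : Prop :=
  ∃ w ∈ ulPairs V c, θ ≤ bias (res w.1 w.2 z.2.2) ∧ ¬ (z.1 = w.1 ∧ z.2.1 + w.2 ∈ z.1)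

theorem two_le {n c : ℕ} (hV : finrank F V = n + 1 + c) (θ : ℝ) :
    {z | z ∈ Tri V c 4 θ ∧ Two c θ z}.ncard * cP n 3 ≤
      (Tri V c 4 θ).ncard * (G V c * 2 ^ (n + 1 + c) * Nn (n + 1) 4 θ) := by
  classical
  have := @ul_finsub V _ _ _
  have := Fintype.ofFinite (Submodule F V × V)
  rw [ul_fiber (Tri V c 4 θ) (fun z => (z.1, z.2.1)),
    ul_fiber {z | z ∈ Tri V c 4 θ ∧ Two c θ z} (fun z => (z.1, z.2.1)), Finset.sum_mul,
    Finset.sum_mul]
  refine Finset.sum_le_sum fun w _ => ?_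
  rw [ul_fib_eq, ul_fib_eq]
  by_cases hw : w ∈ ulPairs V c
  swap
  · have h3 : {f | (w.1, w.2, f) ∈ {z | z ∈ Tri V c 4 θ ∧ Two c θ z}} = ∅ := by
      ext f
      exact ⟨fun h => hw h.1.1, fun h => h.elim⟩
    rw [h3, Set.ncard_empty, zero_mul]
    exact Nat.zero_le _
  have hw' : finrank F w.1 + c = finrank F V := hw
  have h3 : {f | (w.1, w.2, f) ∈ Tri V c 4 θ} = {f | f ∈ P V 4 ∧ res w.1 w.2 f ∈ {g | θ ≤ bias g}} := by
    ext f
    exact ⟨fun h => h.2, fun h => ⟨hw', h⟩⟩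
  rw [h3]
  set S := {f | f ∈ P V 4 ∧ res w.1 w.2 f ∈ {g | θ ≤ bias g}} with hS
  have h4 := cover_le {f | (w.1, w.2, f) ∈ {z | z ∈ Tri V c 4 θ ∧ Two c θ z}} (ulPairs V c)
    (fun w' => {f | ¬ (w.1 = w'.1 ∧ w.2 + w'.2 ∈ w.1) ∧ f ∈ S ∧
      res w'.1 w'.2 f ∈ {g | g ∈ P w'.1 4 ∧ θ ≤ bias g}})
    (S.ncard * Nn (n + 1) 4 θ / cP n 3)
    (fun f hf => by
      obtain ⟨w', a1, a2, a3⟩ := hf.2
      exact ⟨w', a1, a3, hf.1.2, res_mem_P hf.1.2.1 _ _, a2⟩)
    fun w' hw2 => by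
      have hw3 : finrank F w'.1 + c = finrank F V := hw2
      by_cases hne : w.1 = w'.1 ∧ w.2 + w'.2 ∈ w.1
      · refine le_trans (le_of_eq ((Set.ncard_eq_zero (Set.toFinite _)).2 ?_)) (Nat.zero_le _)
        ext f
        exact ⟨fun h => h.1 hne, fun h => h.elim⟩
      have b1 : finrank F w'.1 = n + 1 := by omega
      have b2 := pair_le (n := n) (by omega) b1 hne {g | θ ≤ bias g} {g | g ∈ P w'.1 4 ∧ θ ≤ bias g}
      have b3 := N_eq (V := w'.1) 4 θ
      rw [b1] at b3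
      rw [Nat.le_div_iff_mul_le (cP_pos _ _), ← b3]
      simp only [hne, not_false_eq_true, true_and]
      exact b2
  rw [ul_pairs hV] at h4
  refine (Nat.mul_le_mul_right _ h4).trans ?_
  rw [mul_assoc, mul_left_comm S.ncard]
  exact Nat.mul_le_mul_left _ (Nat.div_mul_le_self _ _)

theorem low_uni {n c : ℕ} (hV : finrank F V = n + c) (θ ε : ℝ) :
    {z | z ∈ Tri V c 4 θ ∧ ε ≤ bias z.2.2}.ncard ≤
      N V 4 ε * 2 ^ n + {z | z ∈ Tri V c 4 θ ∧ Two c θ z}.ncard := by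
  have := @ul_finsub V _ _ _
  have h1 := fib_le {z | (z ∈ Tri V c 4 θ ∧ ε ≤ bias z.2.2) ∧ ¬ Two c θ z}
    {f : V → F | f ∈ P V 4 ∧ ε ≤ bias f} (fun z => z.2.2) (2 ^ n)
    (fun z hz => ⟨hz.1.1.2.1, hz.1.2⟩) fun f _ => by
      rcases Set.eq_empty_or_nonempty {x | x ∈ {z | (z ∈ Tri V c 4 θ ∧ ε ≤ bias z.2.2) ∧ ¬ Two c θ z} ∧
        x.2.2 = f} with h0 | ⟨z₀, hz₀⟩
      · rw [h0, Set.ncard_empty]
        exact Nat.zero_le _
      have key : ∀ z ∈ {x | x ∈ {z | (z ∈ Tri V c 4 θ ∧ ε ≤ bias z.2.2) ∧ ¬ Two c θ z} ∧ x.2.2 = f},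
          z₀.1 = z.1 ∧ z₀.2.1 + z.2.1 ∈ z₀.1 := fun z hz => by
        by_contra hc
        refine hz₀.1.2 ⟨(z.1, z.2.1), hz.1.1.1.1, ?_, hc⟩
        rw [hz₀.2, ← hz.2]
        exact hz.1.1.1.2.2
      rw [← ul_card_sub hV hz₀.1.1.1.1,
        show Nat.card z₀.1 = (z₀.1 : Set V).ncard from Nat.card_coe_set_eq (z₀.1 : Set V)]
      refine Set.ncard_le_ncard_of_injOn (fun z => z₀.2.1 + z.2.1) (fun z hz => (key z hz).2) ?_
        (Set.toFinite _)
      intro z hz z' hz' h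
      exact Prod.ext ((key z hz).1.symm.trans (key z' hz').1)
        (Prod.ext (add_left_cancel h) (hz.2.trans hz'.2.symm))
  refine le_trans (le_trans (Set.ncard_le_ncard ?_ (Set.toFinite _)) (Set.ncard_union_le _ _))
    (Nat.add_le_add_right h1 _)
  intro z hz
  by_cases h : Two c θ z
  · exact Or.inr ⟨hz.1, h⟩
  · exact Or.inl ⟨hz, h⟩

end

end Pool.Agent.P.MP_cb6780_lc
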