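import Pool.Agent.P.MP_cb6780_lc.UK
import Pool.Agent.P.MP_cb6780_lc.UUniq
import Pool.Agent.P.MP_cb6780_lc.Main

set_option autoImplicit false

/-! Assembly of the uniform asymptotic formula. -/

namespace Pool.Agent.P.MP_cb6780_lc

open Module

theorem sq_le_choose (n : ℕ) : n * n ≤ 2 * (n + 1 + n.choose 2) := by
  induction n with
  | zero => simp
  | succ n ih =>
    rw [Nat.choose_succ_succ' n 1, Nat.choose_one_right]
    nlinarith

theorem arith1 {n c s t k : ℕ} (hc : 2 ^ 50 * c ≤ n) (hs : 2 ^ 50 * s ≤ n) (hs1 : 1 ≤ s) (ht : t ≤ n)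
    (hk : 1 ≤ k) (hkc : k ≤ c) :
    3 * (k / 60) * (n + k) ^ 2 + 2 ^ 43 * (k * (s + 2 * c + 1)) * (n + k + 1) +
      ((2 * (n + c) + 1) * c + t) ≤ (n + 1 + n.choose 2) * k := by
  have hn : 2 ^ 50 ≤ n := by omega
  have a1 : 5 * (3 * (k / 60) * (n + k) ^ 2) ≤ k * (n * n) := by
    calc 5 * (3 * (k / 60) * (n + k) ^ 2) ≤ 5 * (3 * (k / 60) * (2 * n) ^ 2) := by
          gcongr
          omega
      _ = 60 * (k / 60) * (n * n) := by ring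
      _ ≤ _ := Nat.mul_le_mul_right _ (by omega)
  have a2 : 128 * (2 ^ 43 * (k * (s + 2 * c + 1)) * (n + k + 1)) ≤ 12 * (k * (n * n)) := by
    calc 128 * (2 ^ 43 * (k * (s + 2 * c + 1)) * (n + k + 1))
        = k * ((2 ^ 50 * (s + 2 * c + 1)) * (n + k + 1)) := by ring
      _ ≤ k * ((4 * n) * (3 * n)) :=
          Nat.mul_le_mul_left _ (Nat.mul_le_mul (by omega) (by omega))
      _ = _ := by ring
  have a3 : 100 * ((2 * (n + c) + 1) * c + t) ≤ n * n := by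
    have b1 : (2 * (n + c) + 1) * (1000 * c) ≤ 5 * n * n := Nat.mul_le_mul (by omega) (by omega)
    have b2 : 1000 * t ≤ n * n := Nat.mul_le_mul (by omega) ht
    nlinarith
  have a4 : n * n ≤ k * (n * n) := Nat.le_mul_of_pos_left _ hk
  have a5 : k * (n * n) ≤ 2 * ((n + 1 + n.choose 2) * k) := by
    have := Nat.mul_le_mul_left k (sq_le_choose n)
    nlinarith
  omega

theorem arith2 {n c h t : ℕ} (hc : 2 ^ 50 * c ≤ n + 1) (hh : 2 ^ 50 * h ≤ n + 1) (hn : 2 ^ 50 ≤ n + 1)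
    (ht : t ≤ n + 1) :
    c * (n + 1 + 1) + (n + 1 + c) + ((2 * h + 1) * (n + 1) + 2) + t ≤ n + 1 + n.choose 2 := by
  have a1 : 100 * c * (n + 1 + 1) ≤ n * (2 * n) := Nat.mul_le_mul (by omega) (by omega)
  have a2 : 100 * (2 * h + 1) * (n + 1) ≤ n * (2 * n) := Nat.mul_le_mul (by omega) (by omega)
  have a3 : 1000 * n ≤ n * n := Nat.mul_le_mul_right _ (by omega)
  have a4 := sq_le_choose n
  nlinarith

theorem Mult_nonneg (n c : ℕ) : 0 ≤ Mult n c := (Reduce_prod_pos n c).le.trans (Reduce_prod_le n c)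

theorem uni_up {n c s t : ℕ} (hc : 2 ^ 50 * c ≤ n) (hs : 2 ^ 50 * s ≤ n) (hs1 : 1 ≤ s) (ht : t ≤ n)
    {θ : ℝ} (h1 : 1 / 2 ≤ θ) (h2 : θ ≤ 1) :
    (Nn (n + c) 4 ((θ + c * (1 / 2 ^ (s + c))) / 2 ^ c) : ℝ) ≤
      (1 + 1 / 2 ^ t) * (Mult n c * Nn n 4 θ) := by
  have a1 := ubad_le (n := n) (c₀ := c) (l := s + 2 * c + 1) (Y := (2 * (n + c) + 1) * c + t)
    (η := 1 / 2 ^ (s + c)) h1 (by positivity)
    (by rw [div_div, ← pow_add]; exact inv_pow_le (by omega)) (by omega)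
    (fun k k1 k2 => by
      refine le_trans ?_ (Reduce_prod_ge n k)
      rw [Reduce_cP_three, ← pow_mul, ← pow_add]
      exact Nat.pow_le_pow_right (by norm_num) (arith1 hc hs hs1 ht k1 k2))
    c le_rfl (Fin (n + c) → F) (Reduce_finrank _)
  rw [pow_add 2 ((2 * (n + c) + 1) * c) t, mul_left_comm] at a1
  have a2 := Nat.le_of_mul_le_mul_left a1 (by positivity)
  have a3 : ((UBad (Fin (n + c) → F) c θ (1 / 2 ^ (s + c))).ncard : ℝ) * 2 ^ t ≤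
      ∏ i ∈ Finset.range c, (cP (n + i) 3 : ℝ) := by exact_mod_cast a2
  have a4 := up_uni (V := Fin (n + c) → F) (n := n) (c := c) (Reduce_finrank _) θ (1 / 2 ^ (s + c))
  have a5 : (2 : ℝ) ^ n * Nn (n + c) 4 ((θ + c * (1 / 2 ^ (s + c))) / 2 ^ c) ≤
      (Tri (Fin (n + c) → F) c 4 θ).ncard +
        2 ^ n * (UBad (Fin (n + c) → F) c θ (1 / 2 ^ (s + c))).ncard := by exact_mod_cast a4
  rw [Reduce_tri, ← mul_add] at a5
  have a6 := le_of_mul_le_mul_left a5 (by positivity)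
  have a7 : ∏ i ∈ Finset.range c, (cP (n + i) 3 : ℝ) ≤ Mult n c * Nn n 4 θ :=
    (Reduce_prod_le n c).trans (le_mul_of_one_le_right (Mult_nonneg n c) (Reduce_one_le_Nn n h2))
  have a8 := a3.trans a7
  rw [← le_div_iff₀ (by positivity)] at a8
  rw [add_mul, one_mul, one_div_mul_eq_div]
  linarith

theorem uni_low {n c s h t : ℕ} (hc : 2 ^ 50 * c ≤ n) (hh : 2 ^ 50 * h ≤ n) (hn : 2 ^ 50 ≤ n)
    (ht : t + 2 * (s + c) ≤ n) {ε γ : ℝ} (hγ : 1 / 2 ^ (s + c) ≤ γ)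
    (hN : (Nn n 4 (2 ^ c * (ε + γ)) : ℝ) ≤ 2 ^ ((2 * h + 1) * n + 2)) :
    (1 - 2 * (1 / 2 ^ t)) * (Mult n c * Nn n 4 (2 ^ c * (ε + γ))) ≤ Nn (n + c) 4 ε := by
  obtain ⟨m, rfl⟩ : ∃ m, n = m + 1 := ⟨n - 1, by omega⟩
  have hγ0 : 0 < γ := lt_of_lt_of_le (by positivity) hγ
  have a1 := low_aux1 (V := Fin (m + 1 + c) → F) (n := m + 1) (c := c) (e := 4) (ε := ε)
    (Reduce_finrank _) (by norm_num) hγ0
  set θ := 2 ^ c * (ε + γ) with hθ
  have a2 := low_uni (V := Fin (m + 1 + c) → F) (n := m + 1) (c := c) (Reduce_finrank _) θ ε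
  have a3 := two_le (V := Fin (m + 1 + c) → F) (n := m) (c := c) (Reduce_finrank _) θ
  have a2' : (({z | z ∈ Tri (Fin (m + 1 + c) → F) c 4 θ ∧ ε ≤ bias z.2.2}.ncard : ℕ) : ℝ) ≤
      Nn (m + 1 + c) 4 ε * 2 ^ (m + 1) +
        ({z | z ∈ Tri (Fin (m + 1 + c) → F) c 4 θ ∧ Two c θ z}.ncard : ℕ) := by exact_mod_cast a2
  have a3' : (({z | z ∈ Tri (Fin (m + 1 + c) → F) c 4 θ ∧ Two c θ z}.ncard : ℕ) : ℝ) * cP m 3 ≤
      (Tri (Fin (m + 1 + c) → F) c 4 θ).ncard *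
        (G (Fin (m + 1 + c) → F) c * 2 ^ (m + 1 + c) * Nn (m + 1) 4 θ) := by exact_mod_cast a3
  have a4 : (G (Fin (m + 1 + c) → F) c : ℝ) * 2 ^ (m + 1 + c) * Nn (m + 1) 4 θ ≤
      1 / 2 ^ t * cP m 3 := by
    have b1 := G_crude (Fin (m + 1 + c) → F) (n := m + 1) (c := c) (Reduce_finrank _)
    rw [one_div_mul_eq_div, le_div_iff₀ (by positivity), Reduce_cP_three]
    push_cast
    calc (G (Fin (m + 1 + c) → F) c : ℝ) * 2 ^ (m + 1 + c) * Nn (m + 1) 4 θ * 2 ^ t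
        ≤ 2 ^ (c * (m + 1 + 1)) * 2 ^ (m + 1 + c) * 2 ^ ((2 * h + 1) * (m + 1) + 2) * 2 ^ t := by
          gcongr
      _ ≤ _ := by
          rw [← pow_add, ← pow_add, ← pow_add]
          exact pow_le_pow_right₀ (by norm_num) (arith2 hc hh hn (by omega))
  have p0 : (0 : ℝ) < cP m 3 := by exact_mod_cast cP_pos _ _
  have a5 := a3'.trans (mul_le_mul_of_nonneg_left a4 (Nat.cast_nonneg _))
  rw [← mul_assoc] at a5
  have a6 := le_of_mul_le_mul_right a5 p0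
  have a7 : (1 : ℝ) / (γ ^ 2 * 2 ^ (m + 1)) ≤ 1 / 2 ^ t := by
    refine one_div_le_one_div_of_le (by positivity) ?_
    calc (2 : ℝ) ^ t = (1 / 2 ^ (s + c)) ^ 2 * 2 ^ (t + 2 * (s + c)) := by
          rw [pow_add _ t, mul_comm 2 (s + c), pow_mul]
          field_simp
      _ ≤ _ := by
          gcongr
          norm_num
  have a8 := a1.trans a2'
  rw [Reduce_tri] at a6 a8
  have hX : 0 ≤ Mult (m + 1) c * Nn (m + 1) 4 θ := mul_nonneg (Mult_nonneg _ _) (Nat.cast_nonneg _)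
  have hY : (0 : ℝ) ≤ 2 ^ (m + 1) * (Mult (m + 1) c * Nn (m + 1) 4 θ) := by positivity
  refine le_of_mul_le_mul_left ?_ (show (0 : ℝ) < 2 ^ (m + 1) by positivity)
  have a9 := mul_le_mul_of_nonneg_right a7 hY
  rw [← mul_left_comm, mul_comm (2 ^ (m + 1) : ℝ) (Nn (m + 1 + c) 4 ε : ℝ)]
  generalize (2 : ℝ) ^ (m + 1) * (Mult (m + 1) c * Nn (m + 1) 4 θ) = Y at *
  generalize (1 : ℝ) / (γ ^ 2 * 2 ^ (m + 1)) = u at *
  generalize (1 : ℝ) / 2 ^ t = x at *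
  linarith

theorem uni_nat {n c h s t : ℕ} (hc : 2 ^ 50 * c ≤ n) (hs : 2 ^ 50 * s ≤ n) (ht : 3 * t ≤ 2 * n)
    (ht2 : 2 ≤ t) {ε : ℝ} (h1 : (1 + 1 / 2 ^ (h + 1)) / 2 + 1 / 2 ^ s ≤ 2 ^ c * ε)
    (h2 : 2 ^ c * ε ≤ (1 + 1 / 2 ^ h) / 2 - 1 / 2 ^ s) :
    |(Nn (n + c) 4 ε : ℝ) /
      (2 ^ (c * (n + 1) + ∑ i ∈ Finset.range c, (1 + (n + i) + (n + i).choose 2)) / ps 0 c * Kh h n) -
        1| ≤ 4 * (1 / 2 ^ t) := by
  have p1 : (0 : ℝ) < 1 / 2 ^ (h + 1) := by positivity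
  have p2 : (1 : ℝ) / 2 ^ h = 2 * (1 / 2 ^ (h + 1)) := by rw [pow_succ]; field_simp
  have p3 : (1 : ℝ) / 2 ^ h ≤ 1 := by simpa using inv_pow_le (Nat.zero_le h)
  have p4 : (0 : ℝ) < 1 / 2 ^ s := by positivity
  have hhs : h + 1 < s := by
    by_contra hcon
    have := inv_pow_le (not_lt.1 hcon)
    linarith
  have hn : 2 ^ 50 ≤ n := by omega
  have c0 : (0 : ℝ) < 2 ^ c := by positivity
  have c1 : (c : ℝ) * (1 / 2 ^ (s + c)) < 1 / 2 ^ s := by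
    have : (c : ℝ) < 2 ^ c := by exact_mod_cast Nat.lt_two_pow_self
    rw [pow_add, ← div_div, mul_div_left_comm]
    exact mul_lt_of_lt_one_right p4 ((div_lt_one c0).2 this)
  have c2 : 0 ≤ (c : ℝ) * (1 / 2 ^ (s + c)) := by positivity
  have u1 := uni_up (t := t) hc hs (by omega) (by omega) (θ := 2 ^ c * ε - c * (1 / 2 ^ (s + c)))
    (by linarith) (by linarith)
  rw [sub_add_cancel, mul_div_cancel_left₀ _ c0.ne'] at u1
  have u2 := (K_uni (h := h) (n := n) (t := t) (by omega) (θ := 2 ^ c * ε - c * (1 / 2 ^ (s + c)))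
    (by linarith) (by linarith)).2
  have v0 := K_uni (h := h) (n := n) (t := t) (by omega) (θ := (1 + 1 / 2 ^ h) / 2) (by linarith) le_rfl
  have e1 : 2 ^ c * (ε + ((1 + 1 / 2 ^ h) / 2 / 2 ^ c - ε)) = (1 + 1 / 2 ^ h) / 2 := by
    rw [add_sub_cancel, mul_div_cancel₀ _ c0.ne']
  have x0 : (0 : ℝ) < 1 / 2 ^ t := by positivity
  have x1 : (1 : ℝ) / 2 ^ t ≤ 1 / 2 ^ 2 := inv_pow_le ht2
  have K0 := Kh_pos h n
  have v1 := uni_low (s := s) (h := h) (t := t) hc (by omega) hn (by omega) (ε := ε)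
    (γ := (1 + 1 / 2 ^ h) / 2 / 2 ^ c - ε)
    (by
      rw [pow_add, ← div_div, le_sub_iff_add_le, le_div_iff₀ c0, add_mul, div_mul_cancel₀ _ c0.ne']
      linarith)
    (by
      rw [e1, show (2 * h + 1) * n + 2 = (2 * h + 1) * n + 1 + 1 from rfl, pow_succ']
      exact v0.2.trans (mul_le_mul (by linarith) (Kh_le h n) K0.le (by norm_num)))
  rw [e1] at v1
  have g1 := G_up (Fin (n + c) → F) (Reduce_finrank _)
  have g2 := G_low (Fin (n + c) → F) (Reduce_finrank _)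
  have g3 := inv_pow_le (show t ≤ n by omega)
  have e2 : (∏ i ∈ Finset.range c, (cP (n + i) 3 : ℝ)) =
      2 ^ ∑ i ∈ Finset.range c, (1 + (n + i) + (n + i).choose 2) := by
    rw [← Finset.prod_pow_eq_pow_sum]
    refine Finset.prod_congr rfl fun i _ => ?_
    simp [cP, Finset.sum_range_succ]
  have q0 := (ps_bd 0 c).2.2
  have r0 := Reduce_prod_pos n c
  set M : ℝ := 2 ^ (c * n) / ps 0 c * 2 ^ c * ∏ i ∈ Finset.range c, (cP (n + i) 3 : ℝ) with hM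
  have e3 : (2 : ℝ) ^ (c * (n + 1) + ∑ i ∈ Finset.range c, (1 + (n + i) + (n + i).choose 2)) /
      ps 0 c = M := by
    rw [hM, e2, mul_add, mul_one, pow_add, pow_add]
    ring
  have M0 : 0 < M := by positivity
  have m1 : Mult n c ≤ M := by
    rw [Mult, hM]
    gcongr
  have m2 : (1 - 1 / 2 ^ t) * M ≤ Mult n c := by
    rw [Mult, hM, ← mul_assoc, ← mul_assoc]
    gcongr
    exact le_trans (mul_le_mul_of_nonneg_right (by linarith) (by positivity)) g2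
  rw [e3]
  have MK : 0 < M * Kh h n := mul_pos M0 K0
  have w1 : (Nn (n + c) 4 ε : ℝ) ≤ (1 + 1 / 2 ^ t) * (M * ((1 + 1 / 2 ^ t) * Kh h n)) :=
    u1.trans (by gcongr)
  have w2 : (1 - 2 * (1 / 2 ^ t)) * ((1 - 1 / 2 ^ t) * M * ((1 - 1 / 2 ^ t) * Kh h n)) ≤
      (Nn (n + c) 4 ε : ℝ) := by
    refine le_trans (mul_le_mul_of_nonneg_left ?_ (by linarith)) v1
    exact mul_le_mul m2 v0.1 (mul_nonneg (by linarith) K0.le) (Mult_nonneg n c)
  generalize (1 : ℝ) / 2 ^ t = x at *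
  rw [abs_le, le_sub_iff_add_le, le_div_iff₀ MK, sub_le_iff_le_add, div_le_iff₀ MK]
  constructor
  · refine le_trans ?_ w2
    rw [show (1 - 2 * x) * ((1 - x) * M * ((1 - x) * Kh h n)) =
      (1 - 2 * x) * ((1 - x) * (1 - x)) * (M * Kh h n) by ring]
    gcongr
    nlinarith [mul_nonneg (mul_nonneg x0.le x0.le) (show 0 ≤ 5 - 2 * x by linarith)]
  · refine w1.trans ?_
    rw [show (1 + x) * (M * ((1 + x) * Kh h n)) = (1 + x) * (1 + x) * (M * Kh h n) by ring]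
    gcongr
    nlinarith

theorem uni_main : ∃ κ : ℝ, 0 < κ ∧ ∀ (n c h : ℕ) (ε : ℝ), (c : ℝ) ≤ κ * n →
    (1 + 1 / 2 ^ (h + 1)) / 2 + (2 : ℝ) ^ (-(κ * n)) ≤ 2 ^ c * ε →
    2 ^ c * ε ≤ (1 + 1 / 2 ^ h) / 2 - (2 : ℝ) ^ (-(κ * n)) →
    |(Nn (n + c) 4 ε : ℝ) /
      (2 ^ (c * (n + 1) + ∑ i ∈ Finset.range c, (1 + (n + i) + (n + i).choose 2)) / ps 0 c * Kh h n) -
        1| ≤ (2 : ℝ) ^ (-(n : ℝ) / 2) := by
  refine ⟨1 / 2 ^ 51, by positivity, fun n c h ε hc h1 h2 => ?_⟩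
  set s := ⌈(1 / 2 ^ 51 : ℝ) * n⌉₊ with hs
  have s1 : (1 / 2 ^ 51 : ℝ) * n ≤ s := Nat.le_ceil _
  have s2 : (s : ℝ) < 1 / 2 ^ 51 * n + 1 := Nat.ceil_lt_add_one (by positivity)
  have s3 : (1 : ℝ) / 2 ^ s ≤ (2 : ℝ) ^ (-((1 / 2 ^ 51 : ℝ) * n)) := by
    rw [one_div ((2 : ℝ) ^ s), ← Real.rpow_natCast, ← Real.rpow_neg (by norm_num)]
    exact Real.rpow_le_rpow_of_exponent_le (by norm_num) (by linarith)
  have p1 : (0 : ℝ) < 1 / 2 ^ (h + 1) := by positivity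
  have p3 : (1 : ℝ) / 2 ^ h ≤ 1 := by simpa using inv_pow_le (Nat.zero_le h)
  have s4 : 2 ≤ s := by
    by_contra hcon
    have := inv_pow_le (show s ≤ 1 by omega)
    norm_num at this
    rw [← one_div] at this
    linarith
  have s5 : (2 : ℝ) ≤ s := by exact_mod_cast s4
  have s6 : 2 ^ 50 * s ≤ n := by
    have : (2 : ℝ) ^ 50 * s ≤ n := by linarith
    exact_mod_cast this
  have s7 : 2 ^ 50 * c ≤ n := by
    have : (2 : ℝ) ^ 50 * c ≤ n := by linarith [Nat.cast_nonneg (α := ℝ) n]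
    exact_mod_cast this
  refine (uni_nat (h := h) (t := n / 2 + 1 + 2) s7 s6 (by omega) (by omega) (by linarith)
    (by linarith)).trans ?_
  have e : 4 * ((1 : ℝ) / 2 ^ (n / 2 + 1 + 2)) = (2 ^ (n / 2 + 1))⁻¹ := by
    rw [pow_add _ _ 2]; field_simp; norm_num
  rw [e, ← Real.rpow_natCast, ← Real.rpow_neg (by norm_num)]
  refine Real.rpow_le_rpow_of_exponent_le (by norm_num) ?_
  have : (n : ℝ) ≤ 2 * ((n / 2 + 1 : ℕ) : ℝ) := by exact_mod_cast (by omega : n ≤ 2 * (n / 2 + 1))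
  linarith

end Pool.Agent.P.MP_cb6780_lc
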