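import Pool.Agent.P.MP_cb6780_lc.STail
import Pool.Agent.P.MP_cb6780_lc.UFin

set_option autoImplicit false

/-! Moments of the bias of a random cubic function, level by level. -/

namespace Pool.Agent.P.MP_cb6780_lc

open Module

/-- sum of the `w`-th powers of the positive biases -/
noncomputable def Spw (m w : ℕ) : ℝ := cP m 4 * av fun h : P (Fin m → F) 4 => max (bias h.1) 0 ^ w

/-- the main term -/
noncomputable def Zs (m s w : ℕ) : ℝ := ∑ c ∈ Finset.range (s + 1), Mult (m - c) c / 2 ^ (c * w)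

/-- indicator of `θ ≤ b` -/
noncomputable def ge1 (θ b : ℝ) : ℝ := if θ ≤ b then 1 else 0

theorem ge1_nonneg (θ b : ℝ) : 0 ≤ ge1 θ b := by unfold ge1; split_ifs <;> norm_num

theorem ge1_pos {θ b : ℝ} (h : θ ≤ b) : ge1 θ b = 1 := if_pos h

theorem ge1_neg {θ b : ℝ} (h : b < θ) : ge1 θ b = 0 := if_neg (not_le.2 h)

theorem av_ge1 (m : ℕ) (θ : ℝ) :
    cP m 4 * av (fun h : P (Fin m → F) 4 => ge1 θ (bias h.1)) = Nn m 4 θ := by
  have h1 : (fun h : P (Fin m → F) 4 => ge1 θ (bias h.1)) =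
      {h : P (Fin m → F) 4 | θ ≤ bias h.1}.indicator fun _ => (1 : ℝ) := by
    funext h
    simp [ge1, Set.indicator_apply]
  have h2 : (cP m 4 : ℝ) ≠ 0 := Nat.cast_ne_zero.2 (cP_pos _ _).ne'
  rw [h1, av_indicator, Card_std, mul_div_cancel₀ _ h2, Nat.cast_inj, Nn, N,
    ← Set.ncard_image_of_injective _ Subtype.val_injective]
  congr 1
  ext f
  exact ⟨fun ⟨g, a, b⟩ => b ▸ ⟨g.2, a⟩, fun ⟨a, b⟩ => ⟨⟨f, a⟩, b, rfl⟩⟩

theorem two_Sp (m : ℕ) {w : ℕ} (hw : Even w) (h0 : w ≠ 0) :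
    cP m 4 * av (fun h : P (Fin m → F) 4 => bias h.1 ^ w) = 2 * Spw m w := by
  have h1 : ∀ b : ℝ, b ^ w = max b 0 ^ w + max (-b) 0 ^ w := fun b => by
    rcases le_total 0 b with h | h
    · rw [max_eq_left h, max_eq_right (by linarith), zero_pow h0, add_zero]
    · rw [max_eq_right h, max_eq_left (by linarith), zero_pow h0, zero_add, hw.neg_pow]
  have h2 := av_P_shift (V := Fin m → F) (d := 4) (p := 1)
    (P_mono (by norm_num) (mem_P_one.2 ⟨1, rfl⟩)) fun f => max (bias f) 0 ^ w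
  simp only [bias_add_one] at h2
  rw [funext fun h : P (Fin m → F) 4 => h1 (bias h.1), av_add, h2, Spw]
  ring

theorem exists_level {lam b : ℝ} {c0 : ℕ} (h0 : b ≤ lam / 2 ^ c0) (k : ℕ)
    (h1 : lam / 2 ^ (c0 + k) < b) :
    ∃ c, c0 ≤ c ∧ c < c0 + k ∧ lam / 2 ^ (c + 1) ≤ b ∧ b ≤ lam / 2 ^ c := by
  induction k with
  | zero => exact absurd h0 (not_le.2 h1)
  | succ k ih =>
    rcases lt_or_ge (lam / 2 ^ (c0 + k)) b with h | h
    · obtain ⟨c, a1, a2, a3⟩ := ih h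
      exact ⟨c, a1, by omega, a3⟩
    · exact ⟨c0 + k, by omega, by omega, h1.le, h⟩

theorem pt_up {b η : ℝ} (hb : b ≤ 1) (h0 : 0 ≤ η) (h1 : η ≤ 1) {s m : ℕ} (hs : s ≤ m) (w : ℕ) :
    max b 0 ^ w ≤ ∑ c ∈ Finset.range (s + 1), (((1 + η) / 2 ^ c) ^ w * ge1 (7 / 8 / 2 ^ c) b +
        (7 / 8 / 2 ^ c) ^ w * ge1 ((1 + η) / 2 / 2 ^ c) b) +
      (∑ c ∈ Finset.Ico s m, (1 / 2 ^ c) ^ w * ge1 (1 / 2 ^ (c + 1)) b + (1 / 2 ^ m) ^ w) := by
  have g := ge1_nonneg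
  have n1 : ∀ c ∈ Finset.range (s + 1), 0 ≤ ((1 + η) / 2 ^ c) ^ w * ge1 (7 / 8 / 2 ^ c) b +
      (7 / 8 / 2 ^ c) ^ w * ge1 ((1 + η) / 2 / 2 ^ c) b := fun c _ =>
    add_nonneg (mul_nonneg (by positivity) (g _ _)) (mul_nonneg (by positivity) (g _ _))
  have n2 : ∀ c ∈ Finset.Ico s m, 0 ≤ (1 / 2 ^ c : ℝ) ^ w * ge1 (1 / 2 ^ (c + 1)) b := fun c _ =>
    mul_nonneg (by positivity) (g _ _)
  have n3 : (0 : ℝ) ≤ (1 / 2 ^ m) ^ w := by positivity
  have key : ∀ x : ℝ, b ≤ x → 0 ≤ x → max b 0 ^ w ≤ x ^ w := fun x a1 a2 =>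
    pow_le_pow_left₀ (le_max_right _ _) (max_le a1 a2) w
  rcases le_or_gt b (1 / 2 ^ m) with h | h
  · linarith [key _ h (by positivity), Finset.sum_nonneg n1, Finset.sum_nonneg n2]
  rcases le_or_gt b (1 / 2 ^ s) with h' | h'
  · obtain ⟨c, a1, a2, a3, a4⟩ := exists_level h' (m - s) (by rwa [Nat.add_sub_cancel' hs])
    have := Finset.single_le_sum n2 (Finset.mem_Ico.2 ⟨a1, by omega⟩)
    rw [ge1_pos a3, mul_one] at this
    linarith [key _ a4 (by positivity), Finset.sum_nonneg n1]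
  · obtain ⟨c, -, a2, a3, a4⟩ := exists_level (lam := 1 + η) (b := b) (c0 := 0)
      (by rw [pow_zero, div_one]; linarith) (s + 1) (lt_of_le_of_lt (by
        rw [zero_add, pow_succ', ← div_div]
        exact div_le_div_of_nonneg_right (by linarith) (by positivity)) h')
    have := Finset.single_le_sum n1 (Finset.mem_range.2 (show c < s + 1 by omega))
    rw [pow_succ', ← div_div] at a3
    rw [ge1_pos a3, mul_one] at this
    rcases le_or_gt (7 / 8 / 2 ^ c) b with h2 | h2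
    · rw [ge1_pos h2, mul_one] at this
      have n4 : (0 : ℝ) ≤ (7 / 8 / 2 ^ c) ^ w := by positivity
      linarith [key _ a4 (by positivity), Finset.sum_nonneg n2]
    · rw [ge1_neg h2, mul_zero, zero_add] at this
      linarith [key _ h2.le (by positivity), Finset.sum_nonneg n2]

theorem pt_low {b η : ℝ} (h0 : 0 ≤ η) (h1 : η ≤ 1 / 3) (s w : ℕ) :
    ∑ c ∈ Finset.range (s + 1), ((1 - η) / 2 ^ c) ^ w *
      (ge1 ((1 - η) / 2 ^ c) b - ge1 ((1 + η) / 2 ^ c) b) ≤ max b 0 ^ w := by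
  have z : ∀ c : ℕ, ¬ ((1 - η) / 2 ^ c ≤ b ∧ b < (1 + η) / 2 ^ c) →
      ((1 - η) / 2 ^ c) ^ w * (ge1 ((1 - η) / 2 ^ c) b - ge1 ((1 + η) / 2 ^ c) b) = 0 := by
    intro c hc
    have m : (1 - η) / 2 ^ c ≤ (1 + η) / 2 ^ c :=
      div_le_div_of_nonneg_right (by linarith) (by positivity)
    rcases le_or_gt ((1 + η) / 2 ^ c) b with h | h
    · rw [ge1_pos h, ge1_pos (m.trans h), sub_self, mul_zero]
    · rw [ge1_neg h, ge1_neg (not_le.1 fun h' => hc ⟨h', h⟩), sub_self, mul_zero]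
  have d : ∀ c e : ℕ, c < e → (1 + η) / 2 ^ e ≤ (1 - η) / 2 ^ c := fun c e h => by
    have a1 : (2 : ℝ) ^ (c + 1) ≤ 2 ^ e := pow_le_pow_right₀ (by norm_num) h
    refine (div_le_div_of_nonneg_left (by linarith) (by positivity) a1).trans ?_
    rw [pow_succ', ← div_div]
    exact div_le_div_of_nonneg_right (by linarith) (by positivity)
  by_cases h : ∃ c : ℕ, (1 - η) / 2 ^ c ≤ b ∧ b < (1 + η) / 2 ^ c
  · obtain ⟨c, a1, a2⟩ := h
    have p : 0 ≤ (1 - η) / 2 ^ c := div_nonneg (by linarith) (by positivity)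
    have a3 : ((1 - η) / 2 ^ c) ^ w ≤ max b 0 ^ w :=
      pow_le_pow_left₀ p (a1.trans (le_max_left _ _)) w
    have a4 : ∀ e, e ≠ c → ((1 - η) / 2 ^ e) ^ w *
        (ge1 ((1 - η) / 2 ^ e) b - ge1 ((1 + η) / 2 ^ e) b) = 0 := fun e he => z e fun h => by
      rcases lt_or_gt_of_ne he with h' | h'
      · linarith [d e c h', h.1]
      · linarith [d c e h', h.2]
    by_cases hc : c ∈ Finset.range (s + 1)
    · rw [Finset.sum_eq_single_of_mem c hc fun e _ he => a4 e he, ge1_pos a1, ge1_neg a2, sub_zero,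
        mul_one]
      exact a3
    · rw [Finset.sum_eq_zero fun e he => a4 e fun h => hc (h ▸ he)]
      positivity
  · rw [Finset.sum_eq_zero fun c _ => z c fun hc => h ⟨c, hc⟩]
    positivity

theorem c_small (s c : ℕ) : (c : ℝ) * (1 / 2 ^ (s + c)) ≤ 1 / 2 ^ s := by
  have h : (c : ℝ) ≤ 2 ^ c := by exact_mod_cast (Nat.lt_two_pow_self (n := c)).le
  rw [mul_one_div, div_le_div_iff₀ (by positivity) (by positivity), one_mul, pow_add, mul_comm]
  exact mul_le_mul_of_nonneg_left h (by positivity)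

theorem lev_U1 {m s c : ℕ} (hs : 2 ^ 51 * s ≤ m) (h4 : 4 ≤ s) (hc : c ≤ s) :
    (Nn m 4 (7 / 8 / 2 ^ c) : ℝ) ≤ (1 + 1 / 2 ^ (m / 2)) * Mult (m - c) c := by
  obtain ⟨n, rfl⟩ : ∃ n, m = n + c := ⟨m - c, by omega⟩
  have a1 := uni_up (n := n) (c := c) (s := s) (t := (n + c) / 2) (by omega) (by omega) (by omega)
    (by omega) (θ := 13 / 16) (by norm_num) (by norm_num)
  have a2 : Nn n 4 (13 / 16) = 1 := N_h0 (V := Fin n → F) (by norm_num) (by norm_num)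
  rw [a2, Nat.cast_one, mul_one] at a1
  rw [Nat.add_sub_cancel]
  refine le_trans (Nat.cast_le.2 (N_anti 4 ?_)) a1
  have a3 := (c_small s c).trans (inv_pow_le h4)
  exact div_le_div_of_nonneg_right (by norm_num at a3 ⊢; linarith) (by positivity)

theorem lev_U2 {m s c : ℕ} (hs : 2 ^ 51 * s ≤ m) (h4 : 4 ≤ s) (hc : c ≤ s) :
    (Nn m 4 ((1 + 4 / 2 ^ s) / 2 / 2 ^ c) : ℝ) ≤ 2 ^ (2 * s * m + 3) * Mult (m - c) c := by
  obtain ⟨n, rfl⟩ : ∃ n, m = n + c := ⟨m - c, by omega⟩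
  obtain ⟨h, rfl⟩ : ∃ h, s = h + 1 := ⟨s - 1, by omega⟩
  have p1 : (0 : ℝ) < 1 / 2 ^ (h + 1) := by positivity
  have p2 : (1 : ℝ) / 2 ^ h = 2 * (1 / 2 ^ (h + 1)) := by rw [pow_succ]; field_simp
  have p3 : (1 : ℝ) / 2 ^ h ≤ 1 := by simpa using inv_pow_le (Nat.zero_le h)
  have a1 := uni_up (n := n) (c := c) (s := h + 1) (t := 0) (by omega) (by omega) (by omega)
    (by omega) (θ := (1 + 1 / 2 ^ h) / 2) (by linarith) (by linarith)
  have a2 := (K_uni (h := h) (n := n) (t := 0) (by omega) (θ := (1 + 1 / 2 ^ h) / 2) (by linarith)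
    le_rfl).2
  have a3 := Kh_le h n
  have a4 : (2 : ℝ) ^ ((2 * h + 1) * n + 1) * 4 ≤ 2 ^ (2 * (h + 1) * (n + c) + 3) := by
    rw [show (4 : ℝ) = 2 ^ 2 by norm_num, ← pow_add]
    exact pow_le_pow_right₀ (by norm_num) (by nlinarith [Nat.zero_le (h * c)])
  have a5 := Mult_nonneg n c
  rw [Nat.add_sub_cancel]
  refine le_trans (Nat.cast_le.2 (N_anti 4 ?_)) (a1.trans ?_)
  · refine div_le_div_of_nonneg_right ?_ (by positivity)
    have := c_small (h + 1) c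
    rw [show (4 : ℝ) / 2 ^ (h + 1) = 4 * (1 / 2 ^ (h + 1)) by ring]
    linarith
  · rw [pow_zero] at a2 ⊢
    have a6 : (Nn n 4 ((1 + 1 / 2 ^ h) / 2) : ℝ) * 2 ≤ 2 ^ (2 * (h + 1) * (n + c) + 3) := by linarith
    nlinarith [mul_le_mul_of_nonneg_left a6 a5]

theorem lev_L1 {m s c : ℕ} (hs : 2 ^ 51 * s ≤ m) (h4 : 4 ≤ s) (hc : c ≤ s) :
    (1 - 2 * (1 / 2 ^ (m / 2))) * Mult (m - c) c ≤ Nn m 4 ((1 - 4 / 2 ^ s) / 2 ^ c) := by
  obtain ⟨n, rfl⟩ : ∃ n, m = n + c := ⟨m - c, by omega⟩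
  have e : (2 : ℝ) ^ c * ((1 - 4 / 2 ^ s) / 2 ^ c + 1 / 2 ^ (s + c)) = 1 - 3 * (1 / 2 ^ s) := by
    rw [pow_add]; field_simp; ring
  have p1 : (0 : ℝ) < 1 / 2 ^ s := by positivity
  have p2 := inv_pow_le h4
  have a2 : Nn n 4 (1 - 3 * (1 / 2 ^ s)) = 1 :=
    N_h0 (V := Fin n → F) (by norm_num at p2 ⊢; linarith) (by linarith)
  have a1 := uni_low (n := n) (c := c) (s := s) (h := 0) (t := (n + c) / 2) (by omega) (by omega)
    (by omega) (by omega) (ε := (1 - 4 / 2 ^ s) / 2 ^ c) le_rfl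
    (by rw [e, a2, Nat.cast_one]; exact one_le_pow₀ (by norm_num))
  rw [e, a2, Nat.cast_one, mul_one] at a1
  rwa [Nat.add_sub_cancel]

theorem Mult_step {n c k : ℕ} (h : c * (n + 2) + k ≤ n + 1 + n.choose 2) :
    2 ^ k * Mult (n + 1) c ≤ Mult n (c + 1) := by
  have g1 : (1 : ℝ) ≤ G (Fin (n + (c + 1)) → F) (c + 1) := by exact_mod_cast one_le_G n (c + 1)
  have g2 := G_crude (Fin (n + 1 + c) → F) (n := n + 1) (c := c) (Reduce_finrank _)
  have g3 := (Reduce_prod_pos (n + 1) c).le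
  have g4 : (2 : ℝ) ^ k * 2 ^ (c * (n + 1 + 1)) ≤ cP n 3 := by
    rw [Reduce_cP_three, ← pow_add]
    push_cast
    exact pow_le_pow_right₀ (by norm_num) (by rw [add_comm k]; exact h)
  unfold Mult
  rw [Finset.prod_range_succ', add_zero]
  simp only [← add_assoc, add_right_comm n _ 1]
  set A := ∏ i ∈ Finset.range c, (cP (n + 1 + i) 3 : ℝ)
  calc _ ≤ 2 ^ k * (2 ^ (c * (n + 1 + 1)) * 2 ^ c * A) := by gcongr
    _ = 1 * 2 ^ c * (A * (2 ^ k * 2 ^ (c * (n + 1 + 1)))) := by ring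
    _ ≤ _ := by
      refine mul_le_mul (mul_le_mul ?_ (pow_le_pow_right₀ (by norm_num) (by omega)) (by positivity)
        (by positivity)) (mul_le_mul_of_nonneg_left g4 g3) (by positivity) (by positivity)
      exact g1

theorem lev_L2 {m s c : ℕ} (hs : 2 ^ 51 * s ≤ m) (h4 : 4 ≤ s) (hc : c ≤ s) :
    (Nn m 4 ((1 + 4 / 2 ^ s) / 2 ^ c) : ℝ) ≤ 1 / 2 ^ (m / 2) * Mult (m - c) c := by
  rcases c with _ | c
  · have h : Nn m 4 ((1 + 4 / 2 ^ s) / 2 ^ 0) = 0 := by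
      refine (Set.ncard_eq_zero (Set.toFinite _)).2 (Set.eq_empty_of_forall_notMem fun f hf => ?_)
      have h1 := hf.2.trans ((le_abs_self _).trans (abs_bias_le f))
      have h2 : (0 : ℝ) < 4 / 2 ^ s := by positivity
      rw [pow_zero, div_one] at h1
      linarith
    rw [h, Nat.cast_zero]
    exact mul_nonneg (by positivity) (Mult_nonneg _ _)
  have a1 := lev_U2 hs h4 (show c ≤ s by omega)
  obtain ⟨n, rfl⟩ : ∃ n, m = n + (c + 1) := ⟨m - (c + 1), by omega⟩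
  rw [show n + (c + 1) - c = n + 1 by omega] at a1
  rw [pow_succ', ← div_div, Nat.add_sub_cancel, one_div, inv_mul_eq_div,
    le_div_iff₀ (by positivity)]
  refine (mul_le_mul_of_nonneg_right a1 (by positivity)).trans ?_
  rw [mul_right_comm, ← pow_add]
  refine Mult_step ?_
  have b1 := sq_le_choose n
  have b2 : 100 * c * (n + 2) ≤ n * (2 * n) := Nat.mul_le_mul (by omega) (by omega)
  have b3 : 100 * s * (n + (c + 1)) ≤ n * (2 * n) := Nat.mul_le_mul (by omega) (by omega)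
  have b4 : 1000 * n ≤ n * n := Nat.mul_le_mul_right _ (by omega)
  have b5 : (n + (c + 1)) / 2 ≤ n := by omega
  have b6 : 1 ≤ n := by omega
  nlinarith

theorem Zs_ge (m s w : ℕ) : 1 ≤ Zs m s w := by
  have h := Finset.single_le_sum (f := fun c => Mult (m - c) c / 2 ^ (c * w))
    (fun c _ => div_nonneg (Mult_nonneg _ _) (by positivity))
    (Finset.mem_range.2 (Nat.succ_pos s))
  have h1 := Reduce_prod_le (m - 0) 0
  rw [Finset.prod_range_zero] at h1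
  simp only [zero_mul, pow_zero, div_one] at h
  exact h1.trans h

theorem Sp_up {m s w : ℕ} (hs : 2 ^ 51 * s ≤ m) (h4 : 4 ≤ s)
    (hT : ∀ c, s ≤ c → (Nn m 4 (1 / 2 ^ (c + 1)) : ℝ) * 2 ^ (2 * m) ≤ 2 ^ (c * w))
    (hC : (cP m 4 : ℝ) * 2 ^ (2 * m) ≤ 2 ^ (m * w)) :
    Spw m w ≤ ((1 + 1 / 2 ^ (m / 2)) * (1 + 4 / 2 ^ s) ^ w + 2 ^ (2 * s * m + 3) * (7 / 8) ^ w) *
      Zs m s w + (m + 1) / 2 ^ (2 * m) := by
  have p1 : (0 : ℝ) < 4 / 2 ^ s := by positivity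
  have p2 : (4 : ℝ) / 2 ^ s ≤ 1 := by
    have := inv_pow_le h4
    rw [show (4 : ℝ) / 2 ^ s = 4 * (1 / 2 ^ s) by ring]
    norm_num at this ⊢
    linarith
  have a1 := av_mono fun h : P (Fin m → F) 4 => pt_up
    ((le_abs_self _).trans (abs_bias_le h.1)) p1.le p2 (show s ≤ m by omega) w
  refine (mul_le_mul_of_nonneg_left a1 (Nat.cast_nonneg _)).trans ?_
  rw [av_add, av_add, av_const, Res2_av_sum, Res2_av_sum, mul_add, mul_add, Finset.mul_sum,
    Finset.mul_sum, Zs, Finset.mul_sum]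
  refine add_le_add (Finset.sum_le_sum fun c hc => ?_) ?_
  · have hc' : c ≤ s := Nat.lt_succ_iff.1 (Finset.mem_range.1 hc)
    rw [av_add, av_mul_left, av_mul_left, mul_add, mul_left_comm, av_ge1, mul_left_comm, av_ge1]
    refine (add_le_add (mul_le_mul_of_nonneg_left (lev_U1 hs h4 hc') (by positivity))
      (mul_le_mul_of_nonneg_left (lev_U2 hs h4 hc') (by positivity))).trans (le_of_eq ?_)
    rw [div_pow _ (2 ^ c), div_pow _ (2 ^ c), ← pow_mul]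
    ring
  · have a2 : ∀ c ∈ Finset.Ico s m, cP m 4 * av (fun h : P (Fin m → F) 4 =>
        (1 / 2 ^ c) ^ w * ge1 (1 / 2 ^ (c + 1)) (bias h.1)) ≤ 1 / 2 ^ (2 * m) := fun c hc => by
      rw [av_mul_left, mul_left_comm, av_ge1, div_pow, one_pow, ← pow_mul, one_div, inv_mul_eq_div,
        div_le_div_iff₀ (by positivity) (by positivity), one_mul]
      exact hT c (Finset.mem_Ico.1 hc).1
    have a3 := Finset.sum_le_card_nsmul _ _ _ a2
    rw [Nat.card_Ico, nsmul_eq_mul] at a3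
    have a4 : ((m - s : ℕ) : ℝ) ≤ m := by exact_mod_cast Nat.sub_le m s
    have a5 : (cP m 4 : ℝ) * (1 / 2 ^ m) ^ w ≤ 1 / 2 ^ (2 * m) := by
      rw [div_pow, one_pow, ← pow_mul, mul_one_div,
        div_le_div_iff₀ (by positivity) (by positivity), one_mul]
      exact hC
    have a6 := mul_le_mul_of_nonneg_right a4 (show (0 : ℝ) ≤ 1 / 2 ^ (2 * m) by positivity)
    rw [show ((m : ℝ) + 1) / 2 ^ (2 * m) = m * (1 / 2 ^ (2 * m)) + 1 / 2 ^ (2 * m) by ring]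
    linarith

theorem Sp_low {m s : ℕ} (hs : 2 ^ 51 * s ≤ m) (h4 : 4 ≤ s) (w : ℕ) :
    (1 - 3 * (1 / 2 ^ (m / 2))) * (1 - 4 / 2 ^ s) ^ w * Zs m s w ≤ Spw m w := by
  have p1 : (0 : ℝ) < 4 / 2 ^ s := by positivity
  have p2 : (4 : ℝ) / 2 ^ s ≤ 1 / 3 := by
    have := inv_pow_le h4
    rw [show (4 : ℝ) / 2 ^ s = 4 * (1 / 2 ^ s) by ring]
    norm_num at this ⊢
    linarith
  have a1 := av_mono fun h : P (Fin m → F) 4 => pt_low (b := bias h.1) p1.le p2 s w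
  refine le_trans ?_ (mul_le_mul_of_nonneg_left a1 (Nat.cast_nonneg _))
  rw [Res2_av_sum, Finset.mul_sum, Zs, Finset.mul_sum]
  refine Finset.sum_le_sum fun c hc => ?_
  have hc' : c ≤ s := Nat.lt_succ_iff.1 (Finset.mem_range.1 hc)
  rw [av_mul_left, av_sub, mul_left_comm, mul_sub, av_ge1, av_ge1]
  have a2 := sub_le_sub (lev_L1 hs h4 hc') (lev_L2 hs h4 hc')
  have p3 : 0 ≤ ((1 - 4 / 2 ^ s) / 2 ^ c : ℝ) ^ w :=
    pow_nonneg (div_nonneg (by linarith) (by positivity)) _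
  refine le_trans (le_of_eq ?_) (mul_le_mul_of_nonneg_left a2 p3)
  rw [div_pow _ (2 ^ c), ← pow_mul]
  ring

end Pool.Agent.P.MP_cb6780_lc
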