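import Pool.Agent.P.MP_cb6780_lc.SSeq

set_option autoImplicit false
set_option linter.unusedSectionVars false

/-! Quadratic functions whose forms have large kernels after several fixed shifts. -/

namespace Pool.Agent.P.MP_cb6780_lc

open Module

variable {W : Type} [AddCommGroup W] [Module F W] [Finite W]

/-- kernel of the form of `q` shifted by `A` -/
noncomputable def kr (q : W → F) (A : Bil W) : Submodule F W := LinearMap.ker (bf q + A)

theorem ker_count (W0 : Submodule F W) :
    {r : W → F | r ∈ P W 3 ∧ W0 ≤ LinearMap.ker (bf r)}.ncard ≤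
      cP (finrank F W - finrank F W0) 3 * 2 ^ (finrank F W0 + 1) := by
  have : Module.Finite F W := Module.Finite.of_finite
  obtain ⟨C, hC⟩ := Submodule.exists_isCompl W0
  have hd : finrank F C = finrank F W - finrank F W0 := by
    have := Submodule.finrank_add_eq_of_isCompl hC
    omega
  have h2 : cP (finrank F W0) 2 = 2 ^ (finrank F W0 + 1) := by
    simp [cP, Finset.sum_range_succ, add_comm]
  have key : ∀ r ∈ P W 3, W0 ≤ LinearMap.ker (bf r) → ∀ x ∈ W0, ∀ y : W,
      r (x + y) = r x + r y + r 0 := by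
    intro r hr hk x hx y
    have h0 : bf r x y = 0 := by rw [LinearMap.mem_ker.1 (hk hx)]; rfl
    rw [bf_apply hr x y 0] at h0
    simp only [D_apply, zero_add] at h0
    have h : ∀ a b c d : F, a + b + (c + d) = 0 → a = b + c + d := by decide
    exact h _ _ _ _ h0
  rw [← hd, ← h2, ← ncard_P (V := C) 3, ← ncard_P (V := W0) 2, ← Set.ncard_prod]
  refine Set.ncard_le_ncard_of_injOn (fun r => (res C 0 r, res W0 0 r)) ?_ ?_ (Set.toFinite _)
  · rintro r ⟨hr, hk⟩
    refine ⟨res_mem_P hr C 0, (bf_eq_zero (res_mem_P hr W0 0)).1 ?_⟩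
    rw [bf_res hr]
    ext x y
    rw [pull_apply, Submodule.subtype_apply, LinearMap.mem_ker.1 (hk x.2)]
    rfl
  · rintro r ⟨hr, hk⟩ r' ⟨hr', hk'⟩ h
    have a1 : ∀ y ∈ C, r y = r' y := fun y hy => by
      simpa only [res_apply, add_zero] using congrFun (congrArg Prod.fst h) ⟨y, hy⟩
    have a2 : ∀ y ∈ W0, r y = r' y := fun y hy => by
      simpa only [res_apply, add_zero] using congrFun (congrArg Prod.snd h) ⟨y, hy⟩
    funext z
    have hz : z ∈ W0 ⊔ C := by rw [hC.sup_eq_top]; trivial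
    obtain ⟨x, hx, y, hy, rfl⟩ := Submodule.mem_sup.1 hz
    rw [key r hr hk x hx, key r' hr' hk' x hx, a1 y hy, a2 x hx, a2 0 W0.zero_mem]

theorem rk_pull_ge (W0 : Submodule F W) (β : Bil W) :
    finrank F W0 + finrank F W0 ≤
      rk (pull W0.subtype β) + finrank F (LinearMap.ker β) + finrank F W := by
  have : Module.Finite F W := Module.Finite.of_finite
  have e0 := rk_ker (pull W0.subtype β)
  set K := LinearMap.ker (pull W0.subtype β) with hK
  let ψ : K →ₗ[F] Dual F W := β.comp (W0.subtype.comp K.subtype)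
  have e1 : finrank F (LinearMap.range ψ) + finrank F (LinearMap.ker ψ) = finrank F K :=
    LinearMap.finrank_range_add_finrank_ker ψ
  have e2 : finrank F (LinearMap.range ψ) ≤ finrank F W0.dualAnnihilator := by
    refine Submodule.finrank_mono ?_
    rintro _ ⟨x, rfl⟩
    rw [Submodule.mem_dualAnnihilator]
    intro w hw
    exact LinearMap.congr_fun (LinearMap.mem_ker.1 x.2) ⟨w, hw⟩
  have e3 := Subspace.finrank_add_finrank_dualAnnihilator_eq W0
  have e4 : finrank F (LinearMap.ker ψ) ≤ finrank F (LinearMap.ker β) := by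
    let φ : LinearMap.ker ψ →ₗ[F] LinearMap.ker β :=
      (W0.subtype.comp (K.subtype.comp (LinearMap.ker ψ).subtype)).codRestrict _ fun x => x.2
    refine LinearMap.finrank_le_finrank_of_injective (f := φ) fun x y h => ?_
    have h1 : (φ x : W) = φ y := congrArg Subtype.val h
    exact Subtype.ext (Subtype.ext (Subtype.ext h1))
  omega

theorem dbl {α β : Type} [Finite α] [Finite β] (Q : Set α) (T : α → Set β) (wt : β → ℝ)
    (h0 : ∀ x, 0 ≤ wt x) {a M : ℝ} (h1 : ∀ q ∈ Q, a ≤ av ((T q).indicator wt))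
    (h2 : ∀ x, ({q | q ∈ Q ∧ x ∈ T q}.ncard : ℝ) ≤ M) : Q.ncard * a ≤ M * av wt := by
  classical
  have := Fintype.ofFinite α
  have e1 : (Q.ncard : ℝ) * a = ∑ _q ∈ Q.toFinset, a := by
    rw [Finset.sum_const, nsmul_eq_mul, Set.ncard_eq_toFinset_card']
  rw [e1, ← av_mul_left]
  refine (Finset.sum_le_sum fun q hq => h1 q (Set.mem_toFinset.1 hq)).trans ?_
  rcases isEmpty_or_nonempty β with hβ | hβ
  · simp [av]
  rw [← Res2_av_sum]
  refine av_mono fun x => ?_
  have e2 : ∑ q ∈ Q.toFinset, (T q).indicator wt x =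
      ({q | q ∈ Q ∧ x ∈ T q}.ncard : ℝ) * wt x := by
    simp only [Set.indicator_apply]
    rw [← Finset.sum_filter, Finset.sum_const, nsmul_eq_mul, Set.ncard_eq_toFinset_card']
    congr 3
    ext q
    simp
  rw [e2]
  exact mul_le_mul_of_nonneg_right (h2 x) (h0 x)

theorem kr_eq {q : W → F} {A : Bil W} {x : W} (h : x ∈ kr q A) : bf q x = A x := by
  have h1 : bf q x + A x = 0 := h
  have h2 := add_self_V (V := Dual F W) (A x)
  exact add_right_cancel (h1.trans h2.symm)

/-- forward and backward ranks cover the rank of the shifted form on `W0` -/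
theorem rank_two {n : ℕ} (B : Fin n → Bil W) (W0 : Submodule F W) (hn : finrank F W0 = n)
    {q : W → F} {x : Fin n → W0} (hx : LinearIndependent F x) (hk : ∀ i, (x i : W) ∈ kr q (B i))
    (j : Fin n) :
    n + n ≤ finrank F (Lam (fun i => pull W0.subtype (B i)) j x) +
      finrank F (Lam (ι := (Fin n)ᵒᵈ) (fun i => pull W0.subtype (B i)) j x) +
        finrank F (kr q (B j)) + finrank F W := by
  have : Module.Finite F W0 := Module.Finite.of_finite
  have h1 := rk_pull_ge W0 (bf q + B j)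
  rw [hn] at h1
  have h2 : Submodule.span F (Set.range x) = ⊤ :=
    hx.span_eq_top_of_card_eq_finrank' (by rw [hn, Fintype.card_fin])
  have h3 : ∀ i, pull W0.subtype (bf q + B j) (x i) =
      (pull W0.subtype (B i) + pull W0.subtype (B j)) (x i) := fun i => by
    ext y
    simp only [pull_apply, LinearMap.add_apply, Submodule.subtype_apply, kr_eq (hk i)]
  have h4 : LinearMap.range (pull W0.subtype (bf q + B j)) ≤
      Lam (fun i => pull W0.subtype (B i)) j x ⊔
        Lam (ι := (Fin n)ᵒᵈ) (fun i => pull W0.subtype (B i)) j x := by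
    rw [LinearMap.range_eq_map, ← h2, Submodule.map_span_le]
    rintro _ ⟨i, rfl⟩
    rw [h3]
    rcases lt_trichotomy i j with h | h | h
    · exact Submodule.mem_sup_left (Submodule.subset_span ⟨i, h, rfl⟩)
    · rw [h, add_self_V (V := Bil W0)]
      exact Submodule.zero_mem _
    · exact Submodule.mem_sup_right (Submodule.subset_span ⟨i, h, rfl⟩)
  have h5 := (Submodule.finrank_mono h4).trans (Submodule.finrank_add_le_finrank_add_finrank _ _)
  exact h1.trans (Nat.add_le_add_right (Nat.add_le_add_right h5 _) _)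

theorem level_pat {n κ H : ℕ} (B : Fin n → Bil W) (hB : ∀ i x y, B i x y = B i y x)
    (W0 : Submodule F W) (hn : finrank F W0 = n) (hH : 2 * H ≤ n * (κ + finrank F W)) :
    {q : W → F | q ∈ P W 3 ∧ (∀ i, κ ≤ finrank F (kr q (B i)) ∧ kr q (B i) ≤ W0) ∧
        ∃ x : Fin n → W, LinearIndependent F x ∧ ∀ i, x i ∈ kr q (B i)}.ncard * 2 ^ H ≤
      2 ^ (n * finrank F W + 2 * n + 2) * cP (finrank F W - n) 3 := by
  have : Module.Finite F W := Module.Finite.of_finite
  obtain ⟨c, hc⟩ : ∃ c, finrank F W = n + c := ⟨_, (Nat.add_sub_cancel' (hn ▸ W0.finrank_le)).symm⟩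
  set Q := {q : W → F | q ∈ P W 3 ∧ (∀ i, κ ≤ finrank F (kr q (B i)) ∧ kr q (B i) ≤ W0) ∧
    ∃ x : Fin n → W, LinearIndependent F x ∧ ∀ i, x i ∈ kr q (B i)} with hQ
  let B' : Fin n → Bil W0 := fun i => pull W0.subtype (B i)
  let C : Set (Fin n → W0) := {x | ∀ i j, (B' i + B' j) (x i) (x j) = 0}
  let R1 : (Fin n → W0) → ℕ := fun x => ∑ j, finrank F (Lam B' j x)
  let R2 : (Fin n → W0) → ℕ := fun x => ∑ j, finrank F (Lam (ι := (Fin n)ᵒᵈ) B' j x)
  let wt : (Fin n → W0) → ℝ := fun x =>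
    C.indicator (fun x => (2 : ℝ) ^ R1 x) x + C.indicator (fun x => (2 : ℝ) ^ R2 x) x
  let T : (W → F) → Set (Fin n → W0) := fun q =>
    {x | LinearIndependent F x ∧ ∀ i, x i ∈ (kr q (B i)).comap W0.subtype}
  have w0 : ∀ x, 0 ≤ wt x := fun x =>
    add_nonneg (Set.indicator_nonneg (fun _ _ => by positivity) x)
      (Set.indicator_nonneg (fun _ _ => by positivity) x)
  have w1 : av wt ≤ 2 := by
    have a1 : av (C.indicator fun x => (2 : ℝ) ^ R1 x) ≤ 1 := seq_sum B'
    have a2 : av (C.indicator fun x => (2 : ℝ) ^ R2 x) ≤ 1 := seq_sum (ι := (Fin n)ᵒᵈ) B'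
    rw [av_add]
    linarith
  have cX : (Nat.card (Fin n → W0) : ℝ) = 2 ^ (n * n) := by
    rw [Nat.card_fun, card_V, hn, Nat.card_eq_fintype_card, Fintype.card_fin, ← pow_mul]
    norm_cast
  have h1 : ∀ q ∈ Q, (2 : ℝ) ^ H / 2 ^ (n * c + n + n * n) ≤ av ((T q).indicator wt) := by
    rintro q ⟨q1, q2, x, q3, q4⟩
    set σ := ∑ i, finrank F (kr q (B i)) with hσ
    have t1 := trans_count (fun i => (kr q (B i)).comap W0.subtype)
      (x := fun i => ⟨x i, (q2 i).2 (q4 i)⟩) (LinearIndependent.of_comp W0.subtype q3) q4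
    have t2 : ∑ i, finrank F ((kr q (B i)).comap W0.subtype) = σ :=
      Finset.sum_congr rfl fun i _ => (Submodule.comapSubtypeEquivOfLe (q2 i).2).finrank_eq
    rw [t2, Fintype.card_fin] at t1
    have t3 : (2 : ℝ) ^ σ ≤ 2 ^ n * (T q).ncard := by exact_mod_cast t1
    have t4 : n * κ ≤ σ := by
      have := Finset.card_nsmul_le_sum Finset.univ (fun i => finrank F (kr q (B i))) κ
        fun i _ => (q2 i).1
      simpa using this
    have t5 : ∀ y, (2 : ℝ) ^ H / 2 ^ (n * c + σ) * (T q).indicator (fun _ => (1 : ℝ)) y ≤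
        (T q).indicator wt y := fun y => by
      by_cases hy : y ∈ T q
      swap
      · rw [Set.indicator_of_notMem hy, Set.indicator_of_notMem hy, mul_zero]
      rw [Set.indicator_of_mem hy, Set.indicator_of_mem hy, mul_one]
      have hk : ∀ i, (y i : W) ∈ kr q (B i) := hy.2
      have y1 : y ∈ C := fun i j => by
        show B i (y i) (y j) + B j (y i) (y j) = 0
        rw [hB j, ← kr_eq (hk i), ← kr_eq (hk j), bf_symm q1]
        exact CharTwo.add_self_eq_zero _
      have y2 := Finset.sum_le_sum fun j (_ : j ∈ Finset.univ) => rank_two B W0 hn hy.1 hk j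
      simp only [Finset.sum_add_distrib, Finset.sum_const, Finset.card_univ, Fintype.card_fin,
        smul_eq_mul] at y2
      have y3 : n * n + n * n ≤ R1 y + R2 y + σ + n * finrank F W := y2
      rw [hc] at y3 hH
      have y4 : H ≤ n * c + σ + R1 y ∨ H ≤ n * c + σ + R2 y := by
        rw [mul_add, mul_add] at hH
        rw [mul_add] at y3
        omega
      show _ ≤ C.indicator (fun x => (2 : ℝ) ^ R1 x) y + C.indicator (fun x => (2 : ℝ) ^ R2 x) y
      rw [Set.indicator_of_mem y1, Set.indicator_of_mem y1, div_le_iff₀ (by positivity), add_mul,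
        ← pow_add, ← pow_add]
      rcases y4 with h | h
      · exact le_add_of_le_of_nonneg (pow_le_pow_right₀ (by norm_num) (by omega)) (by positivity)
      · exact le_add_of_nonneg_of_le (by positivity) (pow_le_pow_right₀ (by norm_num) (by omega))
    refine le_trans ?_ (av_mono t5)
    rw [av_mul_left, av_indicator, cX, div_mul_div_comm,
      div_le_div_iff₀ (by positivity) (by positivity), mul_assoc]
    refine mul_le_mul_of_nonneg_left ?_ (by positivity)
    calc (2 : ℝ) ^ (n * c + σ) * 2 ^ (n * n) = 2 ^ σ * 2 ^ (n * c + n * n) := by ring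
      _ ≤ 2 ^ n * (T q).ncard * 2 ^ (n * c + n * n) := by gcongr
      _ = _ := by ring
  have h2 : ∀ x, ({q | q ∈ Q ∧ x ∈ T q}.ncard : ℝ) ≤ (cP c 3 * 2 ^ (n + 1) : ℕ) := fun x => by
    rcases {q | q ∈ Q ∧ x ∈ T q}.eq_empty_or_nonempty with h | ⟨g, hg⟩
    · rw [h, Set.ncard_empty]; exact Nat.cast_le.2 (Nat.zero_le _)
    have k1 := ker_count W0
    rw [hn, hc, Nat.add_sub_cancel_left] at k1
    refine Nat.cast_le.2 (le_trans ?_ k1)
    refine Set.ncard_le_ncard_of_injOn (fun f => f + g) (fun f hf => ?_)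
      (fun _ _ _ _ e => add_right_cancel e) (Set.toFinite _)
    refine ⟨(P W 3).add_mem hf.1.1 hg.1.1, fun v hv => ?_⟩
    have s1 : Submodule.span F (Set.range x) = ⊤ :=
      hg.2.1.span_eq_top_of_card_eq_finrank' (by rw [hn, Fintype.card_fin])
    have s2 : Submodule.span F (Set.range x) ≤ (LinearMap.ker (bf (f + g))).comap W0.subtype := by
      rw [Submodule.span_le]
      rintro _ ⟨i, rfl⟩
      show bf (f + g) (W0.subtype (x i)) = 0
      rw [bf_add hf.1.1 hg.1.1, LinearMap.add_apply, kr_eq (hf.2.2 i), kr_eq (hg.2.2 i)]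
      exact add_self_V (V := Dual F W) _
    exact s2 (s1 ▸ Submodule.mem_top : (⟨v, hv⟩ : W0) ∈ _)
  have h3 := (dbl Q T wt w0 h1 h2).trans (mul_le_mul_of_nonneg_left w1 (by positivity))
  rw [← mul_div_assoc, div_le_iff₀ (by positivity)] at h3
  rw [hc, Nat.add_sub_cancel_left]
  have h4 : (Q.ncard : ℝ) * 2 ^ H ≤ 2 ^ (n * (n + c) + 2 * n + 2) * cP c 3 := by
    refine h3.trans (le_of_eq ?_)
    push_cast
    ring
  exact_mod_cast h4

theorem two_choose (n : ℕ) : 2 * n.choose 2 + n = n * n := by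
  induction n with
  | zero => simp
  | succ n ih =>
    rw [Nat.choose_succ_succ' n 1, Nat.choose_one_right]
    nlinarith

theorem cP_three (m : ℕ) : cP m 3 = 2 ^ (m + 1 + m.choose 2) := by
  simp [cP, Finset.sum_range_succ, add_comm]

theorem level {k κ H : ℕ} (hk : 1 ≤ k) (A : Fin k → Bil W) (hA : ∀ i x y, A i x y = A i y x)
    (W0 : Submodule F W) (hH : 2 * H ≤ κ * finrank F W) :
    {q : W → F | q ∈ P W 3 ∧ (∀ a, κ ≤ finrank F (kr q (A a))) ∧ ⨆ a, kr q (A a) = W0}.ncard *
        2 ^ H ≤ cP (finrank F W) 3 * (k ^ finrank F W * 2 ^ (2 * finrank F W + 3)) := by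
  have : Module.Finite F W := Module.Finite.of_finite
  have : Nonempty (Fin k) := ⟨⟨0, hk⟩⟩
  obtain ⟨n, hn⟩ : ∃ n, finrank F W0 = n := ⟨_, rfl⟩
  obtain ⟨c, hc⟩ : ∃ c, finrank F W = n + c := ⟨_, (Nat.add_sub_cancel' (hn ▸ W0.finrank_le)).symm⟩
  set Q := {q : W → F | q ∈ P W 3 ∧ (∀ a, κ ≤ finrank F (kr q (A a))) ∧ ⨆ a, kr q (A a) = W0}
  rcases Q.eq_empty_or_nonempty with h | ⟨q0, hq0⟩
  · rw [h, Set.ncard_empty, zero_mul]; exact Nat.zero_le _
  have hκ : κ ≤ n := by
    refine (hq0.2.1 ⟨0, hk⟩).trans (hn ▸ Submodule.finrank_mono ?_)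
    rw [← hq0.2.2]
    exact le_iSup (fun a => kr q0 (A a)) _
  set H' := n * (κ + finrank F W) / 2 with hH'
  have h1 := cover_le Q Set.univ (fun a : Fin n → Fin k => {q : W → F | q ∈ P W 3 ∧
      (∀ i, κ ≤ finrank F (kr q (A (a i))) ∧ kr q (A (a i)) ≤ W0) ∧
        ∃ x : Fin n → W, LinearIndependent F x ∧ ∀ i, x i ∈ kr q (A (a i))})
    (2 ^ (n * finrank F W + 2 * n + 2) * cP (finrank F W - n) 3 / 2 ^ H') (fun q hq => by
      obtain ⟨b, b1, b2, b3⟩ := exists_linearIndependent F (⋃ a, (kr q (A a) : Set W))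
      rw [Submodule.span_iUnion] at b2
      simp only [Submodule.span_eq] at b2
      have := Fintype.ofFinite b
      have b4 : Fintype.card b = n := by
        rw [← hn, ← hq.2.2, ← b2, ← finrank_span_eq_card b3, Subtype.range_coe]
      let e := (Fintype.equivFinOfCardEq b4).symm
      have b5 : ∀ i, ∃ a, (e i : W) ∈ kr q (A a) := fun i => Set.mem_iUnion.1 (b1 (e i).2)
      choose a ha using b5
      refine ⟨a, trivial, hq.1, fun i => ⟨hq.2.1 _, ?_⟩, fun i => e i, b3.comp e e.injective, ha⟩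
      rw [← hq.2.2]
      exact le_iSup (fun a => kr q (A a)) _)
    fun a _ => (Nat.le_div_iff_mul_le (by positivity)).2
      (level_pat (fun i => A (a i)) (fun i => hA (a i)) W0 hn (by omega))
  rw [Set.ncard_univ, Nat.card_fun, Nat.card_eq_fintype_card, Nat.card_eq_fintype_card,
    Fintype.card_fin, Fintype.card_fin] at h1
  have h2 : Q.ncard * 2 ^ H' ≤
      k ^ n * (2 ^ (n * finrank F W + 2 * n + 2) * cP (finrank F W - n) 3) := by
    refine (Nat.mul_le_mul_right _ h1).trans ?_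
    rw [mul_assoc]
    exact Nat.mul_le_mul_left _ (Nat.div_mul_le_self _ _)
  refine Nat.le_of_mul_le_mul_right ?_ (show 0 < 2 ^ H' by positivity)
  rw [mul_right_comm]
  refine (Nat.mul_le_mul_right _ h2).trans ?_
  rw [hc, Nat.add_sub_cancel_left, cP_three, cP_three, mul_left_comm (2 ^ _) (k ^ _), mul_assoc,
    mul_assoc (k ^ _)]
  refine Nat.mul_le_mul (Nat.pow_le_pow_right hk (by omega)) ?_
  rw [← pow_add, ← pow_add, ← pow_add, ← pow_add]
  refine Nat.pow_le_pow_right (by norm_num) ?_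
  have e1 := two_choose c
  have e2 := two_choose (n + c)
  have e3 : c * κ ≤ c * n := Nat.mul_le_mul_left _ hκ
  have e4 : n * (κ + (n + c)) ≤ 2 * H' + 1 := by rw [hH', hc]; omega
  rw [hc] at hH
  nlinarith

end Pool.Agent.P.MP_cb6780_lc
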