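import Pool.Agent.P.MP_cb6780_lc.SLev
import Pool.Agent.P.MP_cb6780_lc.SKraw

set_option autoImplicit false

/-! The weight distribution of the dual of the cubic code. -/

namespace Pool.Agent.P.MP_cb6780_lc

open Module

/-- sum of the Krawtchouk numbers over all cubic functions -/
noncomputable def Aw (m w : ℕ) : ℝ := cP m 4 * av fun h : P (Fin m → F) 4 => ew w h.1

/-- half of the main term -/
noncomputable def Ms (m w : ℕ) : ℝ :=
  ∑ c ∈ Finset.range (m + 1), Mult (m - c) c * (2 ^ (m - c)).choose w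

theorem Mult_cP (n c : ℕ) :
    Mult n c * cP n 4 = G (Fin (n + c) → F) c * 2 ^ c * cP (n + c) 4 := by
  rw [Mult, cP_add n c 3]
  push_cast
  ring

theorem Mult_le {m c w : ℕ} (h1 : 1 ≤ c) (h2 : c ≤ m)
    (h : 18 * m + 17 + 3 * (m * m) ≤ 6 * w + 2 * (m * c)) :
    Mult (m - c) c * 2 ^ (2 * m) ≤ 2 ^ (c * w) := by
  obtain ⟨n, rfl⟩ : ∃ n, m = n + c := ⟨m - c, by omega⟩
  rw [Nat.add_sub_cancel]
  have c0 : (0 : ℝ) < cP n 4 := Nat.cast_pos.2 (cP_pos _ _)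
  refine le_of_mul_le_mul_right ?_ c0
  have g := G_crude (Fin (n + c) → F) (n := n) (c := c) (Reduce_finrank _)
  rw [mul_right_comm, Mult_cP]
  refine (mul_le_mul_of_nonneg_right (mul_le_mul_of_nonneg_right (mul_le_mul_of_nonneg_right g
    (by positivity)) (Nat.cast_nonneg _)) (by positivity)).trans ?_
  rw [cP, cP]
  push_cast
  simp only [← pow_add]
  refine pow_le_pow_right₀ (by norm_num) ?_
  have e1 := six_sum n
  have e2 := six_sum (n + c)
  have e3 := Nat.mul_le_mul_left c h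
  have e4 : (n + c) * 1 ≤ (n + c) * c := Nat.mul_le_mul_left _ h1
  nlinarith [Nat.zero_le (n * c * c), Nat.zero_le (c * c)]

theorem cP_le {m k y : ℕ} (h : m ^ 3 + 5 * m + 6 + 6 * k ≤ 6 * y) :
    (cP m 4 : ℝ) * 2 ^ k ≤ 2 ^ y := by
  rw [cP]
  push_cast
  rw [← pow_add]
  exact pow_le_pow_right₀ (by norm_num) (by have := six_sum m; omega)

theorem card_std (m : ℕ) : Fintype.card (Fin m → F) = 2 ^ m := by simp

theorem Mult_zero (m : ℕ) : Mult m 0 = 1 := by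
  have h := G_mul (Fin (m + 0) → F) 0
  simp only [Finset.prod_range_zero, mul_one] at h
  rw [Mult, h]
  simp

theorem choose_le_div {m c : ℕ} (h : c ≤ m) (w : ℕ) :
    ((2 ^ (m - c)).choose w : ℝ) * 2 ^ (c * w) ≤ (2 ^ m).choose w := by
  have h1 := choose_mul_le (2 ^ (m - c)) (2 ^ c) w
  rw [← pow_add, Nat.add_sub_cancel' h, ← pow_mul, mul_comm] at h1
  exact_mod_cast h1

theorem small_d {m u : ℕ} (h : u ≤ m) : ((m : ℝ) + 1) / 2 ^ (2 * m) ≤ 1 / 2 ^ u := by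
  have h1 : (m : ℝ) + 1 ≤ 2 ^ m := by exact_mod_cast Nat.lt_two_pow_self
  rw [div_le_div_iff₀ (by positivity) (by positivity), one_mul, two_mul, pow_add]
  exact mul_le_mul h1 (pow_le_pow_right₀ (by norm_num) h) (by positivity) (by positivity)

theorem core_big {m w u : ℕ} (hm : 10 ≤ m) (hu : u ≤ m) (he : Even w) (h1 : 2 * m ^ 3 ≤ w)
    (h2 : 2 * w ≤ 2 ^ m) : 0 < Ms m w ∧ |Aw m w - 2 * Ms m w| ≤ 13 / 2 ^ u * (2 * Ms m w) := by
  classical
  have m2 : 10 * (m * m) ≤ m ^ 3 := by nlinarith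
  have m1 : 10 * m ≤ m * m := by nlinarith
  set C : ℝ := (2 ^ m).choose w with hC
  have C0 : 0 < C := Nat.cast_pos.2 (Nat.choose_pos (by omega))
  have e0 : (0 : ℝ) < 1 / 2 ^ u := by positivity
  have a1 : ∀ c ∈ Finset.range m,
      Mult (m - (c + 1)) (c + 1) * (2 ^ (m - (c + 1))).choose w ≤ 1 / 2 ^ (2 * m) * C := by
    intro c hc
    have hc' : c + 1 ≤ m := Finset.mem_range.1 hc
    have b1 := Mult_le (w := w) (c := c + 1) (by omega) hc' (by omega)
    have b2 := choose_le_div hc' w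
    have b3 := mul_le_mul b1 b2 (by positivity) (by positivity)
    rw [one_div, inv_mul_eq_div, le_div_iff₀ (by positivity)]
    refine le_of_mul_le_mul_right ?_ (show (0 : ℝ) < 2 ^ ((c + 1) * w) by positivity)
    linarith
  have a2 := Finset.sum_le_card_nsmul _ _ _ a1
  have a3 : 0 ≤ ∑ c ∈ Finset.range m, Mult (m - (c + 1)) (c + 1) * (2 ^ (m - (c + 1))).choose w :=
    Finset.sum_nonneg fun c _ => mul_nonneg (Mult_nonneg _ _) (Nat.cast_nonneg _)
  have a4 : Ms m w = ∑ c ∈ Finset.range m, Mult (m - (c + 1)) (c + 1) *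
      (2 ^ (m - (c + 1))).choose w + C := by
    rw [Ms, Finset.sum_range_succ', Mult_zero, one_mul, Nat.sub_zero]
  have a5 : (m : ℝ) * (1 / 2 ^ (2 * m) * C) ≤ 1 / 2 ^ u * C := by
    rw [← mul_assoc, mul_one_div]
    exact mul_le_mul_of_nonneg_right ((div_le_div_of_nonneg_right (by linarith)
      (by positivity)).trans (small_d hu)) C0.le
  rw [Finset.card_range, nsmul_eq_mul] at a2
  set B : ℝ := (2 ^ m + 1) * C * Real.exp (-((w : ℝ) / 8)) with hB
  have B0 : 0 ≤ B := by positivity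
  have b1 : ∀ h : P (Fin m → F) 4,
      |ew w h.1 - (C * ge1 1 (bias h.1) + C * ge1 1 (bias (h.1 + 1)))| ≤ B := fun h => by
    have one : (1 : (Fin m → F) → F) ∈ P _ 4 := P_mono (by norm_num) (mem_P_one.2 ⟨1, rfl⟩)
    by_cases h0 : h.1 = 0
    · rw [bias_add_one, h0, bias_zero, ew_zero, card_std, ge1_pos le_rfl, ge1_neg (by norm_num)]
      simpa [hC] using B0
    by_cases h1 : h.1 + 1 = 0
    · have e := ew_add_one w h.1
      have e' := bias_add_one h.1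
      rw [h1, ew_zero, he.neg_one_pow, one_mul, card_std] at e
      rw [h1, bias_zero] at e' ⊢
      rw [← e, ge1_pos le_rfl, ge1_neg (by linarith)]
      simpa [hC] using B0
    have d0 := min_dist h.2 h0
    have d1 := min_dist ((P _ 4).add_mem h.2 one) h1
    rw [ge1_neg (by norm_num at d0 ⊢; linarith), ge1_neg (by norm_num at d1 ⊢; linarith)]
    rw [bias_add_one] at d1
    have := ew_big (f := h.1) (abs_le.2 ⟨by norm_num at d1 ⊢; linarith, by
      norm_num at d0 ⊢; linarith⟩) (w := w) (by rwa [card_std])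
    rw [card_std] at this
    simpa using this
  have b2 := (abs_av_le _).trans (av_le_of_le b1)
  have b3 := av_ge1 m 1
  rw [show Nn m 4 1 = 1 from N_h0 (V := Fin m → F) (by norm_num) le_rfl, Nat.cast_one] at b3
  have b4 := av_P_shift (V := Fin m → F) (d := 4) (p := 1)
    (P_mono (by norm_num) (mem_P_one.2 ⟨1, rfl⟩)) fun f => ge1 1 (bias f)
  rw [av_sub, av_add, av_mul_left, av_mul_left, b4] at b2
  have b5 : |Aw m w - 2 * C| ≤ cP m 4 * B := by
    refine le_trans (le_of_eq ?_) (mul_le_mul_of_nonneg_left b2 (Nat.cast_nonneg _))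
    rw [← abs_of_nonneg (Nat.cast_nonneg (α := ℝ) (cP m 4)), ← abs_mul, Aw]
    congr 1
    linear_combination (2 * C) * b3
  have b6 : cP m 4 * B ≤ 1 / 2 ^ u * C := by
    have c1 := cP_le (m := m) (k := m + 1 + u) (y := w / 6) (by omega)
    have c2 : (2 : ℝ) ^ (w / 6) ≤ Real.exp (w / 8) := by
      rw [← Real.exp_log (show (0 : ℝ) < 2 by norm_num), ← Real.exp_nat_mul]
      refine Real.exp_le_exp.2 ?_
      have := Nat.cast_div_le (α := ℝ) (m := w) (n := 6)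
      have l := Real.log_two_lt_d9
      have := mul_le_mul this l.le (Real.log_pos (by norm_num)).le (by positivity)
      push_cast at this
      nlinarith [Nat.cast_nonneg (α := ℝ) w]
    have c3 : (2 : ℝ) ^ m + 1 ≤ 2 ^ (m + 1) := by
      rw [pow_succ]; linarith [one_le_pow₀ (n := m) (show (1 : ℝ) ≤ 2 by norm_num)]
    rw [hB, Real.exp_neg, mul_right_comm, ← mul_assoc]
    refine mul_le_mul_of_nonneg_right ?_ C0.le
    rw [← mul_assoc, ← div_eq_mul_inv, div_le_div_iff₀ (Real.exp_pos _) (by positivity), one_mul]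
    refine le_trans ?_ (c1.trans c2)
    rw [pow_add, ← mul_assoc]
    gcongr
  have b7 := abs_le.1 (b5.trans b6)
  have b8 := mul_pos e0 C0
  have b9 := mul_nonneg e0.le a3
  refine ⟨by linarith, abs_le.2 ⟨?_, ?_⟩⟩ <;>
    rw [a4, show (13 : ℝ) / 2 ^ u = 13 * (1 / 2 ^ u) by ring] <;> nlinarith

theorem one_add_pow_le {η ε : ℝ} (h0 : 0 ≤ η) {w : ℕ} (h1 : w * η ≤ ε) (h2 : ε ≤ 1) :
    (1 + η) ^ w ≤ 1 + 2 * ε := by
  have a0 : 0 ≤ w * η := by positivity
  have a1 : (1 + η) ^ w ≤ Real.exp ε := by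
    refine (pow_le_pow_left₀ (by linarith) ((add_comm 1 η).le.trans (Real.add_one_le_exp η)) w).trans ?_
    rw [← Real.exp_nat_mul]
    exact Real.exp_le_exp.2 h1
  have a2 := Real.abs_exp_sub_one_le (x := ε) (abs_le.2 ⟨by linarith, h2⟩)
  rw [abs_of_nonneg (a0.trans h1)] at a2
  linarith [le_abs_self (Real.exp ε - 1)]

theorem moment {m s w u : ℕ} (hs : 2 ^ 51 * s ≤ m) (hu : 2 * u ≤ s) (h7 : 7 ≤ u)
    (hp : 16 * m ^ 6 ≤ 2 ^ u) (h1 : 49 * (m * m) ≤ 100 * w) (h2 : w ≤ 2 * m ^ 3)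
    (hT : ∀ c, s ≤ c → (Nn m 4 (1 / 2 ^ (c + 1)) : ℝ) * 2 ^ (2 * m) ≤ 2 ^ (c * w)) :
    |Spw m w - Zs m s w| ≤ 6 * (1 / 2 ^ u) * Zs m s w := by
  have m1 : 1000 * m ≤ m * m := Nat.mul_le_mul_right _ (by omega)
  have m2 : 1000 * (s * m) ≤ m * m := by rw [← mul_assoc]; exact Nat.mul_le_mul_right _ (by omega)
  have e0 : (0 : ℝ) < 1 / 2 ^ u := by positivity
  have e1 : (1 : ℝ) / 2 ^ u ≤ 1 / 2 ^ 7 := inv_pow_le h7
  have z := Zs_ge m s w
  have a1 := Sp_up hs (by omega) hT (cP_le (by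
    have := Nat.mul_le_mul_left m h1
    have := Nat.mul_le_mul_left m m1
    nlinarith))
  have a2 := Sp_low hs (by omega) w
  have f1 : (1 : ℝ) / 2 ^ (m / 2) ≤ 1 / 2 ^ u := inv_pow_le (by omega)
  have f0 : (0 : ℝ) < 1 / 2 ^ (m / 2) := by positivity
  have f2 : (w : ℝ) * (4 / 2 ^ s) ≤ 1 / 2 ^ u := by
    rw [← mul_div_assoc, div_le_div_iff₀ (by positivity) (by positivity), one_mul]
    have b1 : m ^ 3 ≤ m ^ 6 := Nat.pow_le_pow_right (by omega) (by norm_num)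
    have b2 : w * 4 * 2 ^ u ≤ 2 ^ s :=
      (Nat.mul_le_mul_right _ (show w * 4 ≤ 2 ^ u by omega)).trans
        (by rw [← pow_add]; exact Nat.pow_le_pow_right (by norm_num) (by omega))
    exact_mod_cast b2
  have p1 : (0 : ℝ) < 4 / 2 ^ s := by positivity
  have p2 : (4 : ℝ) / 2 ^ s ≤ 1 := by
    have := inv_pow_le (show 2 ≤ s by omega)
    rw [show (4 : ℝ) / 2 ^ s = 4 * (1 / 2 ^ s) by ring]
    norm_num at this ⊢
    linarith
  have f3 := one_add_pow_le p1.le f2 (by norm_num at e1 ⊢; linarith)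
  have f4 : 1 - 1 / 2 ^ u ≤ (1 - 4 / 2 ^ s : ℝ) ^ w := by
    have := one_add_mul_le_pow (a := -(4 / 2 ^ s : ℝ)) (by linarith) w
    rw [← sub_eq_add_neg] at this
    linarith
  have f5 : (2 : ℝ) ^ (2 * s * m + 3) * (7 / 8) ^ w ≤ 1 / 2 ^ u := by
    have b1 : (7 / 8 : ℝ) ^ w ≤ 1 / 2 ^ (w / 6) := by
      refine (pow_le_pow_of_le_one (by norm_num) (by norm_num) (Nat.mul_div_le w 6)).trans ?_
      rw [pow_mul, ← one_div_pow]
      exact pow_le_pow_left₀ (by norm_num) (by norm_num) _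
    refine (mul_le_mul_of_nonneg_left b1 (by positivity)).trans ?_
    rw [mul_one_div, div_le_div_iff₀ (by positivity) (by positivity), one_mul, ← pow_add]
    refine pow_le_pow_right₀ (by norm_num) ?_
    rw [mul_assoc]
    omega
  have f6 := small_d (show u ≤ m by omega)
  set ε : ℝ := 1 / 2 ^ u
  set Z := Zs m s w
  have e2 : ε ≤ 1 / 100 := e1.trans (by norm_num)
  have g1 : (1 + 1 / 2 ^ (m / 2)) * (1 + 4 / 2 ^ s : ℝ) ^ w ≤ (1 + ε) * (1 + 2 * ε) :=
    mul_le_mul (by linarith) f3 (by positivity) (by linarith)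
  have g2 : (1 - 3 * ε) * (1 - ε) ≤ (1 - 3 * (1 / 2 ^ (m / 2))) * (1 - 4 / 2 ^ s : ℝ) ^ w :=
    mul_le_mul (by linarith) f4 (by linarith) (by linarith)
  have g3 := mul_le_mul_of_nonneg_right (add_le_add g1 f5) (show 0 ≤ Z by linarith)
  have g4 := mul_le_mul_of_nonneg_right g2 (show 0 ≤ Z by linarith)
  have g5 : ε * 1 ≤ ε * Z := mul_le_mul_of_nonneg_left z e0.le
  have g6 : ε * (ε * Z) ≤ 1 / 100 * (ε * Z) := mul_le_mul_of_nonneg_right e2 (by linarith)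
  have g7 : 0 ≤ ε * (ε * Z) := mul_nonneg e0.le (by linarith)
  refine abs_le.2 ⟨by nlinarith, by nlinarith⟩

theorem Ms_small {m s w u : ℕ} (hs : 2 * s ≤ m) (hu : 2 * u ≤ s) (hw : w ^ 2 ≤ 2 ^ u)
    (hM : ∀ c, s < c → c ≤ m → Mult (m - c) c * 2 ^ (2 * m) ≤ 2 ^ (c * w)) :
    |w.factorial * Ms m w / (2 ^ m) ^ w - Zs m s w| ≤ 1 / 2 ^ u * Zs m s w := by
  have z := Zs_ge m s w
  have e0 : (0 : ℝ) < 1 / 2 ^ u := by positivity
  set t : ℕ → ℝ := fun c => w.factorial * (2 ^ (m - c)).choose w / (2 ^ m) ^ w with ht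
  have e1 : ∀ c, c ≤ m → ((2 : ℝ) ^ m) ^ w = (2 ^ (m - c)) ^ w * 2 ^ (c * w) := fun c hc => by
    rw [pow_mul, ← mul_pow, ← pow_add, Nat.sub_add_cancel hc]
  have t0 : ∀ c, 0 ≤ t c := fun c => by positivity
  have t1 : ∀ c, c ≤ m → t c ≤ 1 / 2 ^ (c * w) := fun c hc => by
    have := Nat.descFactorial_le_pow (2 ^ (m - c)) w
    rw [Nat.descFactorial_eq_factorial_mul_choose] at this
    rw [ht, div_le_div_iff₀ (by positivity) (by positivity), e1 c hc, one_mul]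
    exact mul_le_mul_of_nonneg_right (by exact_mod_cast this) (by positivity)
  have t2 : ∀ c, c ≤ s → (1 - 1 / 2 ^ u) / 2 ^ (c * w) ≤ t c := fun c hc => by
    have b1 := desc_ge (2 ^ (m - c)) w (b := 2 ^ (m - c)) (by positivity) (by norm_num)
    have b2 : (w : ℝ) ^ 2 / 2 ^ (m - c) ≤ 1 / 2 ^ u := by
      rw [div_le_div_iff₀ (by positivity) (by positivity), one_mul]
      exact_mod_cast (Nat.mul_le_mul_right _ hw).trans
        (by rw [← pow_add]; exact Nat.pow_le_pow_right (by norm_num) (by omega))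
    have b3 := mul_le_mul_of_nonneg_right b2 (show (0 : ℝ) ≤ (2 ^ (m - c)) ^ w by positivity)
    rw [ht, div_le_div_iff₀ (by positivity) (by positivity), e1 c (by omega), ← mul_assoc]
    refine mul_le_mul_of_nonneg_right ?_ (by positivity)
    push_cast at b1 ⊢
    linarith
  have a1 : w.factorial * Ms m w / (2 ^ m) ^ w = ∑ c ∈ Finset.range (s + 1), Mult (m - c) c * t c +
      ∑ c ∈ Finset.Ico (s + 1) (m + 1), Mult (m - c) c * t c := by
    rw [Finset.sum_range_add_sum_Ico _ (by omega), Ms, Finset.mul_sum, Finset.sum_div]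
    exact Finset.sum_congr rfl fun c _ => by rw [ht]; ring
  have a2 : ∑ c ∈ Finset.range (s + 1), Mult (m - c) c * t c ≤ Zs m s w :=
    Finset.sum_le_sum fun c hc => by
      rw [div_eq_mul_one_div]
      exact mul_le_mul_of_nonneg_left (t1 c (by have := Finset.mem_range.1 hc; omega))
        (Mult_nonneg _ _)
  have a3 : (1 - 1 / 2 ^ u) * Zs m s w ≤ ∑ c ∈ Finset.range (s + 1), Mult (m - c) c * t c := by
    rw [Zs, Finset.mul_sum]
    refine Finset.sum_le_sum fun c hc => le_trans (le_of_eq (by ring))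
      (mul_le_mul_of_nonneg_left (t2 c (by have := Finset.mem_range.1 hc; omega)) (Mult_nonneg _ _))
  have a4 : 0 ≤ ∑ c ∈ Finset.Ico (s + 1) (m + 1), Mult (m - c) c * t c :=
    Finset.sum_nonneg fun c _ => mul_nonneg (Mult_nonneg _ _) (t0 c)
  have a5 := Finset.sum_le_card_nsmul (Finset.Ico (s + 1) (m + 1))
    (fun c => Mult (m - c) c * t c) (1 / 2 ^ (2 * m)) fun c hc => by
      have hc' := Finset.mem_Ico.1 hc
      refine (mul_le_mul_of_nonneg_left (t1 c (by omega)) (Mult_nonneg _ _)).trans ?_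
      rw [mul_one_div, div_le_div_iff₀ (by positivity) (by positivity), one_mul]
      exact hM c hc'.1 (by omega)
  rw [Nat.card_Ico, nsmul_eq_mul, mul_one_div] at a5
  have a6 : ((m + 1 - (s + 1) : ℕ) : ℝ) ≤ m + 1 := by exact_mod_cast Nat.sub_le _ _
  have a7 := (div_le_div_of_nonneg_right a6 (by positivity)).trans (small_d (show u ≤ m by omega))
  have a8 := mul_le_mul_of_nonneg_left z e0.le
  rw [a1]
  exact abs_le.2 ⟨by linarith, by linarith⟩

theorem core_small {m s w u : ℕ} (hs : 2 ^ 51 * s ≤ m) (hu : 2 * u ≤ s) (h7 : 7 ≤ u)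
    (hp : 16 * m ^ 6 ≤ 2 ^ u) (he : Even w) (h1 : 49 * (m * m) ≤ 100 * w) (h2 : w ≤ 2 * m ^ 3)
    (hT : ∀ c, s ≤ c → (Nn m 4 (1 / 2 ^ (c + 1)) : ℝ) * 2 ^ (2 * m) ≤ 2 ^ (c * w))
    (hM : ∀ c, s < c → c ≤ m → Mult (m - c) c * 2 ^ (2 * m) ≤ 2 ^ (c * w)) :
    0 < Ms m w ∧ |Aw m w - 2 * Ms m w| ≤ 13 / 2 ^ u * (2 * Ms m w) := by
  have m1 : 1000 * m ≤ m * m := Nat.mul_le_mul_right _ (by omega)
  have hw : w ^ 2 ≤ 2 ^ u := by
    have := Nat.pow_le_pow_left h2 2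
    rw [show (2 * m ^ 3) ^ 2 = 4 * m ^ 6 by ring] at this
    omega
  have z := Zs_ge m s w
  have a1 := abs_le.1 (moment hs hu h7 hp h1 h2 hT)
  have a2 := abs_le.1 (Ms_small (by omega) hu hw hM)
  have e0 : (0 : ℝ) < 1 / 2 ^ u := by positivity
  have e2 : (1 : ℝ) / 2 ^ u ≤ 1 / 100 := (inv_pow_le h7).trans (by norm_num)
  set d := 2 * m / 5 + 1 with hd
  have b1 : (w : ℝ) ^ 2 / ((1 / 2 ^ d) ^ 2 * Fintype.card (Fin m → F)) ≤ 1 / 2 ^ u := by
    rw [card_std, div_pow, one_pow, one_div, inv_mul_eq_div, div_div_eq_mul_div,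
      div_le_div_iff₀ (by positivity) (by positivity), one_mul, ← pow_mul]
    exact_mod_cast (Nat.mul_le_mul_right _ (Nat.mul_le_mul_right _ hw)).trans
      (by rw [← pow_add, ← pow_add]; exact Nat.pow_le_pow_right (by norm_num) (by omega))
  have b2 : ∀ h : P (Fin m → F) 4, |w.factorial / (2 ^ m) ^ w * ew w h.1 - bias h.1 ^ w| ≤
      3 * (1 / 2 ^ u) * (bias h.1 ^ w + (1 / 2 ^ d) ^ w) := fun h => by
    have := ew_small h.1 he (β := 1 / 2 ^ d) (by positivity)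
      (by simpa using inv_pow_le (Nat.zero_le d)) (by
        rw [div_le_iff₀ (by positivity)] at b1
        have : (0 : ℝ) ≤ (1 / 2 ^ d) ^ 2 * Fintype.card (Fin m → F) := by positivity
        nlinarith)
    rw [div_mul_eq_mul_div]
    refine le_trans (le_of_eq (by rw [card_std]; norm_num)) (this.trans ?_)
    exact mul_le_mul_of_nonneg_right (by linarith) (add_nonneg (he.pow_nonneg _) (by positivity))
  have b3 := (abs_av_le _).trans (av_mono b2)
  rw [av_sub, av_mul_left, av_mul_left, av_add, av_const] at b3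
  have b4 := two_Sp m he (by omega)
  have b5 : (cP m 4 : ℝ) * (1 / 2 ^ d) ^ w ≤ 1 := by
    have := cP_le (m := m) (k := 0) (y := d * w) (by
      have c1 : 2 * m * (49 * (m * m)) ≤ 5 * d * (100 * w) := Nat.mul_le_mul (by omega) h1
      have c2 := Nat.mul_le_mul_left m m1
      have c3 : 1 ≤ m := by omega
      nlinarith)
    rw [div_pow, one_pow, ← pow_mul, mul_one_div, div_le_one (by positivity)]
    simpa using this
  set k : ℝ := w.factorial / (2 ^ m) ^ w with hk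
  have k0 : 0 < k := by positivity
  have b6 : |k * Aw m w - 2 * Spw m w| ≤ 3 * (1 / 2 ^ u) * (2 * Spw m w + 1) := by
    have := mul_le_mul_of_nonneg_left b3 (Nat.cast_nonneg (α := ℝ) (cP m 4))
    rw [← abs_of_nonneg (Nat.cast_nonneg (α := ℝ) (cP m 4)), ← abs_mul,
      abs_of_nonneg (Nat.cast_nonneg (α := ℝ) (cP m 4)), mul_sub, b4, mul_left_comm,
      mul_left_comm (cP m 4 : ℝ), mul_add, b4] at this
    exact this.trans (mul_le_mul_of_nonneg_left (by linarith) (by positivity))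
  rw [show w.factorial * Ms m w / (2 ^ m) ^ w = k * Ms m w by rw [hk]; ring] at a2
  set ε : ℝ := 1 / 2 ^ u with hε
  set Z := Zs m s w
  have g5 : ε * 1 ≤ ε * Z := mul_le_mul_of_nonneg_left z e0.le
  have g6 : ε * Z ≤ 1 / 100 * Z := mul_le_mul_of_nonneg_right e2 (by linarith)
  have g7 : ε * (2 * Spw m w + 1) ≤ ε * (3.12 * Z) := mul_le_mul_of_nonneg_left (by linarith) e0.le
  have g8 : ε * (0.99 * Z) ≤ ε * (k * Ms m w) := mul_le_mul_of_nonneg_left (by linarith) e0.le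
  have b7 := abs_le.1 b6
  refine ⟨(mul_pos_iff_of_pos_left k0).1 (by linarith), le_of_mul_le_mul_left ?_ k0⟩
  rw [← abs_of_pos k0, ← abs_mul, abs_of_pos k0, show (13 : ℝ) / 2 ^ u = 13 * ε by rw [hε]; ring]
  exact abs_le.2 ⟨by nlinarith, by nlinarith⟩

theorem core : ∃ θ : ℝ, 0 < θ ∧ ∃ m0 : ℕ, 4 ≤ m0 ∧ ∀ m w : ℕ, m0 ≤ m → Even w →
    (1 / 2 - θ) * (m : ℝ) ^ 2 ≤ w → 2 * w ≤ 2 ^ m →
    |Aw m w / (2 * Ms m w) - 1| ≤ (2 : ℝ) ^ (-(θ * m)) := by
  obtain ⟨θ, t0, t1, m1, hT⟩ := tail (K := 2 ^ 52) (by norm_num)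
  obtain ⟨m2, h2⟩ := ev_pow 6 32 (δ := 1 / 2 ^ 52) (by norm_num)
  obtain ⟨m3, h3⟩ := ev_pow 0 26 (δ := 1 / 2 ^ 53) (by norm_num)
  refine ⟨min θ (1 / 2 ^ 54), lt_min t0 (by norm_num), m1 + m2 + m3 + 2 ^ 57, by omega,
    fun m w hm he hw hw2 => ?_⟩
  set s := m / 2 ^ 51 with hs
  set u := s / 2 with hu
  have m0 : (0 : ℝ) ≤ m := Nat.cast_nonneg _
  have u1 : (2 : ℝ) ^ (1 / 2 ^ 52 * (m : ℝ)) ≤ 2 * 2 ^ u := by
    rw [← pow_succ', ← Real.rpow_natCast 2 (u + 1)]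
    refine Real.rpow_le_rpow_of_exponent_le (by norm_num) ?_
    have : (m : ℝ) ≤ 2 ^ 52 * (u + 1 : ℕ) := by exact_mod_cast (show m ≤ 2 ^ 52 * (u + 1) by omega)
    linarith
  have w1 : (1 / 2 - θ) * (m : ℝ) ^ 2 ≤ w :=
    le_trans (mul_le_mul_of_nonneg_right (by linarith [min_le_left θ (1 / 2 ^ 54)]) (sq_nonneg _)) hw
  have w2 : (1 / 2 - 1 / 2 ^ 54) * (m : ℝ) ^ 2 ≤ w :=
    le_trans (mul_le_mul_of_nonneg_right (by linarith [min_le_right θ (1 / 2 ^ 54)]) (sq_nonneg _)) hw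
  have w3 : (2 ^ 53 - 1) * (m * m) ≤ 2 ^ 54 * w := by
    have : (9007199254740991 : ℝ) * (m * m) ≤ 18014398509481984 * w := by nlinarith
    exact_mod_cast this
  have key : 0 < Ms m w ∧ |Aw m w - 2 * Ms m w| ≤ 13 / 2 ^ u * (2 * Ms m w) := by
    rcases le_total w (2 * m ^ 3) with h | h
    · refine core_small (s := s) (by omega) (by omega) (by omega) ?_ he (by omega) h
        (fun c hc => hT m c w (by omega) (by omega) w1) fun c c1 c2 => Mult_le (by omega) c2 ?_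
      · have := (h2 m (by omega)).trans u1
        exact_mod_cast (show (16 : ℝ) * m ^ 6 ≤ 2 ^ u by linarith)
      · have b1 : m * m ≤ m * (2 ^ 51 * c) := Nat.mul_le_mul_left _ (by omega)
        have b2 : 2 ^ 57 * m ≤ m * m := Nat.mul_le_mul_right _ (by omega)
        rw [mul_left_comm] at b1
        omega
    · exact core_big (by omega) (by omega) he h hw2
  have p : 0 < 2 * Ms m w := by linarith [key.1]
  rw [div_sub_one p.ne', abs_div, abs_of_pos p, div_le_iff₀ p]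
  refine key.2.trans (mul_le_mul_of_nonneg_right ?_ p.le)
  have a1 := h3 m (by omega)
  rw [pow_zero, mul_one] at a1
  have a2 : (2 : ℝ) ^ (min θ (1 / 2 ^ 54) * m) ≤ 2 ^ (1 / 2 ^ 53 * (m : ℝ)) :=
    Real.rpow_le_rpow_of_exponent_le (by norm_num)
      (mul_le_mul_of_nonneg_right ((min_le_right _ _).trans (by norm_num)) m0)
  have a3 : (2 : ℝ) ^ (1 / 2 ^ 53 * (m : ℝ)) * 2 ^ (1 / 2 ^ 53 * (m : ℝ)) =
      2 ^ (1 / 2 ^ 52 * (m : ℝ)) := by
    rw [← Real.rpow_add (by norm_num)]; congr 1; ring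
  rw [Real.rpow_neg (by norm_num), inv_eq_one_div, div_le_div_iff₀ (by positivity) (by positivity)]
  have a4 := mul_le_mul a1 a2 (by positivity) (by positivity)
  linarith

theorem term_eq {m c : ℕ} (hc : c ≤ m) (w : ℕ) :
    cP m 4 * (2 * (∏ i ∈ Finset.range c, ((2 : ℝ) ^ m - 2 ^ i) / (2 ^ c - 2 ^ i)) * 2 ^ c *
      (2 ^ (m - c)).choose w / 2 ^ ∑ i ∈ Finset.range 4, (m - c).choose i) =
    2 * (Mult (m - c) c * (2 ^ (m - c)).choose w) := by
  obtain ⟨n, rfl⟩ : ∃ n, m = n + c := ⟨m - c, by omega⟩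
  rw [Nat.add_sub_cancel]
  have h1 := G_mul (Fin (n + c) → F) c
  have h2 : ∏ i ∈ Finset.range c, ((2 : ℝ) ^ c - 2 ^ i) ≠ 0 :=
    Finset.prod_ne_zero_iff.2 fun i hi =>
      (sub_pos.2 (pow_lt_pow_right₀ (by norm_num) (Finset.mem_range.1 hi))).ne'
  have h3 := Mult_cP n c
  have h4 : (cP n 4 : ℝ) = 2 ^ ∑ i ∈ Finset.range 4, n.choose i := by rw [cP]; norm_cast
  have h5 : (cP n 4 : ℝ) ≠ 0 := Nat.cast_ne_zero.2 (cP_pos _ _).ne'
  rw [Reduce_finrank] at h1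
  rw [Finset.prod_div_distrib, ← h1, mul_div_cancel_right₀ _ h2, ← h4, ← mul_div_assoc,
    div_eq_iff h5]
  linear_combination (-2 * ((2 ^ n).choose w : ℝ)) * h3

theorem dual_main : ∃ θ : ℝ, 0 < θ ∧ ∃ m0 : ℕ, ∀ m w : ℕ, m0 ≤ m → Even w →
    (1 / 2 - θ) * (m : ℝ) ^ 2 ≤ w → 2 * w ≤ 2 ^ m →
    |({f : (Fin m → ZMod 2) → ZMod 2 | (∃ p : MvPolynomial (Fin m) (ZMod 2),
          p.totalDegree + 4 ≤ m ∧ ∀ x, f x = MvPolynomial.eval x p) ∧ hammingNorm f = w}.ncard : ℝ) /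
        (∑ c ∈ Finset.range (m + 1),
          2 * (∏ i ∈ Finset.range c, ((2 : ℝ) ^ m - 2 ^ i) / (2 ^ c - 2 ^ i)) * 2 ^ c *
            (2 ^ (m - c)).choose w / 2 ^ ∑ i ∈ Finset.range 4, (m - c).choose i) - 1| ≤
      (2 : ℝ) ^ (-(θ * m)) := by
  obtain ⟨θ, t0, m0, h4, h⟩ := core
  refine ⟨θ, t0, m0, fun m w h1 h2 h3 h5 => le_trans (le_of_eq ?_) (h m w h1 h2 h3 h5)⟩
  have c0 : (cP m 4 : ℝ) ≠ 0 := Nat.cast_ne_zero.2 (cP_pos _ _).ne'
  rw [← mul_div_mul_left _ _ c0, Finset.mul_sum,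
    Finset.sum_congr rfl fun c hc => term_eq (Nat.lt_succ_iff.1 (Finset.mem_range.1 hc)) w,
    ← Finset.mul_sum, Aw]
  obtain ⟨r, rfl⟩ : ∃ r, m = r + 4 := ⟨m - 4, by omega⟩
  rw [← macw (k := r + 1) (by rw [Reduce_finrank]) w]
  simp only [mem_P_iff_poly, add_le_add_iff_right]
  rfl

end Pool.Agent.P.MP_cb6780_lc
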