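import Pool.Agent.P.MP_cb6780_lc.SCnt

set_option autoImplicit false

/-! The moment of the biases of a random linear family of quadratic functions. -/

namespace Pool.Agent.P.MP_cb6780_lc

open Module

/-- the moment -/
noncomputable def Mom (p : ℕ) (W : Type) [AddCommGroup W] (t : ℕ) : ℝ :=
  av fun Q : Hm (Fin p → F) W => ∏ u, bias (Q u).1 ^ (2 * t)

theorem SMom_real {t S N b d p w L : ℝ} (ht0 : 0 ≤ t) (hd : 0 ≤ d) (hdw : d ≤ w) (hp : 0 ≤ p)
    (hL : 1 ≤ L) (hS : S + b * d = N * d) (hb : L * b ≤ N) (ht : p * w ≤ 2 * N * t) :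
    -(t * S) ≤ -(p * w * d / 2) + p * w ^ 2 / (2 * L) := by
  have hL0 : 0 < L := by linarith
  have hw : 0 ≤ w := hd.trans hdw
  set x : ℝ := 1 / L with hx
  have hx0 : 0 < x := by positivity
  have hx1 : x ≤ 1 := by rw [hx, div_le_one hL0]; exact hL
  have hbx : b ≤ N * x := by
    rw [hx, mul_one_div, le_div_iff₀ hL0, mul_comm]; exact hb
  have e1 : p * w ^ 2 / (2 * L) = p * w * w * x / 2 := by rw [hx]; field_simp
  have e2 : S = d * (N - b) := by linarith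
  have h1 : t * d * (N * (1 - x)) ≤ t * d * (N - b) :=
    mul_le_mul_of_nonneg_left (by linarith) (mul_nonneg ht0 hd)
  have h2 : p * w * (d * (1 - x)) ≤ 2 * N * t * (d * (1 - x)) :=
    mul_le_mul_of_nonneg_right ht (mul_nonneg hd (by linarith))
  have h3 : p * w * x * d ≤ p * w * x * w :=
    mul_le_mul_of_nonneg_left hdw (mul_nonneg (mul_nonneg hp hw) hx0.le)
  rw [e1, e2]
  nlinarith

theorem mom_pt {W : Type} [AddCommGroup W] [Module F W] [Finite W] {p L t w : ℕ}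
    (hw : finrank F W = w) (hL : 1 ≤ L) (ht : p * w ≤ 2 ^ (p + 1) * t) (Q : Hm (Fin p → F) W) :
    ∃ κ, κ ≤ w ∧ Q ∈ Lo (Fin p → F) W L κ ∧ ∏ u, bias (Q u).1 ^ (2 * t) ≤
      (2 : ℝ) ^ (-((p : ℝ) * w * (w - κ) / 2) + p * w ^ 2 / (2 * L)) := by
  classical
  have h0 : Q ∈ Lo (Fin p → F) W L 0 := by
    show Nat.card (Fin p → F) ≤ L * {u | 0 ≤ finrank F (LinearMap.ker (bf (Q u).1))}.ncard
    simp only [Nat.zero_le, Set.ofPred_true, Set.ncard_univ]
    exact Nat.le_mul_of_pos_left _ hL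
  obtain ⟨κ, hκw, hlo, hgr⟩ : ∃ κ, κ ≤ w ∧ Q ∈ Lo (Fin p → F) W L κ ∧
      (κ + 1 ≤ w → Q ∉ Lo (Fin p → F) W L (κ + 1)) :=
    ⟨Nat.findGreatest (fun κ => Q ∈ Lo (Fin p → F) W L κ) w, Nat.findGreatest_le w,
      Nat.findGreatest_spec (P := fun κ => Q ∈ Lo (Fin p → F) W L κ) (Nat.zero_le w) h0,
      fun h => Nat.findGreatest_is_greatest (P := fun κ => Q ∈ Lo (Fin p → F) W L κ)
        (Nat.lt_succ_self _) h⟩
  refine ⟨κ, hκw, hlo, ?_⟩
  set B : Set (Fin p → F) := {u | κ + 1 ≤ finrank F (LinearMap.ker (bf (Q u).1))} with hB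
  have hN : Nat.card (Fin p → F) = 2 ^ p := by rw [card_V, finrank_fin_fun]
  have hBL : L * B.ncard ≤ 2 ^ p := by
    by_cases h : κ + 1 ≤ w
    · have h1 : ¬ Nat.card (Fin p → F) ≤ L * B.ncard := hgr h
      rw [← hN]
      exact (not_le.1 h1).le
    · have h1 : B = ∅ := by
        refine Set.eq_empty_of_forall_notMem fun u hu => ?_
        have h2 : κ + 1 ≤ finrank F (LinearMap.ker (bf (Q u).1)) := hu
        have h3 := rk_ker (bf (Q u).1)
        omega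
      rw [h1, Set.ncard_empty, mul_zero]
      exact Nat.zero_le _
  let r : (Fin p → F) → ℕ := fun u => if u ∈ B then 0 else w - κ
  have hr : ∀ u, r u ≤ rk (bf (Q u).1) := fun u => by
    by_cases h : u ∈ B
    · simp only [r, h, if_true]; exact Nat.zero_le _
    · have h2 : ¬ κ + 1 ≤ finrank F (LinearMap.ker (bf (Q u).1)) := h
      have h3 := rk_ker (bf (Q u).1)
      simp only [r, h, if_false]
      omega
  have hpt : ∀ u, bias (Q u).1 ^ (2 * t) ≤ (1 / 2 : ℝ) ^ (t * r u) := fun u => by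
    have h1 : bias (Q u).1 ^ 2 ≤ (1 / 2 : ℝ) ^ r u := by
      refine (bias_sq_le_rk (Q u).2).trans ?_
      rw [← one_div_pow]
      exact pow_le_pow_of_le_one (by norm_num) (by norm_num) (hr u)
    rw [pow_mul, mul_comm t, pow_mul]
    exact pow_le_pow_left₀ (sq_nonneg _) h1 t
  have hsum : ∑ u, r u + B.ncard * (w - κ) = 2 ^ p * (w - κ) := by
    have h1 : ∑ u, (if u ∈ B then w - κ else 0) = B.ncard * (w - κ) := by
      rw [← Finset.sum_filter, Finset.sum_const, smul_eq_mul, Set.ncard_eq_toFinset_card' B]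
      congr 2
      ext u
      simp
    have h2 : ∀ u, r u + (if u ∈ B then w - κ else 0) = w - κ := fun u => by
      by_cases h : u ∈ B <;> simp [r, h]
    rw [← h1, ← Finset.sum_add_distrib]
    simp only [h2, Finset.sum_const, Finset.card_univ, smul_eq_mul]
    rw [← Nat.card_eq_fintype_card, hN]
  have hprod : ∏ u, bias (Q u).1 ^ (2 * t) ≤ (1 / 2 : ℝ) ^ (t * ∑ u, r u) := by
    rw [Finset.mul_sum, ← Finset.prod_pow_eq_pow_sum]
    exact Finset.prod_le_prod (fun u _ => by rw [pow_mul]; positivity) fun u _ => hpt u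
  refine hprod.trans ?_
  have e1 : (1 / 2 : ℝ) ^ (t * ∑ u, r u) = (2 : ℝ) ^ (-((t : ℝ) * ((∑ u, r u : ℕ) : ℝ))) := by
    rw [Real.rpow_neg (by norm_num), ← Nat.cast_mul, Real.rpow_natCast, one_div, inv_pow]
  rw [e1]
  refine Real.rpow_le_rpow_of_exponent_le (by norm_num) ?_
  have c1 : (((∑ u, r u : ℕ) : ℝ)) + (B.ncard : ℝ) * ((w : ℝ) - κ) = (2 : ℝ) ^ p * ((w : ℝ) - κ) := by
    rw [← Nat.cast_sub hκw]
    exact_mod_cast hsum
  have c2 : (L : ℝ) * (B.ncard : ℝ) ≤ (2 : ℝ) ^ p := by exact_mod_cast hBL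
  have c3 : (p : ℝ) * w ≤ 2 * (2 : ℝ) ^ p * t := by
    rw [← pow_succ']
    exact_mod_cast ht
  have c4 : (κ : ℝ) ≤ w := by exact_mod_cast hκw
  have c5 : (0 : ℝ) ≤ κ := Nat.cast_nonneg _
  exact SMom_real (Nat.cast_nonneg _) (by linarith) (by linarith) (Nat.cast_nonneg _)
    (by exact_mod_cast hL) c1 c2 c3

theorem SMom_nat {L K A p s w : ℕ} (hK : K = 3 + A + L * A) (hp : p = L * K)
    (hs : L * s ≤ 4 * w + L) (hw : p * A + p * p + 2 * A + p * L + 9 * p + 1 ≤ w) :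
    p * A + 2 * w * w + p * p + p + A * (w + 1 + w * w) +
        p * (L * w + (2 * s * w + 2 * w + 3)) + (L * A + 1) * (w * w) + p + w ≤ 10 * K * (w * w) := by
  have hw1 : 1 ≤ w := le_trans (Nat.le_add_left _ _) hw
  have h1 : p * (2 * s * w) ≤ 8 * K * (w * w) + 2 * p * w := by
    calc p * (2 * s * w) = 2 * K * w * (L * s) := by rw [hp]; ring
      _ ≤ 2 * K * w * (4 * w + L) := Nat.mul_le_mul_left _ hs
      _ = 8 * K * (w * w) + 2 * p * w := by rw [hp]; ring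
  have h2 : p * A + p * p + A + 5 * p ≤ (p * A + p * p + A + 5 * p) * w :=
    Nat.le_mul_of_pos_right _ hw1
  have h3 : (p * A + p * p + 2 * A + p * L + 9 * p + 1) * w ≤ w * w := Nat.mul_le_mul_right _ hw
  have h4 : w * w ≤ K * (w * w) := Nat.le_mul_of_pos_left _ (by omega)
  have h5 : K * (w * w) = 2 * w * w + A * (w * w) + (L * A + 1) * (w * w) := by rw [hK]; ring
  nlinarith

theorem mom {L : ℕ} (hL : 1 ≤ L) : ∃ p w0 : ℕ, 1 ≤ p ∧
    ∀ (W : Type) [AddCommGroup W] [Module F W] [Finite W] (w t : ℕ), finrank F W = w → w0 ≤ w →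
      p * w ≤ 2 ^ (p + 1) * t →
      Mom p W t ≤ (2 : ℝ) ^ (-((p : ℝ) * w ^ 2 / 2) + 12 * p * w ^ 2 / L) := by
  obtain ⟨K, hK⟩ : ∃ K, K = 3 + 2 ^ L + L * 2 ^ L := ⟨_, rfl⟩
  obtain ⟨p, hp⟩ : ∃ p, p = L * K := ⟨_, rfl⟩
  have hK0 : 0 < K := by rw [hK]; positivity
  refine ⟨p, p * 2 ^ L + p * p + 2 * 2 ^ L + p * L + 9 * p + 1, by rw [hp]; exact Nat.mul_pos hL hK0,
    fun W _ _ _ w t hw hw0 ht => ?_⟩
  have hfin : Finite (Hm (Fin p → F) W) := fin_Hm
  have hs1 : 4 * w ≤ L * (4 * w / L + 1) := (Nat.lt_mul_div_succ _ hL).le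
  have hs2 : L * (4 * w / L + 1) ≤ 4 * w + L := by
    rw [mul_add, mul_one]
    exact Nat.add_le_add_right (Nat.mul_div_le _ _) _
  have hE := SMom_nat hK hp hs2 hw0
  obtain ⟨E, hEd⟩ : ∃ E, E = p * 2 ^ L + 2 * w * w + p * p + p + 2 ^ L * (w + 1 + w * w) +
      p * (L * w + (2 * (4 * w / L + 1) * w + 2 * w + 3)) + (L * 2 ^ L + 1) * (w * w) := ⟨_, rfl⟩
  rw [← hEd] at hE
  have hL0 : (0 : ℝ) < L := by exact_mod_cast hL
  have hcard : (Nat.card (Hm (Fin p → F) W) : ℝ) = (cP w 3 : ℝ) ^ p := by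
    rw [card_Hm, hw, finrank_fin_fun, Nat.cast_pow]
  have hc0 : (0 : ℝ) < (cP w 3 : ℝ) ^ p := by
    have := cP_pos w 3
    positivity
  let c : ℕ → ℝ := fun κ => (2 : ℝ) ^ (-((p : ℝ) * w * (w - κ) / 2) + p * w ^ 2 / (2 * L))
  have hc : ∀ κ, 0 ≤ c κ := fun κ => Real.rpow_nonneg (by norm_num) _
  have h1 : ∀ Q : Hm (Fin p → F) W, ∏ u, bias (Q u).1 ^ (2 * t) ≤
      ∑ κ ∈ Finset.range (w + 1), c κ * (Lo (Fin p → F) W L κ).indicator (fun _ => (1 : ℝ)) Q := by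
    intro Q
    obtain ⟨κ, h2, h3, h4⟩ := mom_pt hw hL ht Q
    refine h4.trans (le_trans ?_ (Finset.single_le_sum
      (f := fun κ => c κ * (Lo (Fin p → F) W L κ).indicator (fun _ => (1 : ℝ)) Q)
      (fun i _ => mul_nonneg (hc i) (Set.indicator_nonneg (fun _ _ => zero_le_one) Q))
      (Finset.mem_range.2 (Nat.lt_succ_of_le h2))))
    rw [Set.indicator_of_mem h3, mul_one]
  have h2 : ∀ κ ∈ Finset.range (w + 1),
      av (fun Q => c κ * (Lo (Fin p → F) W L κ).indicator (fun _ => (1 : ℝ)) Q) ≤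
        (2 : ℝ) ^ (-((p : ℝ) * w ^ 2 / 2) + p * w ^ 2 / (2 * L) + (E + p)) := by
    intro κ hκ
    have hκw : κ ≤ w := Nat.lt_succ_iff.1 (Finset.mem_range.1 hκ)
    have h3 := cnt (Z := Fin p → F) (W := W) (H := κ * w / 2) (finrank_fin_fun F) hw hL hs1
      (Nat.mul_div_le _ _) hκw
    rw [← hEd] at h3
    have h4 : ((Lo (Fin p → F) W L κ).ncard : ℝ) * 2 ^ (p * (κ * w / 2)) ≤ (cP w 3 : ℝ) ^ p * 2 ^ E := by
      exact_mod_cast h3
    have h5 : ((Lo (Fin p → F) W L κ).ncard : ℝ) / (cP w 3 : ℝ) ^ p ≤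
        (2 : ℝ) ^ ((E : ℝ) - (p * (κ * w / 2) : ℕ)) := by
      rw [Real.rpow_sub (by norm_num), Real.rpow_natCast, Real.rpow_natCast,
        div_le_div_iff₀ hc0 (by positivity), mul_comm ((2 : ℝ) ^ E)]
      exact h4
    rw [av_mul_left, av_indicator, hcard]
    refine (mul_le_mul_of_nonneg_left h5 (hc κ)).trans ?_
    rw [← Real.rpow_add (by norm_num)]
    refine Real.rpow_le_rpow_of_exponent_le (by norm_num) ?_
    have h6 : p * (κ * w) ≤ 2 * (p * (κ * w / 2)) + 2 * p := by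
      have h7 : κ * w ≤ 2 * (κ * w / 2) + 2 := by omega
      calc p * (κ * w) ≤ p * (2 * (κ * w / 2) + 2) := Nat.mul_le_mul_left _ h7
        _ = 2 * (p * (κ * w / 2)) + 2 * p := by ring
    have h8 : (p : ℝ) * (κ * w) ≤ 2 * ((p * (κ * w / 2) : ℕ) : ℝ) + 2 * p := by exact_mod_cast h6
    nlinarith
  have h3 : ((w : ℝ) + 1) ≤ (2 : ℝ) ^ (w : ℝ) := by
    rw [Real.rpow_natCast]
    exact_mod_cast Nat.lt_two_pow_self
  refine (av_mono h1).trans ?_
  rw [Res2_av_sum]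
  refine (Finset.sum_le_card_nsmul _ _ _ h2).trans ?_
  rw [Finset.card_range, nsmul_eq_mul, Nat.cast_succ]
  refine (mul_le_mul_of_nonneg_right h3 (Real.rpow_nonneg (by norm_num) _)).trans ?_
  rw [← Real.rpow_add (by norm_num)]
  refine Real.rpow_le_rpow_of_exponent_le (by norm_num) ?_
  have e1 : (p : ℝ) = L * K := by exact_mod_cast hp
  have e2 : (p : ℝ) * w ^ 2 / (2 * L) = K * (w * w) / 2 := by rw [e1]; field_simp
  have e3 : 12 * (p : ℝ) * w ^ 2 / L = 12 * (K * (w * w)) := by rw [e1]; field_simp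
  have e4 : (E : ℝ) + p + w ≤ 10 * K * (w * w) := by exact_mod_cast hE
  have e5 : (0 : ℝ) ≤ K * (w * w) := by positivity
  rw [e2, e3]
  nlinarith

end Pool.Agent.P.MP_cb6780_lc
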