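import Pool.Agent.P.MP_cb6780_lc.UForm
import Pool.Agent.P.MP_cb6780_lc.LDef

set_option autoImplicit false

/-! Positivity of averaged products of biases; subspaces all of whose cosets keep the bias. -/

namespace Pool.Agent.P.MP_cb6780_lc

open Module

theorem SPos_chi_sum {ι : Type} (s : Finset ι) (h : ι → F) :
    chi (∑ a ∈ s, h a) = ∏ a ∈ s, chi (h a) := by
  classical
  induction s using Finset.induction_on with
  | empty => simp [chi_zero]
  | insert a s ha ih => rw [Finset.sum_insert ha, Finset.prod_insert ha, chi_add, ih]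

theorem bias_pi {ι X : Type} [Fintype ι] [Finite X] (h : ι → X → F) :
    bias (fun x : ι → X => ∑ a, h a (x a)) = ∏ a, bias (h a) := by
  classical
  have := Fintype.ofFinite X
  unfold bias
  simp only [av_eq, SPos_chi_sum]
  rw [Finset.prod_div_distrib, Finset.prod_const, Finset.card_univ, Fintype.card_fun,
    Finset.prod_univ_sum, Fintype.piFinset_univ]
  push_cast
  rfl

theorem SPos_av_chi_nonneg {Γ : Type} [AddCommGroup Γ] [Finite Γ] (ψ : Γ →+ F) :
    0 ≤ av fun γ => chi (ψ γ) := by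
  by_cases h : ∀ γ, ψ γ = 0
  · simp only [h, chi_zero]
    rw [av_const]
    norm_num
  · push Not at h
    obtain ⟨γ0, h0⟩ := h
    have h1 : ψ γ0 = 1 := (Av_cases _).resolve_left h0
    have h2 := av_congr (Equiv.addRight γ0) fun γ => chi (ψ γ)
    simp only [Equiv.coe_addRight, map_add, h1, chi_add, chi_one, mul_comm _ (-1 : ℝ)] at h2
    rw [av_mul_left] at h2
    linarith

theorem SPos_chi_le (a : F) : chi a ≤ 1 := (le_abs_self _).trans (abs_chi a).le

theorem av_bias_le {Γ X : Type} [AddCommGroup Γ] [Finite Γ] [Finite X] (g : X → F)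
    (Φ : Γ →+ (X → F)) : av (fun γ => bias (g + Φ γ)) ≤ av fun γ => bias (Φ γ) := by
  unfold bias
  rw [av_comm fun γ x => chi ((g + Φ γ) x), av_comm fun γ x => chi (Φ γ x)]
  refine av_mono fun x => ?_
  simp only [Pi.add_apply, chi_add]
  rw [av_mul_left]
  have h := SPos_av_chi_nonneg ((Pi.evalAddMonoidHom (fun _ : X => F) x).comp Φ)
  have h' : 0 ≤ av fun γ => chi (Φ γ x) := h
  nlinarith [SPos_chi_le (g x)]

theorem SPos_prod_pow {ι X : Type} [Fintype ι] [Finite X] (h : ι → X → F) (t : ℕ) :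
    ∏ a, bias (h a) ^ t = bias fun x : ι × Fin t → X => ∑ b, h b.1 (x b) := by
  rw [bias_pi fun b : ι × Fin t => h b.1, Fintype.prod_prod_type]
  simp

theorem pos_prod {ι Γ X : Type} [Fintype ι] [AddCommGroup Γ] [Finite Γ] [Finite X]
    (g : ι → X → F) (Φ : ι → Γ →+ (X → F)) (t : ℕ) :
    av (fun γ => ∏ a, bias (g a + Φ a γ) ^ t) ≤ av fun γ => ∏ a, bias (Φ a γ) ^ t := by
  let Ψ : Γ →+ ((ι × Fin t → X) → F) :=
    { toFun := fun γ x => ∑ b : ι × Fin t, Φ b.1 γ (x b)
      map_zero' := by funext x; simp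
      map_add' := fun γ δ => by
        funext x
        simp only [map_add, Pi.add_apply, Finset.sum_add_distrib] }
  have h := av_bias_le (fun x : ι × Fin t → X => ∑ b : ι × Fin t, g b.1 (x b)) Ψ
  have h1 : ∀ γ, ∏ a, bias (g a + Φ a γ) ^ t =
      bias ((fun x : ι × Fin t → X => ∑ b : ι × Fin t, g b.1 (x b)) + Ψ γ) := fun γ => by
    rw [SPos_prod_pow fun a => g a + Φ a γ]
    refine congrArg bias (funext fun x => ?_)
    simp only [Pi.add_apply, Finset.sum_add_distrib]
    rfl
  have h2 : ∀ γ, ∏ a, bias (Φ a γ) ^ t = bias (Ψ γ) := fun γ => SPos_prod_pow (fun a => Φ a γ) t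
  rw [funext h1, funext h2]
  exact h

variable {V : Type} [AddCommGroup V] [Module F V] [Finite V]

omit [Finite V] in
theorem SPos_surj {Z : Type} [AddCommGroup Z] [Module F Z] {y : Dual F Z} (hy : y ≠ 0) :
    Function.Surjective fun φ : V →ₗ[F] Z => (y.comp φ : Dual F V) := by
  obtain ⟨e, he⟩ := exists_eq_one hy
  intro l
  refine ⟨l.smulRight e, LinearMap.ext fun x => ?_⟩
  simp [he]

theorem SPos_card_dual : Nat.card (Dual F V) = Nat.card V := by
  have : Finite (Dual F V) := DFunLike.finite _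
  have : Module.Finite F V := Module.Finite.of_finite
  rw [card_V (V := Dual F V), card_V (V := V), Subspace.dual_finrank_eq]

open Classical in
theorem SPos_mean {Z : Type} [AddCommGroup Z] [Module F Z] [Finite Z] (f : V → F) {y : Dual F Z}
    (hy : y ≠ 0) :
    av (fun φ : V →ₗ[F] Z => bias (f + fun x => y (φ x)) ^ 2 + if y.comp φ = 0 then 1 else 0) =
      2 / Nat.card V := by
  have : Finite (Dual F V) := DFunLike.finite _
  have : Finite (V →ₗ[F] Z) := DFunLike.finite _
  let π : (V →ₗ[F] Z) →+ Dual F V :=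
    { toFun := fun φ => y.comp φ
      map_zero' := by simp
      map_add' := fun a b => LinearMap.comp_add a b y }
  have h := av_surj π (SPos_surj hy)
    fun l => bias (f + fun x => l x) ^ 2 + ({0} : Set (Dual F V)).indicator (fun _ => (1 : ℝ)) l
  rw [av_add (fun l : Dual F V => bias (f + fun x => l x) ^ 2), av_bias_sq_dual, av_indicator,
    SPos_card_dual, Set.ncard_singleton] at h
  rw [show (2 : ℝ) / Nat.card V = 1 / Nat.card V + ((1 : ℕ) : ℝ) / Nat.card V by push_cast; ring,
    ← h]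
  refine congrArg av (funext fun φ => ?_)
  simp only [Set.indicator_apply, Set.mem_singleton_iff]
  rfl

theorem exists_cosets {p c : ℕ} (f : V → F) (h : 2 * c + 2 * p + 1 ≤ finrank F V) :
    ∃ φ : V →ₗ[F] (Fin p → F), Function.Surjective φ ∧
      ∀ a, bias f - 1 / 2 ^ c ≤ bias (res (LinearMap.ker φ) a f) := by
  classical
  have : Finite (Dual F V) := DFunLike.finite _
  have : Finite (V →ₗ[F] (Fin p → F)) := DFunLike.finite _
  have : Finite (Dual F (Fin p → F)) := DFunLike.finite _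
  have : Module.Finite F V := Module.Finite.of_finite
  have := Fintype.ofFinite (Dual F (Fin p → F))
  have hY : Fintype.card (Dual F (Fin p → F)) = 2 ^ p := by
    rw [← Nat.card_eq_fintype_card, SPos_card_dual, card_V]
    simp
  set s : Finset (Dual F (Fin p → F)) := Finset.univ.erase 0 with hs
  have hsc : (s.card : ℝ) + 1 = 2 ^ p := by
    have h1 : s.card + 1 = 2 ^ p := by
      rw [hs, Finset.card_erase_add_one (Finset.mem_univ _), Finset.card_univ, hY]
    exact_mod_cast h1
  obtain ⟨φ, hφ⟩ := exists_le_av fun φ : V →ₗ[F] (Fin p → F) =>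
    ∑ y ∈ s, (bias (f + fun x => y (φ x)) ^ 2 + if y.comp φ = 0 then (1 : ℝ) else 0)
  rw [Res2_av_sum s fun y (φ : V →ₗ[F] (Fin p → F)) =>
      bias (f + fun x => y (φ x)) ^ 2 + if y.comp φ = 0 then (1 : ℝ) else 0,
    Finset.sum_congr rfl fun y hy => SPos_mean f (Finset.ne_of_mem_erase hy), Finset.sum_const,
    nsmul_eq_mul] at hφ
  have hN : (2 : ℝ) ^ (2 * c + 2 * p + 1) ≤ Nat.card V := by
    rw [card_V]
    push_cast
    exact pow_le_pow_right₀ (by norm_num) h
  have hc : (1 : ℝ) ≤ 2 ^ c := one_le_pow₀ (by norm_num)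
  have hp : (1 : ℝ) ≤ 2 ^ p := one_le_pow₀ (by norm_num)
  have hN' : 2 / (Nat.card V : ℝ) ≤ (1 / 2 ^ c) ^ 2 / (2 ^ p) ^ 2 := by
    calc 2 / (Nat.card V : ℝ) ≤ 2 / 2 ^ (2 * c + 2 * p + 1) :=
          div_le_div_of_nonneg_left (by norm_num) (by positivity) hN
      _ = (1 / 2 ^ c) ^ 2 / (2 ^ p) ^ 2 := by
          rw [pow_succ, pow_add, mul_comm 2 c, mul_comm 2 p, pow_mul, pow_mul]
          field_simp
  have hs0 : (0 : ℝ) ≤ s.card := Nat.cast_nonneg _
  have hτ : (1 / 2 ^ c : ℝ) ≤ 1 := by rw [div_le_one (by positivity)]; exact hc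
  have hτ0 : (0 : ℝ) < 1 / 2 ^ c := by positivity
  have hb : (s.card : ℝ) * (s.card * (2 / Nat.card V)) ≤ (1 / 2 ^ c) ^ 2 := by
    calc (s.card : ℝ) * (s.card * (2 / Nat.card V))
        ≤ 2 ^ p * (2 ^ p * ((1 / 2 ^ c) ^ 2 / (2 ^ p) ^ 2)) := by
          gcongr <;> linarith
      _ = (1 / 2 ^ c) ^ 2 := by field_simp
  have hlt : (s.card : ℝ) * (2 / Nat.card V) < 1 := by
    calc (s.card : ℝ) * (2 / Nat.card V) ≤ s.card * ((1 / 2 ^ c) ^ 2 / (2 ^ p) ^ 2) := by gcongr
      _ ≤ s.card * (1 / 2 ^ p) := by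
          gcongr ?_ * ?_
          rw [div_le_div_iff₀ (by positivity) (by positivity)]
          have h1 : (1 / 2 ^ c : ℝ) ^ 2 ≤ 1 := pow_le_one₀ hτ0.le hτ
          nlinarith
      _ < 1 := by
          rw [mul_one_div, div_lt_one (by positivity)]
          linarith
  have hterm : ∀ y : Dual F (Fin p → F),
      0 ≤ (if y.comp φ = 0 then (1 : ℝ) else 0) := fun y => by split_ifs <;> norm_num
  have hsurj : Function.Surjective φ := by
    rw [← LinearMap.dualMap_injective_iff, ← LinearMap.ker_eq_bot, Submodule.eq_bot_iff]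
    intro y hy
    by_contra h0
    have hy' : y.comp φ = 0 := hy
    have h1 := Finset.single_le_sum (s := s)
      (f := fun y => bias (f + fun x => y (φ x)) ^ 2 + if y.comp φ = 0 then (1 : ℝ) else 0)
      (fun y _ => add_nonneg (sq_nonneg _) (hterm y))
      (Finset.mem_erase.2 ⟨h0, Finset.mem_univ y⟩)
    simp only [hy', if_true] at h1
    nlinarith [sq_nonneg (bias (f + fun x => y (φ x)))]
  refine ⟨φ, hsurj, fun a => ?_⟩
  have hsq : ∑ y ∈ s, bias (f + fun x => y (φ x)) ^ 2 ≤ s.card * (2 / Nat.card V) :=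
    le_trans (Finset.sum_le_sum fun y _ => le_add_of_nonneg_right (hterm y)) hφ
  let π : Dual F (Fin p → F) →+ (LinearMap.ker φ).dualAnnihilator :=
    { toFun := fun y => ⟨y.comp φ, by
        rw [← LinearMap.range_dualMap_eq_dualAnnihilator_ker]
        exact ⟨y, rfl⟩⟩
      map_zero' := Subtype.ext (by simp)
      map_add' := fun a b => Subtype.ext (LinearMap.add_comp φ b a) }
  have hπ : Function.Surjective π := by
    rintro ⟨l, hl⟩
    rw [← LinearMap.range_dualMap_eq_dualAnnihilator_ker] at hl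
    obtain ⟨y, rfl⟩ := hl
    exact ⟨y, rfl⟩
  have h1 := av_surj π hπ fun l => chi (l.1 a) * bias (f + fun x => l.1 x)
  have hk : finrank F (LinearMap.ker φ) + p = finrank F V := by
    have h2 := φ.finrank_range_add_finrank_ker
    rw [LinearMap.range_eq_top.2 hsurj, finrank_top] at h2
    simp only [finrank_fintype_fun_eq_card, Fintype.card_fin] at h2
    omega
  rw [av_ann, card_sub _ hk, av_eq, hY, ← Finset.add_sum_erase _ _ (Finset.mem_univ 0), ← hs] at h1
  have h3 : bias (res (LinearMap.ker φ) a f) =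
      bias f + ∑ y ∈ s, chi (y (φ a)) * bias (f + fun x => y (φ x)) := by
    have h4 : chi ((π 0).1 a) * bias (f + fun x => (π 0).1 x) = bias f := by
      rw [map_zero]
      simp only [Submodule.coe_zero, LinearMap.zero_apply, chi_zero, one_mul]
      exact congrArg bias (funext fun x => add_zero _)
    rw [h4] at h1
    have h5 : (bias f + ∑ y ∈ s, chi (y (φ a)) * bias (f + fun x => y (φ x))) / 2 ^ p =
        1 / 2 ^ p * bias (res (LinearMap.ker φ) a f) := by
      rw [← h1]
      push_cast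
      rfl
    field_simp at h5
    linarith
  have h6 : (∑ y ∈ s, chi (y (φ a)) * bias (f + fun x => y (φ x))) ^ 2 ≤ (1 / 2 ^ c) ^ 2 := by
    refine (sq_sum_le_card_mul_sum_sq).trans (le_trans ?_ hb)
    refine mul_le_mul_of_nonneg_left (le_trans (le_of_eq ?_) hsq) hs0
    refine Finset.sum_congr rfl fun y _ => ?_
    rw [mul_pow, sq (chi _), chi_sq, one_mul]
  have h7 := (abs_le_of_sq_le_sq' h6 hτ0.le).1
  rw [h3]
  linarith

end Pool.Agent.P.MP_cb6780_lc
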