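import Pool.Agent.P.MP_cb6780_lc.UForm
import Pool.Agent.P.MP_cb6780_lc.LDef

set_option autoImplicit false

/-! Sequential counting of tuples of vectors, and independent transversals. -/

namespace Pool.Agent.P.MP_cb6780_lc

open Module

theorem SSeq_invol {ι X : Type} [DecidableEq ι] (k : ι) :
    Function.Involutive (fun p : (ι → X) × X => (Function.update p.1 k p.2, p.1 k)) := by
  intro p
  simp only [Function.update_idem, Function.update_self, Function.update_eq_self]

theorem av_update {ι X : Type} [Finite ι] [DecidableEq ι] [Finite X] [Nonempty X] (k : ι)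
    (Φ : (ι → X) → ℝ) : av Φ = av fun x => av fun v => Φ (Function.update x k v) := by
  have h1 := av_congr (SSeq_invol (X := X) k).toPerm (fun p : (ι → X) × X => Φ p.1)
  rw [av_prod, av_prod] at h1
  have h2 : (fun x : ι → X => av fun _ : X => Φ x) = Φ := funext fun x => av_const (Φ x)
  rw [h2] at h1
  exact h1.symm

theorem av_seq {ι X : Type} [Fintype ι] [LinearOrder ι] [Finite X] [Nonempty X]
    (g : ι → (ι → X) → ℝ) (h0 : ∀ j x, 0 ≤ g j x)
    (h1 : ∀ j k x v, j < k → g j (Function.update x k v) = g j x)
    (h2 : ∀ j x, av (fun v => g j (Function.update x j v)) ≤ 1) :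
    av (fun x => ∏ j, g j x) ≤ 1 := by
  have key : ∀ s : Finset ι, av (fun x => ∏ j ∈ s, g j x) ≤ 1 := by
    intro s
    induction s using Finset.induction_on_max with
    | empty =>
      simp only [Finset.prod_empty]
      exact (av_const (1 : ℝ)).le
    | insert a s hlt ih =>
      have ha : a ∉ s := fun h => lt_irrefl a (hlt a h)
      rw [av_update a]
      refine le_trans (av_mono fun x => ?_) ih
      have e : (fun v => ∏ j ∈ insert a s, g j (Function.update x a v)) =
          fun v => (∏ j ∈ s, g j x) * g a (Function.update x a v) := by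
        funext v
        rw [Finset.prod_insert ha, mul_comm,
          Finset.prod_congr rfl fun j hj => h1 j a x v (hlt j hj)]
      rw [e, av_mul_left]
      exact mul_le_of_le_one_right (Finset.prod_nonneg fun j _ => h0 j x) (h2 a x)
  exact key Finset.univ

variable {W : Type} [AddCommGroup W] [Module F W] [Finite W]

/-- the span of the functionals that the earlier vectors impose on vector number `j` -/
def Lam {ι : Type} [LinearOrder ι] (B : ι → Bil W) (j : ι) (x : ι → W) : Submodule F (Dual F W) :=
  Submodule.span F {l | ∃ i, i < j ∧ l = (B i + B j) (x i)}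

omit [Finite W] in
theorem SSeq_Lam_update {ι : Type} [LinearOrder ι] (B : ι → Bil W) {j k : ι} (h : j ≤ k)
    (x : ι → W) (v : W) : Lam B j (Function.update x k v) = Lam B j x := by
  unfold Lam
  congr 1
  ext l
  refine exists_congr fun i => and_congr_right fun hi => ?_
  rw [Function.update_of_ne (hi.trans_le h).ne]

theorem SSeq_av_coann (L : Submodule F (Dual F W)) :
    av (fun v : W => (2 : ℝ) ^ finrank F L *
      (L.dualCoannihilator : Set W).indicator (fun _ => (1 : ℝ)) v) ≤ 1 := by
  have : Module.Finite F W := Module.Finite.of_finite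
  have h1 := Subspace.finrank_add_finrank_dualCoannihilator_eq (K := F) (V := W) L
  have h2 : (L.dualCoannihilator : Set W).ncard = 2 ^ finrank F L.dualCoannihilator := by
    rw [← card_V (V := L.dualCoannihilator)]
    exact (Nat.card_coe_set_eq _).symm
  rw [av_mul_left, av_indicator, h2, card_V, ← h1]
  push_cast
  rw [pow_add, ← mul_div_assoc, div_self (by positivity)]

theorem seq_sum {ι : Type} [Fintype ι] [LinearOrder ι] (B : ι → Bil W) :
    av ({x : ι → W | ∀ i j, (B i + B j) (x i) (x j) = 0}.indicator
      fun x => (2 : ℝ) ^ ∑ j, finrank F (Lam B j x)) ≤ 1 := by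
  have hg : ∀ (j : ι) (x : ι → W), 0 ≤ (2 : ℝ) ^ finrank F (Lam B j x) *
      ((Lam B j x).dualCoannihilator : Set W).indicator (fun _ => (1 : ℝ)) (x j) := fun j x =>
    mul_nonneg (by positivity) (Set.indicator_nonneg (fun _ _ => zero_le_one) _)
  refine le_trans (av_mono fun x => ?_)
    (av_seq (fun j x => (2 : ℝ) ^ finrank F (Lam B j x) *
      ((Lam B j x).dualCoannihilator : Set W).indicator (fun _ => (1 : ℝ)) (x j)) hg ?_ ?_)
  · by_cases hx : x ∈ {x : ι → W | ∀ i j, (B i + B j) (x i) (x j) = 0}
    · rw [Set.indicator_of_mem hx, ← Finset.prod_pow_eq_pow_sum]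
      refine le_of_eq (Finset.prod_congr rfl fun j _ => ?_)
      have hm : x j ∈ ((Lam B j x).dualCoannihilator : Set W) := by
        refine (Submodule.mem_dualCoannihilator _).2 fun φ hφ => ?_
        have hle : Lam B j x ≤ LinearMap.ker (Dual.eval F W (x j)) := by
          refine Submodule.span_le.2 ?_
          rintro l ⟨i, _, rfl⟩
          exact hx i j
        exact hle hφ
      rw [Set.indicator_of_mem hm, mul_one]
    · rw [Set.indicator_of_notMem hx]
      exact Finset.prod_nonneg fun j _ => hg j x
  · intro j k x v hjk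
    rw [SSeq_Lam_update B hjk.le, Function.update_of_ne hjk.ne]
  · intro j x
    refine le_trans (av_mono fun v => le_of_eq ?_) (SSeq_av_coann (Lam B j x))
    rw [SSeq_Lam_update B (le_refl j), Function.update_self]

omit [Finite W] in
theorem SSeq_prod_mem {ι : Type} (l : ι → Dual F W) (s : Finset ι) :
    (fun y => ∏ i ∈ s, l i y) ∈ P W (s.card + 1) := by
  classical
  induction s using Finset.induction_on with
  | empty => exact mem_P_one.2 ⟨1, funext fun y => Finset.prod_empty⟩
  | insert a s ha ih =>
    have h := mul_mem_P ih (dual_mem_P (l a))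
    rw [Finset.card_insert_of_notMem ha]
    have e : (fun y => ∏ i ∈ insert a s, l i y) = (fun y => ∏ i ∈ s, l i y) * fun y => l a y := by
      funext y
      rw [Finset.prod_insert ha, mul_comm]
      rfl
    rw [e]
    exact h

omit [Finite W] in
theorem SSeq_det_mem {ι : Type} [Fintype ι] [DecidableEq ι] (l : ι → ι → Dual F W) :
    (fun y => (Matrix.of fun i j => l i j y).det) ∈ P W (Fintype.card ι + 1) := by
  have e : (fun y => (Matrix.of fun i j => l i j y).det) =
      ∑ σ : Equiv.Perm ι, (((Equiv.Perm.sign σ : ℤˣ) : ℤ) : F) • fun y => ∏ i, l (σ i) i y := by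
    funext y
    rw [Matrix.det_apply', Finset.sum_apply]
    rfl
  rw [e]
  exact Submodule.sum_mem _ fun σ _ =>
    Submodule.smul_mem _ _ (SSeq_prod_mem (fun i => l (σ i) i) Finset.univ)

theorem trans_count {ι : Type} [Fintype ι] (K : ι → Submodule F W) {x : ι → W}
    (hx : LinearIndependent F x) (hK : ∀ i, x i ∈ K i) :
    2 ^ ∑ i, finrank F (K i) ≤
      2 ^ Fintype.card ι * {y : ι → W | LinearIndependent F y ∧ ∀ i, y i ∈ K i}.ncard := by
  classical
  obtain ⟨π, hπ⟩ := (Fintype.linearCombination F x).exists_leftInverse_of_injective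
    (LinearMap.ker_eq_bot.2 hx.fintypeLinearCombination_injective)
  have hπx : ∀ i, π (x i) = Pi.single i 1 := by
    intro i
    have h := LinearMap.congr_fun hπ (Pi.single i 1)
    rwa [LinearMap.comp_apply, Fintype.linearCombination_apply_single, one_smul,
      LinearMap.id_apply] at h
  let l : ι → ι → Dual F ((i : ι) → K i) := fun i j =>
    (LinearMap.proj j).comp (π.comp ((K i).subtype.comp (LinearMap.proj i)))
  have hl : ∀ i j y, l i j y = π (y i) j := fun _ _ _ => rfl
  have hf := SSeq_det_mem l
  have h0 : (fun y => (Matrix.of fun i j => l i j y).det) ≠ 0 := by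
    intro he
    have h1 := congrFun he (fun i => ⟨x i, hK i⟩)
    have h2 : (Matrix.of fun i j => l i j (fun i => (⟨x i, hK i⟩ : K i))) = 1 := by
      ext i j
      rw [Matrix.of_apply, hl, hπx, Matrix.one_apply, Pi.single_apply]
      exact if_congr eq_comm rfl rfl
    rw [h2, Matrix.det_one] at h1
    exact one_ne_zero h1
  have hb := min_dist hf h0
  rw [bias_eq_wt] at hb
  have hcard : Nat.card ((i : ι) → K i) = 2 ^ ∑ i, finrank F (K i) := by
    rw [Nat.card_pi, ← Finset.prod_pow_eq_pow_sum]
    exact Finset.prod_congr rfl fun i _ => card_V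
  have hle : {y : (i : ι) → K i | (Matrix.of fun i j => l i j y).det ≠ 0}.ncard ≤
      {y : ι → W | LinearIndependent F y ∧ ∀ i, y i ∈ K i}.ncard := by
    refine Set.ncard_le_ncard_of_injOn (fun y i => (y i : W)) (fun y hy => ⟨?_, fun i => (y i).2⟩)
      (fun y _ z _ h => funext fun i => Subtype.ext (congrFun h i)) (Set.toFinite _)
    exact LinearIndependent.of_comp π (Matrix.linearIndependent_rows_of_det_ne_zero hy)
  refine le_trans ?_ (Nat.mul_le_mul_left _ hle)
  rw [← hcard]
  have hpos : (0 : ℝ) < Nat.card ((i : ι) → K i) := by exact_mod_cast Nat.card_pos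
  have h3 : (2 : ℝ) / 2 ^ Fintype.card ι ≤
      2 * ({y : (i : ι) → K i | (Matrix.of fun i j => l i j y).det ≠ 0}.ncard : ℝ) /
        Nat.card ((i : ι) → K i) := by linarith
  rw [div_le_div_iff₀ (by positivity) hpos] at h3
  have h4 : (Nat.card ((i : ι) → K i) : ℝ) ≤ 2 ^ Fintype.card ι *
      ({y : (i : ι) → K i | (Matrix.of fun i j => l i j y).det ≠ 0}.ncard : ℝ) := by linarith
  exact_mod_cast h4

end Pool.Agent.P.MP_cb6780_lc
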