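import Pool.Agent.P.MP_cb6780_lc.SMom
import Pool.Agent.P.MP_cb6780_lc.SPos

set_option autoImplicit false

/-! One step of the chain: from dimension `w` to dimension `w + p`. -/

namespace Pool.Agent.P.MP_cb6780_lc

open Module

/-- the cubic function attached to a linear family of quadratic functions -/
def SStep_J {V W : Type} [AddCommGroup V] [Module F V] [AddCommGroup W] [Module F W] {p : ℕ}
    (φ : V →ₗ[F] (Fin p → F)) (π : V →ₗ[F] W) : Hm (Fin p → F) W →+ (V → F) where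
  toFun Q := fun x => (Q (φ x)).1 (π x)
  map_zero' := rfl
  map_add' _ _ := rfl

theorem SStep_J_apply {V W : Type} [AddCommGroup V] [Module F V] [AddCommGroup W] [Module F W]
    {p : ℕ} (φ : V →ₗ[F] (Fin p → F)) (π : V →ₗ[F] W) (Q : Hm (Fin p → F) W) (x : V) :
    SStep_J φ π Q x = (Q (φ x)).1 (π x) := rfl

theorem SStep_J_mem {V W : Type} [AddCommGroup V] [Module F V] [AddCommGroup W] [Module F W]
    {p : ℕ} (φ : V →ₗ[F] (Fin p → F)) (π : V →ₗ[F] W) (Q : Hm (Fin p → F) W) :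
    SStep_J φ π Q ∈ P V 4 := by
  have e : SStep_J φ π Q = ∑ i : Fin p, (fun x => ((LinearMap.proj i).comp φ : Dual F V) x) *
      fun x => (Q (Pi.single i 1)).1 (π x + 0) := by
    funext x
    have h1 : φ x = ∑ i : Fin p, φ x i • (Pi.single i 1 : Fin p → F) := by
      funext j
      simp [Finset.sum_apply, Pi.single_apply]
    have h2 : (Q (φ x)).1 = ∑ i : Fin p, φ x i • (Q (Pi.single i 1)).1 := by
      conv_lhs => rw [h1]
      rw [map_sum, Submodule.coe_sum]
      refine Finset.sum_congr rfl fun i _ => ?_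
      rw [map_smul, Submodule.coe_smul]
    rw [SStep_J_apply, h2, Finset.sum_apply, Finset.sum_apply]
    refine Finset.sum_congr rfl fun i _ => ?_
    rw [Pi.mul_apply, add_zero]
    rfl
  rw [e]
  refine Submodule.sum_mem _ fun i _ => ?_
  exact mul_mem_P (d := 1) (e := 2) (dual_mem_P _) (comp_mem_P (Q (Pi.single i 1)).2 π 0)

theorem ext_count {V : Type} [AddCommGroup V] [Module F V] [Finite V] {p : ℕ}
    (φ : V →ₗ[F] (Fin p → F)) (hφ : Function.Surjective φ) (A : Set (LinearMap.ker φ → F))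
    {τ : ℝ} (hτ : 0 ≤ τ) (t : ℕ) :
    ({f | (f ∈ P V 4 ∧ res (LinearMap.ker φ) 0 f ∈ A) ∧
        ∀ a, τ ≤ bias (res (LinearMap.ker φ) a f)}.ncard : ℝ) * τ ^ (2 * t * 2 ^ p) ≤
      {f | f ∈ P V 4 ∧ res (LinearMap.ker φ) 0 f ∈ A}.ncard * Mom p (LinearMap.ker φ) t := by
  obtain ⟨π, hπ⟩ := Res2_proj (LinearMap.ker φ)
  choose σ hσ using hφ
  have hfin : Finite (Hm (Fin p → F) (LinearMap.ker φ)) := fin_Hm
  have hk : ∀ u : LinearMap.ker φ, φ u = 0 := fun u => u.2
  set S : Set (V → F) := {f | f ∈ P V 4 ∧ res (LinearMap.ker φ) 0 f ∈ A} with hS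
  set S' : Set (V → F) := {f | (f ∈ P V 4 ∧ res (LinearMap.ker φ) 0 f ∈ A) ∧
        ∀ a, τ ≤ bias (res (LinearMap.ker φ) a f)} with hS'
  let I : (V → F) → ℝ := S.indicator fun _ => 1
  let G : (V → F) → ℝ := fun f => ∏ u, bias (res (LinearMap.ker φ) (σ u) f) ^ (2 * t)
  have I0 : ∀ f, 0 ≤ I f := fun f => Set.indicator_nonneg (fun _ _ => zero_le_one) f
  have G0 : ∀ f, 0 ≤ G f := fun f =>
    Finset.prod_nonneg fun u _ => Even.pow_nonneg (even_two_mul t) _
  have r0 : ∀ Q, res (LinearMap.ker φ) 0 (SStep_J φ π Q) = 0 := fun Q => by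
    funext u
    rw [res_apply, SStep_J_apply, add_zero, hk, map_zero]
    rfl
  have r1 : ∀ Q u, bias (res (LinearMap.ker φ) (σ u) (SStep_J φ π Q)) = bias (Q u).1 := by
    intro Q u
    rw [← bias_transl (Q u).1 (π (σ u))]
    refine congrArg bias (funext fun x => ?_)
    rw [res_apply, SStep_J_apply, map_add, hk, zero_add, hσ, map_add, hπ]
  have hI : ∀ Q f, I (f + SStep_J φ π Q) = I f := fun Q f => by
    have : f + SStep_J φ π Q ∈ S ↔ f ∈ S := by
      simp only [hS, Set.mem_ofPred_eq]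
      rw [map_add, r0, add_zero, Submodule.add_mem_iff_left _ (SStep_J_mem φ π Q)]
    by_cases hf : f ∈ S
    · simp only [I, Set.indicator_of_mem hf, Set.indicator_of_mem (this.2 hf)]
    · simp only [I, Set.indicator_of_notMem hf, Set.indicator_of_notMem fun h => hf (this.1 h)]
  have h1 : τ ^ (2 * t * 2 ^ p) * av (S'.indicator fun _ => (1 : ℝ)) ≤ av fun f => I f * G f := by
    rw [← av_mul_left]
    refine av_mono fun f => ?_
    by_cases hf : f ∈ S'
    · have hf' : f ∈ S := hf.1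
      rw [Set.indicator_of_mem hf, mul_one]
      simp only [I, Set.indicator_of_mem hf', one_mul]
      have : τ ^ (2 * t * 2 ^ p) = ∏ _u : Fin p → F, τ ^ (2 * t) := by
        rw [Finset.prod_const, Finset.card_univ, Fintype.card_fun, ZMod.card, Fintype.card_fin,
          ← pow_mul]
      rw [this]
      exact Finset.prod_le_prod (fun _ _ => pow_nonneg hτ _)
        fun u _ => pow_le_pow_left₀ hτ (hf.2 _) _
    · rw [Set.indicator_of_notMem hf, mul_zero]
      exact mul_nonneg (I0 f) (G0 f)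
  have h2 : ∀ Q, (av fun f => I f * G (f + SStep_J φ π Q)) = av fun f => I f * G f := fun Q => by
    rw [← av_congr (Equiv.addRight (SStep_J φ π Q)) fun f => I f * G f]
    refine congrArg av (funext fun f => ?_)
    rw [Equiv.coe_addRight, hI]
  have h3 : ∀ f, (av fun Q => G (f + SStep_J φ π Q)) ≤ Mom p (LinearMap.ker φ) t := fun f => by
    have h := pos_prod (fun u => res (LinearMap.ker φ) (σ u) f)
      (fun u => (res (LinearMap.ker φ) (σ u)).toAddMonoidHom.comp (SStep_J φ π)) (2 * t)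
    refine le_trans (le_of_eq ?_) (h.trans (le_of_eq ?_))
    · refine congrArg av (funext fun Q => Finset.prod_congr rfl fun u _ => ?_)
      rw [map_add]
      rfl
    · refine congrArg av (funext fun Q => Finset.prod_congr rfl fun u _ => ?_)
      rw [← r1 Q u]
      rfl
  have h4 : (av fun f => I f * G f) ≤ Mom p (LinearMap.ker φ) t * av I := by
    rw [← av_const (V := Hm (Fin p → F) (LinearMap.ker φ)) (av fun f => I f * G f)]
    rw [← funext h2, av_comm fun Q f => I f * G (f + SStep_J φ π Q), ← av_mul_left]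
    refine av_mono fun f => ?_
    rw [av_mul_left, mul_comm]
    exact mul_le_mul_of_nonneg_right (h3 f) (I0 f)
  have h5 := h1.trans h4
  have hc : (0 : ℝ) < Nat.card (V → F) := by exact_mod_cast Nat.card_pos
  rw [av_indicator, av_indicator, ← mul_div_assoc, ← mul_div_assoc,
    div_le_div_iff_of_pos_right hc] at h5
  rw [mul_comm, mul_comm (S.ncard : ℝ)]
  exact h5

theorem step {w p c t : ℕ} (h : 2 * c + p + 1 ≤ w) {θ M : ℝ} (hθ : 2 / 2 ^ c ≤ θ)
    (hM : ∀ (W : Type) [AddCommGroup W] [Module F W] [Finite W], finrank F W = w → Mom p W t ≤ M) :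
    (Nn (w + p) 4 θ : ℝ) * cP w 4 ≤ 2 ^ (p * (w + p)) *
      (Nn w 4 (θ - 1 / 2 ^ c) * cP (w + p) 4 * (M * 2 ^ (c * (2 * t * 2 ^ p)))) := by
  have hV : finrank F (Fin (w + p) → F) = w + p := by simp
  have hfin : Finite ((Fin (w + p) → F) →ₗ[F] (Fin p → F)) := DFunLike.finite _
  have M0 : 0 ≤ M := by
    refine le_trans ?_ (hM (Fin w → F) (by simp))
    have : Finite (Hm (Fin p → F) (Fin w → F)) := fin_Hm
    exact av_nonneg fun Q => Finset.prod_nonneg fun u _ => Even.pow_nonneg (even_two_mul t) _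
  have c0 : (0 : ℝ) < cP w 4 := by
    unfold cP
    positivity
  have hτ : (1 : ℝ) / 2 ^ c ≤ θ - 1 / 2 ^ c := by
    have : (2 : ℝ) / 2 ^ c = 1 / 2 ^ c + 1 / 2 ^ c := by ring
    linarith
  set B : ℝ := Nn w 4 (θ - 1 / 2 ^ c) * cP (w + p) 4 * (M * 2 ^ (c * (2 * t * 2 ^ p))) with hB
  have B0 : 0 ≤ B := by positivity
  have h1 := cover_le {f : (Fin (w + p) → F) → F | f ∈ P _ 4 ∧ θ ≤ bias f}
    {φ : (Fin (w + p) → F) →ₗ[F] (Fin p → F) | Function.Surjective φ}
    (fun φ => {f | (f ∈ P _ 4 ∧ res (LinearMap.ker φ) 0 f ∈ {g | θ - 1 / 2 ^ c ≤ bias g}) ∧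
        ∀ a, 1 / 2 ^ c ≤ bias (res (LinearMap.ker φ) a f)}) ⌊B / cP w 4⌋₊
    (fun f hf => by
      obtain ⟨φ, h1, h2⟩ := exists_cosets (p := p) (c := c) f (by rw [hV]; omega)
      have h3 : ∀ a, θ - 1 / 2 ^ c ≤ bias (res (LinearMap.ker φ) a f) := fun a =>
        le_trans (sub_le_sub_right hf.2 _) (h2 a)
      exact ⟨φ, h1, ⟨hf.1, h3 0⟩, fun a => hτ.trans (h3 a)⟩)
    (fun φ hφ => by
      have hw : finrank F (LinearMap.ker φ) = w := by
        have h1 := LinearMap.finrank_range_add_finrank_ker φ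
        rw [LinearMap.range_eq_top.2 hφ, finrank_top, hV] at h1
        have h2 : finrank F (Fin p → F) = p := by simp
        omega
      have h1 := ext_count φ hφ {g | θ - 1 / 2 ^ c ≤ bias g} (τ := 1 / 2 ^ c) (by positivity) t
      have h2 := ncard_res_pre (LinearMap.ker φ) 0 4 {g | θ - 1 / 2 ^ c ≤ bias g}
      have h3 : {g | g ∈ P (LinearMap.ker φ) 4 ∧ g ∈ {g | θ - 1 / 2 ^ c ≤ bias g}}.ncard =
          Nn w 4 (θ - 1 / 2 ^ c) := by
        have h3 := N_eq (V := LinearMap.ker φ) 4 (θ - 1 / 2 ^ c)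
        rw [hw] at h3
        exact h3
      rw [h3, hw, hV] at h2
      have h4 := h1.trans (mul_le_mul_of_nonneg_left (hM _ hw) (Nat.cast_nonneg _))
      refine Nat.le_floor ((le_div_iff₀ c0).2 ?_)
      have h5 := congrArg (fun n : ℕ => (n : ℝ)) h2
      simp only [Nat.cast_mul] at h5
      rw [hB, ← h5]
      rw [one_div_pow, ← pow_mul, mul_one_div, div_le_iff₀ (by positivity)] at h4
      have h6 := mul_le_mul_of_nonneg_right h4 c0.le
      refine h6.trans (le_of_eq ?_)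
      ring)
  have h2 : {φ : (Fin (w + p) → F) →ₗ[F] (Fin p → F) | Function.Surjective φ}.ncard ≤
      2 ^ (p * (w + p)) := by
    refine (Set.ncard_le_card _).trans (le_of_eq ?_)
    rw [card_V, finrank_linearMap, hV]
    simp [mul_comm]
  have h3 : (Nn (w + p) 4 θ : ℝ) ≤ 2 ^ (p * (w + p)) * (⌊B / cP w 4⌋₊ : ℝ) := by
    exact_mod_cast h1.trans (Nat.mul_le_mul_right _ h2)
  have h4 : (⌊B / cP w 4⌋₊ : ℝ) * cP w 4 ≤ B :=
    (le_div_iff₀ c0).1 (Nat.floor_le (div_nonneg B0 c0.le))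
  calc (Nn (w + p) 4 θ : ℝ) * cP w 4 ≤ 2 ^ (p * (w + p)) * (⌊B / cP w 4⌋₊ : ℝ) * cP w 4 :=
        mul_le_mul_of_nonneg_right h3 c0.le
    _ ≤ _ := by
        rw [mul_assoc]
        exact mul_le_mul_of_nonneg_left h4 (by positivity)

end Pool.Agent.P.MP_cb6780_lc
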