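import Pool.Agent.P.MP_cb6780_lc.SStep
import Pool.Agent.P.MP_cb6780_lc.Reduce

set_option autoImplicit false

/-! The number of cubic functions of bias at least `2 ^ (-c)` for `c` linear in the dimension. -/

namespace Pool.Agent.P.MP_cb6780_lc

open Module

theorem ev_pow (k : ℕ) (C : ℝ) {δ : ℝ} (hδ : 0 < δ) :
    ∃ m0 : ℕ, ∀ m : ℕ, m0 ≤ m → C * (m : ℝ) ^ k ≤ (2 : ℝ) ^ (δ * m) := by
  have h1 : 0 < Real.log 2 * δ := mul_pos (Real.log_pos (by norm_num)) hδ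
  have h2 := ((isLittleO_pow_exp_pos_mul_atTop k h1).const_mul_left C).comp_tendsto
    tendsto_natCast_atTop_atTop
  obtain ⟨m0, h3⟩ := Filter.eventually_atTop.1 (h2.bound one_pos)
  refine ⟨m0, fun m hm => ?_⟩
  have h4 := h3 m hm
  rw [one_mul, Real.norm_eq_abs, Real.norm_eq_abs] at h4
  rw [Real.rpow_def_of_pos (by norm_num), ← mul_assoc]
  exact (le_abs_self _).trans (h4.trans (abs_of_pos (Real.exp_pos _)).le)

theorem six_sum (n : ℕ) : 6 * ∑ i ∈ Finset.range 4, n.choose i = n ^ 3 + 5 * n + 6 := by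
  induction n with
  | zero => simp [Finset.sum_range_succ]
  | succ n ih =>
    have h := two_choose n
    simp only [Finset.sum_range_succ, Finset.range_zero, Finset.sum_empty, Nat.choose_zero_right,
      Nat.choose_one_right] at ih ⊢
    rw [Nat.choose_succ_succ' n 1, Nat.choose_succ_succ' n 2, Nat.choose_one_right]
    nlinarith

theorem cP_four (n : ℕ) : (cP n 4 : ℝ) = (2 : ℝ) ^ (((n : ℝ) ^ 3 + 5 * n + 6) / 6) := by
  have h : ((6 * ∑ i ∈ Finset.range 4, n.choose i : ℕ) : ℝ) = (n ^ 3 + 5 * n + 6 : ℕ) := by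
    rw [six_sum]
  rw [cP, Nat.cast_pow, Nat.cast_ofNat, ← Real.rpow_natCast]
  congr 1
  push_cast at h ⊢
  linarith

theorem Nn_le_cP (n d : ℕ) (θ : ℝ) : Nn n d θ ≤ cP n d := by
  have h := ncard_P (V := Fin n → F) d
  rw [Reduce_finrank] at h
  rw [← h]
  exact Set.ncard_le_ncard (fun _ hf => hf.1) (Set.toFinite _)

theorem chain_arith {p w c L q b : ℝ} (hp : 1 ≤ p) (hw : 1 ≤ w) (hc0 : 0 ≤ c) (hc : c ≤ w)
    (hL : 0 < L) (hq : 0 ≤ q) (hb : b ≤ p * w + q)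
    (h : L * (6 * p + 2 * p ^ 2 + p ^ 3 + q) ≤ w) :
    p * (w + p) + (((w + p) ^ 3 + 5 * (w + p) + 6) / 6 + (-(p * w ^ 2 / 2) + 12 * p * w ^ 2 / L +
      c * b)) ≤ c * ((w + p) ^ 2 - w ^ 2) / 2 + 13 * ((w + p) ^ 3 - w ^ 3) / L +
        (w ^ 3 + 5 * w + 6) / 6 := by
  have a1 : c * b ≤ c * (p * w) + w * q := by nlinarith [mul_le_mul_of_nonneg_left hb hc0]
  have a2 : 6 * p + 2 * p ^ 2 + p ^ 3 + q ≤ w / L := by rw [le_div_iff₀ hL]; linarith
  have a3 : w * (6 * p + 2 * p ^ 2 + p ^ 3 + q) ≤ p * w ^ 2 / L := by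
    calc _ ≤ w * (w / L) := mul_le_mul_of_nonneg_left a2 (by linarith)
      _ = 1 * (w ^ 2 / L) := by ring
      _ ≤ p * (w ^ 2 / L) := mul_le_mul_of_nonneg_right hp (by positivity)
      _ = _ := by ring
  have a4 : 13 * (p * w ^ 2) / L ≤ 13 * ((w + p) ^ 3 - w ^ 3) / L := by
    refine div_le_div_of_nonneg_right ?_ hL.le
    have : 0 ≤ p * w ^ 2 := by positivity
    have : 0 ≤ p ^ 2 * w := by positivity
    have : 0 ≤ p ^ 3 := by positivity
    nlinarith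
  have a5 : 13 * (p * w ^ 2) / L = 12 * p * w ^ 2 / L + p * w ^ 2 / L := by ring
  have a6 : 0 ≤ c * p ^ 2 := by positivity
  have a7 : p ≤ w * p := le_mul_of_one_le_left (by linarith) hw
  have a8 : p ^ 2 ≤ w * p ^ 2 := le_mul_of_one_le_left (by positivity) hw
  have a9 : p ^ 3 ≤ w * p ^ 3 := le_mul_of_one_le_left (by positivity) hw
  have b1 : 0 ≤ w * p ^ 2 := by positivity
  have b2 : 0 ≤ p ^ 3 := by positivity
  nlinarith

theorem chain {L : ℕ} (hL : 1 ≤ L) : ∃ p w0 : ℕ, 1 ≤ p ∧ ∀ c j i : ℕ, w0 ≤ j → 2 * c + p + 1 ≤ j →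
    (Nn (j + i * p) 4 (((j + i * p : ℕ) + 1) / 2 ^ c) : ℝ) ≤ cP j 4 *
      (2 : ℝ) ^ ((c : ℝ) * (((j + i * p : ℕ) : ℝ) ^ 2 - (j : ℝ) ^ 2) / 2 +
        13 * ((j + i * p : ℕ) : ℝ) ^ 3 / L) := by
  obtain ⟨p, w0, hp, hm⟩ := mom hL
  have L0 : (0 : ℝ) < L := by exact_mod_cast hL
  refine ⟨p, w0 + L * (6 * p + 2 * p ^ 2 + p ^ 3 + 2 ^ (p + 1)), hp, fun c j i h1 h2 => ?_⟩
  induction i with
  | zero =>
    refine le_trans (Nat.cast_le.2 (Nn_le_cP _ _ _)) ?_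
    rw [zero_mul, add_zero, sub_self, mul_zero, zero_div, zero_add]
    exact le_mul_of_one_le_right (Nat.cast_nonneg _) (Real.one_le_rpow (by norm_num) (by positivity))
  | succ i ih =>
    rw [Nat.succ_mul, ← add_assoc]
    have hj : j ≤ j + i * p := Nat.le_add_right _ _
    generalize j + i * p = w at ih hj ⊢
    set t := p * w / 2 ^ (p + 1) + 1 with ht
    have t0 := Nat.div_add_mod (p * w) (2 ^ (p + 1))
    have t1 := Nat.mod_lt (p * w) (show 0 < 2 ^ (p + 1) by positivity)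
    have t2 : p * w ≤ 2 ^ (p + 1) * t := by rw [ht, mul_add]; omega
    have t3 : 2 * t * 2 ^ p ≤ p * w + 2 ^ (p + 1) := by
      rw [show 2 * t * 2 ^ p = 2 ^ (p + 1) * t by ring, ht, mul_add]; omega
    have p1 : (1 : ℝ) ≤ p := by exact_mod_cast hp
    have w1 : (1 : ℝ) ≤ w := by exact_mod_cast (show 1 ≤ w by omega)
    have st := step (w := w) (p := p) (c := c) (t := t) (by omega)
      (θ := ((w + p : ℕ) + 1) / 2 ^ c)
      (div_le_div_of_nonneg_right (by push_cast; linarith) (by positivity))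
      fun W _ _ _ hW => hm W w t hW (by omega) t2
    have a1 : (Nn w 4 (((w + p : ℕ) + 1) / 2 ^ c - 1 / 2 ^ c) : ℝ) ≤ Nn w 4 ((w + 1) / 2 ^ c) := by
      refine Nat.cast_le.2 (N_anti 4 ?_)
      rw [← sub_div]
      exact div_le_div_of_nonneg_right (by push_cast; linarith) (by positivity)
    have a2 := chain_arith (c := c) (q := 2 ^ (p + 1)) (b := (2 * t * 2 ^ p : ℕ)) p1 w1
      (Nat.cast_nonneg _) (by exact_mod_cast (show c ≤ w by omega)) L0 (by positivity)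
      (by exact_mod_cast t3)
      (by exact_mod_cast (show L * (6 * p + 2 * p ^ 2 + p ^ 3 + 2 ^ (p + 1)) ≤ w by omega))
    have c0 : (0 : ℝ) < cP w 4 := Nat.cast_pos.2 (cP_pos _ _)
    refine le_of_mul_le_mul_right (st.trans ?_) c0
    have a3 := mul_le_mul_of_nonneg_right (a1.trans ih) (Nat.cast_nonneg (cP (w + p) 4))
    refine (mul_le_mul_of_nonneg_left (mul_le_mul_of_nonneg_right a3 (by positivity))
      (by positivity)).trans ?_
    rw [cP_four w, cP_four (w + p), ← Real.rpow_natCast 2 (p * (w + p)),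
      ← Real.rpow_natCast 2 (c * _), mul_assoc, mul_assoc, mul_left_comm, mul_assoc (cP j 4 : ℝ)]
    refine mul_le_mul_of_nonneg_left ?_ (Nat.cast_nonneg (α := ℝ) (cP j 4))
    simp only [← Real.rpow_add (show (0 : ℝ) < 2 by norm_num)]
    refine Real.rpow_le_rpow_of_exponent_le (by norm_num) ?_
    push_cast at a2 ⊢
    have e : 13 * (((w : ℝ) + p) ^ 3 - w ^ 3) / L = 13 * ((w : ℝ) + p) ^ 3 / L - 13 * w ^ 3 / L := by
      ring
    linarith

theorem tail_arith {m c d j w y z : ℝ} (hm : 1 ≤ m) (hc0 : 0 ≤ c) (hcm : c ≤ m) (hd0 : 0 ≤ d)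
    (hz : 0 ≤ z) (hy : y = 100 * (m ^ 3 * z)) (h1 : d ≤ c + 2 + m * z) (h2 : 2 * d ≤ j)
    (h3 : 2 * j ≤ 5 * d) (h4 : j ≤ m) (h5 : y ≤ d ^ 3) (h6 : 30 * m ^ 2 ≤ y)
    (hw : (1 / 2 - z) * m ^ 2 ≤ w) :
    (j ^ 3 + 5 * j + 6) / 6 + (d * (m ^ 2 - j ^ 2) / 2 + 13 * (m ^ 3 * z)) + 2 * m ≤ c * w := by
  have a1 : j ^ 3 - 3 * d * j ^ 2 ≤ -(2 * d ^ 3) := by
    have b1 : (2 * d) ^ 2 ≤ j ^ 2 := pow_le_pow_left₀ (by linarith) h2 2
    have b2 : j ^ 2 * (2 * j - 5 * d) ≤ 0 := mul_nonpos_of_nonneg_of_nonpos (sq_nonneg _) (by linarith)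
    nlinarith [mul_le_mul_of_nonneg_left b1 hd0]
  have a2 : d * m ^ 2 ≤ (c + 2 + m * z) * m ^ 2 := mul_le_mul_of_nonneg_right h1 (sq_nonneg _)
  have a3 := mul_le_mul_of_nonneg_left hw hc0
  have a4 : c * (z * m ^ 2) ≤ m * (z * m ^ 2) := mul_le_mul_of_nonneg_right hcm (by positivity)
  have a5 : m ≤ m ^ 2 := by nlinarith
  nlinarith

theorem tail {K : ℕ} (hK : 1 ≤ K) : ∃ θ : ℝ, 0 < θ ∧ θ ≤ 1 / 100 ∧ ∃ m0 : ℕ, ∀ m c w : ℕ, m0 ≤ m →
    m ≤ K * c → (1 / 2 - θ) * (m : ℝ) ^ 2 ≤ w →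
    (Nn m 4 (1 / 2 ^ (c + 1)) : ℝ) * 2 ^ (2 * m) ≤ 2 ^ (c * w) := by
  have K3 : 1 ≤ K ^ 3 := Nat.one_le_pow _ _ hK
  set L := 100 * K ^ 3 with hL
  obtain ⟨p, w0, hp, hch⟩ := chain (L := L) (by omega)
  have L0 : (100 : ℝ) ≤ L := by exact_mod_cast (show 100 ≤ L by omega)
  have z0 : (0 : ℝ) < 1 / L := by positivity
  have z1 : (1 : ℝ) / L ≤ 1 / 100 := one_div_le_one_div_of_le (by norm_num) L0
  obtain ⟨m1, hm1⟩ := ev_pow 1 2 z0
  refine ⟨1 / L, z0, z1, m1 + K * (w0 + 4 * p) + 10 * p + 30 * K ^ 3 + 50, fun m c w h1 h2 h3 => ?_⟩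
  have m50 : (50 : ℝ) ≤ m := by exact_mod_cast (show 50 ≤ m by omega)
  rw [← Real.rpow_natCast 2 (2 * m), ← Real.rpow_natCast 2 (c * w)]
  rcases le_or_gt (2 * m) (5 * c) with hc | hc
  · refine (mul_le_mul_of_nonneg_right (Nat.cast_le.2 (Nn_le_cP _ _ _)) (by positivity)).trans ?_
    rw [cP_four, ← Real.rpow_add (by norm_num)]
    refine Real.rpow_le_rpow_of_exponent_le (by norm_num) ?_
    have a1 : (2 : ℝ) * m ≤ 5 * c := by exact_mod_cast hc
    have a2 : (49 / 100 : ℝ) * m ^ 2 ≤ w :=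
      le_trans (mul_le_mul_of_nonneg_right (by linarith) (sq_nonneg _)) h3
    have a3 : (2 : ℝ) * m * (49 / 100 * m ^ 2) ≤ 5 * c * w :=
      mul_le_mul a1 a2 (by positivity) (by positivity)
    have a4 : (m : ℝ) * (50 * 50) ≤ m * (m * m) :=
      mul_le_mul_of_nonneg_left (mul_le_mul m50 m50 (by norm_num) (by linarith)) (by linarith)
    push_cast
    nlinarith
  set l := m / L + 1 with hl
  have l1 : (m : ℝ) * (1 / L) ≤ l := by
    rw [mul_one_div, div_le_iff₀ (by linarith)]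
    have := Nat.lt_div_mul_add (a := m) (b := L) (by omega)
    exact_mod_cast (show m ≤ l * L by rw [hl, add_mul]; omega)
  have l2 : (l : ℝ) ≤ 1 + m * (1 / L) := by
    rw [hl, mul_one_div]
    push_cast
    linarith [Nat.cast_div_le (α := ℝ) (m := m) (n := L)]
  have l3 : 100 * (m / L) ≤ m :=
    le_trans (Nat.mul_le_mul_right _ (by omega)) (Nat.mul_div_le m L)
  have l4 : (m : ℝ) + 1 ≤ 2 ^ l := by
    have := hm1 m (by omega)
    rw [pow_one, mul_comm (1 / L : ℝ)] at this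
    rw [← Real.rpow_natCast]
    linarith [Real.rpow_le_rpow_of_exponent_le (show (1 : ℝ) ≤ 2 by norm_num) l1]
  have c1 : w0 + 4 * p ≤ c := Nat.le_of_mul_le_mul_left (show K * _ ≤ K * c by omega) hK
  set d := c + 1 + l with hd
  obtain ⟨i, j, j1, j2, j3⟩ : ∃ i j, j + i * p = m ∧ 2 * d + p + 1 ≤ j ∧ j ≤ 2 * d + 2 * p := by
    have e1 := Nat.div_add_mod' (m - (2 * d + p + 1)) p
    have e2 := Nat.mod_lt (m - (2 * d + p + 1)) hp
    exact ⟨(m - (2 * d + p + 1)) / p, 2 * d + p + 1 + (m - (2 * d + p + 1)) % p, by omega, by omega,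
      by omega⟩
  have a1 := hch d j i (by omega) j2
  rw [j1] at a1
  have a2 : (Nn m 4 (1 / 2 ^ (c + 1)) : ℝ) ≤ Nn m 4 ((m + 1) / 2 ^ d) := by
    refine Nat.cast_le.2 (N_anti 4 ?_)
    rw [hd, pow_add _ (c + 1), div_le_div_iff₀ (by positivity) (by positivity), one_mul, mul_comm]
    exact mul_le_mul_of_nonneg_left l4 (by positivity)
  refine (mul_le_mul_of_nonneg_right (a2.trans a1) (by positivity)).trans ?_
  rw [cP_four, ← Real.rpow_add (by norm_num), ← Real.rpow_add (by norm_num)]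
  refine Real.rpow_le_rpow_of_exponent_le (by norm_num) ?_
  have K0 : (0 : ℝ) < (K : ℝ) ^ 3 := by exact_mod_cast K3
  have e1 : 100 * ((m : ℝ) ^ 3 * (1 / L)) = m ^ 3 / K ^ 3 := by
    rw [hL]; push_cast; field_simp
  have a3 := tail_arith (m := m) (c := c) (d := d) (j := j) (w := w) (z := 1 / L) (by linarith)
    (Nat.cast_nonneg _) (by exact_mod_cast (show c ≤ m by omega)) (Nat.cast_nonneg _) z0.le rfl
    (by rw [hd]; push_cast at l2 ⊢; linarith) (by exact_mod_cast (show 2 * d ≤ j by omega))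
    (by exact_mod_cast (show 2 * j ≤ 5 * d by omega)) (by exact_mod_cast (show j ≤ m by omega))
    (by
      rw [e1, div_le_iff₀ K0, ← mul_pow, mul_comm]
      exact pow_le_pow_left₀ (by linarith)
        (by exact_mod_cast h2.trans (Nat.mul_le_mul_left _ (show c ≤ d by omega))) 3)
    (by
      rw [e1, le_div_iff₀ K0]
      have : (30 : ℝ) * K ^ 3 ≤ m := by exact_mod_cast (show 30 * K ^ 3 ≤ m by omega)
      nlinarith [mul_le_mul_of_nonneg_left this (sq_nonneg (m : ℝ))]) h3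
  push_cast
  rw [mul_one_div, ← mul_div_assoc] at a3
  exact a3

end Pool.Agent.P.MP_cb6780_lc
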