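import Pool.Agent.P.MP_cb6780_lc.Res
import Pool.Agent.P.MP_cb6780_lc.Klp

set_option autoImplicit false

/-! The subspace `U d η f` of a biased function. -/

namespace Pool.Agent.P.MP_cb6780_lc

open Module

section
variable {V : Type} [AddCommGroup V] [Module F V] [Finite V]

theorem zero_mem_S (d : ℕ) {η : ℝ} (hη : η ≤ 1) (f : V → F) : (0 : V) ∈ S d η f := by
  refine ⟨0, (P V d).zero_mem, ?_⟩
  rw [D_zero, add_zero, bias_zero, abs_one]
  exact hη

omit [Module F V] in
theorem struct_card_pos : (0 : ℝ) < Nat.card V := by exact_mod_cast Nat.card_pos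

theorem struct_mem_S {d : ℕ} (hd : 2 ≤ d) {η : ℝ} (W : Submodule F V) (a y : V) {f : V → F}
    (h : η ≤ (Nat.card W : ℝ) / Nat.card V * |bias (res W a (D y f))|) : y ∈ S d η f := by
  obtain ⟨l, hl⟩ := exists_dual W a (D y f)
  exact ⟨fun x => l x, P_mono hd (dual_mem_P l), h.trans hl⟩

/-- `bias_sq` and Markov -/
theorem density (d : ℕ) {ε η : ℝ} (hε : 0 < ε) (hη : η ≤ ε ^ 2 / 2) {f : V → F} (h : ε ≤ |bias f|) :
    ε ^ 2 / 2 * Nat.card V ≤ (S d η f).ncard := by
  have h1 : ε ^ 2 ≤ bias f ^ 2 := by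
    rw [← sq_abs (bias f)]
    exact pow_le_pow_left₀ hε.le h 2
  have h2 : ∀ y, bias (D y f) ≤ ε ^ 2 / 2 + (S d η f).indicator (fun _ => (1 : ℝ)) y := fun y => by
    by_cases hy : y ∈ S d η f
    · rw [Set.indicator_of_mem hy]
      have := (abs_le.1 (abs_bias_le (D y f))).2
      have := sq_nonneg ε
      linarith
    · rw [Set.indicator_of_notMem hy, add_zero]
      have : ¬ η ≤ |bias (D y f + 0)| := fun k => hy ⟨0, (P V d).zero_mem, k⟩
      rw [add_zero] at this
      have := le_abs_self (bias (D y f))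
      linarith
  have h3 := av_mono h2
  rw [← bias_sq, av_add (fun _ => ε ^ 2 / 2), av_const, av_indicator] at h3
  have h4 : ε ^ 2 / 2 ≤ ((S d η f).ncard : ℝ) / Nat.card V := by linarith
  rwa [le_div_iff₀ struct_card_pos] at h4

theorem struct_mul_bias (W : Submodule F V) (f : V → F) (a b : V) :
    bias (res W a f) * bias (res W b f) = av fun w : W => bias (res W a (D (a + b + w) f)) := by
  have e1 : ∀ u : W, chi (res W a f u) * bias (res W b f) =
      av fun w : W => chi (res W a (D (a + b + w) f) u) := fun u => by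
    rw [← bias_transl (res W b f) u, bias, ← av_mul_left]
    refine congrArg av (funext fun w => ?_)
    rw [res_apply, res_apply, res_apply, D_apply, chi_add, mul_comm]
    have : (u : V) + a + (a + b + w) = ((w + u : W) : V) + b := by
      rw [Submodule.coe_add]
      have := add_self_V a
      calc (u : V) + a + (a + b + w) = (a + a) + (w + u + b) := by abel
        _ = _ := by rw [this, zero_add]
    rw [this]
  have e2 : bias (res W a f) * bias (res W b f) =
      av fun u : W => chi (res W a f u) * bias (res W b f) := by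
    rw [mul_comm, bias.eq_1 (res W a f), ← av_mul_left]
    exact congrArg av (funext fun u => mul_comm _ _)
  rw [e2, funext e1, av_comm]
  rfl

/-- `bias (res W a f) * bias (res W b f)` is the mean over `w ∈ W` of
`bias (res W a (D (a + b + w) f))`; then `exists_dual` -/
theorem two_cosets {d : ℕ} (hd : 2 ≤ d) {η γ : ℝ} (hγ : 0 ≤ γ) (W : Submodule F V) {f : V → F} {a b : V}
    (ha : γ ≤ |bias (res W a f)|) (hb : γ ≤ |bias (res W b f)|)
    (hη : η ≤ γ ^ 2 * (Nat.card W / Nat.card V)) : ∃ w ∈ W, a + b + w ∈ S d η f := by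
  have h1 : γ ^ 2 ≤ |bias (res W a f) * bias (res W b f)| := by
    rw [abs_mul, sq]
    exact mul_le_mul ha hb hγ (abs_nonneg _)
  rw [struct_mul_bias] at h1
  obtain ⟨w, hw⟩ := exists_av_le fun w : W => |bias (res W a (D (a + b + w) f))|
  refine ⟨w, w.2, struct_mem_S hd W a _ (hη.trans ?_)⟩
  rw [mul_comm]
  exact mul_le_mul_of_nonneg_left ((h1.trans (abs_av_le _)).trans hw) (by positivity)

/-- a coset with bias `> 1/2` has only cheap directions (`bias_D_ge`, `exists_dual`) -/
theorem le_U {d : ℕ} (hd : 2 ≤ d) {η γ : ℝ} (hγ : 0 ≤ γ) (W : Submodule F V) {f : V → F} {a : V}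
    (ha : 1 / 2 + γ ≤ bias (res W a f)) (hη : η ≤ 2 * γ * (Nat.card W / Nat.card V)) :
    W ≤ U d η f := by
  intro w hw
  refine Submodule.subset_span (struct_mem_S hd W a w (hη.trans ?_))
  rw [mul_comm]
  refine mul_le_mul_of_nonneg_left ?_ (by positivity)
  have e : res W a (D w f) = D (⟨w, hw⟩ : W) (res W a f) := by
    funext u
    rw [res_apply, D_apply, D_apply, res_apply, res_apply, Submodule.coe_add, add_right_comm]
  have := bias_D_ge (res W a f) (⟨w, hw⟩ : W)
  rw [e]
  have := le_abs_self (bias (D (⟨w, hw⟩ : W) (res W a f)))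
  linarith

/-- the bias lives on one coset of `U` (`density` gives `|U|/|V| ≥ ε²/2`, `two_cosets`, `bias_split`) -/
theorem one_coset {d : ℕ} (hd : 2 ≤ d) {ε γ η : ℝ} (hγ : 0 < γ) (hγε : γ < ε) (hγ1 : γ ≤ 1)
    (hη : η ≤ γ ^ 2 * (ε ^ 2 / 2)) {f : V → F} (h : ε ≤ bias f) :
    ∃ a, ε - γ ≤ (Nat.card (U d η f) : ℝ) / Nat.card V * bias (res (U d η f) a f) := by
  have hε : 0 < ε := hγ.trans hγε
  have g1 : γ ^ 2 ≤ 1 := pow_le_one₀ hγ.le hγ1
  have g2 : η ≤ ε ^ 2 / 2 := hη.trans (mul_le_of_le_one_left (by positivity) g1)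
  have h1 := density d hε g2 (h.trans (le_abs_self _))
  have h2 : (S d η f).ncard ≤ Nat.card (U d η f) :=
    Set.ncard_le_ncard (t := (U d η f : Set V)) Submodule.subset_span
  have h3 : ε ^ 2 / 2 ≤ (Nat.card (U d η f) : ℝ) / Nat.card V := by
    rw [le_div_iff₀ struct_card_pos]
    exact h1.trans (by exact_mod_cast h2)
  obtain ⟨a, ha⟩ := exists_av_le fun a => bias (res (U d η f) a f)
  rw [← bias_eq_av_res] at ha
  refine ⟨a, ?_⟩
  have h4 : ∀ b, ({b : V | a + b ∉ U d η f}.indicator fun b => bias (res (U d η f) b f)) b ≤ γ := by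
    intro b
    by_cases hb : b ∈ {b : V | a + b ∉ U d η f}
    · rw [Set.indicator_of_mem hb]
      by_contra hc
      obtain ⟨w, hw, hs⟩ := two_cosets hd (η := η) hγ.le (U d η f) (f := f) (a := a) (b := b)
        ((hγε.le.trans (h.trans ha)).trans (le_abs_self _))
        ((not_le.1 hc).le.trans (le_abs_self _))
        (hη.trans (mul_le_mul_of_nonneg_left h3 (by positivity)))
      have k : a + b + w ∈ U d η f := Submodule.subset_span hs
      exact hb (((U d η f).add_mem_iff_left hw).1 k)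
    · rw [Set.indicator_of_notMem hb]
      exact hγ.le
  have h5 := av_mono h4
  rw [av_const] at h5
  have h6 := bias_split (U d η f) a f
  linarith

omit [Finite V] in
theorem struct_D_smul (c : F) (y : V) (f : V → F) : D (c • y) f = c • D y f := by
  have : c = 0 ∨ c = 1 := by revert c; decide
  rcases this with rfl | rfl
  · rw [zero_smul, zero_smul, D_zero]
  · rw [one_smul, one_smul]

omit [Finite V] in
theorem struct_D_add {d : ℕ} {f : V → F} (hf : f ∈ P V (d + 2)) (y z : V) :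
    D (y + z) f - (D y f + D z f) ∈ P V d := by
  rw [D_add, add_sub_cancel_left]
  exact mem_P_succ.1 (mem_P_succ.1 hf z) y

omit [Finite V] in
theorem struct_D_sum {d : ℕ} {f : V → F} (hf : f ∈ P V (d + 2)) {ι : Type} (s : Finset ι)
    (y : ι → V) : D (∑ i ∈ s, y i) f - ∑ i ∈ s, D (y i) f ∈ P V d := by
  classical
  induction s using Finset.induction_on with
  | empty =>
    rw [Finset.sum_empty, Finset.sum_empty, D_zero, sub_zero]
    exact (P V d).zero_mem
  | insert i s hi ih =>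
    rw [Finset.sum_insert hi, Finset.sum_insert hi]
    have := (P V d).add_mem (struct_D_add hf (y i) (∑ i ∈ s, y i)) ih
    have e : D (y i + ∑ i ∈ s, y i) f - (D (y i) f + D (∑ i ∈ s, y i) f) +
        (D (∑ i ∈ s, y i) f - ∑ i ∈ s, D (y i) f) =
        D (y i + ∑ i ∈ s, y i) f - (D (y i) f + ∑ i ∈ s, D (y i) f) := by abel
    rwa [e] at this

theorem struct_exists_gen (W : Submodule F V) {j : ℕ} (h : finrank F V ≤ finrank F W + j) :
    ∃ a : Fin j → V, ∀ y, ∃ l : Fin j → F, y - ∑ k, l k • a k ∈ W := by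
  classical
  have h1 : finrank F (V ⧸ W) ≤ finrank F (Fin j → F) := by
    have := W.finrank_quotient_add_finrank
    rw [Module.finrank_fin_fun]
    omega
  obtain ⟨i, hi⟩ := finrank_le_iff_exists_linearMap.1 h1
  obtain ⟨g, hg⟩ := i.exists_leftInverse_of_injective (LinearMap.ker_eq_bot.2 hi)
  choose a ha using fun k : Fin j => W.mkQ_surjective (g fun k' => if k = k' then 1 else 0)
  refine ⟨a, fun y => ⟨i (W.mkQ y), ?_⟩⟩
  rw [← Submodule.Quotient.mk_eq_zero, ← Submodule.mkQ_apply, map_sub, map_sum, sub_eq_zero]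
  simp only [map_smul, ha]
  rw [← LinearMap.pi_apply_eq_sum_univ g]
  exact (LinearMap.congr_fun hg (W.mkQ y)).symm

end

/-- Count of biased functions with `codim U ≤ j`.  Take `a_1..a_j` spanning `V` modulo `U`.  Every `y` is
`sum λ_k a_k + s_1 + .. + s_R` (`span_bdd`), so by `D_add` modulo `P V d` the derivative `D y f` is
`sum λ_k D a_k f + b_1 + .. + b_R` with `b_i ∈ P V (d+1)` of bias `≥ η` in absolute value.  Apply `klp` with
`B` the image of `(p, (λ, b, q)_i)`, `p ∈ (P V (d+1))^j`, and `card_biased`. -/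
theorem small {ε η : ℝ} (hε : 0 < ε) (hε1 : ε ≤ 1) (hη0 : 0 < η) (hη : η ≤ ε ^ 2 / 2) (d j : ℕ) :
    ∃ K : ℕ, ∀ (V : Type) [AddCommGroup V] [Module F V] [Finite V],
      {f | f ∈ P V (d + 2) ∧ ε ≤ |bias f| ∧ finrank F V ≤ finrank F (U d η f) + j}.ncard ≤
        cP (finrank F V) (d + 1) ^ j * (2 * Nat.card V * cP (finrank F V) d) ^ K := by
  obtain ⟨t, ht⟩ := klp hε (d + 1)
  obtain ⟨K0, hK⟩ := card_biased hη0 d
  obtain ⟨R, hR⟩ := span_bdd (δ := ε ^ 2 / 2) (by positivity)
  refine ⟨(j + K0 * R + 1) * t + (t + 1), fun V _ _ _ => ?_⟩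
  set Bi : Set (V → F) := {f | f ∈ P V (d + 1) ∧ η ≤ |bias f|} with hBi
  let g : (Fin j → P V (d + 1)) × (Fin t → (Fin j → F) × (Fin R → Bi) × P V d) → Fin t → V → F :=
    fun ω i => (∑ k, (ω.2 i).1 k • (ω.1 k : V → F)) + (∑ r, ((ω.2 i).2.1 r : V → F)) + (ω.2 i).2.2
  have h1 := ht V
    {f | f ∈ P V (d + 2) ∧ ε ≤ |bias f| ∧ finrank F V ≤ finrank F (U d η f) + j} (Set.range g)
    (fun f hf => ⟨hf.1, hf.2.1⟩) fun f hf y => by
      obtain ⟨f1, f2, f3⟩ := hf
      obtain ⟨a, ha⟩ := struct_exists_gen (U d η f) f3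
      have η1 : η ≤ 1 := by
        have := pow_le_one₀ (n := 2) hε.le hε1
        linarith
      have key : ∀ z : V, ∃ ω : (Fin j → F) × (Fin R → Bi) × P V d,
          (∑ k, ω.1 k • D (a k) f) + (∑ r, (ω.2.1 r : V → F)) + ω.2.2 = D z f := by
        intro z
        obtain ⟨l, hl⟩ := ha z
        obtain ⟨s, hs1, hs2⟩ := hR V (S d η f) (zero_mem_S d η1 f) (density d hε hη f2) _ hl
        choose q hq1 hq2 using hs1
        refine ⟨⟨l, fun r => ⟨D (s r) f + q r, (P V (d + 1)).add_mem (mem_P_succ.1 f1 _)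
          (P_le_succ d (hq1 r)), hq2 r⟩, ⟨D z f - ((∑ k, l k • D (a k) f) +
            ∑ r, (D (s r) f + q r)), ?_⟩⟩, add_sub_cancel _ _⟩
        have z1 : z = (∑ k, l k • a k) + ∑ r, s r := by rw [← hs2]; abel
        have m1 := struct_D_add f1 (∑ k, l k • a k) (∑ r, s r)
        have m2 := struct_D_sum f1 Finset.univ fun k => l k • a k
        have m3 := struct_D_sum f1 Finset.univ s
        have m4 : ∑ r, q r ∈ P V d := (P V d).sum_mem fun r _ => hq1 r
        simp only [struct_D_smul] at m2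
        rw [← z1] at m1
        have := (P V d).sub_mem ((P V d).add_mem ((P V d).add_mem m1 m2) m3) m4
        have e : D z f - (D (∑ k, l k • a k) f + D (∑ r, s r) f) +
            (D (∑ k, l k • a k) f - ∑ k, l k • D (a k) f) + (D (∑ r, s r) f - ∑ r, D (s r) f) -
            ∑ r, q r = D z f - ((∑ k, l k • D (a k) f) + ∑ r, (D (s r) f + q r)) := by
          rw [Finset.sum_add_distrib]
          abel
        rwa [e] at this
      choose ω hω using key
      exact ⟨⟨fun k => ⟨D (a k) f, mem_P_succ.1 f1 _⟩, fun i => ω (y i)⟩, funext fun i => hω (y i)⟩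
  have h2 : (Set.range g).ncard ≤ cP (finrank F V) (d + 1) ^ j *
      (2 ^ j * (Bi.ncard ^ R * cP (finrank F V) d)) ^ t := by
    have := Finite.card_range_le g
    simpa only [Nat.card_prod, Nat.card_fun, card_P, Nat.card_coe_set_eq, Nat.card_zmod,
      Nat.card_eq_fintype_card (α := Fin _), Fintype.card_fin] using this
  have h3 := hK V
  rw [← hBi] at h3
  have p1 : 0 < Nat.card V := Nat.card_pos
  have p2 := cP_pos (finrank F V) d
  set M := 2 * Nat.card V * cP (finrank F V) d with hM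
  have b1 : 2 ≤ M := by rw [hM, mul_assoc]; exact Nat.le_mul_of_pos_right _ (Nat.mul_pos p1 p2)
  have b2 : Nat.card V ≤ M := by
    rw [hM, mul_right_comm]; exact Nat.le_mul_of_pos_left _ (by omega)
  have b3 : cP (finrank F V) d ≤ M := Nat.le_mul_of_pos_left _ (by omega)
  have c1 : 2 ^ j * (Bi.ncard ^ R * cP (finrank F V) d) ≤ M ^ (j + K0 * R + 1) := by
    rw [pow_succ, pow_add, pow_mul, mul_assoc]
    exact Nat.mul_le_mul (Nat.pow_le_pow_left b1 _) (Nat.mul_le_mul (Nat.pow_le_pow_left h3 _) b3)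
  have c2 : 2 * Nat.card V ^ t ≤ M ^ (t + 1) := by
    rw [pow_succ']
    exact Nat.mul_le_mul b1 (Nat.pow_le_pow_left b2 _)
  calc _ ≤ 2 * Nat.card V ^ t * (Set.range g).ncard := h1
    _ ≤ M ^ (t + 1) * (cP (finrank F V) (d + 1) ^ j * (M ^ (j + K0 * R + 1)) ^ t) :=
      Nat.mul_le_mul c2 (h2.trans (Nat.mul_le_mul_left _ (Nat.pow_le_pow_left c1 _)))
    _ = _ := by rw [pow_add M _ (t + 1), pow_mul M _ t]; ring

end Pool.Agent.P.MP_cb6780_lc
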