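import Pool.Agent.P.MP_cb6780_lc.KCount

set_option autoImplicit false

/-! Uniform estimates for the Gaussian binomials and the number of quadratics of given bias. -/

namespace Pool.Agent.P.MP_cb6780_lc

open Module

/-- the product `∏ (1 - 2^-(k+j+1))` -/
noncomputable def ps (k c : ℕ) : ℝ := ∏ j ∈ Finset.range c, (1 - 1 / 2 ^ (k + j + 1) : ℝ)

theorem ps_bd (k c : ℕ) : 1 - 1 / 2 ^ k + 1 / 2 ^ (k + c) ≤ ps k c ∧ ps k c ≤ 1 ∧ 0 < ps k c := by
  induction c with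
  | zero => simp [ps]
  | succ c ih =>
    obtain ⟨h1, h2, h3⟩ := ih
    have e : ps k (c + 1) = ps k c * (1 - 1 / 2 ^ (k + c + 1)) := Finset.prod_range_succ _ _
    have e2 : (1 : ℝ) / 2 ^ (k + c) = 2 * (1 / 2 ^ (k + c + 1)) := by rw [pow_succ]; field_simp
    have p1 : (0 : ℝ) < 1 / 2 ^ (k + c + 1) := by positivity
    have p2 : (1 : ℝ) / 2 ^ (k + c) ≤ 1 := by
      rw [div_le_one (by positivity)]; exact one_le_pow₀ (by norm_num)
    rw [e, ← add_assoc]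
    refine ⟨by nlinarith, by nlinarith, mul_pos h3 (by linarith)⟩

theorem ps_low (c : ℕ) : 1 / 2 ^ c ≤ ps 0 c := by
  have := (ps_bd 0 c).1
  simpa using this

theorem prod_ps (k c : ℕ) :
    ∏ i ∈ Finset.range c, ((2 : ℝ) ^ (k + c) - 2 ^ i) = 2 ^ (c * (k + c)) * ps k c := by
  have h1 : (2 : ℝ) ^ (c * (k + c)) = ∏ _i ∈ Finset.range c, (2 : ℝ) ^ (k + c) := by
    rw [Finset.prod_const, Finset.card_range, ← pow_mul, mul_comm]
  rw [h1, ps, ← Finset.prod_range_reflect (fun j => (1 - 1 / 2 ^ (k + j + 1) : ℝ)) c,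
    ← Finset.prod_mul_distrib]
  refine Finset.prod_congr rfl fun i hi => ?_
  have hi' := Finset.mem_range.1 hi
  have h2 : (2 : ℝ) ^ (k + c) = 2 ^ (k + (c - 1 - i) + 1) * 2 ^ i := by
    rw [← pow_add]
    congr 1
    omega
  rw [h2]
  field_simp

theorem G_ps (V : Type) [AddCommGroup V] [Module F V] [Finite V] {n c : ℕ}
    (hV : finrank F V = n + c) : (G V c : ℝ) * ps 0 c = 2 ^ (c * n) * ps n c := by
  have h := G_mul V c
  have h0 := prod_ps 0 c
  rw [zero_add] at h0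
  rw [hV, h0, prod_ps, mul_add, pow_add] at h
  have hp : (0 : ℝ) < 2 ^ (c * c) := by positivity
  refine mul_left_cancel₀ hp.ne' ?_
  linarith

theorem G_up (V : Type) [AddCommGroup V] [Module F V] [Finite V] {n c : ℕ}
    (hV : finrank F V = n + c) : (G V c : ℝ) ≤ 2 ^ (c * n) / ps 0 c := by
  rw [le_div_iff₀ (ps_bd 0 c).2.2, G_ps V hV]
  exact mul_le_of_le_one_right (by positivity) (ps_bd n c).2.1

theorem G_low (V : Type) [AddCommGroup V] [Module F V] [Finite V] {n c : ℕ}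
    (hV : finrank F V = n + c) : (1 - 1 / 2 ^ n) * (2 ^ (c * n) / ps 0 c) ≤ (G V c : ℝ) := by
  rw [← mul_div_assoc, div_le_iff₀ (ps_bd 0 c).2.2, G_ps V hV, mul_comm]
  refine mul_le_mul_of_nonneg_left (le_trans ?_ (ps_bd n c).1) (by positivity)
  have : (0 : ℝ) < 1 / 2 ^ (n + c) := by positivity
  linarith

theorem G_crude (V : Type) [AddCommGroup V] [Module F V] [Finite V] {n c : ℕ}
    (hV : finrank F V = n + c) : (G V c : ℝ) ≤ 2 ^ (c * (n + 1)) := by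
  refine (G_up V hV).trans ?_
  rw [div_le_iff₀ (ps_bd 0 c).2.2, mul_add, mul_one, pow_add, mul_assoc]
  refine le_mul_of_one_le_right (by positivity) ?_
  have := mul_le_mul_of_nonneg_left (ps_low c) (show (0 : ℝ) ≤ 2 ^ c by positivity)
  rwa [mul_one_div_cancel (by positivity)] at this

/-- leading term of the number of quadratics of bias `2^-h` -/
noncomputable def Lq (n h : ℕ) : ℝ :=
  2 ^ (2 * h * (n + 1)) / (2 ^ (h ^ 2) * ∏ j ∈ Finset.range h, ((4 : ℝ) ^ (j + 1) - 1))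

theorem Lq_pos (n h : ℕ) : 0 < Lq n h := by
  have := KCount_prod_pos h
  unfold Lq
  positivity

theorem four_pos (j : ℕ) : (0 : ℝ) < 4 ^ (j + 1) - 1 :=
  sub_pos.2 (one_lt_pow₀ (by norm_num) (Nat.succ_ne_zero j))

theorem four_eq (j : ℕ) : (4 : ℝ) ^ j = (2 ^ j) ^ 2 := by
  rw [← pow_mul, mul_comm, pow_mul]; norm_num

theorem Lq_succ (n h : ℕ) :
    Lq n (h + 1) = Lq n h * (2 * (2 ^ n) ^ 2 / ((2 ^ h) ^ 2 * (4 * (2 ^ h) ^ 2 - 1))) := by
  have a1 : (2 : ℝ) ^ ((h + 1) ^ 2) = 2 ^ (h ^ 2) * (2 ^ h) ^ 2 * 2 := by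
    rw [← pow_mul, ← pow_add, ← pow_succ]; congr 1; ring
  have a2 : (2 : ℝ) ^ (2 * (h + 1) * (n + 1)) = 2 ^ (2 * h * (n + 1)) * (2 ^ n) ^ 2 * 4 := by
    rw [show (4 : ℝ) = 2 ^ 2 by norm_num, ← pow_mul, ← pow_add, ← pow_add]; congr 1; ring
  have a3 := (four_pos h).ne'
  have a4 := (KCount_prod_pos h).ne'
  have a5 : (4 : ℝ) ^ (h + 1) = 4 * (2 ^ h) ^ 2 := by rw [pow_succ', four_eq]
  unfold Lq
  rw [Finset.prod_range_succ, a1, a2]
  rw [a5] at a3 ⊢
  field_simp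
  ring

theorem Lq_shift (n h : ℕ) : Lq (n + 2) h = Lq n h * (2 ^ h) ^ 4 := by
  have a2 : (2 : ℝ) ^ (2 * h * (n + 2 + 1)) = 2 ^ (2 * h * (n + 1)) * (2 ^ h) ^ 4 := by
    rw [← pow_mul, ← pow_add]; congr 1; ring
  unfold Lq
  rw [a2]
  ring

theorem qa_step (n h : ℕ) : (qa (Fin (n + 2) → F) (h + 1) : ℝ) * Lq n h =
    (1 - 1 / 2 ^ n / 4) * (1 - 1 / 2 ^ n / 2) * qa (Fin n → F) h * Lq (n + 2) (h + 1) := by
  have r := qa_rec (Fin (n + 2) → F) (n := n) (finrank_fin_fun F) h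
  have a3 := (four_pos h).ne'
  rw [pow_succ', four_eq] at a3
  rw [Lq_succ, Lq_shift, pow_add (2 : ℝ) n 2]
  rw [one_div_pow, pow_add, pow_add] at r
  generalize (qa (Fin (n + 2) → F) (h + 1) : ℝ) = A at *
  generalize (qa (Fin n → F) h : ℝ) = B at *
  generalize Lq n h = L
  have b1 : (0 : ℝ) < 2 ^ n := by positivity
  have b2 : (0 : ℝ) < 2 ^ h := by positivity
  generalize (2 : ℝ) ^ n = N at *
  generalize (2 : ℝ) ^ h = H at *
  have a4 : H ^ 2 * 4 - 1 ≠ 0 := by rwa [mul_comm]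
  field_simp at r ⊢
  linear_combination (4 * L) * r

theorem qa_bd (m h : ℕ) :
    (1 - 1 / 2 ^ m + 1 / 2 ^ (m + 2 * h)) * Lq (m + 2 * h) h ≤ qa (Fin (m + 2 * h) → F) h ∧
      (qa (Fin (m + 2 * h) → F) h : ℝ) ≤ Lq (m + 2 * h) h := by
  induction h with
  | zero => simp [qa_zero, Lq]
  | succ h ih =>
    obtain ⟨h1, h2⟩ := ih
    have r := qa_step (m + 2 * h) h
    have e : m + 2 * (h + 1) = m + 2 * h + 2 := by ring
    rw [e]
    have e2 : (1 : ℝ) / 2 ^ (m + 2 * h + 2) = 1 / 2 ^ (m + 2 * h) / 4 := by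
      rw [pow_add _ _ 2]; field_simp; norm_num
    have p1 : (0 : ℝ) < 1 / 2 ^ (m + 2 * h) := by positivity
    have p2 : (1 : ℝ) / 2 ^ (m + 2 * h) ≤ 1 / 2 ^ m :=
      one_div_le_one_div_of_le (by positivity) (pow_le_pow_right₀ (by norm_num) (by omega))
    have p3 : (1 : ℝ) / 2 ^ m ≤ 1 := by
      rw [div_le_one (by positivity)]; exact one_le_pow₀ (by norm_num)
    have l1 := Lq_pos (m + 2 * h) h
    have l2 := Lq_pos (m + 2 * h + 2) (h + 1)
    have q0 : (0 : ℝ) ≤ qa (Fin (m + 2 * h) → F) h := Nat.cast_nonneg _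
    rw [e2]
    generalize (qa (Fin (m + 2 * h + 2) → F) (h + 1) : ℝ) = A at *
    generalize (qa (Fin (m + 2 * h) → F) h : ℝ) = B at *
    generalize Lq (m + 2 * h) h = L at *
    generalize Lq (m + 2 * h + 2) (h + 1) = L' at *
    generalize (1 : ℝ) / 2 ^ (m + 2 * h) = x at *
    generalize (1 : ℝ) / 2 ^ m = y at *
    have u0 : 0 ≤ (1 - x / 4) * (1 - x / 2) := mul_nonneg (by linarith) (by linarith)
    have u1 : (1 - x / 4) * (1 - x / 2) ≤ 1 := by nlinarith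
    have u2 : 1 - y + x / 4 ≤ (1 - x / 4) * (1 - x / 2) * (1 - y + x) := by
      nlinarith [mul_nonneg p1.le (sub_nonneg.2 p2), mul_nonneg (mul_nonneg p1.le p1.le)
        (show 0 ≤ 1 - y + x by linarith)]
    constructor
    · refine le_of_mul_le_mul_right ?_ l1
      rw [r]
      calc (1 - y + x / 4) * L' * L = (1 - y + x / 4) * L * L' := by ring
        _ ≤ (1 - x / 4) * (1 - x / 2) * (1 - y + x) * L * L' := by gcongr
        _ = (1 - x / 4) * (1 - x / 2) * ((1 - y + x) * L) * L' := by ring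
        _ ≤ _ := by gcongr
    · refine le_of_mul_le_mul_right ?_ l1
      rw [r]
      calc (1 - x / 4) * (1 - x / 2) * B * L' ≤ 1 * L * L' := by gcongr
        _ = L' * L := by ring

theorem qa_up {n h : ℕ} (hn : 2 * h ≤ n) : (qa (Fin n → F) h : ℝ) ≤ Lq n h := by
  obtain ⟨m, rfl⟩ : ∃ m, n = m + 2 * h := ⟨n - 2 * h, by omega⟩
  exact (qa_bd m h).2

theorem qa_low {n h t : ℕ} (hn : t + 2 * h ≤ n) : (1 - 1 / 2 ^ t) * Lq n h ≤ qa (Fin n → F) h := by
  obtain ⟨m, rfl⟩ : ∃ m, n = m + 2 * h := ⟨n - 2 * h, by omega⟩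
  refine le_trans (mul_le_mul_of_nonneg_right ?_ (Lq_pos _ _).le) (qa_bd m h).1
  have p1 : (0 : ℝ) < 1 / 2 ^ (m + 2 * h) := by positivity
  have p2 : (1 : ℝ) / 2 ^ m ≤ 1 / 2 ^ t :=
    one_div_le_one_div_of_le (by positivity) (pow_le_pow_right₀ (by norm_num) (by omega))
  linarith

theorem Lq_step {n h t : ℕ} (hn : t + 4 * h + 1 ≤ 2 * n) : 2 ^ t * Lq n h ≤ Lq n (h + 1) := by
  have a3 := four_pos h
  rw [pow_succ', four_eq] at a3
  rw [Lq_succ, mul_comm]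
  refine mul_le_mul_of_nonneg_left ?_ (Lq_pos _ _).le
  rw [le_div_iff₀ (by positivity)]
  have a4 : (2 : ℝ) ^ t * ((2 ^ h) ^ 2 * (4 * (2 ^ h) ^ 2)) ≤ 2 * (2 ^ n) ^ 2 := by
    rw [show (4 : ℝ) = 2 ^ 2 by norm_num, ← pow_mul, ← pow_mul, ← pow_add, ← pow_add, ← pow_add,
      ← pow_succ']
    exact pow_le_pow_right₀ (by norm_num) (by omega)
  refine le_trans ?_ a4
  gcongr
  linarith

theorem Lq_sum {n t : ℕ} (k : ℕ) (hn : t + 4 * k ≤ 2 * n) :
    2 ^ t * ∑ j ∈ Finset.range k, Lq n j ≤ Lq n k := by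
  induction k with
  | zero => simpa using (Lq_pos n 0).le
  | succ k ih =>
    have h1 := ih (by omega)
    have h2 := Lq_step (n := n) (h := k) (t := t + 1) (by omega)
    have h3 : (1 : ℝ) ≤ 2 ^ t := one_le_pow₀ (by norm_num)
    have h4 := Lq_pos n k
    rw [Finset.sum_range_succ, mul_add]
    rw [pow_succ] at h2
    nlinarith

theorem Lq_mono {n j : ℕ} (k : ℕ) (hn : 4 * (j + k) ≤ 2 * n) : Lq n j ≤ Lq n (j + k) := by
  induction k with
  | zero => exact le_rfl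
  | succ k ih =>
    have h2 := Lq_step (n := n) (h := j + k) (t := 0) (by omega)
    rw [pow_zero, one_mul] at h2
    exact (ih (by omega)).trans h2

end Pool.Agent.P.MP_cb6780_lc
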