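import Pool.Agent.P.MP_cb6780_lc.Struct
import Pool.Agent.P.MP_cb6780_lc.Res2

set_option autoImplicit false

/-! The two finite inequalities: almost every `ε`-biased function is more than `1/2`-biased on a
unique flat of codimension `c` and unbiased on the parallel flats. -/

namespace Pool.Agent.P.MP_cb6780_lc

open Module

theorem ul_fiber {α β : Type} [Fintype α] [Finite β] (Z : Set β) (π : β → α) :
    Z.ncard = ∑ a, {z | z ∈ Z ∧ π z = a}.ncard := by
  classical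
  have hZ : Z.Finite := Set.toFinite Z
  rw [Set.ncard_eq_toFinset_card Z hZ,
    Finset.card_eq_sum_card_fiberwise (s := hZ.toFinset) (t := Finset.univ) (f := π)
      (fun _ _ => Finset.mem_coe.2 (Finset.mem_univ _))]
  refine Finset.sum_congr rfl fun a _ => ?_
  rw [← Set.ncard_coe_finset]
  congr 1
  ext z
  simp

theorem ul_ite {α : Type} [Fintype α] (A : Set α) [DecidablePred (· ∈ A)] (k : ℕ) :
    ∑ a, (if a ∈ A then k else 0) = A.ncard * k := by
  rw [← Finset.sum_filter, Finset.sum_const, smul_eq_mul, ← Set.ncard_coe_finset]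
  congr 2
  ext z
  simp

section
variable {V : Type} [AddCommGroup V] [Module F V] [Finite V]

theorem ul_finsub : Finite (Submodule F V) :=
  Finite.of_injective (fun W : Submodule F V => (W : Set V)) SetLike.coe_injective

/-- pairs (subspace of codimension `c`, point) -/
def ulPairs (V : Type) [AddCommGroup V] [Module F V] (c : ℕ) : Set (Submodule F V × V) :=
  {w | finrank F w.1 + c = finrank F V}

theorem ul_pairs {n c : ℕ} (hV : finrank F V = n + c) :
    (ulPairs V c).ncard = G V c * 2 ^ (n + c) := by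
  have h : ulPairs V c = {W : Submodule F V | finrank F W + c = finrank F V} ×ˢ (Set.univ : Set V) := by
    ext w
    simp [ulPairs]
  rw [h, Set.ncard_prod, Set.ncard_univ, card_V, hV, G, hV]

omit [Finite V] in
theorem ul_fib_eq (Z : Set (Submodule F V × V × (V → F))) (w : Submodule F V × V) :
    {z | z ∈ Z ∧ (z.1, z.2.1) = w}.ncard = {f | (w.1, w.2, f) ∈ Z}.ncard := by
  symm
  refine Set.ncard_congr (fun f _ => (w.1, w.2, f)) ?_ ?_ ?_
  · intro f hf
    exact ⟨hf, rfl⟩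
  · intro f g _ _ h
    exact (Prod.ext_iff.1 (Prod.ext_iff.1 h).2).2
  · rintro ⟨W, a, f⟩ ⟨hz, rfl⟩
    exact ⟨f, hz, rfl⟩

theorem ul_card_sub {n c : ℕ} (hV : finrank F V = n + c) {W : Submodule F V}
    (hW : finrank F W + c = finrank F V) : Nat.card W = 2 ^ n := by
  rw [card_V]
  congr 1
  omega

end

section
variable {V : Type} [AddCommGroup V] [Module F V] [Finite V]

/-- triples (subspace of codimension `c`, base point, function biased on the coset) -/
def Tri (V : Type) [AddCommGroup V] [Module F V] (c e : ℕ) (θ : ℝ) :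
    Set (Submodule F V × V × (V → F)) :=
  {z | finrank F z.1 + c = finrank F V ∧ z.2.2 ∈ P V e ∧ θ ≤ bias (res z.1 z.2.1 z.2.2)}

/-- fibrewise by `ncard_res_pre` and `N_eq` -/
theorem ncard_Tri {n c : ℕ} (hV : finrank F V = n + c) (e : ℕ) (θ : ℝ) :
    (Tri V c e θ).ncard * cP n e = G V c * 2 ^ (n + c) * (Nn n e θ * cP (n + c) e) := by
  classical
  have := @ul_finsub V _ _ _
  have := Fintype.ofFinite (Submodule F V × V)
  rw [ul_fiber (Tri V c e θ) (fun z => (z.1, z.2.1)), Finset.sum_mul, ← ul_pairs hV, ← ul_ite]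
  refine Finset.sum_congr rfl fun w _ => ?_
  rw [ul_fib_eq]
  by_cases hw : w ∈ ulPairs V c
  · rw [if_pos hw]
    have hw' : finrank F w.1 + c = finrank F V := hw
    have hn : finrank F w.1 = n := by omega
    have h1 := ncard_res_pre w.1 w.2 e {g | θ ≤ bias g}
    have h2 := N_eq (V := w.1) e θ
    rw [hn] at h2
    rw [hn, hV] at h1
    have h3 : {f | (w.1, w.2, f) ∈ Tri V c e θ} =
        {f | f ∈ P V e ∧ res w.1 w.2 f ∈ {g | θ ≤ bias g}} := by
      ext f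
      exact ⟨fun h => h.2, fun h => ⟨hw', h⟩⟩
    rw [h3, h1, ← h2]
    rfl
  · rw [if_neg hw]
    have h3 : {f | (w.1, w.2, f) ∈ Tri V c e θ} = ∅ := by
      ext f
      exact ⟨fun h => hw h.1, fun h => h.elim⟩
    rw [h3, Set.ncard_empty, zero_mul]

/-- exceptional functions: `codim U < c` -/
def Bad (V : Type) [AddCommGroup V] [Module F V] (d c : ℕ) (ε η : ℝ) : Set (V → F) :=
  {f | f ∈ P V (d + 2) ∧ ε ≤ |bias f| ∧ finrank F V < finrank F (U d η f) + c}

/-- For `f` outside `Bad` with bias `≥ ε`: `one_coset` gives `|U|/|V| ≥ ε - γ > 2^(-c-1)`, so `U` has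
codimension exactly `c`, and the `2^n` points `a'` of the coset give `2^n` triples `(U, a', f)`. -/
theorem up_aux {n c d : ℕ} (hV : finrank F V = n + c) (hd : 2 ≤ d) {ε γ η : ℝ} (hγ : 0 < γ)
    (hγ1 : γ ≤ 1) (hε : 1 / 2 ^ (c + 1) + γ < ε) (hη : η ≤ γ ^ 2 * (ε ^ 2 / 2)) :
    2 ^ n * N V (d + 2) ε ≤
      (Tri V c (d + 2) (2 ^ c * (ε - γ))).ncard + 2 ^ n * (Bad V d c ε η).ncard := by
  classical
  have := @ul_finsub V _ _ _
  have := Fintype.ofFinite (V → F)
  rw [ul_fiber (Tri V c (d + 2) (2 ^ c * (ε - γ))) (fun z => z.2.2), N, mul_comm, mul_comm (2 ^ n),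
    ← ul_ite, ← ul_ite, ← Finset.sum_add_distrib]
  refine Finset.sum_le_sum fun f _ => ?_
  by_cases hf : f ∈ {f : V → F | f ∈ P V (d + 2) ∧ ε ≤ bias f}
  swap
  · rw [if_neg hf]
    exact Nat.zero_le _
  rw [if_pos hf]
  by_cases hb : f ∈ Bad V d c ε η
  · rw [if_pos hb]
    exact Nat.le_add_left _ _
  rw [if_neg hb, add_zero]
  obtain ⟨hP, hfb⟩ := hf
  have hpos : (0 : ℝ) < 1 / 2 ^ (c + 1) := by positivity
  have hge : finrank F (U d η f) + c ≤ finrank F V := by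
    by_contra h
    exact hb ⟨hP, hfb.trans (le_abs_self _), not_le.1 h⟩
  obtain ⟨a, ha⟩ := one_coset hd hγ (by linarith) hγ1 hη hfb
  obtain ⟨c', hc'⟩ : ∃ c', finrank F (U d η f) + c' = finrank F V :=
    ⟨finrank F V - finrank F (U d η f), by omega⟩
  rw [card_sub _ hc'] at ha
  have hb1 : bias (res (U d η f) a f) ≤ 1 := (le_abs_self _).trans (abs_bias_le _)
  have hp' : (0 : ℝ) < 1 / 2 ^ c' := by positivity
  have hlt : (1 : ℝ) / 2 ^ (c + 1) < 1 / 2 ^ c' := by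
    have := mul_le_mul_of_nonneg_left hb1 hp'.le
    linarith
  have hcc : c' = c := by
    have h1 : (2 : ℝ) ^ c' < 2 ^ (c + 1) := by
      rwa [one_div_lt_one_div (by positivity) (by positivity)] at hlt
    have h2 : c' < c + 1 := (pow_lt_pow_iff_right₀ (by norm_num : (1 : ℝ) < 2)).1 h1
    omega
  subst hcc
  have hθ : 2 ^ c' * (ε - γ) ≤ bias (res (U d η f) a f) := by
    have h1 := mul_le_mul_of_nonneg_left ha (by positivity : (0 : ℝ) ≤ 2 ^ c')
    rwa [← mul_assoc, mul_one_div_cancel (by positivity), one_mul] at h1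
  rw [← ul_card_sub hV hc', ← Set.ncard_univ]
  refine Set.ncard_le_ncard_of_injOn (fun u : U d η f => (U d η f, a + u.1, f)) ?_ ?_ (Set.toFinite _)
  · intro u _
    refine ⟨⟨hc', hP, ?_⟩, rfl⟩
    have h1 : a + (a + u.1) ∈ U d η f := by
      rw [← add_assoc, add_self_V, zero_add]
      exact u.2
    exact hθ.trans (bias_res_congr _ h1 f).le
  · intro u _ v _ h
    exact Subtype.ext (add_left_cancel (Prod.ext_iff.1 (Prod.ext_iff.1 h).2).1)

/-- triples whose function has bias `≥ ε`: by `cheb`, for each `(U,a)` -/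
theorem low_aux1 {n c e : ℕ} (hV : finrank F V = n + c) (he : 3 ≤ e) {ε γ : ℝ} (hγ : 0 < γ) :
    (1 - 1 / (γ ^ 2 * 2 ^ n)) * ((Tri V c e (2 ^ c * (ε + γ))).ncard : ℝ) ≤
      {z | z ∈ Tri V c e (2 ^ c * (ε + γ)) ∧ ε ≤ bias z.2.2}.ncard := by
  classical
  have := @ul_finsub V _ _ _
  have := Fintype.ofFinite (Submodule F V × V)
  rw [ul_fiber (Tri V c e (2 ^ c * (ε + γ))) (fun z => (z.1, z.2.1)),
    ul_fiber {z | z ∈ Tri V c e (2 ^ c * (ε + γ)) ∧ ε ≤ bias z.2.2} (fun z => (z.1, z.2.1)),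
    Nat.cast_sum, Nat.cast_sum, Finset.mul_sum]
  refine Finset.sum_le_sum fun w _ => ?_
  rw [ul_fib_eq, ul_fib_eq]
  by_cases hw : w ∈ ulPairs V c
  swap
  · have h3 : {f | (w.1, w.2, f) ∈ Tri V c e (2 ^ c * (ε + γ))} = ∅ := by
      ext f
      exact ⟨fun h => hw h.1, fun h => h.elim⟩
    rw [h3, Set.ncard_empty, Nat.cast_zero, mul_zero]
    exact Nat.cast_nonneg _
  have hw' : finrank F w.1 + c = finrank F V := hw
  have h1 := cheb w.1 w.2 he {g | 2 ^ c * (ε + γ) ≤ bias g} hγ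
  rw [card_sub _ hw', ul_card_sub hV hw'] at h1
  have h3 : {f | (w.1, w.2, f) ∈ Tri V c e (2 ^ c * (ε + γ))} =
      {f | f ∈ P V e ∧ res w.1 w.2 f ∈ {g | 2 ^ c * (ε + γ) ≤ bias g}} := by
    ext f
    exact ⟨fun h => h.2, fun h => ⟨hw', h⟩⟩
  have h4 : {f | f ∈ P V e ∧ res w.1 w.2 f ∈ {g | 2 ^ c * (ε + γ) ≤ bias g}} ⊆
      {f | (w.1, w.2, f) ∈ {z | z ∈ Tri V c e (2 ^ c * (ε + γ)) ∧ ε ≤ bias z.2.2}} ∪
      {f | (f ∈ P V e ∧ res w.1 w.2 f ∈ {g | 2 ^ c * (ε + γ) ≤ bias g}) ∧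
        bias f < 1 / 2 ^ c * bias (res w.1 w.2 f) - γ} := by
    intro f hf
    by_cases h : ε ≤ bias f
    · exact Or.inl ⟨⟨hw', hf⟩, h⟩
    · refine Or.inr ⟨hf, ?_⟩
      have h5 : 2 ^ c * (ε + γ) ≤ bias (res w.1 w.2 f) := hf.2
      have h6 := mul_le_mul_of_nonneg_left h5 (by positivity : (0 : ℝ) ≤ 1 / 2 ^ c)
      rw [← mul_assoc, one_div_mul_cancel (by positivity), one_mul] at h6
      linarith [not_le.1 h]
  have h5 := (Set.ncard_le_ncard h4 (Set.toFinite _)).trans (Set.ncard_union_le _ _)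
  have h6 := (Nat.cast_le (α := ℝ)).2 h5
  rw [Nat.cast_add] at h6
  rw [h3, sub_mul, one_mul, one_div_mul_eq_div]
  rw [Nat.cast_pow, Nat.cast_ofNat] at h1
  linarith

/-- a function outside `Bad` lies in at most `2^n` triples: `le_U` and dimensions give `z.1 = U d η f`,
`two_cosets` (with `γ = 1/2`) fixes the coset; a function in `Bad` lies in at most `G * |V|` triples -/
theorem low_aux2 {n c d : ℕ} (hV : finrank F V = n + c) (hd : 2 ≤ d) {ε γ θ η : ℝ} (hγ : 0 ≤ γ)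
    (hθ : 1 / 2 + γ ≤ θ) (hη : η ≤ 2 * γ / 2 ^ c) (hη' : η ≤ 1 / 4 / 2 ^ c) :
    {z | z ∈ Tri V c (d + 2) θ ∧ ε ≤ bias z.2.2}.ncard ≤
      2 ^ n * N V (d + 2) ε + G V c * 2 ^ (n + c) * (Bad V d c ε η).ncard := by
  classical
  have := @ul_finsub V _ _ _
  have := Fintype.ofFinite (V → F)
  rw [ul_fiber {z | z ∈ Tri V c (d + 2) θ ∧ ε ≤ bias z.2.2} (fun z => z.2.2), N, mul_comm (2 ^ n),
    mul_comm (G V c * 2 ^ (n + c)), ← ul_ite, ← ul_ite, ← Finset.sum_add_distrib]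
  refine Finset.sum_le_sum fun f _ => ?_
  by_cases hb : f ∈ Bad V d c ε η
  · rw [if_pos hb, ← ul_pairs hV]
    refine le_trans ?_ (Nat.le_add_left _ _)
    refine Set.ncard_le_ncard_of_injOn (fun z => (z.1, z.2.1)) ?_ ?_ (Set.toFinite _)
    · intro z hz
      exact hz.1.1.1
    · rintro ⟨W, a, g⟩ ⟨_, h1⟩ ⟨W', a', g'⟩ ⟨_, h2⟩ h
      obtain ⟨h3, h4⟩ := Prod.ext_iff.1 h
      exact Prod.ext h3 (Prod.ext h4 (h1.trans h2.symm))
  rw [if_neg hb, add_zero]
  rcases Set.eq_empty_or_nonempty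
    {z | z ∈ {z | z ∈ Tri V c (d + 2) θ ∧ ε ≤ bias z.2.2} ∧ z.2.2 = f} with h0 | ⟨z₀, hz₀⟩
  · rw [h0, Set.ncard_empty]
    exact Nat.zero_le _
  obtain ⟨W₀, a₀, f₀⟩ := z₀
  obtain ⟨⟨⟨hW₀, hP, ha₀⟩, hfb⟩, rfl⟩ := hz₀
  simp only at hW₀ hP ha₀ hfb hb ⊢
  rw [if_pos (show f₀ ∈ {f : V → F | f ∈ P V (d + 2) ∧ ε ≤ bias f} from ⟨hP, hfb⟩)]
  have hge : finrank F (U d η f₀) + c ≤ finrank F V := by
    by_contra h
    exact hb ⟨hP, hfb.trans (le_abs_self _), not_le.1 h⟩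
  have key : ∀ (W : Submodule F V) (a : V), finrank F W + c = finrank F V → θ ≤ bias (res W a f₀) →
      W = U d η f₀ := by
    intro W a hW ha
    have h1 : W ≤ U d η f₀ := by
      refine le_U hd hγ W (hθ.trans ha) ?_
      rw [card_sub _ hW, mul_one_div]
      exact hη
    exact Submodule.eq_of_le_of_finrank_le h1 (by omega)
  have hU := key W₀ a₀ hW₀ ha₀
  rw [← ul_card_sub hV hW₀, show Nat.card W₀ = (W₀ : Set V).ncard from Nat.card_coe_set_eq (W₀ : Set V)]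
  refine Set.ncard_le_ncard_of_injOn (fun z => a₀ + z.2.1) ?_ ?_ (Set.toFinite _)
  · rintro ⟨W, a, g⟩ ⟨⟨⟨hW, _, ha⟩, _⟩, hg⟩
    simp only at hW ha hg
    subst hg
    have h1 : W = W₀ := (key W a hW ha).trans hU.symm
    subst h1
    obtain ⟨w, hw, hS⟩ := two_cosets (η := η) (γ := 1 / 2) hd (by norm_num) W (f := g) (a := a₀) (b := a)
      (le_trans (by linarith) (le_abs_self _)) (le_trans (by linarith) (le_abs_self _))
      (by
        rw [card_sub _ hW, mul_one_div]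
        refine hη'.trans (le_of_eq ?_)
        norm_num)
    have h2 : a₀ + a + w ∈ W := by
      rw [hU]
      exact Submodule.subset_span hS
    exact (Submodule.add_mem_iff_left _ hw).1 h2
  · rintro ⟨W, a, g⟩ ⟨⟨⟨hW, _, ha⟩, _⟩, hg⟩ ⟨W', a', g'⟩ ⟨⟨⟨hW', _, ha'⟩, _⟩, hg'⟩ h
    simp only at hW ha hg hW' ha' hg' h
    subst hg
    subst hg'
    exact Prod.ext ((key W a hW ha).trans (key W' a' hW' ha').symm)
      (Prod.ext (add_left_cancel h) rfl)

end

/-- from `small` with `j = c - 1`; empty for `c = 0` -/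
theorem bad_le {ε η : ℝ} (hε : 0 < ε) (hε1 : ε ≤ 1) (hη0 : 0 < η) (hη : η ≤ ε ^ 2 / 2) (d c : ℕ) :
    ∃ K : ℕ, ∀ (V : Type) [AddCommGroup V] [Module F V] [Finite V],
      (Bad V d c ε η).ncard * cP (finrank F V) (d + 1) ≤
        cP (finrank F V) (d + 1) ^ c * (2 * Nat.card V * cP (finrank F V) d) ^ K := by
  rcases c with _ | j
  · refine ⟨0, fun V _ _ _ => ?_⟩
    have h : Bad V d 0 ε η = ∅ := by
      ext f
      refine ⟨fun h => ?_, fun h => h.elim⟩
      have h1 := h.2.2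
      have h2 := Submodule.finrank_le (U d η f)
      omega
    rw [h, Set.ncard_empty, zero_mul]
    exact Nat.zero_le _
  · obtain ⟨K, hK⟩ := small hε hε1 hη0 hη d j
    refine ⟨K, fun V _ _ _ => ?_⟩
    have h : Bad V d (j + 1) ε η =
        {f | f ∈ P V (d + 2) ∧ ε ≤ |bias f| ∧ finrank F V ≤ finrank F (U d η f) + j} := by
      ext f
      exact ⟨fun h => ⟨h.1, h.2.1, Nat.lt_succ_iff.1 h.2.2⟩,
        fun h => ⟨h.1, h.2.1, Nat.lt_succ_iff.2 h.2.2⟩⟩
    rw [h, pow_succ, mul_right_comm]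
    exact Nat.mul_le_mul_right _ (hK V)

end Pool.Agent.P.MP_cb6780_lc
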