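import Pool.Agent.P.MP_cb6780_lc.URound
import Pool.Agent.P.MP_cb6780_lc.UpLow

set_option autoImplicit false
set_option linter.unusedSectionVars false

/-! The forms attached to quadratic and cubic functions; the list bound. -/

namespace Pool.Agent.P.MP_cb6780_lc

open Module

theorem fib_le {α β : Type} [Finite α] [Finite β] (S : Set α) (T : Set β) (φ : α → β) (m : ℕ)
    (h1 : ∀ x ∈ S, φ x ∈ T) (h2 : ∀ y ∈ T, {x | x ∈ S ∧ φ x = y}.ncard ≤ m) :
    S.ncard ≤ T.ncard * m := by
  classical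
  have := Fintype.ofFinite β
  rw [ul_fiber S φ, ← ul_ite]
  refine Finset.sum_le_sum fun y _ => ?_
  by_cases hy : y ∈ T
  · rw [if_pos hy]; exact h2 y hy
  · rw [if_neg hy]
    have : {x | x ∈ S ∧ φ x = y} = ∅ := by
      ext x
      exact ⟨fun h => hy (h.2 ▸ h1 x h.1), fun h => h.elim⟩
    rw [this, Set.ncard_empty]

theorem cover_le {α β : Type} [Finite α] [Finite β] [Nonempty β] (S : Set α) (T : Set β)
    (A : β → Set α) (m : ℕ) (h1 : ∀ x ∈ S, ∃ y ∈ T, x ∈ A y) (h2 : ∀ y ∈ T, (A y).ncard ≤ m) :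
    S.ncard ≤ T.ncard * m := by
  choose! φ h3 h4 using h1
  refine fib_le S T φ m h3 fun y hy => le_trans (Set.ncard_le_ncard ?_ (Set.toFinite _)) (h2 y hy)
  rintro x ⟨hx, rfl⟩
  exact h4 x hx

section
variable {V : Type} [AddCommGroup V] [Module F V]

theorem D_add_aff {g : V → F} (hg : g ∈ P V 2) (x y : V) : D (x + y) g = D x g + D y g := by
  rw [D_add, mem_P_zero.1 (mem_P_succ.1 (mem_P_succ.1 hg y) x), add_zero]

theorem D_smul' (c : F) (y : V) (f : V → F) : D (c • y) f = c • D y f := by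
  rcases Av_cases c with rfl | rfl
  · rw [zero_smul, zero_smul, D_zero]
  · rw [one_smul, one_smul]

open Classical in
/-- the bilinear form of a quadratic function -/
noncomputable def bf (q : V → F) : Bil V :=
  if h : q ∈ P V 3 then
    LinearMap.mk₂ F (fun x y => D x (D y q) 0)
      (fun x x' y => by rw [D_add_aff (mem_P_succ.1 h y)]; rfl)
      (fun c x y => by rw [D_smul']; rfl)
      (fun x y y' => by
        rw [D_comm x (y + y'), D_comm x y, D_comm x y', D_add_aff (mem_P_succ.1 h x)]; rfl)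
      (fun c x y => by rw [D_comm x (c • y), D_comm x y, D_smul']; rfl)
  else 0

theorem bf_apply {q : V → F} (h : q ∈ P V 3) (x y z : V) : bf q x y = D x (D y q) z := by
  obtain ⟨c, hc⟩ := mem_P_one.1 (mem_P_succ.1 (mem_P_succ.1 h y) x)
  rw [bf, dif_pos h]
  show D x (D y q) 0 = _
  rw [hc]

theorem bf_symm {q : V → F} (h : q ∈ P V 3) (x y : V) : bf q x y = bf q y x := by
  rw [bf_apply h x y 0, bf_apply h y x 0, D_comm]

theorem bf_add {q q' : V → F} (h : q ∈ P V 3) (h' : q' ∈ P V 3) : bf (q + q') = bf q + bf q' := by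
  ext x y
  rw [LinearMap.add_apply, LinearMap.add_apply, bf_apply h x y 0, bf_apply h' x y 0,
    bf_apply ((P V 3).add_mem h h') x y 0, map_add, map_add]
  rfl

theorem bf_eq_zero {q : V → F} (h : q ∈ P V 3) : bf q = 0 ↔ q ∈ P V 2 := by
  constructor
  · intro h0
    refine mem_P_succ.2 fun y => mem_P_succ.2 fun x => mem_P_zero.2 (funext fun z => ?_)
    rw [← bf_apply h, h0]
    rfl
  · intro h2
    ext x y
    rw [bf_apply h x y 0, mem_P_zero.1 (mem_P_succ.1 (mem_P_succ.1 h2 y) x)]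
    rfl

theorem D_res (W : Submodule F V) (a : V) (w : W) (f : V → F) :
    D w (res W a f) = res W a (D (w : V) f) := by
  funext u
  simp only [D_apply, res_apply, Submodule.coe_add]
  rw [add_right_comm]

theorem bf_res {q : V → F} (h : q ∈ P V 3) (W : Submodule F V) (a : V) :
    bf (res W a q) = pull W.subtype (bf q) := by
  ext x y
  rw [bf_apply (res_mem_P h W a) x y 0, pull_apply, D_res, D_res, res_apply]
  exact (bf_apply h _ _ _).symm

open Classical in
/-- the trilinear form of a cubic function -/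
noncomputable def tf (f : V → F) : V →ₗ[F] Bil V :=
  if h : f ∈ P V 4 then
    { toFun := fun y => bf (D y f)
      map_add' := fun y z => by
        have h1 := mem_P_succ.1 h y
        have h2 := mem_P_succ.1 h z
        have h3 := mem_P_succ.1 h2 y
        have h4 := P_le_succ 2 h3
        rw [D_add, bf_add ((P V 3).add_mem h1 h2) h4, bf_add h1 h2, (bf_eq_zero h4).2 h3, add_zero]
      map_smul' := fun c y => by
        rcases Av_cases c with rfl | rfl
        · rw [zero_smul, D_zero, (bf_eq_zero (P V 3).zero_mem).2 (P V 2).zero_mem]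
          simp
        · simp }
  else 0

theorem tf_apply {f : V → F} (h : f ∈ P V 4) (y : V) : tf f y = bf (D y f) := by
  rw [tf, dif_pos h]
  rfl

theorem tf_symm {f : V → F} (h : f ∈ P V 4) (y a b : V) : tf f y a b = tf f y b a := by
  rw [tf_apply h]
  exact bf_symm (mem_P_succ.1 h y) a b

theorem tf_inj {f g : V → F} (hf : f ∈ P V 4) (hg : g ∈ P V 4) (h : tf f = tf g) :
    f + g ∈ P V 3 := by
  refine mem_P_succ.2 fun y => ?_
  have h1 := mem_P_succ.1 hf y
  have h2 := mem_P_succ.1 hg y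
  rw [map_add, ← bf_eq_zero ((P V 3).add_mem h1 h2), bf_add h1 h2, ← tf_apply hf, ← tf_apply hg, h]
  exact add_self_V (V := Bil V) _

theorem tf_res {f : V → F} (h : f ∈ P V 4) (W : Submodule F V) (a : V) (w : W) :
    tf (res W a f) w = pull W.subtype (tf f w) := by
  rw [tf_apply (res_mem_P h W a), tf_apply h, D_res, bf_res (mem_P_succ.1 h _)]

variable [Finite V]

theorem bias_sq_le_rk {q : V → F} (h : q ∈ P V 3) : bias q ^ 2 ≤ 1 / 2 ^ rk (bf q) := by
  by_cases h0 : bias q = 0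
  · rw [h0, zero_pow two_ne_zero]; positivity
  rw [quad_bias_sq h h0, ← card_sub _ (rk_ker (bf q))]
  refine div_le_div_of_nonneg_right ?_ (Nat.cast_nonneg _)
  have h1 : (Per q : Set V) ⊆ (LinearMap.ker (bf q) : Set V) := by
    intro y hy
    refine LinearMap.mem_ker.2 (LinearMap.ext fun x => ?_)
    rw [bf_symm h, bf_apply h x y 0, mem_Per.1 hy, map_zero]
    rfl
  exact_mod_cast Set.ncard_le_ncard h1 (Set.toFinite _)

theorem rk_le_of_bias {q : V → F} (h : q ∈ P V 3) {k : ℕ} (hb : 1 / 2 ^ k ≤ bias q) :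
    rk (bf q) ≤ 2 * k := by
  have h1 := (pow_le_pow_left₀ (by positivity) hb 2).trans (bias_sq_le_rk h)
  rw [div_pow, one_pow, ← pow_mul, one_div_le_one_div (by positivity) (by positivity)] at h1
  have h2 := (pow_le_pow_iff_right₀ (by norm_num : (1 : ℝ) < 2)).1 h1
  omega

theorem ncard_P (d : ℕ) : (P V d : Set (V → F)).ncard = cP (finrank F V) d := by
  rw [← card_P, ← Nat.card_coe_set_eq]; rfl

theorem ncard_coset_le {d : ℕ} {S : Set (V → F)} (h : ∀ f ∈ S, ∀ g ∈ S, f + g ∈ P V d) :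
    S.ncard ≤ cP (finrank F V) d := by
  rcases S.eq_empty_or_nonempty with rfl | ⟨g, hg⟩
  · simp
  rw [← ncard_P]
  exact Set.ncard_le_ncard_of_injOn (fun f => f + g) (fun f hf => h f hf g hg)
    (fun _ _ _ _ e => add_right_cancel e) (Set.toFinite _)

theorem quad_count (k : ℕ) : {q : V → F | q ∈ P V 3 ∧ 1 / 2 ^ k ≤ bias q}.ncard ≤
    2 ^ (4 * k * finrank F V + finrank F V + 1) := by
  have := @fin_bil V _ _ _
  have h1 := fib_le {q : V → F | q ∈ P V 3 ∧ 1 / 2 ^ k ≤ bias q} {β : Bil V | rk β ≤ 2 * k} bf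
    (cP (finrank F V) 2) (fun q hq => rk_le_of_bias hq.1 hq.2) fun β _ =>
      ncard_coset_le fun f hf g hg => by
        rw [← bf_eq_zero ((P V 3).add_mem hf.1.1 hg.1.1), bf_add hf.1.1 hg.1.1, hf.2, hg.2]
        exact add_self_V (V := Bil V) _
  refine h1.trans ?_
  have h2 : cP (finrank F V) 2 = 2 ^ (finrank F V + 1) := by
    simp [cP, Finset.sum_range_succ, add_comm]
  rw [h2, add_assoc, pow_add 2 (4 * k * finrank F V)]
  refine Nat.mul_le_mul_right _ ((low_count (2 * k)).trans (le_of_eq ?_))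
  congr 1
  ring

/-- Johnson-type bound -/
theorem johnson {l : ℕ} {L : Set (V → F)} (h1 : ∀ f ∈ L, 1 / 2 ^ l ≤ bias f)
    (h2 : ∀ f ∈ L, ∀ g ∈ L, f + g ∈ P V 3) :
    L.ncard ≤ 2 ^ (2 * l + 1) * 2 ^ (4 * (2 * l + 1) * finrank F V + finrank F V + 1) := by
  rcases L.eq_empty_or_nonempty with rfl | hL
  · simp
  have : Nonempty L := hL.to_subtype
  have a1 : (1 : ℝ) / 2 ^ l ≤ av fun x : V => av fun f : L => chi (f.1 x) := by
    rw [av_comm, ← av_const (V := L) (1 / 2 ^ l)]
    exact av_mono fun f => h1 f.1 f.2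
  have a2 : (av fun x : V => (av fun f : L => chi (f.1 x)) ^ 2) =
      av fun f : L => av fun g : L => bias (f.1 + g.1) := by
    have : ∀ x : V, (av fun f : L => chi (f.1 x)) ^ 2 =
        av fun f : L => av fun g : L => chi ((f.1 + g.1) x) := fun x => by
      rw [sq, av_mul_av]
      simp only [Pi.add_apply, chi_add]
    rw [funext this, av_comm]
    congr 1
    funext f
    rw [av_comm]
    rfl
  have a3 := (pow_le_pow_left₀ (by positivity) a1 2).trans (sq_av_le _)
  rw [a2] at a3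
  obtain ⟨f, hf⟩ := exists_av_le fun f : L => av fun g : L => bias (f.1 + g.1)
  have a4 : (1 : ℝ) / 2 ^ (2 * l + 1) ≤ dens {g : L | 1 / 2 ^ (2 * l + 1) ≤ bias (f.1 + g.1)} := by
    refine dens_markov (g := fun g : L => bias (f.1 + g.1))
      (fun g => (le_abs_self _).trans (abs_bias_le _)) (by positivity) (le_trans (le_of_eq ?_) (a3.trans hf))
    rw [pow_succ, mul_comm 2 l, pow_mul]
    field_simp
  have a5 : {g : L | 1 / 2 ^ (2 * l + 1) ≤ bias (f.1 + g.1)}.ncard ≤
      {q : V → F | q ∈ P V 3 ∧ 1 / 2 ^ (2 * l + 1) ≤ bias q}.ncard :=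
    Set.ncard_le_ncard_of_injOn (fun g => f.1 + g.1) (fun g hg => ⟨h2 _ f.2 _ g.2, hg⟩)
      (fun _ _ _ _ e => Subtype.ext (add_left_cancel e)) (Set.toFinite _)
  have hc : (0 : ℝ) < Nat.card L := by exact_mod_cast Nat.card_pos
  rw [dens_eq, div_le_div_iff₀ (by positivity) hc, one_mul, Nat.card_coe_set_eq] at a4
  have a6 : L.ncard ≤ {g : L | 1 / 2 ^ (2 * l + 1) ≤ bias (f.1 + g.1)}.ncard * 2 ^ (2 * l + 1) := by
    exact_mod_cast a4
  rw [mul_comm]
  exact a6.trans (Nat.mul_le_mul_right _ (a5.trans (quad_count _)))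

/-- the functions in the coset of `k` modulo quadratics that are biased -/
def Lst (l : ℕ) (k : V → F) : Set (V → F) := {g | g + k ∈ P V 3 ∧ 1 / 2 ^ l ≤ |bias g|}

theorem Lst_le {l : ℕ} (hl : 1 ≤ l) (k : V → F) :
    (Lst l k).ncard ≤ 2 ^ (13 * l * (finrank F V + 1)) := by
  let L : Set (V → F) := {g | g + k ∈ P V 3 ∧ 1 / 2 ^ l ≤ bias g}
  have h1 : L.ncard ≤ _ := johnson (l := l) (fun f hf => hf.2) fun f hf g hg => by
    have := (P V 3).add_mem hf.1 hg.1
    rwa [add_add_add_comm, add_self_fun, add_zero] at this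
  have h2 : Lst l k ⊆ L ∪ (fun g => g + 1) '' L := by
    intro g hg
    rcases le_abs.1 hg.2 with h | h
    · exact Or.inl ⟨hg.1, h⟩
    · refine Or.inr ⟨g + 1, ⟨?_, by rw [bias_add_one]; exact h⟩, ?_⟩
      · rw [add_right_comm]
        exact (P V 3).add_mem hg.1 (P_mono (by norm_num) (mem_P_one.2 ⟨1, rfl⟩))
      · show g + 1 + 1 = g
        rw [add_assoc, add_self_fun, add_zero]
  have h3 := (Set.ncard_le_ncard h2 (Set.toFinite _)).trans (Set.ncard_union_le _ _)
  have h4 := Set.ncard_image_le (f := fun g : V → F => g + 1) (Set.toFinite L)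
  refine le_trans (by omega : _ ≤ 2 ^ 1 * (2 ^ (2 * l + 1) *
    2 ^ (4 * (2 * l + 1) * finrank F V + finrank F V + 1))) ?_
  rw [← pow_add, ← pow_add]
  refine Nat.pow_le_pow_right (by norm_num) ?_
  nlinarith [Nat.mul_le_mul_right (finrank F V) hl]

end

end Pool.Agent.P.MP_cb6780_lc
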