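import Pool.Agent.P.MP_cb6780_lc.UEst

set_option autoImplicit false

/-! Uniform estimate for the number of cubics of bias above one half. -/

namespace Pool.Agent.P.MP_cb6780_lc

open Module

theorem inv_pow_le {a b : ℕ} (h : a ≤ b) : (1 : ℝ) / 2 ^ b ≤ 1 / 2 ^ a :=
  one_div_le_one_div_of_le (by positivity) (pow_le_pow_right₀ (by norm_num) h)

theorem Kh_pos (h n : ℕ) : 0 < Kh h n := by
  unfold Kh
  have := KCount_prod_pos h
  split_ifs <;> positivity

theorem Kh_le (h n : ℕ) : Kh h n ≤ 2 ^ ((2 * h + 1) * n + 1) := by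
  unfold Kh
  have h1 : (1 : ℝ) ≤ ∏ j ∈ Finset.range h, ((4 : ℝ) ^ (j + 1) - 1) :=
    Finset.prod_induction _ (fun x : ℝ => 1 ≤ x) (fun _ _ => one_le_mul_of_one_le_of_one_le) le_rfl
      fun j _ => by
        have : (4 : ℝ) ^ 1 ≤ 4 ^ (j + 1) := pow_le_pow_right₀ (by norm_num) (by omega)
        linarith
  have h2 : (1 : ℝ) ≤ 2 ^ (h ^ 2) := one_le_pow₀ (by norm_num)
  split_ifs
  · exact one_le_pow₀ (by norm_num)
  · exact div_le_self (by positivity) (one_le_mul_of_one_le_of_one_le (by linarith) h1)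
  · exact div_le_self (by positivity) (one_le_mul_of_one_le_of_one_le (by linarith) h1)

theorem Kh_eq {h : ℕ} (hh : 2 ≤ h) (n : ℕ) : Kh h (n + 1) = 2 * 2 ^ (n + 1) * Lq n h := by
  have e : (2 : ℝ) ^ ((2 * h + 1) * (n + 1) + 1) = 2 * 2 ^ (n + 1) * 2 ^ (2 * h * (n + 1)) := by
    rw [← pow_succ', ← pow_add]; congr 1; ring
  rw [Kh, if_neg (by omega), if_neg (by omega), Lq, e, mul_one, mul_div_assoc]

theorem K_big {h n t : ℕ} (hh : 2 ≤ h) (hn : t + 2 * h + 30 ≤ n) {θ : ℝ}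
    (h1 : (1 + 1 / 2 ^ (h + 1)) / 2 < θ) (h2 : θ ≤ (1 + 1 / 2 ^ h) / 2) :
    (1 - 1 / 2 ^ t) * Kh h (n + 1) ≤ Nn (n + 1) 4 θ ∧
      (Nn (n + 1) 4 θ : ℝ) ≤ (1 + 1 / 2 ^ t) * Kh h (n + 1) := by
  have hrk : finrank F (Fin (n + 1) → F) = n + 1 := by simp
  have p0 : ps 0 1 = 1 / 2 := by norm_num [ps]
  have g1 := G_up (Fin (n + 1) → F) (n := n) (c := 1) hrk
  have g2 := G_low (Fin (n + 1) → F) (n := n) (c := 1) hrk
  have e0 : (2 : ℝ) ^ (1 * n) / ps 0 1 = 2 ^ (n + 1) := by rw [p0, one_mul, pow_succ]; ring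
  rw [e0] at g1 g2
  have l0 := Lq_pos n h
  have x0 : (0 : ℝ) < 1 / 2 ^ (t + 2) := by positivity
  have x1 : (1 : ℝ) / 2 ^ t = 4 * (1 / 2 ^ (t + 2)) := by rw [pow_add]; field_simp; norm_num
  have x2 : (1 : ℝ) / 2 ^ (t + 2) ≤ 1 / 2 ^ 2 := inv_pow_le (by omega)
  have n0 : (1 : ℝ) ≤ 2 ^ (n + 1) := one_le_pow₀ (by norm_num)
  rw [Kh_eq hh]
  constructor
  · have a1 := (N_sandwich (V := Fin (n + 1) → F) h1 h2).1
    rw [Eh_eq hrk hh] at a1
    have a2 : 2 * (G (Fin (n + 1) → F) 1 : ℝ) * qa (Fin n → F) h ≤ Nn (n + 1) 4 θ := by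
      exact_mod_cast a1
    have a3 := qa_low (n := n) (h := h) (t := t + 2) (by omega)
    have a4 : (1 - 1 / 2 ^ (t + 2)) * (2 : ℝ) ^ (n + 1) ≤ G (Fin (n + 1) → F) 1 :=
      le_trans (mul_le_mul_of_nonneg_right (by linarith [inv_pow_le (show t + 2 ≤ n by omega)])
        (by positivity)) g2
    refine le_trans ?_ a2
    rw [x1]
    generalize (1 : ℝ) / 2 ^ (t + 2) = x at *
    have a5 : 0 ≤ 1 - x := by linarith
    calc (1 - 4 * x) * (2 * 2 ^ (n + 1) * Lq n h)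
        ≤ (1 - x) * (1 - x) * (2 * 2 ^ (n + 1) * Lq n h) := by
          gcongr
          nlinarith
      _ = 2 * ((1 - x) * 2 ^ (n + 1)) * ((1 - x) * Lq n h) := by ring
      _ ≤ _ := by gcongr
  · have a1 := (N_sandwich (V := Fin (n + 1) → F) h1 h2).2
    rw [Finset.sum_range_succ, Eh_eq hrk hh] at a1
    have a2 : ∑ j ∈ Finset.range h, ((Eh (Fin (n + 1) → F) j).ncard : ℝ) ≤
        2 * 2 ^ (n + 1) * ∑ j ∈ Finset.range h, Lq n j := by
      rw [Finset.mul_sum]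
      refine Finset.sum_le_sum fun j hj => ?_
      have b1 : ((Eh (Fin (n + 1) → F) j).ncard : ℝ) ≤
          2 * (G (Fin (n + 1) → F) 1 : ℝ) * qa (Fin n → F) j := by exact_mod_cast Eh_le hrk j
      have b2 := qa_up (n := n) (h := j) (by have := Finset.mem_range.1 hj; omega)
      exact b1.trans (by gcongr)
    have a3 := Lq_sum (n := n) (t := t + 2) h (by omega)
    have a3' : ∑ j ∈ Finset.range h, Lq n j ≤ 1 / 2 ^ (t + 2) * Lq n h := by
      rw [one_div_mul_eq_div, le_div_iff₀ (by positivity), mul_comm]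
      exact a3
    have a4 : (1 : ℝ) ≤ ∑ j ∈ Finset.range h, Lq n j := by
      have := Finset.single_le_sum (f := fun j => Lq n j) (s := Finset.range h)
        (fun j _ => (Lq_pos n j).le) (Finset.mem_range.2 (show 0 < h by omega))
      simpa [Lq] using this
    have a5 : ((if 3 ≤ h then {g : (Fin (n + 1) → F) → F | TwoCubes g}.ncard else 0 : ℕ) : ℝ) ≤
        1 / 2 ^ (t + 2) * (2 * 2 ^ (n + 1) * Lq n h) := by
      split_ifs with h3
      swap
      · rw [Nat.cast_zero]; positivity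
      obtain ⟨k, rfl⟩ := Nat.exists_eq_add_of_le h3
      have b1 := Lq_mono (n := n) (j := 3) k (by omega)
      have b2 := two_cubes_le (V := Fin (n + 1) → F)
      rw [card_V, hrk] at b2
      have b3 : (({g : (Fin (n + 1) → F) → F | TwoCubes g}.ncard : ℕ) : ℝ) ≤
          4 * (G (Fin (n + 1) → F) 2 : ℝ) * (2 * 2 ^ (n + 1)) * (8 * G (Fin (n + 1) → F) 3) := by
        exact_mod_cast b2
      have b4 := G_crude (Fin (n + 1) → F) (n := n - 1) (c := 2) (by rw [hrk]; omega)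
      have b5 := G_crude (Fin (n + 1) → F) (n := n - 2) (c := 3) (by rw [hrk]; omega)
      have b4' : (G (Fin (n + 1) → F) 2 : ℝ) ≤ (2 ^ n) ^ 2 := by
        rw [← pow_mul]; exact b4.trans (pow_le_pow_right₀ (by norm_num) (by omega))
      have b5' : (G (Fin (n + 1) → F) 3 : ℝ) ≤ (2 ^ n) ^ 3 := by
        rw [← pow_mul]; exact b5.trans (pow_le_pow_right₀ (by norm_num) (by omega))
      have b6 : Lq n 3 = (2 ^ n) ^ 6 / 22680 := by
        have : (2 : ℝ) ^ (2 * 3 * (n + 1)) = (2 ^ n) ^ 6 * 64 := by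
          rw [show (64 : ℝ) = 2 ^ 6 by norm_num, ← pow_mul, ← pow_add]; congr 1; ring
        rw [Lq, this]
        simp only [Finset.prod_range_succ, Finset.prod_range_zero]
        field_simp
        norm_num
      have b7 : (2 : ℝ) ^ (t + 2) * 2 ^ 20 ≤ 2 ^ n := by
        rw [← pow_add]; exact pow_le_pow_right₀ (by norm_num) (by omega)
      have b8 : (0 : ℝ) < 2 ^ n := by positivity
      refine b3.trans ?_
      rw [one_div_mul_eq_div, le_div_iff₀ (by positivity)]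
      calc 4 * (G (Fin (n + 1) → F) 2 : ℝ) * (2 * 2 ^ (n + 1)) * (8 * G (Fin (n + 1) → F) 3) *
            2 ^ (t + 2)
          ≤ 4 * (2 ^ n) ^ 2 * (2 * 2 ^ (n + 1)) * (8 * (2 ^ n) ^ 3) * (2 ^ n / 2 ^ 20) := by
            gcongr
            rw [le_div_iff₀ (by positivity)]
            exact b7
        _ = 2 * 2 ^ (n + 1) * ((2 ^ n) ^ 6 / 32768) := by ring
        _ ≤ 2 * 2 ^ (n + 1) * Lq n 3 := by
            rw [b6]
            gcongr
            norm_num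
        _ ≤ _ := by gcongr
    have a6 : (Nn (n + 1) 4 θ : ℝ) ≤ 1 + (∑ j ∈ Finset.range h, ((Eh (Fin (n + 1) → F) j).ncard : ℝ) +
        2 * (G (Fin (n + 1) → F) 1 : ℝ) * qa (Fin n → F) h) +
        ((if 3 ≤ h then {g : (Fin (n + 1) → F) → F | TwoCubes g}.ncard else 0 : ℕ) : ℝ) := by
      exact_mod_cast a1
    have a7 : 2 * (G (Fin (n + 1) → F) 1 : ℝ) * qa (Fin n → F) h ≤ 2 * 2 ^ (n + 1) * Lq n h := by
      have := qa_up (n := n) (h := h) (by omega)
      gcongr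
    have a8 : 2 * 2 ^ (n + 1) * ∑ j ∈ Finset.range h, Lq n j ≤
        1 / 2 ^ (t + 2) * (2 * 2 ^ (n + 1) * Lq n h) := by
      rw [mul_left_comm]
      gcongr
    have a9 : (1 : ℝ) ≤ 2 * 2 ^ (n + 1) * ∑ j ∈ Finset.range h, Lq n j :=
      one_le_mul_of_one_le_of_one_le (by linarith) a4
    have a10 : 0 ≤ 1 / 2 ^ (t + 2) * (2 * 2 ^ (n + 1) * Lq n h) := by positivity
    rw [x1]
    linarith

theorem K_uni {h n t : ℕ} (hn : t + 2 * h + 31 ≤ n) {θ : ℝ}
    (h1 : (1 + 1 / 2 ^ (h + 1)) / 2 < θ) (h2 : θ ≤ (1 + 1 / 2 ^ h) / 2) :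
    (1 - 1 / 2 ^ t) * Kh h n ≤ Nn n 4 θ ∧ (Nn n 4 θ : ℝ) ≤ (1 + 1 / 2 ^ t) * Kh h n := by
  have x0 : (0 : ℝ) < 1 / 2 ^ t := by positivity
  rcases Nat.lt_or_ge h 2 with hh | hh
  · interval_cases h
    · have a1 : Nn n 4 θ = 1 :=
        N_h0 (V := Fin n → F) (by norm_num at h1 ⊢; exact h1) (by norm_num at h2 ⊢; exact h2)
      rw [a1, show Kh 0 n = 1 by simp [Kh], Nat.cast_one]
      constructor <;> linarith
    · have a1 : Nn n 4 θ = 1 + 8 * G (Fin n → F) 3 :=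
        N_h1 (V := Fin n → F) (by norm_num at h1 ⊢; exact h1) (by norm_num at h2 ⊢; exact h2)
      obtain ⟨m, rfl⟩ : ∃ m, n = m + 3 := ⟨n - 3, by omega⟩
      have g1 := G_up (Fin (m + 3) → F) (n := m) (c := 3) (by simp)
      have g2 := G_low (Fin (m + 3) → F) (n := m) (c := 3) (by simp)
      have e1 : Kh 1 (m + 3) = 8 * (2 ^ (3 * m) / ps 0 3) := by
        have : (2 : ℝ) ^ ((2 * 1 + 1) * (m + 3) + 1) = 2 ^ (3 * m) * 1024 := by
          rw [show (1024 : ℝ) = 2 ^ 10 by norm_num, ← pow_add]; congr 1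
        rw [Kh, if_neg one_ne_zero, if_pos rfl, this]
        simp only [ps, Finset.prod_range_succ, Finset.prod_range_zero]
        field_simp
        norm_num
      have e2 : (2 : ℝ) ^ t ≤ 2 ^ (3 * m) / ps 0 3 := by
        rw [le_div_iff₀ (ps_bd 0 3).2.2]
        exact (mul_le_of_le_one_right (by positivity) (ps_bd 0 3).2.1).trans
          (pow_le_pow_right₀ (by norm_num) (by omega))
      have e3 := mul_le_mul_of_nonneg_left e2 x0.le
      rw [one_div_mul_cancel (by positivity)] at e3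
      have e4 := inv_pow_le (show t ≤ m by omega)
      have e5 : (0 : ℝ) ≤ 2 ^ (3 * m) / ps 0 3 := le_trans (by positivity) e2
      rw [a1, e1]
      push_cast
      constructor
      · nlinarith [mul_le_mul_of_nonneg_right e4 e5]
      · nlinarith
  · obtain ⟨m, rfl⟩ : ∃ m, n = m + 1 := ⟨n - 1, by omega⟩
    exact K_big hh (by omega) h1 h2

end Pool.Agent.P.MP_cb6780_lc
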