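import Pool.Agent.P.MP_cb6780_lc.UForm
import Pool.Agent.P.MP_cb6780_lc.KT

set_option autoImplicit false
set_option linter.unusedSectionVars false

/-! Cubics that are biased on every affine hyperplane are rare. -/

namespace Pool.Agent.P.MP_cb6780_lc

open Module

section
variable {V : Type} [AddCommGroup V] [Module F V] [Finite V]

theorem gen_family (s : Set V) (h0 : (0 : V) ∈ s) (p : ℕ) : ∀ W : Submodule F V,
    finrank F V ≤ finrank F W + p →
    ∃ v : Fin p → V, (∀ i, v i ∈ s) ∧ ∀ x ∈ s, x ∈ W ⊔ Submodule.span F (Set.range v) := by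
  have : Module.Finite F V := Module.Finite.of_finite
  induction p with
  | zero =>
    intro W hW
    have h1 : W = ⊤ := Submodule.eq_top_of_finrank_eq (le_antisymm (Submodule.finrank_le W) hW)
    exact ⟨fun _ => 0, fun _ => h0, fun x _ => Submodule.mem_sup_left (h1 ▸ Submodule.mem_top)⟩
  | succ p ih =>
    intro W hW
    by_cases h : ∀ x ∈ s, x ∈ W
    · exact ⟨fun _ => 0, fun _ => h0, fun x hx => Submodule.mem_sup_left (h x hx)⟩
    push Not at h
    obtain ⟨e, he, he'⟩ := h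
    obtain ⟨v, h1, h2⟩ := ih (W ⊔ Submodule.span F {e}) (by rw [KT_sup he']; omega)
    refine ⟨Fin.cons e v, fun i => by cases i using Fin.cases <;> simp [he, h1], fun x hx => ?_⟩
    have h3 : (W ⊔ Submodule.span F {e}) ⊔ Submodule.span F (Set.range v) ≤
        W ⊔ Submodule.span F (Set.range (Fin.cons e v : Fin (p + 1) → V)) := by
      rw [Fin.range_cons, sup_assoc, Submodule.span_insert]
    exact h3 (h2 x hx)

/-- the directions of small rank span the space -/
def Sp (ρ : ℕ) (k : V → F) : Prop := Submodule.span F {x | rk (tf k x) ≤ ρ} = ⊤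

/-- biased cubics with `Sp` -/
def Rs (V : Type) [AddCommGroup V] [Module F V] (ρ l : ℕ) : Set (V → F) :=
  {k | k ∈ P V 4 ∧ Sp ρ k ∧ 1 / 2 ^ l ≤ |bias k|}

theorem rk_zero : rk (0 : Bil V) = 0 := by
  rw [rk, LinearMap.range_zero, finrank_bot]

theorem same_tf {l : ℕ} (hl : 1 ≤ l) {S : Set (V → F)} (h1 : ∀ k ∈ S, k ∈ P V 4 ∧ 1 / 2 ^ l ≤ |bias k|)
    (h2 : ∀ k ∈ S, ∀ k' ∈ S, tf k = tf k') : S.ncard ≤ 2 ^ (13 * l * (finrank F V + 1)) := by
  rcases S.eq_empty_or_nonempty with rfl | ⟨k, hk⟩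
  · simp
  refine le_trans (Set.ncard_le_ncard (fun g hg => ?_) (Set.toFinite _)) (Lst_le hl k)
  exact ⟨tf_inj (h1 g hg).1 (h1 k hk).1 (h2 g hg k hk), (h1 g hg).2⟩

theorem Rs_le (ρ : ℕ) {l : ℕ} (hl : 1 ≤ l) :
    (Rs V ρ l).ncard ≤ 2 ^ (3 * ρ * finrank F V ^ 2) * 2 ^ (13 * l * (finrank F V + 1)) := by
  have := @fin_bil V _ _ _
  rcases Nat.eq_zero_or_pos ρ with rfl | hρ
  · have h0 : ∀ k ∈ Rs V 0 l, tf k = 0 := fun k hk =>
      LinearMap.ext_on hk.2.1 fun x hx => rk_eq_zero (Nat.le_zero.1 hx)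
    simpa using same_tf hl (S := Rs V 0 l) (fun k hk => ⟨hk.1, hk.2.2⟩)
      fun k hk k' hk' => (h0 k hk).trans (h0 k' hk').symm
  set w := finrank F V with hw
  have : Nonempty {β : Bil V | rk β ≤ ρ} := ⟨⟨0, by show rk (0 : Bil V) ≤ ρ; rw [rk_zero]; omega⟩⟩
  have h1 := cover_le (Rs V ρ l) (Set.univ : Set ((Fin w → V) × (Fin w → {β : Bil V | rk β ≤ ρ})))
    (fun z => {k | k ∈ Rs V ρ l ∧ Submodule.span F (Set.range z.1) = ⊤ ∧
      ∀ i, tf k (z.1 i) = (z.2 i).1}) (2 ^ (13 * l * (w + 1))) (fun k hk => by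
        obtain ⟨v, a1, a2⟩ := gen_family {x | rk (tf k x) ≤ ρ}
          (by show rk (tf k 0) ≤ ρ; rw [map_zero, rk_zero]; omega) w ⊥ (by omega)
        refine ⟨(v, fun i => ⟨tf k (v i), a1 i⟩), trivial, hk, ?_, fun _ => rfl⟩
        refine top_le_iff.1 (hk.2.1.ge.trans (Submodule.span_le.2 fun x hx => ?_))
        have := a2 x hx
        rwa [bot_sup_eq] at this)
    fun z _ => same_tf hl (fun k hk => ⟨hk.1.1, hk.1.2.2⟩) fun k hk k' hk' =>
      LinearMap.ext_on_range hk.2.1 fun i => (hk.2.2 i).trans (hk'.2.2 i).symm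
  refine h1.trans (Nat.mul_le_mul_right _ ?_)
  rw [Set.ncard_univ, Nat.card_prod, Nat.card_fun, Nat.card_fun, Nat.card_coe_set_eq, card_V,
    Nat.card_eq_fintype_card, Fintype.card_fin]
  refine (Nat.mul_le_mul_left _ (Nat.pow_le_pow_left (low_count ρ) w)).trans ?_
  rw [← pow_mul, ← pow_mul, ← pow_add]
  refine Nat.pow_le_pow_right (by norm_num) ?_
  rw [← hw]
  nlinarith [Nat.mul_le_mul_right (w * w) hρ]

theorem zero_of_per {W Z : Submodule F V} (h : W ⊔ Z = ⊤) {a : V} {u : V → F} (h1 : Z ≤ Per u)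
    (h2 : res W a u = 0) : u = 0 := by
  funext x
  have h3 : x + a ∈ W ⊔ Z := h ▸ Submodule.mem_top
  obtain ⟨w, hw, z, hz, e⟩ := Submodule.mem_sup.1 h3
  have e1 : x = w + a + z := by
    rw [add_right_comm, e, add_assoc, add_self_V, add_zero]
  rw [e1, Quad_per_apply (h1 hz)]
  exact congrFun h2 ⟨w, hw⟩

theorem determined {p : ℕ} {W : Submodule F V} {a₀ : V} {a : Fin p → V}
    (h : W ⊔ Submodule.span F (Set.range fun i => a i + a₀) = ⊤) {g : V → F}
    (h0 : res W a₀ g = 0) (h1 : ∀ i, res W (a i) g = 0)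
    (h2 : ∀ i k, D (a i + a₀) (D (a k + a₀) g) = 0) : g = 0 := by
  refine zero_of_per h (Submodule.span_le.2 ?_) h0
  rintro _ ⟨k, rfl⟩
  refine mem_Per.2 (zero_of_per h (a := a₀) (Submodule.span_le.2 ?_) (funext fun u => ?_))
  · rintro _ ⟨i, rfl⟩
    exact mem_Per.2 (h2 i k)
  · have e1 : (u : V) + a₀ + (a k + a₀) = u + a k := by
      rw [add_comm (a k), add_assoc, ← add_assoc a₀, add_self_V, zero_add]
    have e2 : g (u + a k) = 0 := congrFun (h1 k) u
    have e3 : g (u + a₀) = 0 := congrFun h0 u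
    rw [res_apply, D_apply, e1, e2, e3, add_zero]
    rfl

/-- cubics biased on the cosets through `a₀` and the `a i` -/
def Ss (ρ l : ℕ) {p : ℕ} (W : Submodule F V) (a₀ : V) (a : Fin p → V) : Set (V → F) :=
  {f | f ∈ P V 4 ∧ W ⊔ Submodule.span F (Set.range fun i => a i + a₀) = ⊤ ∧
    res W a₀ f ∈ Rs W ρ l ∧ ∀ i, 1 / 2 ^ l ≤ |bias (res W (a i) f)|}

theorem Ss_le (ρ : ℕ) {l : ℕ} (hl : 1 ≤ l) {p : ℕ} (W : Submodule F V) (a₀ : V) (a : Fin p → V) :
    (Ss ρ l W a₀ a).ncard ≤ 2 ^ (3 * ρ * finrank F V ^ 2 + 13 * l * (finrank F V + 1) * (p + 1) +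
      (finrank F V + 1) * (p * p)) := by
  have : Module.Finite F V := Module.Finite.of_finite
  have hw : finrank F W ≤ finrank F V := Submodule.finrank_le W
  have hL : ∀ k : W → F, (Lst l k).ncard ≤ 2 ^ (13 * l * (finrank F V + 1)) := fun k =>
    (Lst_le hl k).trans (Nat.pow_le_pow_right (by norm_num) (Nat.mul_le_mul_left _ (by omega)))
  have h1 := fib_le (Ss ρ l W a₀ a) (Rs W ρ l) (res W a₀)
    ((2 ^ (13 * l * (finrank F V + 1))) ^ p * (2 ^ (finrank F V + 1)) ^ (p * p))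
    (fun f hf => hf.2.2.1) fun k _ => by
      let Φ : {f | f ∈ Ss ρ l W a₀ a ∧ res W a₀ f = k} →
          (Fin p → Lst l k) × (Fin p × Fin p → P V 2) := fun f =>
        (fun i => ⟨res W (a i) f.1, by
            have e0 := res_add_res f.2.1.1 W (a i) a₀
            rwa [f.2.2] at e0, f.2.1.2.2.2 i⟩,
          fun z => ⟨D (a z.1 + a₀) (D (a z.2 + a₀) f.1), mem_P_succ.1 (mem_P_succ.1 f.2.1.1 _) _⟩)
      have hΦ : Function.Injective Φ := by
        intro f g e
        obtain ⟨e1, e2⟩ := Prod.ext_iff.1 e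
        have e3 : f.1 + g.1 = 0 := determined f.2.1.2.1
          (by rw [map_add, f.2.2, g.2.2, add_self_fun])
          (fun i => by
            have : res W (a i) f.1 = res W (a i) g.1 := congrArg Subtype.val (congrFun e1 i)
            rw [map_add, this, add_self_fun])
          fun i k => by
            have : D (a i + a₀) (D (a k + a₀) f.1) = D (a i + a₀) (D (a k + a₀) g.1) :=
              congrArg Subtype.val (congrFun e2 (i, k))
            rw [map_add, map_add, this, add_self_fun]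
        exact Subtype.ext (KT_add_eq_zero e3).symm
      have h2 := Nat.card_le_card_of_injective Φ hΦ
      have h3 : cP (finrank F V) 2 = 2 ^ (finrank F V + 1) := by
        simp [cP, Finset.sum_range_succ, add_comm]
      rw [Nat.card_coe_set_eq, Nat.card_prod, Nat.card_fun, Nat.card_fun, Nat.card_coe_set_eq,
        card_P, h3, Nat.card_prod, Nat.card_eq_fintype_card, Fintype.card_fin] at h2
      exact h2.trans (Nat.mul_le_mul_right _ (Nat.pow_le_pow_left (hL k) p))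
  have h4 : (Rs W ρ l).ncard ≤ 2 ^ (3 * ρ * finrank F V ^ 2) * 2 ^ (13 * l * (finrank F V + 1)) :=
    (Rs_le ρ hl).trans (Nat.mul_le_mul
      (Nat.pow_le_pow_right (by norm_num) (Nat.mul_le_mul_left _ (Nat.pow_le_pow_left hw 2)))
      (Nat.pow_le_pow_right (by norm_num) (Nat.mul_le_mul_left _ (by omega))))
  refine (h1.trans (Nat.mul_le_mul_right _ h4)).trans (le_of_eq ?_)
  rw [← pow_mul, ← pow_mul, ← pow_add, ← pow_add, ← pow_add]
  congr 1
  ring

theorem bias_res_sub {W U : Submodule F V} (h : W ≤ U) (b : V) (f : V → F) :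
    bias (res U b f) = av fun u : U => bias (res W (u + b) f) := by
  have h1 : (av fun u : U => bias (res W (u + b) f)) =
      av fun w : W => av fun u : U => chi (f (w + (u + b))) := av_comm _
  have h2 : ∀ w : W, (av fun u : U => chi (f (w + (u + b)))) = bias (res U b f) := fun w => by
    rw [← bias_transl (res U b f) ⟨w, h w.2⟩]
    unfold bias
    congr 1
    funext u
    show chi (f (w + (u + b))) = chi (f (u + w + b))
    rw [← add_assoc, add_comm (w : V)]
  rw [h1, funext h2, av_const]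

theorem exists_ker {W : Submodule F V} {p : ℕ} (h : finrank F V ≤ finrank F W + p) :
    ∃ φ : V →ₗ[F] (Fin p → F), LinearMap.ker φ = W := by
  have : Module.Finite F V := Module.Finite.of_finite
  have h1 : finrank F (V ⧸ W) ≤ finrank F (Fin p → F) := by
    have := Submodule.finrank_quotient_add_finrank W
    rw [finrank_fin_fun]
    omega
  obtain ⟨ι, hι⟩ := finrank_le_iff_exists_linearMap.1 h1
  exact ⟨ι.comp W.mkQ, by
    rw [LinearMap.ker_comp_of_ker_eq_bot _ (LinearMap.ker_eq_bot.2 hι), Submodule.ker_mkQ]⟩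

/-- biased cubics that are biased on every affine hyperplane -/
def Rare (V : Type) [AddCommGroup V] [Module F V] (c l : ℕ) : Set (V → F) :=
  {f | f ∈ P V 4 ∧ 1 / 2 ^ (c + 1) ≤ |bias f| ∧
    ∀ ξ : Dual F V, ξ ≠ 0 → ∀ b, 1 / 2 ^ l < |bias (res (LinearMap.ker ξ) b f)|}

theorem exists_W {c : ℕ} (hc : 1 ≤ c) {f : V → F} (hf : f ∈ P V 4) (hb : 1 / 2 ^ (c + 1) ≤ |bias f|) :
    ∃ W : Submodule F V, finrank F V ≤ finrank F W + 2 ^ 21 * c ∧ ∀ a, Sp (c / 60) (res W a f) := by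
  have h1 : (1 : ℝ) / 2 ^ (2 * c + 3) ≤ dens {y | 1 / 2 ^ (2 * c + 3) ≤ bias (D y f)} := by
    refine dens_markov (g := fun y => bias (D y f))
      (fun g => (le_abs_self _).trans (abs_bias_le _)) (by positivity) ?_
    rw [← bias_sq, ← sq_abs]
    refine le_trans (le_of_eq ?_) (pow_le_pow_left₀ (by positivity) hb 2)
    rw [show 2 * c + 3 = (c + 1) * 2 + 1 by ring, pow_succ, pow_mul]
    field_simp
  obtain ⟨W, s, hs, h2, h3⟩ := compress 18 (tf f) (tf_symm hf) _ (2 * c + 4) (4 * c + 6)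
    (le_trans (le_of_eq (by rw [show 2 * c + 4 = 2 * c + 3 + 1 by ring, pow_succ]; field_simp)) h1)
    fun y hy => by
      rw [tf_apply hf]
      exact (rk_le_of_bias (mem_P_succ.1 hf y) hy).trans (by omega)
  refine ⟨W, h2.trans (by omega), fun a => ?_⟩
  subst hs
  refine top_le_iff.1 (Submodule.span_span_coe_preimage.ge.trans (Submodule.span_mono ?_))
  intro x hx
  have h4 := h3 x hx
  show rk (tf (res (Submodule.span F s) a f) x) ≤ c / 60
  rw [tf_res hf]
  omega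

theorem rare_mem {c l : ℕ} (hc : 1 ≤ c) (hl : c + 1 ≤ l) {f : V → F} (hf : f ∈ Rare V c l) :
    ∃ z : (V →ₗ[F] (Fin (2 ^ 21 * c) → F)) × V × (Fin (2 ^ 21 * c) → V),
      f ∈ Ss (c / 60) l (LinearMap.ker z.1) z.2.1 z.2.2 := by
  obtain ⟨hP, hb, hH⟩ := hf
  obtain ⟨W, hW, hS⟩ := exists_W hc hP hb
  obtain ⟨φ, rfl⟩ := exists_ker hW
  set W := LinearMap.ker φ with hWd
  have hτ : (1 : ℝ) / 2 ^ l ≤ 1 / 2 ^ (c + 1) :=
    one_div_le_one_div_of_le (by positivity) (pow_le_pow_right₀ (by norm_num) hl)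
  obtain ⟨a₀, h0⟩ := exists_av_le fun a : V => |bias (res W a f)|
  have h1 : 1 / 2 ^ l ≤ |bias (res W a₀ f)| := by
    rw [bias_eq_av_res W f] at hb
    exact hτ.trans (hb.trans ((abs_av_le _).trans h0))
  obtain ⟨v, a1, a2⟩ := gen_family {x | 1 / 2 ^ l ≤ |bias (res W (x + a₀) f)|}
    (by show _ ≤ |bias (res W (0 + a₀) f)|; rwa [zero_add]) _ W hW
  have e : (fun i => v i + a₀ + a₀) = v := funext fun i => by rw [add_assoc, add_self_V, add_zero]
  refine ⟨(φ, a₀, fun i => v i + a₀), hP, ?_, ⟨res_mem_P hP _ _, hS a₀, h1⟩, a1⟩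
  show W ⊔ Submodule.span F (Set.range fun i => v i + a₀ + a₀) = ⊤
  rw [e]
  by_contra hne
  obtain ⟨ξ, x1, x2⟩ := Submodule.exists_le_ker_of_lt_top _ (lt_top_iff_ne_top.2 hne)
  obtain ⟨y, hy⟩ := exists_eq_one x1
  have h2 := hH ξ x1 (y + a₀)
  rw [bias_res_sub (le_sup_left.trans x2)] at h2
  refine absurd ((abs_av_le _).trans (av_le_of_le fun u => ?_)) (not_le.2 h2)
  by_contra h3
  have h4 : (u : V) + y ∈ LinearMap.ker ξ := x2 (a2 _ (by
    show _ ≤ |bias (res W (u + y + a₀) f)|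
    rw [add_assoc]
    exact (not_le.1 h3).le))
  have h5 : ξ u = 0 := u.2
  rw [LinearMap.mem_ker, map_add, h5, hy, zero_add] at h4
  exact one_ne_zero h4

/-- the main lemma -/
theorem rare_le {c l : ℕ} (hc : 1 ≤ c) (hl : c + 1 ≤ l) :
    (Rare V c l).ncard ≤
      2 ^ (3 * (c / 60) * finrank F V ^ 2 + 2 ^ 43 * (c * l) * (finrank F V + 1)) := by
  have : Module.Finite F V := Module.Finite.of_finite
  have : Finite (V →ₗ[F] (Fin (2 ^ 21 * c) → F)) := DFunLike.finite _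
  have h1 := cover_le (Rare V c l) Set.univ
    (fun z : (V →ₗ[F] (Fin (2 ^ 21 * c) → F)) × V × (Fin (2 ^ 21 * c) → V) =>
      Ss (c / 60) l (LinearMap.ker z.1) z.2.1 z.2.2) _
    (fun f hf => (rare_mem hc hl hf).imp fun z hz => ⟨trivial, hz⟩)
    fun z _ => Ss_le (c / 60) (by omega) _ _ _
  refine h1.trans ?_
  rw [Set.ncard_univ, Nat.card_prod, Nat.card_prod, Nat.card_fun,
    card_V (V := V →ₗ[F] (Fin (2 ^ 21 * c) → F)), card_V (V := V), Module.finrank_linearMap,
    finrank_fin_fun, Nat.card_eq_fintype_card, Fintype.card_fin, ← pow_mul, ← pow_add, ← pow_add,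
    ← pow_add]
  refine Nat.pow_le_pow_right (by norm_num) ?_
  generalize finrank F V = j
  generalize 3 * (c / 60) * j ^ 2 = X
  have a1 : c * c ≤ c * l := Nat.mul_le_mul_left _ (by omega)
  have a2 : c ≤ c * l := Nat.le_mul_of_pos_right _ (by omega)
  have a3 : l ≤ c * l := Nat.le_mul_of_pos_left _ hc
  have a4 : (2 * (2 ^ 21 * c) + 1) + 13 * l * (2 ^ 21 * c + 1) + 2 ^ 21 * c * (2 ^ 21 * c) ≤
      2 ^ 43 * (c * l) := by nlinarith
  nlinarith [Nat.mul_le_mul_right (j + 1) a4]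

end

end Pool.Agent.P.MP_cb6780_lc
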