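import Pool.Agent.P.MP_cb6780_lc.LDef

set_option autoImplicit false
set_option linter.unusedSectionVars false

/-! Ranks of symmetric bilinear forms over the field with two elements. -/

namespace Pool.Agent.P.MP_cb6780_lc

open Module

/-- bilinear forms -/
abbrev Bil (V : Type) [AddCommGroup V] [Module F V] := V →ₗ[F] V →ₗ[F] F

section
variable {V W X : Type} [AddCommGroup V] [Module F V] [AddCommGroup W] [Module F W]
  [AddCommGroup X] [Module F X]

/-- rank of a bilinear form -/
noncomputable def rk (β : Bil V) : ℕ := finrank F (LinearMap.range β)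

/-- pull-back of a bilinear form -/
def pull (e : W →ₗ[F] V) (β : Bil V) : Bil W := β.compl₁₂ e e

theorem pull_apply (e : W →ₗ[F] V) (β : Bil V) (x y : W) : pull e β x y = β (e x) (e y) := rfl

theorem pull_add (e : W →ₗ[F] V) (α β : Bil V) : pull e (α + β) = pull e α + pull e β := by
  ext x y; simp [pull_apply]

theorem pull_pull (e : W →ₗ[F] V) (e' : X →ₗ[F] W) (β : Bil V) :
    pull e' (pull e β) = pull (e.comp e') β := rfl

theorem fin_dual [Finite V] : Finite (V →ₗ[F] F) := DFunLike.finite _

theorem fin_bil [Finite V] : Finite (Bil V) := by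
  have := @fin_dual V _ _ _
  exact DFunLike.finite _

variable [Finite V] [Finite W]

theorem rk_pull_le (e : W →ₗ[F] V) (β : Bil V) : rk (pull e β) ≤ rk β := by
  have : Module.Finite F V := Module.Finite.of_finite
  have : Module.Finite F W := Module.Finite.of_finite
  have h : LinearMap.range (pull e β) ≤ (LinearMap.range β).map e.dualMap := by
    rintro _ ⟨x, rfl⟩
    exact ⟨β (e x), ⟨e x, rfl⟩, rfl⟩
  exact (Submodule.finrank_mono h).trans (Submodule.finrank_map_le _ _)

theorem rk_add_le (α β : Bil V) : rk (α + β) ≤ rk α + rk β := by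
  have : Module.Finite F V := Module.Finite.of_finite
  have h : LinearMap.range (α + β) ≤ LinearMap.range α ⊔ LinearMap.range β := by
    rintro _ ⟨x, rfl⟩
    exact Submodule.add_mem_sup ⟨x, rfl⟩ ⟨x, rfl⟩
  exact (Submodule.finrank_mono h).trans (Submodule.finrank_add_le_finrank_add_finrank _ _)

theorem rk_ker (β : Bil V) : finrank F (LinearMap.ker β) + rk β = finrank F V := by
  have : Module.Finite F V := Module.Finite.of_finite
  rw [add_comm]
  exact LinearMap.finrank_range_add_finrank_ker β

theorem rk_eq_zero {β : Bil V} (h : rk β = 0) : β = 0 := by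
  have : Module.Finite F V := Module.Finite.of_finite
  exact LinearMap.range_eq_bot.1 (Submodule.finrank_eq_zero.1 h)

/-- the rank inequality -/
theorem rk_ineq (A B : Bil V) (hA : ∀ x y, A x y = A y x) :
    2 * rk (pull (LinearMap.ker A).subtype B) + rk A ≤ rk B + rk (A + B) := by
  have : Module.Finite F V := Module.Finite.of_finite
  set N := LinearMap.ker A with hN
  set I := LinearMap.range B ⊓ LinearMap.range (A + B) with hI
  set S := LinearMap.range B ⊔ LinearMap.range (A + B) with hS
  have e0 : finrank F S + finrank F I = rk B + rk (A + B) :=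
    Submodule.finrank_sup_add_finrank_inf_eq _ _
  have hIm : LinearMap.range (pull N.subtype B) ≤ I.map N.subtype.dualMap := by
    rintro _ ⟨x, rfl⟩
    refine ⟨B x, ⟨⟨x, rfl⟩, ⟨x, ?_⟩⟩, rfl⟩
    have h0 : A x = 0 := x.2
    rw [LinearMap.add_apply, h0, zero_add]
  have e1 : rk (pull N.subtype B) ≤ finrank F I :=
    (Submodule.finrank_mono hIm).trans (Submodule.finrank_map_le _ _)
  let ψ : S →ₗ[F] Dual F N := N.subtype.dualMap.comp S.subtype
  have e2 : finrank F (LinearMap.range ψ) + finrank F (LinearMap.ker ψ) = finrank F S :=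
    LinearMap.finrank_range_add_finrank_ker ψ
  have e3 : rk (pull N.subtype B) ≤ finrank F (LinearMap.range ψ) := by
    refine Submodule.finrank_mono ?_
    rintro _ ⟨x, rfl⟩
    exact ⟨⟨B x, Submodule.mem_sup_left ⟨x, rfl⟩⟩, rfl⟩
  have hAS : LinearMap.range A ≤ S := by
    rintro _ ⟨x, rfl⟩
    have h1 : A x = B x + (A + B) x := by
      rw [LinearMap.add_apply, add_comm (A x), ← add_assoc, add_self_V, zero_add]
    rw [h1]
    exact Submodule.add_mem_sup ⟨x, rfl⟩ ⟨x, rfl⟩
  have e4 : rk A ≤ finrank F (LinearMap.ker ψ) := by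
    have h1 : (LinearMap.range A).comap S.subtype ≤ LinearMap.ker ψ := by
      rintro ⟨_, hs⟩ ⟨x, hx⟩
      rw [LinearMap.mem_ker]
      ext y
      have h0 : A y = 0 := y.2
      have hx' : A x = _ := hx
      show (S.subtype ⟨_, hs⟩) (y : V) = 0
      rw [← hx', hA, h0]
      rfl
    have h2 := (Submodule.comapSubtypeEquivOfLe hAS).finrank_eq
    exact h2.symm.le.trans (Submodule.finrank_mono h1)
  omega

/-- forms of small rank are few -/
theorem low_count (ρ : ℕ) : {β : Bil V | rk β ≤ ρ}.ncard ≤ 2 ^ (2 * ρ * finrank F V) := by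
  have : Module.Finite F V := Module.Finite.of_finite
  have := @fin_dual V _ _ _
  have := @fin_bil V _ _ _
  have f1 : Finite (V →ₗ[F] (Fin ρ → F)) := DFunLike.finite _
  have f2 : Finite ((Fin ρ → F) →ₗ[F] (V →ₗ[F] F)) := DFunLike.finite _
  let Φ : (V →ₗ[F] (Fin ρ → F)) × ((Fin ρ → F) →ₗ[F] (V →ₗ[F] F)) → Bil V := fun z => z.2.comp z.1
  have h1 : {β : Bil V | rk β ≤ ρ} ⊆ Φ '' Set.univ := by
    intro β hβ
    have h2 : finrank F (LinearMap.range β) ≤ finrank F (Fin ρ → F) := by
      rw [finrank_fin_fun]; exact hβ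
    obtain ⟨ι, hι⟩ := finrank_le_iff_exists_linearMap.1 h2
    obtain ⟨π, hπ⟩ := ι.exists_leftInverse_of_injective (LinearMap.ker_eq_bot.2 hι)
    refine ⟨(ι.comp β.rangeRestrict, (LinearMap.range β).subtype.comp π), trivial, ?_⟩
    refine LinearMap.ext fun x => ?_
    have h3 := LinearMap.congr_fun hπ (β.rangeRestrict x)
    show ((π (ι (β.rangeRestrict x)) : LinearMap.range β) : V →ₗ[F] F) = β x
    rw [show π (ι (β.rangeRestrict x)) = β.rangeRestrict x from h3]
    rfl
  refine (Set.ncard_le_ncard h1 (Set.toFinite _)).trans ((Set.ncard_image_le (Set.toFinite _)).trans ?_)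
  rw [Set.ncard_univ, Nat.card_prod, card_V (V := V →ₗ[F] (Fin ρ → F)),
    card_V (V := (Fin ρ → F) →ₗ[F] (V →ₗ[F] F)), ← pow_add]
  refine le_of_eq ?_
  congr 1
  rw [Module.finrank_linearMap, Module.finrank_linearMap, Module.finrank_linearMap, finrank_fin_fun,
    finrank_self]
  ring

end

end Pool.Agent.P.MP_cb6780_lc
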