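import Pool.Agent.P.MP_cb6780_lc.UMain

set_option autoImplicit false
set_option linter.unusedSectionVars false

/-! Almost all biased cubics are strongly biased on a flat of the right codimension. -/

namespace Pool.Agent.P.MP_cb6780_lc

open Module

/-- `f` has bias `≥ θ` on a flat of codimension `c` -/
def Flat {V : Type} [AddCommGroup V] [Module F V] (c : ℕ) (θ : ℝ) (f : V → F) : Prop :=
  ∃ (E : Submodule F V) (a : V), finrank F E + c = finrank F V ∧ θ ≤ bias (res E a f)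

/-- the exceptional functions -/
def UBad (V : Type) [AddCommGroup V] [Module F V] (c : ℕ) (θ η : ℝ) : Set (V → F) :=
  {f | f ∈ P V 4 ∧ (θ + c * η) / 2 ^ c ≤ bias f ∧ ¬ Flat c θ f}

section
variable {V : Type} [AddCommGroup V] [Module F V] [Finite V]

theorem flat_lift {c : ℕ} {θ : ℝ} {H : Submodule F V} (hH : finrank F H + 1 = finrank F V) {a : V}
    {f : V → F} (h : Flat c θ (res H a f)) : Flat (c + 1) θ f := by
  obtain ⟨E, b, h1, h2⟩ := h
  let ε := Submodule.equivMapOfInjective H.subtype H.injective_subtype E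
  refine ⟨E.map H.subtype, b + a, by rw [← ε.finrank_eq]; omega, h2.trans (le_of_eq ?_)⟩
  unfold bias
  rw [← av_congr ε.toEquiv]
  congr 1
  funext u
  show chi (f (((u : H) : V) + b + a)) = chi (f (((u : H) : V) + (b + a)))
  rw [add_assoc]

theorem ubad_zero (θ η : ℝ) : UBad V 0 θ η = ∅ := by
  ext f
  refine ⟨fun h => h.2.2 ⟨⊤, 0, by rw [finrank_top, add_zero], ?_⟩, fun h => h.elim⟩
  have h1 : bias (res ⊤ 0 f) = bias f := by
    unfold bias
    rw [← av_congr (Submodule.topEquiv (R := F) (M := V)).toEquiv]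
    congr 1
    funext u
    show chi (f ((u : V) + 0)) = chi (f u)
    rw [add_zero]
  have h2 := h.2.1
  rw [h1]
  simpa using h2

theorem hyp_step {ξ : Dual F V} (hξ : ξ ≠ 0) {b : V} {f : V → F} {τ : ℝ}
    (h : |bias (res (LinearMap.ker ξ) b f)| ≤ τ) :
    ∃ a, bias f ≤ 1 / 2 * bias (res (LinearMap.ker ξ) a f) + τ := by
  obtain ⟨y, hy⟩ := exists_eq_one hξ
  refine ⟨b + y, ?_⟩
  rw [bias_split (LinearMap.ker ξ) (b + y) f, card_sub _ (finrank_ker_dual hξ), pow_one]
  refine add_le_add le_rfl (av_le_of_le fun x => ?_)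
  by_cases hx : x ∈ {x : V | b + y + x ∉ LinearMap.ker ξ}
  · rw [Set.indicator_of_mem hx]
    have h1 : x + b ∈ LinearMap.ker ξ := by
      have h2 : ¬ ξ (b + y + x) = 0 := hx
      rw [add_right_comm, map_add, hy, add_comm b] at h2
      rcases Av_cases (ξ (x + b)) with h3 | h3
      · exact h3
      · rw [h3] at h2
        exact absurd rfl h2
    rw [bias_res_congr _ h1]
    exact (le_abs_self _).trans h
  · rw [Set.indicator_of_notMem hx]
    exact (abs_nonneg _).trans h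

theorem ubad_step {c l : ℕ} {θ η : ℝ} (hθ : 1 / 2 ≤ θ) (hη : 0 ≤ η) (hl : 1 / 2 ^ l ≤ η / 2 ^ (c + 1))
    {f : V → F} (hf : f ∈ UBad V (c + 1) θ η) (hr : f ∉ Rare V (c + 1) l) :
    ∃ z : Dual F V × V, z.1 ≠ 0 ∧ res (LinearMap.ker z.1) z.2 f ∈ UBad (LinearMap.ker z.1) c θ η := by
  obtain ⟨h1, h2, h3⟩ := hf
  have h4 : 1 / 2 ^ (c + 1 + 1) ≤ |bias f| := by
    refine le_trans ?_ (h2.trans (le_abs_self _))
    rw [pow_succ' _ (c + 1), ← div_div]
    refine div_le_div_of_nonneg_right ?_ (by positivity)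
    have : 0 ≤ ((c + 1 : ℕ) : ℝ) * η := by positivity
    linarith
  have h5 : ∃ ξ : Dual F V, ξ ≠ 0 ∧ ∃ b, |bias (res (LinearMap.ker ξ) b f)| ≤ 1 / 2 ^ l := by
    by_contra hc
    push Not at hc
    exact hr ⟨h1, h4, hc⟩
  obtain ⟨ξ, x1, b, x2⟩ := h5
  obtain ⟨a, ha⟩ := hyp_step x1 (x2.trans hl)
  refine ⟨(ξ, a), x1, res_mem_P h1 _ _, ?_, fun h => h3 (flat_lift (finrank_ker_dual x1) h)⟩
  have e : (θ + ((c + 1 : ℕ) : ℝ) * η) / 2 ^ (c + 1) =
      1 / 2 * ((θ + c * η) / 2 ^ c) + η / 2 ^ (c + 1) := by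
    push_cast
    rw [pow_succ]
    field_simp
    ring
  rw [e] at h2
  show _ ≤ bias (res (LinearMap.ker ξ) a f)
  linarith

end

theorem ubad_le {n c₀ l Y : ℕ} {θ η : ℝ} (hθ : 1 / 2 ≤ θ) (hη : 0 ≤ η) (hl : 1 / 2 ^ l ≤ η / 2 ^ c₀)
    (hl' : c₀ + 1 ≤ l)
    (hY : ∀ c, 1 ≤ c → c ≤ c₀ → 2 ^ (3 * (c / 60) * (n + c) ^ 2 + 2 ^ 43 * (c * l) * (n + c + 1)) *
      2 ^ Y ≤ ∏ i ∈ Finset.range c, cP (n + i) 3) (c : ℕ) :
    c ≤ c₀ → ∀ (V : Type) [AddCommGroup V] [Module F V] [Finite V], finrank F V = n + c →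
      (UBad V c θ η).ncard * 2 ^ Y ≤
        2 ^ ((2 * (n + c₀) + 1) * c) * ∏ i ∈ Finset.range c, cP (n + i) 3 := by
  induction c with
  | zero =>
    intro _ V _ _ _ _
    rw [ubad_zero]
    simp
  | succ c ih =>
    intro hc V _ _ _ hV
    have : Module.Finite F V := Module.Finite.of_finite
    have := @fin_dual V _ _ _
    set X := 2 ^ ((2 * (n + c₀) + 1) * c) * ∏ i ∈ Finset.range c, cP (n + i) 3 with hX
    have hl2 : 1 / 2 ^ l ≤ η / 2 ^ (c + 1) :=
      hl.trans (div_le_div_of_nonneg_left hη (by positivity) (pow_le_pow_right₀ (by norm_num) hc))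
    have h1 := cover_le (UBad V (c + 1) θ η \ Rare V (c + 1) l) (Set.univ : Set (Dual F V × V))
      (fun z => {f | z.1 ≠ 0 ∧ f ∈ P V 4 ∧
        res (LinearMap.ker z.1) z.2 f ∈ UBad (LinearMap.ker z.1) c θ η})
      (X / 2 ^ Y * cP (n + c) 3)
      (fun f hf => (ubad_step hθ hη hl2 hf.1 hf.2).imp fun z hz => ⟨trivial, hz.1, hf.1.1, hz.2⟩)
      fun z _ => by
        by_cases hz : z.1 = 0
        · simp [hz]
        have a1 : finrank F (LinearMap.ker z.1) = n + c := by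
          have := finrank_ker_dual hz
          omega
        have a2 := ncard_res_pre (LinearMap.ker z.1) z.2 4 (UBad (LinearMap.ker z.1) c θ η)
        have a3 : {g | g ∈ P (LinearMap.ker z.1) 4 ∧ g ∈ UBad (LinearMap.ker z.1) c θ η} =
            UBad (LinearMap.ker z.1) c θ η := by
          ext g
          exact ⟨fun h => h.2, fun h => ⟨h.1, h⟩⟩
        rw [a1, hV, a3, ← add_assoc, cP_succ (n + c) 3, mul_comm (cP (n + c) 4), ← mul_assoc] at a2
        have a4 := Nat.eq_of_mul_eq_mul_right (cP_pos _ _) a2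
        simp only [ne_eq, hz, not_false_eq_true, true_and]
        rw [a4]
        exact Nat.mul_le_mul_right _
          ((Nat.le_div_iff_mul_le (by positivity)).2 (ih (by omega) _ a1))
    rw [Set.ncard_univ, Nat.card_prod, card_V (V := Dual F V), card_V (V := V),
      Subspace.dual_finrank_eq, hV, ← pow_add] at h1
    have h2 : (UBad V (c + 1) θ η).ncard ≤
        (Rare V (c + 1) l).ncard + (UBad V (c + 1) θ η \ Rare V (c + 1) l).ncard := by
      refine le_trans (Set.ncard_le_ncard ?_ (Set.toFinite _)) (Set.ncard_union_le _ _)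
      intro f hf
      by_cases h : f ∈ Rare V (c + 1) l
      · exact Or.inl h
      · exact Or.inr ⟨hf, h⟩
    have h3 := rare_le (V := V) (c := c + 1) (l := l) (by omega) (by omega)
    rw [hV] at h3
    have h4 := (Nat.mul_le_mul_right (2 ^ Y) h3).trans (hY (c + 1) (by omega) hc)
    have h5 : (UBad V (c + 1) θ η \ Rare V (c + 1) l).ncard * 2 ^ Y ≤
        2 ^ (2 * (n + c₀)) * (X * cP (n + c) 3) := by
      refine (Nat.mul_le_mul_right _ h1).trans ?_
      rw [mul_assoc, mul_right_comm (X / 2 ^ Y)]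
      exact Nat.mul_le_mul (Nat.pow_le_pow_right (by norm_num) (by omega))
        (Nat.mul_le_mul_right _ (Nat.div_mul_le_self _ _))
    rw [hX, mul_assoc, ← Finset.prod_range_succ (fun i => cP (n + i) 3), ← mul_assoc, ← pow_add] at h5
    have h6 : 2 ^ ((2 * (n + c₀) + 1) * (c + 1)) =
        2 * 2 ^ (2 * (n + c₀) + (2 * (n + c₀) + 1) * c) := by
      rw [← pow_succ']
      congr 1
      ring
    have h7 := Nat.le_mul_of_pos_left (∏ i ∈ Finset.range (c + 1), cP (n + i) 3)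
      (show 0 < 2 ^ (2 * (n + c₀) + (2 * (n + c₀) + 1) * c) by positivity)
    have h8 := Nat.mul_le_mul_right (2 ^ Y) h2
    rw [add_mul] at h8
    rw [h6, mul_assoc, two_mul]
    omega

section
variable {V : Type} [AddCommGroup V] [Module F V] [Finite V]

theorem up_uni {n c : ℕ} (hV : finrank F V = n + c) (θ η : ℝ) :
    2 ^ n * N V 4 ((θ + c * η) / 2 ^ c) ≤ (Tri V c 4 θ).ncard + 2 ^ n * (UBad V c θ η).ncard := by
  classical
  have := @ul_finsub V _ _ _
  have := Fintype.ofFinite (V → F)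
  rw [ul_fiber (Tri V c 4 θ) (fun z => z.2.2), N, mul_comm, mul_comm (2 ^ n),
    ← ul_ite, ← ul_ite, ← Finset.sum_add_distrib]
  refine Finset.sum_le_sum fun f _ => ?_
  by_cases hf : f ∈ {f : V → F | f ∈ P V 4 ∧ (θ + c * η) / 2 ^ c ≤ bias f}
  swap
  · rw [if_neg hf]
    exact Nat.zero_le _
  rw [if_pos hf]
  by_cases hb : f ∈ UBad V c θ η
  · rw [if_pos hb]
    exact Nat.le_add_left _ _
  rw [if_neg hb, add_zero]
  obtain ⟨hP, hfb⟩ := hf
  obtain ⟨E, a, hE, ha⟩ : Flat c θ f := by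
    by_contra h
    exact hb ⟨hP, hfb, h⟩
  rw [← ul_card_sub hV hE, ← Set.ncard_univ]
  refine Set.ncard_le_ncard_of_injOn (fun u : E => (E, a + u.1, f)) ?_ ?_ (Set.toFinite _)
  · intro u _
    refine ⟨⟨hE, hP, ?_⟩, rfl⟩
    have h1 : a + (a + u.1) ∈ E := by
      rw [← add_assoc, add_self_V, zero_add]
      exact u.2
    exact ha.trans (bias_res_congr _ h1 f).le
  · intro u _ v _ h
    exact Subtype.ext (add_left_cancel (Prod.ext_iff.1 (Prod.ext_iff.1 h).2).1)

end

end Pool.Agent.P.MP_cb6780_lc
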