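import Pool.Agent.P.MP_cb6780_lc.URank

set_option autoImplicit false
set_option linter.unusedSectionVars false

/-! Rank reduction on a dense set of directions. -/

namespace Pool.Agent.P.MP_cb6780_lc

open Module

/-- density of a set -/
noncomputable def dens {H : Type} (G : Set H) : ℝ := av (G.indicator fun _ => (1 : ℝ))

theorem dens_eq {H : Type} [Finite H] (G : Set H) : dens G = G.ncard / Nat.card H := av_indicator G

theorem dens_nonneg {H : Type} [Finite H] (G : Set H) : 0 ≤ dens G := by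
  rw [dens_eq]; positivity

theorem dens_le_one {H : Type} [Finite H] [Nonempty H] (G : Set H) : dens G ≤ 1 :=
  av_le_of_le fun x => by by_cases h : x ∈ G <;> simp [h]

theorem dens_nonempty {H : Type} [Finite H] {G : Set H} (h : 0 < dens G) : G.Nonempty := by
  rcases G.eq_empty_or_nonempty with rfl | h1
  · rw [dens_eq] at h; simp at h
  · exact h1

/-- Markov for functions bounded by one -/
theorem dens_markov {H : Type} [Finite H] [Nonempty H] {g : H → ℝ} (h1 : ∀ x, g x ≤ 1) {t : ℝ}
    (ht : 0 ≤ t) (h : 2 * t ≤ av g) : t ≤ dens {x | t ≤ g x} := by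
  have h2 : ∀ x, g x ≤ t + ({x | t ≤ g x}.indicator fun _ => (1 : ℝ)) x := fun x => by
    by_cases hx : x ∈ {x | t ≤ g x}
    · rw [Set.indicator_of_mem hx]; linarith [h1 x]
    · rw [Set.indicator_of_notMem hx, add_zero]; exact (not_le.1 hx).le
  have h3 := av_mono h2
  rw [av_add (fun _ => t), av_const] at h3
  unfold dens
  linarith

section
variable {H : Type} [AddCommGroup H] [Module F H] [Finite H]

theorem dens_conv (G : Set H) : av (fun y => dens {x | x ∈ G ∧ y + x ∈ G}) = dens G ^ 2 := by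
  unfold dens
  rw [av_comm]
  have h1 : ∀ x : H, av (fun y => ({x | x ∈ G ∧ y + x ∈ G}.indicator fun _ => (1 : ℝ)) x) =
      av (G.indicator fun _ => (1 : ℝ)) * (G.indicator fun _ => (1 : ℝ)) x := fun x => by
    rw [← av_congr (Equiv.addRight x) (G.indicator fun _ => (1 : ℝ)), mul_comm, ← av_mul_left]
    congr 1
    funext y
    by_cases h : x ∈ G <;> by_cases h' : y + x ∈ G <;> simp [Set.indicator, h, h']
  rw [funext h1, av_mul_left, sq]

/-- one round -/
theorem round_one {K : Type} [AddCommGroup K] [Module F K] [Finite K] (B : H →ₗ[F] Bil K)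
    (hB : ∀ h x y, B h x y = B h y x) {G : Set H} {δ : ℝ} (hδ : 0 < δ) (hG : δ ≤ dens G) {r : ℕ}
    (hr : ∀ h ∈ G, rk (B h) ≤ r) :
    ∃ (N : Submodule F K) (G' : Set H), finrank F K ≤ finrank F N + 2 * r ∧ δ ^ 2 / 2 ≤ dens G' ∧
      ∀ h ∈ G', 3 * rk (pull N.subtype (B h)) ≤ 2 * r := by
  have : Module.Finite F K := Module.Finite.of_finite
  have hp : 0 < δ ^ 2 / 2 := by positivity
  have hP : δ ^ 2 / 2 ≤ dens {y | δ ^ 2 / 2 ≤ dens {x | x ∈ G ∧ y + x ∈ G}} := by
    refine dens_markov (fun y => dens_le_one _) hp.le ?_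
    rw [dens_conv]
    nlinarith [pow_le_pow_left₀ hδ.le hG 2]
  by_cases hc : ∃ y, δ ^ 2 / 2 ≤ dens {x | x ∈ G ∧ y + x ∈ G} ∧ 2 * r ≤ 3 * rk (B y)
  · obtain ⟨y, hy, hy'⟩ := hc
    have key : ∀ x ∈ {x | x ∈ G ∧ y + x ∈ G},
        2 * rk (pull (LinearMap.ker (B y)).subtype (B x)) + rk (B y) ≤ 2 * r := fun x hx => by
      have h1 := rk_ineq (B y) (B x) (hB y)
      rw [← map_add] at h1
      have h2 := hr x hx.1
      have h3 := hr _ hx.2
      omega
    refine ⟨LinearMap.ker (B y), _, ?_, hy, fun x hx => ?_⟩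
    · obtain ⟨x, hx⟩ := dens_nonempty (hp.trans_le hy)
      have h1 := key x hx
      have h2 := rk_ker (B y)
      omega
    · have h1 := key x hx
      omega
  · refine ⟨⊤, _, ?_, hP, fun y hy => ?_⟩
    · rw [finrank_top]; omega
    · have h1 : ¬ 2 * r ≤ 3 * rk (B y) := fun h => hc ⟨y, hy, h⟩
      have h2 := rk_pull_le (⊤ : Submodule F K).subtype (B y)
      omega

/-- `pull` as a linear map -/
def pullL {V W : Type} [AddCommGroup V] [Module F V] [AddCommGroup W] [Module F W]
    (e : W →ₗ[F] V) : Bil V →ₗ[F] Bil W where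
  toFun := pull e
  map_add' := pull_add e
  map_smul' _ _ := rfl

/-- `t` rounds -/
theorem round_iter (t : ℕ) : ∀ (K : Type) [AddCommGroup K] [Module F K] [Finite K]
    (B : H →ₗ[F] Bil K) (_ : ∀ h x y, B h x y = B h y x) (G : Set H) (e r : ℕ)
    (_ : 2 / 2 ^ e ≤ dens G) (_ : ∀ h ∈ G, rk (B h) ≤ r),
    ∃ (N : Submodule F K) (G' : Set H), finrank F K ≤ finrank F N + 2 * r * t ∧
      2 / 2 ^ (2 ^ t * e) ≤ dens G' ∧
      ∀ h ∈ G', 3 ^ t * rk (pull N.subtype (B h)) ≤ 2 ^ t * r := by
  induction t with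
  | zero =>
    intro K _ _ _ B _ G e r hG hr
    refine ⟨⊤, G, by rw [finrank_top]; omega, by simpa using hG, fun h hh => ?_⟩
    have := (rk_pull_le (⊤ : Submodule F K).subtype (B h)).trans (hr h hh)
    omega
  | succ t ih =>
    intro K _ _ _ B hB G e r hG hr
    obtain ⟨N, G₁, h1, h2, h3⟩ := round_one B hB (by positivity) hG hr
    have h4 : (2 : ℝ) / 2 ^ (2 * e) ≤ dens G₁ := by
      refine le_trans (le_of_eq ?_) h2
      rw [mul_comm 2 e, pow_mul]
      field_simp
    obtain ⟨N', G₂, k1, k2, k3⟩ := ih N ((pullL N.subtype).comp B) (fun h x y => hB h x y) G₁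
      (2 * e) (2 * r / 3) h4 (fun h hh => by
        have := h3 h hh
        show rk (pull N.subtype (B h)) ≤ _
        omega)
    let ε := Submodule.equivMapOfInjective N.subtype N.injective_subtype N'
    refine ⟨N'.map N.subtype, G₂, ?_, ?_, fun h hh => ?_⟩
    · rw [← ε.finrank_eq]
      have : 2 * (2 * r / 3) * t ≤ 2 * r * t := Nat.mul_le_mul_right _ (by omega)
      rw [mul_add, mul_one]
      omega
    · rw [pow_succ, mul_assoc]
      exact k2
    · have k4 : 3 ^ t * rk (pull N'.subtype (pull N.subtype (B h))) ≤ 2 ^ t * (2 * r / 3) := k3 h hh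
      have k5 : pull (N'.map N.subtype).subtype (B h) =
          pull ε.symm.toLinearMap (pull N'.subtype (pull N.subtype (B h))) := by
        have k6 : ∀ x : N'.map N.subtype, ((ε.symm x : N') : K) = x := fun x => by
          have := Submodule.coe_equivMapOfInjective_apply N.subtype N.injective_subtype N' (ε.symm x)
          have h9 : ((ε (ε.symm x) : N'.map N.subtype) : K) = ((ε.symm x : N') : K) := this
          rw [← h9, LinearEquiv.apply_symm_apply]
        ext x y
        show B h x y = B h ((ε.symm x : N') : K) ((ε.symm y : N') : K)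
        rw [k6, k6]
      have k7 := rk_pull_le ε.symm.toLinearMap (pull N'.subtype (pull N.subtype (B h)))
      rw [← k5] at k7
      calc 3 ^ (t + 1) * rk (pull (N'.map N.subtype).subtype (B h))
          ≤ 3 * (3 ^ t * rk (pull N'.subtype (pull N.subtype (B h)))) := by
            rw [pow_succ', mul_assoc]
            exact Nat.mul_le_mul_left _ (Nat.mul_le_mul_left _ k7)
        _ ≤ 3 * (2 ^ t * (2 * r / 3)) := Nat.mul_le_mul_left _ k4
        _ = 2 ^ t * (3 * (2 * r / 3)) := by ring
        _ ≤ 2 ^ t * (2 * r) := Nat.mul_le_mul_left _ (by omega)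
        _ = 2 ^ (t + 1) * r := by ring

end

section
variable {V : Type} [AddCommGroup V] [Module F V] [Finite V]

theorem av_cosets (U : Submodule F V) (g : V → ℝ) :
    av g = av fun a : V => av fun u : U => g (u + a) := by
  rw [av_comm]
  have h : ∀ u : U, av (fun a : V => g (u + a)) = av g := fun u => av_congr (Equiv.addLeft (u : V)) g
  rw [funext h, av_const]

/-- a subspace of small codimension spanned by directions of small rank -/
theorem compress (t : ℕ) (B : V →ₗ[F] Bil V) (hB : ∀ h x y, B h x y = B h y x) (G : Set V) (e r : ℕ)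
    (hG : 2 / 2 ^ e ≤ dens G) (hr : ∀ h ∈ G, rk (B h) ≤ r) :
    ∃ (W : Submodule F V) (s : Set V), W = Submodule.span F s ∧
      finrank F V ≤ finrank F W + (2 * r * t + 2 ^ t * e) ∧
      ∀ h ∈ s, 3 ^ t * rk (pull W.subtype (B h)) ≤ 2 * (2 ^ t * r) := by
  have : Module.Finite F V := Module.Finite.of_finite
  obtain ⟨N, G', h1, h2, h3⟩ := round_iter t V B hB G e r hG hr
  have h4 : ∃ a : V, dens G' ≤ dens {u : N | (u : V) + a ∈ G'} := by
    obtain ⟨a, ha⟩ := exists_av_le fun a : V => av fun u : N => (G'.indicator fun _ => (1 : ℝ)) (u + a)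
    exact ⟨a, (av_cosets N _).le.trans ha⟩
  obtain ⟨a, ha⟩ := h4
  have h5 := h2.trans ha
  obtain ⟨u₀, hu₀⟩ := dens_nonempty (lt_of_lt_of_le (by positivity) h5)
  let s : Set V := (fun u : N => (u : V) + u₀) '' {u : N | (u : V) + a ∈ G'}
  have hs : Submodule.span F s ≤ N := by
    rw [Submodule.span_le]
    rintro _ ⟨u, _, rfl⟩
    exact N.add_mem u.2 u₀.2
  refine ⟨Submodule.span F s, s, rfl, ?_, ?_⟩
  · have c1 : s.ncard = {u : N | (u : V) + a ∈ G'}.ncard :=
      Set.ncard_image_of_injective _ fun u v h => Subtype.ext (add_right_cancel h)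
    have c2 : s.ncard ≤ 2 ^ finrank F (Submodule.span F s) := by
      rw [← card_V]
      exact Set.ncard_le_ncard Submodule.subset_span (Set.toFinite _)
    rw [dens_eq, ← c1, card_V (V := N), div_le_div_iff₀ (by positivity) (by positivity)] at h5
    have c3 : 2 * 2 ^ finrank F N ≤ s.ncard * 2 ^ (2 ^ t * e) := by exact_mod_cast h5
    have c4 : 2 ^ finrank F N ≤ 2 ^ (finrank F (Submodule.span F s) + 2 ^ t * e) := by
      rw [pow_add]
      exact le_trans (by omega) (c3.trans (Nat.mul_le_mul_right _ c2))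
    have c5 := (Nat.pow_le_pow_iff_right (by norm_num)).1 c4
    omega
  · rintro _ ⟨u, hu, rfl⟩
    have e1 : (u : V) + u₀ = (u + a) + (u₀ + a) := by
      rw [add_add_add_comm, add_self_V, add_zero]
    have e2 : pull (Submodule.span F s).subtype (B (u + u₀)) =
        pull (Submodule.inclusion hs) (pull N.subtype (B (u + a)) + pull N.subtype (B (u₀ + a))) := by
      rw [← pull_add, ← map_add, ← e1]
      rfl
    have e3 := (rk_pull_le (Submodule.inclusion hs) _).trans
      (rk_add_le (pull N.subtype (B (u + a))) (pull N.subtype (B (u₀ + a))))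
    rw [← e2] at e3
    have e4 := h3 _ hu
    have e5 := h3 _ hu₀
    have e6 := Nat.mul_le_mul_left (3 ^ t) e3
    rw [mul_add] at e6
    show 3 ^ t * rk (pull (Submodule.span F s).subtype (B (u + u₀))) ≤ _
    omega

end

end Pool.Agent.P.MP_cb6780_lc
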